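import Pool.Agent.Helper74.Branched.Flow2

/-!
# Tiles around a codimension-two face
-/

open Function Topology

noncomputable section

namespace Pool.Agent.Helper74.Branched

variable {V : Type*} [DecidableEq V]

namespace Sys

variable {C : Type*} {n : ℕ} (S : Sys V C n)

/-- A wall: a set of vertices which is not an exit face. -/
def Wall (F : Finset V) : Prop := ∀ c, S.E c ≠ F

/-- `d = η ∪ {i, j}`. -/
structure Fin3 (η : Finset V) (d : C) (i j : V) : Prop where
  sub : η ⊆ S.vs d
  hi : i ∈ S.vs d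
  hj : j ∈ S.vs d
  ne : i ≠ j
  hiη : i ∉ η
  hjη : j ∉ η

variable {S}

theorem Fin3.symm {η : Finset V} {d : C} {i j : V} (h : S.Fin3 η d i j) : S.Fin3 η d j i :=
  ⟨h.sub, h.hj, h.hi, h.ne.symm, h.hjη, h.hiη⟩

theorem Fin3.two {η : Finset V} (hη : η.card = n) {d : C} {i j : V} (h : S.Fin3 η d i j) {v : V}
    (hv : v ∈ S.vs d) (hvη : v ∉ η) : v = i ∨ v = j := by
  by_contra hcon
  push Not at hcon
  have h1 : insert v (insert i (insert j η)) ⊆ S.vs d := by
    intro x hx
    simp only [Finset.mem_insert] at hx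
    rcases hx with rfl | rfl | rfl | hx
    · exact hv
    · exact h.hi
    · exact h.hj
    · exact h.sub hx
  have h2 := Finset.card_le_card h1
  have h3 : j ∉ η := h.hjη
  have h4 : i ∉ insert j η := by
    rw [Finset.mem_insert]
    push Not
    exact ⟨h.ne, h.hiη⟩
  have h5 : v ∉ insert i (insert j η) := by
    rw [Finset.mem_insert, Finset.mem_insert]
    push Not
    exact ⟨hcon.1, hcon.2, hvη⟩
  rw [Finset.card_insert_of_notMem h5, Finset.card_insert_of_notMem h4,
    Finset.card_insert_of_notMem h3, S.card_vs, hη] at h2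
  omega

variable (S)

/-- The triple `(w, i', j')` lies on the arm starting from `d` across the face opposite to `i`. -/
def Arm (η : Finset V) (d : C) (i j : V) (w : C) (i' j' : V) : Prop :=
  (w = d ∧ i' = i ∧ j' = j) ∨
    ∃ r, S.par^[r + 1] w = d ∧ S.E (S.par^[r] w) = (S.vs d).erase i ∧
      ∀ l ≤ r, S.ex (S.par^[l] w) ∉ η

theorem sub_iter {η : Finset V} {w : C} (hw : η ⊆ S.vs w) {r : ℕ}
    (h : ∀ l < r, S.ex (S.par^[l] w) ∉ η) : η ⊆ S.vs (S.par^[r] w) := by
  induction r with
  | zero => exact hw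
  | succ r ih =>
    have h1 := ih (fun l hl => h l (by omega))
    rw [iterate_succ_apply']
    intro v hv
    apply S.sub_par
    rw [Finset.mem_erase]
    refine ⟨?_, h1 hv⟩
    rintro rfl
    exact h r (Nat.lt_succ_self r) hv

/-- The exit face of a facet `g ⊇ η` with `ex g ∉ η`, seen from the parent. -/
theorem E_eq_erase {η : Finset V} (hη : η.card = n) {g d : C} (hg : η ⊆ S.vs g)
    (hex : S.ex g ∉ η) (hpar : S.par g = d) {a b : V} (hd : S.Fin3 η d a b) :
    S.E g = (S.vs d).erase a ∨ S.E g = (S.vs d).erase b := by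
  have h1 : S.E g ⊆ S.vs d := by rw [← hpar]; exact S.sub_par g
  have h2 : η ⊆ S.E g := by
    intro v hv
    rw [S.mem_E]
    refine ⟨?_, hg hv⟩
    rintro rfl
    exact hex hv
  have h3 : ∃ x ∈ S.vs d, x ∉ S.E g := by
    by_contra hcon
    push Not at hcon
    have := Finset.card_le_card (show S.vs d ⊆ S.E g from hcon)
    rw [S.card_vs, S.card_E] at this
    omega
  obtain ⟨x, hx, hx'⟩ := h3
  have h4 : S.E g = (S.vs d).erase x := by
    apply Finset.eq_of_subset_of_card_le
    · intro v hv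
      rw [Finset.mem_erase]
      refine ⟨?_, h1 hv⟩
      rintro rfl
      exact hx' hv
    · rw [S.card_erase hx, S.card_E]
  rcases hd.two hη hx (fun h => hx' (h2 h)) with rfl | rfl
  · exact Or.inl h4
  · exact Or.inr h4

theorem arm_aux {η : Finset V} (hη : η.card = n) (σ : V → V → ℤˣ)
    (hσ : ∀ d d' i j i', S.Fin3 η d i j → S.Fin3 η d' j i' → (S.vs d).erase i = (S.vs d').erase i' →
      d ≠ d' → σ j i' = σ i j) (N : ℕ) : ∀ d i j, S.rank d ≤ N → S.Fin3 η d i j →
      (S.vs d).erase i ≠ S.E d →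
      ∃ w i' j', S.Fin3 η w i' j' ∧ S.Wall ((S.vs w).erase i') ∧ S.Arm η d i j w i' j' ∧
        σ i' j' = σ i j ∧ ∀ w'' i'' j'', S.Fin3 η w'' i'' j'' → S.Wall ((S.vs w'').erase i'') →
          S.Arm η d i j w'' i'' j'' → w'' = w ∧ i'' = i' ∧ j'' = j' := by
  induction N using Nat.strong_induction_on with
  | _ N ih =>
  intro d i j hN h3 hne
  by_cases hwall : S.Wall ((S.vs d).erase i)
  · refine ⟨d, i, j, h3, hwall, Or.inl ⟨rfl, rfl, rfl⟩, rfl, ?_⟩
    rintro w'' i'' j'' - - (h | ⟨r, _, hr, _⟩)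
    · exact h
    · exact absurd hr (hwall _)
  · unfold Wall at hwall
    push Not at hwall
    obtain ⟨e, he⟩ := hwall
    have hde : d ≠ e := by
      rintro rfl
      exact hne he.symm
    have hpar : d = S.par e := by
      have : S.E e ⊆ S.vs d := by rw [he]; exact Finset.erase_subset _ _
      exact (S.eq_or_of_E_sub this).resolve_left hde
    have hηE : η ⊆ S.E e := by
      rw [he]
      intro v hv
      rw [Finset.mem_erase]
      refine ⟨?_, h3.sub hv⟩
      rintro rfl
      exact h3.hiη hv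
    have hjE : j ∈ S.E e := by
      rw [he, Finset.mem_erase]
      exact ⟨h3.ne.symm, h3.hj⟩
    have hexE : S.ex e ∉ S.E e := Finset.notMem_erase _ _
    have hexη : S.ex e ∉ η := fun h => hexE (hηE h)
    have h3' : S.Fin3 η e j (S.ex e) :=
      ⟨hηE.trans (S.E_sub e), S.E_sub e hjE, S.ex_mem e, fun h => hexE (h ▸ hjE), h3.hjη, hexη⟩
    have hne' : (S.vs e).erase j ≠ S.E e := by
      intro h
      rw [← h] at hjE
      exact Finset.notMem_erase _ _ hjE
    have hrank : S.rank e < N := by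
      have := S.rank_lt e
      rw [← hpar] at this
      omega
    obtain ⟨w, i1, j1, g1, g2, g3, g4, g5⟩ := ih (S.rank e) hrank e j (S.ex e) le_rfl h3' hne'
    refine ⟨w, i1, j1, g1, g2, ?_, ?_, ?_⟩
    · right
      rcases g3 with ⟨rfl, rfl, rfl⟩ | ⟨r, hr1, hr2, hr3⟩
      · refine ⟨0, by simpa using hpar.symm, by simpa using he, ?_⟩
        intro l hl
        obtain rfl : l = 0 := by omega
        exact hexη
      · refine ⟨r + 1, ?_, ?_, ?_⟩
        · rw [iterate_succ_apply', hr1]; exact hpar.symm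
        · rw [hr1]; exact he
        · intro l hl
          rcases Nat.lt_or_ge l (r + 1) with h | h
          · exact hr3 l (by omega)
          · obtain rfl : l = r + 1 := by omega
            rw [hr1]; exact hexη
    · rw [g4]
      exact hσ d e i j (S.ex e) h3 h3' he.symm hde
    · rintro w'' i'' j'' k1 k2 (⟨rfl, rfl, rfl⟩ | ⟨r, hr1, hr2, hr3⟩)
      · exact absurd he (k2 e)
      · apply g5 w'' i'' j'' k1 k2
        have hre : S.par^[r] w'' = e := S.E_inj (by rw [hr2, he])
        cases r with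
        | zero =>
          left
          have hw : w'' = e := hre
          subst hw
          have hi'' : i'' = j := by
            rcases h3'.two hη k1.hi k1.hiη with h | h
            · exact h
            · exfalso
              apply k2 w''
              rw [h]; rfl
          refine ⟨rfl, hi'', ?_⟩
          rcases h3'.two hη k1.hj k1.hjη with h | h
          · exact absurd (hi''.trans h.symm) k1.ne
          · exact h
        | succ r =>
          right
          refine ⟨r, hre, ?_, fun l hl => hr3 l (by omega)⟩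
          have hg : η ⊆ S.vs (S.par^[r] w'') := S.sub_iter k1.sub (fun l hl => hr3 l (by omega))
          have hpg : S.par (S.par^[r] w'') = e := by rw [← iterate_succ_apply' S.par]; exact hre
          rcases S.E_eq_erase hη hg (hr3 r (by omega)) hpg h3' with h | h
          · exact h
          · exfalso
            have : S.par^[r] w'' = e := S.E_inj h
            rw [this] at hpg
            exact S.par_ne e hpg

/-- `w` is joined to `c` by a path of parents along which no vertex of `η` exits. -/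
def PathTo (η : Finset V) (w c : C) : Prop :=
  ∃ r, S.par^[r] w = c ∧ ∀ l < r, S.ex (S.par^[l] w) ∉ η

/-- There are exactly two tiles at a codimension-two face, with opposite signs. -/
theorem arms {η : Finset V} (hη : η.card = n) (σ : V → V → ℤˣ)
    (hσ : ∀ d d' i j i', S.Fin3 η d i j → S.Fin3 η d' j i' → (S.vs d).erase i = (S.vs d').erase i' →
      d ≠ d' → σ j i' = σ i j)
    (hσ' : ∀ d i j, S.Fin3 η d i j → σ j i = - σ i j) {c : C} (hc : η ⊆ S.vs c)
    (hex : S.ex c ∈ η) :
    ∃ w₁ i₁ j₁ w₂ i₂ j₂, (S.Fin3 η w₁ i₁ j₁ ∧ S.Wall ((S.vs w₁).erase i₁) ∧ S.PathTo η w₁ c) ∧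
      (S.Fin3 η w₂ i₂ j₂ ∧ S.Wall ((S.vs w₂).erase i₂) ∧ S.PathTo η w₂ c) ∧
      σ i₂ j₂ = - σ i₁ j₁ ∧
      ∀ w i j, S.Fin3 η w i j → S.Wall ((S.vs w).erase i) → S.PathTo η w c →
        (w = w₁ ∧ i = i₁ ∧ j = j₁) ∨ (w = w₂ ∧ i = i₂ ∧ j = j₂) := by
  have hcard : 2 ≤ (S.vs c \ η).card := by
    rw [Finset.card_sdiff_of_subset hc, S.card_vs, hη]
    omega
  obtain ⟨a, ha, b, hb, hab⟩ := Finset.one_lt_card.1 (show 1 < (S.vs c \ η).card from hcard)
  rw [Finset.mem_sdiff] at ha hb
  have h3 : S.Fin3 η c a b := ⟨hc, ha.1, hb.1, hab, ha.2, hb.2⟩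
  have hne : ∀ x, x ∉ η → (S.vs c).erase x ≠ S.E c := by
    intro x hx h
    have h1 : S.ex c ∈ (S.vs c).erase x := by
      rw [Finset.mem_erase]
      refine ⟨?_, S.ex_mem c⟩
      rintro rfl
      exact hx hex
    rw [h] at h1
    exact Finset.notMem_erase _ _ h1
  have hpath : ∀ {a b w i' j'}, S.Arm η c a b w i' j' → S.PathTo η w c := by
    rintro a b w i' j' (⟨rfl, -, -⟩ | ⟨r, hr1, -, hr3⟩)
    · exact ⟨0, rfl, by simp⟩
    · exact ⟨r + 1, hr1, fun l hl => hr3 l (by omega)⟩
  obtain ⟨w₁, i₁, j₁, p1, p2, p3, p4, p5⟩ := S.arm_aux hη σ hσ _ c a b le_rfl h3 (hne a ha.2)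
  obtain ⟨w₂, i₂, j₂, q1, q2, q3, q4, q5⟩ := S.arm_aux hη σ hσ _ c b a le_rfl h3.symm (hne b hb.2)
  refine ⟨w₁, i₁, j₁, w₂, i₂, j₂, ⟨p1, p2, hpath p3⟩, ⟨q1, q2, hpath q3⟩, ?_, ?_⟩
  · rw [p4, q4]
    exact hσ' c a b h3
  · rintro w i j k1 k2 ⟨r, hr1, hr2⟩
    cases r with
    | zero =>
      have hw : w = c := hr1
      subst hw
      rcases h3.two hη k1.hi k1.hiη with h | h
      · left
        apply p5 w i j k1 k2
        left
        refine ⟨rfl, h, ?_⟩
        rcases h3.two hη k1.hj k1.hjη with h' | h'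
        · exact absurd (h.trans h'.symm) k1.ne
        · exact h'
      · right
        apply q5 w i j k1 k2
        left
        refine ⟨rfl, h, ?_⟩
        rcases h3.two hη k1.hj k1.hjη with h' | h'
        · exact h'
        · exact absurd (h.trans h'.symm) k1.ne
    | succ r =>
      have hg : η ⊆ S.vs (S.par^[r] w) := S.sub_iter k1.sub (fun l hl => hr2 l (by omega))
      have hpg : S.par (S.par^[r] w) = c := by rw [← iterate_succ_apply' S.par]; exact hr1
      rcases S.E_eq_erase hη hg (hr2 r (by omega)) hpg h3 with h | h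
      · left
        exact p5 w i j k1 k2 (Or.inr ⟨r, hr1, h, fun l hl => hr2 l (by omega)⟩)
      · right
        exact q5 w i j k1 k2 (Or.inr ⟨r, hr1, h, fun l hl => hr2 l (by omega)⟩)

end Sys

end Pool.Agent.Helper74.Branched
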