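import Pool.Agent.Helper74.Branched.Target

/-!
# Piecewise affine functions
-/

open Function Topology

noncomputable section

namespace Pool.Agent.Helper74.Branched

section general

variable {E W W' W'' : Type*} [AddCommGroup E] [Module ℝ E] [AddCommGroup W] [Module ℝ W]
  [AddCommGroup W'] [Module ℝ W'] [AddCommGroup W''] [Module ℝ W'']

/-- `g` is piecewise affine on `D`, with finitely many pieces cut out by finitely many affine
inequalities. -/
def PWA (D : Set E) (g : E → W) : Prop :=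
  ∃ (ι : Type) (_ : Finite ι) (L : ι → Set (E →ᵃ[ℝ] ℝ)) (A : ι → (E →ᵃ[ℝ] W)),
    (∀ i, (L i).Finite) ∧ (∀ x ∈ D, ∃ i, ∀ ℓ ∈ L i, 0 ≤ ℓ x) ∧
    ∀ i, ∀ x ∈ D, (∀ ℓ ∈ L i, 0 ≤ ℓ x) → g x = A i x

theorem PWA.affine (D : Set E) (A : E →ᵃ[ℝ] W) : PWA D (A : E → W) :=
  ⟨Unit, inferInstance, fun _ => ∅, fun _ => A, fun _ => Set.finite_empty,
    fun x _ => ⟨(), by simp⟩, fun _ x _ _ => rfl⟩

theorem PWA.congr {D : Set E} {g g' : E → W} (h : PWA D g) (hg : ∀ x ∈ D, g' x = g x) :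
    PWA D g' := by
  obtain ⟨ι, hι, L, A, h1, h2, h3⟩ := h
  exact ⟨ι, hι, L, A, h1, h2, fun i x hx hl => (hg x hx).trans (h3 i x hx hl)⟩

theorem PWA.mono {D D' : Set E} {g : E → W} (h : PWA D g) (hD : D' ⊆ D) : PWA D' g := by
  obtain ⟨ι, hι, L, A, h1, h2, h3⟩ := h
  exact ⟨ι, hι, L, A, h1, fun x hx => h2 x (hD hx), fun i x hx hl => h3 i x (hD hx) hl⟩

theorem PWA.comp {D : Set E} {R : Set W} {g : E → W} {G : W → W'} (hG : PWA R G) (hg : PWA D g)
    (hmap : ∀ x ∈ D, g x ∈ R) : PWA D (G ∘ g) := by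
  obtain ⟨ι, hι, L, A, h1, h2, h3⟩ := hg
  obtain ⟨κ, hκ, M, B, k1, k2, k3⟩ := hG
  refine ⟨ι × κ, inferInstance, fun p => L p.1 ∪ (fun ℓ : W →ᵃ[ℝ] ℝ => ℓ.comp (A p.1)) '' M p.2,
    fun p => (B p.2).comp (A p.1), fun p => (h1 _).union ((k1 _).image _), ?_, ?_⟩
  · intro x hx
    obtain ⟨i, hi⟩ := h2 x hx
    obtain ⟨j, hj⟩ := k2 (g x) (hmap x hx)
    refine ⟨(i, j), ?_⟩
    rintro ℓ (hℓ | ⟨ℓ', hℓ', rfl⟩)
    · exact hi ℓ hℓ
    · have := hj ℓ' hℓ'
      rw [h3 i x hx hi] at this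
      exact this
  · rintro ⟨i, j⟩ x hx hl
    have hi : ∀ ℓ ∈ L i, 0 ≤ ℓ x := fun ℓ hℓ => hl ℓ (Or.inl hℓ)
    have e1 := h3 i x hx hi
    have hj : ∀ ℓ ∈ M j, 0 ≤ ℓ (g x) := by
      intro ℓ hℓ
      rw [e1]
      exact hl _ (Or.inr ⟨ℓ, hℓ, rfl⟩)
    have e2 := k3 j (g x) (hmap x hx) hj
    rw [comp_apply, e2, e1]
    rfl

theorem PWA.comp_affine {D : Set E} {g : E → W} (hg : PWA D g) (B : W →ᵃ[ℝ] W') :
    PWA D (fun x => B (g x)) :=
  (PWA.affine Set.univ B).comp hg (fun _ _ => trivial)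

theorem PWA.prodMk {D : Set E} {g : E → W} {g' : E → W'} (hg : PWA D g) (hg' : PWA D g') :
    PWA D (fun x => (g x, g' x)) := by
  obtain ⟨ι, hι, L, A, h1, h2, h3⟩ := hg
  obtain ⟨κ, hκ, M, B, k1, k2, k3⟩ := hg'
  refine ⟨ι × κ, inferInstance, fun p => L p.1 ∪ M p.2, fun p => (A p.1).prod (B p.2),
    fun p => (h1 _).union (k1 _), ?_, ?_⟩
  · intro x hx
    obtain ⟨i, hi⟩ := h2 x hx
    obtain ⟨j, hj⟩ := k2 x hx
    refine ⟨(i, j), ?_⟩
    rintro ℓ (hℓ | hℓ)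
    · exact hi ℓ hℓ
    · exact hj ℓ hℓ
  · rintro ⟨i, j⟩ x hx hl
    have e1 := h3 i x hx (fun ℓ hℓ => hl ℓ (Or.inl hℓ))
    have e2 := k3 j x hx (fun ℓ hℓ => hl ℓ (Or.inr hℓ))
    exact Prod.ext e1 e2

theorem PWA.pi {D : Set E} {J : Type} [Finite J] {g : J → E → ℝ}
    (hg : ∀ j, PWA D (g j)) : PWA D (fun x => fun j => g j x) := by
  choose ι hι L A h1 h2 h3 using hg
  refine ⟨∀ j, ι j, inferInstance, fun p => ⋃ j, L j (p j), fun p => AffineMap.pi fun j => A j (p j),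
    fun p => Set.finite_iUnion (fun j => h1 j (p j)), ?_, ?_⟩
  · intro x hx
    choose i hi using fun j => h2 j x hx
    refine ⟨i, ?_⟩
    intro ℓ hℓ
    obtain ⟨j, hj⟩ := Set.mem_iUnion.1 hℓ
    exact hi j ℓ hj
  · intro p x hx hl
    funext j
    exact h3 j (p j) x hx (fun ℓ hℓ => hl ℓ (Set.mem_iUnion.2 ⟨j, hℓ⟩))

theorem PWA.min {D : Set E} {g g' : E → ℝ} (hg : PWA D g) (hg' : PWA D g') :
    PWA D (fun x => min (g x) (g' x)) := by
  obtain ⟨ι, hι, L, A, h1, h2, h3⟩ := hg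
  obtain ⟨κ, hκ, M, B, k1, k2, k3⟩ := hg'
  refine ⟨ι × κ × Bool, inferInstance,
    fun p => L p.1 ∪ M p.2.1 ∪ (if p.2.2 then {B p.2.1 - A p.1} else {A p.1 - B p.2.1}),
    fun p => if p.2.2 then A p.1 else B p.2.1, ?_, ?_, ?_⟩
  · rintro ⟨i, j, b⟩
    refine ((h1 _).union (k1 _)).union ?_
    cases b <;> simp
  · intro x hx
    obtain ⟨i, hi⟩ := h2 x hx
    obtain ⟨j, hj⟩ := k2 x hx
    rcases le_total (A i x) (B j x) with h | h
    · refine ⟨(i, j, true), ?_⟩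
      rintro ℓ ((hℓ | hℓ) | hℓ)
      · exact hi ℓ hℓ
      · exact hj ℓ hℓ
      · simp only [if_true, Set.mem_singleton_iff] at hℓ
        rw [hℓ]
        show 0 ≤ B j x - A i x
        linarith
    · refine ⟨(i, j, false), ?_⟩
      rintro ℓ ((hℓ | hℓ) | hℓ)
      · exact hi ℓ hℓ
      · exact hj ℓ hℓ
      · simp only [Bool.false_eq_true, if_false, Set.mem_singleton_iff] at hℓ
        rw [hℓ]
        show 0 ≤ A i x - B j x
        linarith
  · rintro ⟨i, j, b⟩ x hx hl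
    have e1 := h3 i x hx (fun ℓ hℓ => hl ℓ (Or.inl (Or.inl hℓ)))
    have e2 := k3 j x hx (fun ℓ hℓ => hl ℓ (Or.inl (Or.inr hℓ)))
    cases b
    · have h4 := hl (A i - B j) (Or.inr (by simp))
      have h5 : 0 ≤ A i x - B j x := h4
      show Min.min (g x) (g' x) = B j x
      rw [e1, e2, min_eq_right (by linarith)]
    · have h4 := hl (B j - A i) (Or.inr (by simp))
      have h5 : 0 ≤ B j x - A i x := h4
      show Min.min (g x) (g' x) = A i x
      rw [e1, e2, min_eq_left (by linarith)]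

theorem PWA.add {D : Set E} {g g' : E → W} (hg : PWA D g) (hg' : PWA D g') :
    PWA D (fun x => g x + g' x) :=
  (hg.prodMk hg').comp_affine
    ((LinearMap.fst ℝ W W + LinearMap.snd ℝ W W).toAffineMap)

theorem PWA.smul_const {D : Set E} {g : E → W} (hg : PWA D g) (c : ℝ) :
    PWA D (fun x => c • g x) :=
  hg.comp_affine ((c • (LinearMap.id : W →ₗ[ℝ] W)).toAffineMap)

theorem PWA.smul_vec {D : Set E} {g : E → ℝ} (hg : PWA D g) (w : W) :
    PWA D (fun x => g x • w) :=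
  hg.comp_affine (((LinearMap.id : ℝ →ₗ[ℝ] ℝ).smulRight w).toAffineMap)

theorem PWA.max {D : Set E} {g g' : E → ℝ} (hg : PWA D g) (hg' : PWA D g') :
    PWA D (fun x => max (g x) (g' x)) := by
  have := ((hg.smul_const (-1)).min (hg'.smul_const (-1))).smul_const (-1)
  refine this.congr (fun x _ => ?_)
  simp only [smul_eq_mul, neg_mul, one_mul]
  rw [min_neg_neg, neg_neg]

theorem PWA.const (D : Set E) (w : W) : PWA D (fun _ => w) :=
  PWA.affine D (AffineMap.const ℝ E w)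

theorem PWA.sum {D : Set E} {J : Type*} (s : Finset J) {g : J → E → W}
    (hg : ∀ j ∈ s, PWA D (g j)) : PWA D (fun x => ∑ j ∈ s, g j x) := by
  classical
  induction s using Finset.induction_on with
  | empty => simpa using PWA.const D (0 : W)
  | insert a s ha ih =>
    simp only [Finset.sum_insert ha]
    exact (hg a (Finset.mem_insert_self _ _)).add
      (ih (fun j hj => hg j (Finset.mem_insert_of_mem hj)))

end general

/-! ### The stretching map and the reflection are piecewise affine -/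

theorem PWA_gN (N : ℕ) : PWA (Set.univ : Set (ℝ × ℝ)) (fun p => gN N p.1 p.2) := by
  have hB : PWA (Set.univ : Set (ℝ × ℝ)) (fun p => p.1) :=
    PWA.affine _ (LinearMap.fst ℝ ℝ ℝ).toAffineMap
  have ht : PWA (Set.univ : Set (ℝ × ℝ)) (fun p => p.2) :=
    PWA.affine _ (LinearMap.snd ℝ ℝ ℝ).toAffineMap
  unfold gN
  refine hB.add (PWA.sum _ (fun j _ => ?_))
  refine (hB.max (PWA.const _ 0)).min (PWA.max ?_ (PWA.const _ 0))
  refine (ht.add (PWA.const _ (-(j : ℝ)))).congr (fun p _ => ?_)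
  ring

variable {n : ℕ}

/-- `Bc` as a linear map. -/
def BcL (k : ℕ) : (Fin (n + 1) → ℝ) →ₗ[ℝ] ℝ where
  toFun b := Bc b k
  map_add' b b' := by
    unfold Bc
    rw [← Finset.sum_add_distrib]
    refine Finset.sum_congr rfl (fun l _ => ?_)
    split_ifs <;> simp
  map_smul' c b := by
    unfold Bc
    simp only [Pi.smul_apply, smul_eq_mul, RingHom.id_apply, Finset.mul_sum]
    refine Finset.sum_congr rfl (fun l _ => ?_)
    split_ifs <;> simp

/-- The stretching map using `N` terms. -/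
def ΓN (N : ℕ) (p : (Fin (n + 1) → ℝ) × ℝ) : Fin (n + 1) → ℝ := fun k => gN N (Bc p.1 k.val) p.2

theorem ΓN_eq {N : ℕ} {p : (Fin (n + 1) → ℝ) × ℝ} (h : p.2 ≤ N) : Γ p = ΓN N p := by
  funext k
  exact gg_eq h

theorem PWA_ΓN (N : ℕ) : PWA (Set.univ : Set ((Fin (n + 1) → ℝ) × ℝ)) (ΓN N) := by
  refine PWA.pi (g := fun (k : Fin (n + 1)) (p : (Fin (n + 1) → ℝ) × ℝ) =>
    gN N (Bc p.1 k.val) p.2) (fun k => ?_)
  have h1 : PWA (Set.univ : Set ((Fin (n + 1) → ℝ) × ℝ)) (fun p => (Bc p.1 k.val, p.2)) :=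
    PWA.affine _ (((BcL k.val).comp (LinearMap.fst ℝ (Fin (n + 1) → ℝ) ℝ)).prod
      (LinearMap.snd ℝ (Fin (n + 1) → ℝ) ℝ)).toAffineMap
  exact (PWA_gN N).comp h1 (fun _ _ => trivial)

/-- `ext` as a linear map. -/
def extL (k : ℕ) : (Fin (n + 1) → ℝ) →ₗ[ℝ] ℝ where
  toFun U := ext U k
  map_add' U W := by
    unfold ext
    split_ifs <;> simp
  map_smul' c U := by
    unfold ext
    split_ifs <;> simp

/-- `vf` as an affine map. -/
def vfA (j : Fin (n + 2)) : (Fin (n + 1) → ℝ) →ᵃ[ℝ] ℝ :=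
  Fin.cases ((LinearMap.proj (R := ℝ) (φ := fun _ : Fin (n + 1) => ℝ) 0).toAffineMap -
    AffineMap.const ℝ _ 1) (fun k => (extL k.val - extL (k.val + 1)).toAffineMap) j

theorem vfA_apply (j : Fin (n + 2)) (U : Fin (n + 1) → ℝ) : vfA j U = vf j U := by
  refine Fin.cases ?_ (fun k => ?_) j
  · rfl
  · rfl

theorem PWA_sf : PWA (Set.univ : Set (Fin (n + 1) → ℝ)) sf := by
  refine ⟨Fin (n + 2), inferInstance,
    fun j => Set.range fun i : Fin (n + 2) => (1 / cc i) • vfA i - (1 / cc j) • vfA j,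
    fun j => (1 / cc j) • vfA j, fun j => Set.finite_range _, ?_, ?_⟩
  · intro U _
    obtain ⟨j, hj⟩ := exists_sf U
    refine ⟨j, ?_⟩
    rintro ℓ ⟨i, rfl⟩
    show 0 ≤ (1 / cc i) * vfA i U - (1 / cc j) * vfA j U
    rw [vfA_apply, vfA_apply]
    have := sf_le U i
    rw [hj] at this
    rw [div_mul_eq_mul_div, div_mul_eq_mul_div, one_mul, one_mul]
    linarith
  · intro j U _ h
    show sf U = (1 / cc j) * vfA j U
    rw [vfA_apply, div_mul_eq_mul_div, one_mul]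
    apply le_antisymm (sf_le U j)
    obtain ⟨i, hi⟩ := exists_sf U
    rw [hi]
    have h1 : 0 ≤ (1 / cc i) * vfA i U - (1 / cc j) * vfA j U := h _ ⟨i, rfl⟩
    rw [vfA_apply, vfA_apply, div_mul_eq_mul_div, div_mul_eq_mul_div, one_mul, one_mul] at h1
    linarith

theorem PWA_refl : PWA (Set.univ : Set (Fin (n + 1) → ℝ)) refl := by
  unfold refl
  have h1 : PWA (Set.univ : Set (Fin (n + 1) → ℝ)) (fun U => U) :=
    PWA.affine _ (LinearMap.id : (Fin (n + 1) → ℝ) →ₗ[ℝ] (Fin (n + 1) → ℝ)).toAffineMap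
  exact h1.add ((PWA_sf.smul_const (-2)).smul_vec dd)

end Pool.Agent.Helper74.Branched
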