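import Pool.Agent.Helper74.Branched.Defs
import Pool.Agent.Helper74.Branched.PWA

/-!
# The branch set is a polyhedron of codimension two
-/

open Function Topology Set

noncomputable section

namespace Pool.Agent.Helper74.Branched

variable {n : ℕ}

/-- The linear parts of the wall functions. -/
theorem vfA_sub (i : Fin (n + 2)) (U W : Fin (n + 1) → ℝ) :
    (vfA i).linear (U - W) = vf i U - vf i W := by
  rw [← vfA_apply, ← vfA_apply, ← vsub_eq_sub U W, AffineMap.linearMap_vsub, vsub_eq_sub]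

/-- The test vectors. -/
def Ev (k : Fin (n + 1)) : Fin (n + 1) → ℝ := fun l => if l ≤ k then 1 else 0

theorem ext_Ev (k : Fin (n + 1)) (l : ℕ) : ext (Ev k) l = if l ≤ k.val then 1 else 0 := by
  unfold ext Ev
  by_cases h : l < n + 1
  · rw [dif_pos h]
    simp only [Fin.le_def]
  · have := k.isLt
    rw [dif_neg h, if_neg (by omega)]

theorem vf_zero_Ev (k : Fin (n + 1)) : vf 0 (Ev k) = 0 := by
  rw [vf_zero]
  simp [Ev]

theorem vf_succ_Ev (j k : Fin (n + 1)) : vf j.succ (Ev k) = if j = k then 1 else 0 := by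
  rw [vf_succ, ext_Ev, ext_Ev]
  by_cases h : j = k
  · subst h; simp
  · have h' : j.val ≠ k.val := fun e => h (Fin.ext e)
    rw [if_neg h]
    by_cases h1 : j.val ≤ k.val
    · rw [if_pos h1, if_pos (by omega), sub_self]
    · rw [if_neg h1, if_neg (by omega), sub_self]

theorem lin_zero_Ev (k : Fin (n + 1)) : (vfA 0).linear (Ev k) = 1 := by
  have h := vfA_sub 0 (Ev k) 0
  rw [sub_zero, vf_zero_Ev, vf_zero] at h
  rw [h]
  simp

theorem lin_succ_Ev (j k : Fin (n + 1)) : (vfA j.succ).linear (Ev k) = if j = k then 1 else 0 := by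
  have h := vfA_sub j.succ (Ev k) 0
  have h0 : vf j.succ (0 : Fin (n + 1) → ℝ) = 0 := by
    rw [vf_succ]
    unfold ext
    split_ifs <;> simp
  rw [sub_zero, vf_succ_Ev, h0, sub_zero] at h
  exact h

theorem lin_surj (hn : 0 < n) {i j : Fin (n + 2)} (hij : i ≠ j) :
    Surjective ((vfA i).linear.prod (vfA j).linear) := by
  have key : ∀ {i j : Fin (n + 2)}, i ≠ j → ∃ a, (vfA i).linear a = 1 ∧ (vfA j).linear a = 0 := by
    intro i j hij
    induction i using Fin.cases with
    | zero =>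
      induction j using Fin.cases with
      | zero => exact absurd rfl hij
      | succ j =>
        obtain ⟨k, hk⟩ : ∃ k : Fin (n + 1), k ≠ j := by
          have : Nontrivial (Fin (n + 1)) := Fin.nontrivial_iff_two_le.2 (by omega)
          exact exists_ne j
        refine ⟨Ev k, lin_zero_Ev k, ?_⟩
        rw [lin_succ_Ev, if_neg hk.symm]
    | succ i =>
      induction j using Fin.cases with
      | zero =>
        obtain ⟨k, hk⟩ : ∃ k : Fin (n + 1), k ≠ i := by
          have : Nontrivial (Fin (n + 1)) := Fin.nontrivial_iff_two_le.2 (by omega)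
          exact exists_ne i
        refine ⟨Ev i - Ev k, ?_, ?_⟩
        · rw [map_sub, lin_succ_Ev, lin_succ_Ev, if_pos rfl, if_neg hk.symm, sub_zero]
        · rw [map_sub, lin_zero_Ev, lin_zero_Ev, sub_self]
      | succ j =>
        have hij' : i ≠ j := fun h => hij (by rw [h])
        refine ⟨Ev i, ?_, ?_⟩
        · rw [lin_succ_Ev, if_pos rfl]
        · rw [lin_succ_Ev, if_neg hij'.symm]
  obtain ⟨a, ha1, ha2⟩ := key hij
  obtain ⟨b, hb1, hb2⟩ := key hij.symm
  rintro ⟨x, y⟩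
  refine ⟨x • a + y • b, ?_⟩
  refine Prod.ext ?_ ?_
  · show (vfA i).linear (x • a + y • b) = x
    rw [map_add, map_smul, map_smul, ha1, hb2]
    simp
  · show (vfA j).linear (x • a + y • b) = y
    rw [map_add, map_smul, map_smul, ha2, hb1]
    simp

theorem finrank_ker2 (hn : 0 < n) {i j : Fin (n + 2)} (hij : i ≠ j) :
    Module.finrank ℝ (LinearMap.ker (vfA i).linear ⊓ LinearMap.ker (vfA j).linear :
      Submodule ℝ (Fin (n + 1) → ℝ)) = n - 1 := by
  have h1 := LinearMap.finrank_range_add_finrank_ker ((vfA i).linear.prod (vfA j).linear)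
  rw [LinearMap.range_eq_top.2 (lin_surj hn hij), LinearMap.ker_prod, finrank_top] at h1
  simp at h1
  omega

/-- The strata. -/
def PP (q : Fin (n + 2) × Fin (n + 2)) : Set (Fin (n + 1) → ℝ) :=
  {U | U ∈ TT n ∧ vf q.1 U = 0 ∧ vf q.2 U = 0}

theorem PP_polyhedron (q : Fin (n + 2) × Fin (n + 2)) : IsConvexPolyhedron (PP q) := by
  classical
  refine ⟨Finset.univ.image vfA ∪ {-vfA q.1, -vfA q.2}, ?_⟩
  ext U
  constructor
  · rintro ⟨h1, h2, h3⟩ ℓ hℓ
    simp only [Finset.mem_union, Finset.mem_image, Finset.mem_univ, true_and, Finset.mem_insert,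
      Finset.mem_singleton] at hℓ
    rcases hℓ with ⟨k, rfl⟩ | rfl | rfl
    · rw [vfA_apply]; exact h1 k
    · show 0 ≤ - vfA q.1 U
      rw [vfA_apply, h2, neg_zero]
    · show 0 ≤ - vfA q.2 U
      rw [vfA_apply, h3, neg_zero]
  · intro h
    have h1 : U ∈ TT n := by
      intro k
      rw [← vfA_apply]
      apply h
      simp
    refine ⟨h1, ?_, ?_⟩
    · have h2 : 0 ≤ - vfA q.1 U := h (-vfA q.1) (by simp)
      rw [vfA_apply] at h2
      have := h1 q.1
      linarith
    · have h2 : 0 ≤ - vfA q.2 U := h (-vfA q.2) (by simp)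
      rw [vfA_apply] at h2
      have := h1 q.2
      linarith

theorem vectorSpan_PP (q : Fin (n + 2) × Fin (n + 2)) : vectorSpan ℝ (PP q) ≤
    LinearMap.ker (vfA q.1).linear ⊓ LinearMap.ker (vfA q.2).linear := by
  rw [vectorSpan_def, Submodule.span_le]
  rintro _ ⟨U, ⟨_, hU1, hU2⟩, W, ⟨_, hW1, hW2⟩, rfl⟩
  rw [SetLike.mem_coe, Submodule.mem_inf, LinearMap.mem_ker, LinearMap.mem_ker]
  simp only [vsub_eq_sub]
  rw [vfA_sub, vfA_sub, hU1, hU2, hW1, hW2, sub_self]
  exact ⟨rfl, rfl⟩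

theorem Ev_mem_PP {k : Fin (n + 1)} (hk : k ≠ 0) : Ev k ∈ PP ((0 : Fin (n + 2)), Fin.succ 0) := by
  refine ⟨?_, vf_zero_Ev k, ?_⟩
  · intro j
    refine Fin.cases ?_ (fun j => ?_) j
    · rw [vf_zero_Ev]
    · rw [vf_succ_Ev]
      split_ifs
      · exact zero_le_one
      · exact le_rfl
  · rw [vf_succ_Ev, if_neg hk.symm]

theorem Bc_diff (z : Fin (n + 1) → ℝ) (k : ℕ) :
    Bc (fun l : Fin (n + 1) => ext z l.val - ext z (l.val + 1)) k = ext z k := by
  have hBc : ∀ m k : ℕ, n + 1 ≤ k + m →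
      Bc (fun l : Fin (n + 1) => ext z l.val - ext z (l.val + 1)) k = ext z k := by
    intro m
    induction m with
    | zero =>
      intro k hk
      rw [Bc_ge _ (by omega), ext_ge _ (by omega)]
    | succ m ih =>
      intro k hk
      by_cases h : k < n + 1
      · have h1 := Bc_succ (fun l : Fin (n + 1) => ext z l.val - ext z (l.val + 1)) ⟨k, h⟩
        simp only at h1
        rw [h1, ih (k + 1) (by omega)]
        ring
      · rw [Bc_ge _ (by omega), ext_ge _ (by omega)]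
  exact hBc (n + 1) k (by omega)

theorem lin_succ_apply (k : Fin (n + 1)) (z : Fin (n + 1) → ℝ) :
    (vfA k.succ).linear z = ext z k.val - ext z (k.val + 1) := by
  have h := vfA_sub k.succ z 0
  have h0 : vf k.succ (0 : Fin (n + 1) → ℝ) = 0 := by
    rw [vf_succ]
    unfold ext
    split_ifs <;> simp
  rw [sub_zero, h0, sub_zero] at h
  exact h

theorem lin_zero_apply (z : Fin (n + 1) → ℝ) : (vfA 0).linear z = z 0 := by
  have h := vfA_sub 0 z 0
  rw [sub_zero, vf_zero, vf_zero] at h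
  rw [h]
  simp

theorem ker_le_vectorSpan (hn : 0 < n) : (LinearMap.ker (vfA (0 : Fin (n + 2))).linear ⊓
    LinearMap.ker (vfA (Fin.succ 0)).linear : Submodule ℝ (Fin (n + 1) → ℝ)) ≤
      vectorSpan ℝ (PP ((0 : Fin (n + 2)), Fin.succ 0)) := by
  rintro z hz
  rw [Submodule.mem_inf, LinearMap.mem_ker, LinearMap.mem_ker] at hz
  obtain ⟨k1, hk1⟩ : ∃ k : Fin (n + 1), k ≠ 0 := by
    have : Nontrivial (Fin (n + 1)) := Fin.nontrivial_iff_two_le.2 (by omega)
    exact exists_ne 0
  let b : Fin (n + 1) → ℝ := fun l => ext z l.val - ext z (l.val + 1)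
  have hb : ∀ l, b l = (vfA l.succ).linear z := fun l => (lin_succ_apply l z).symm
  have hb0 : b 0 = 0 := by rw [hb]; exact hz.2
  have hsum : ∑ l, b l = 0 := by
    have h1 := Bc_diff z 0
    have h2 : Bc b 0 = ext z 0 := h1
    have h3 := ext_val z 0
    rw [Fin.val_zero] at h3
    rw [← Bc_zero, h2, h3, ← lin_zero_apply z]
    exact hz.1
  have hexp : z = ∑ l, b l • Ev l := by
    funext k
    rw [Finset.sum_apply]
    have h1 := Bc_diff z k.val
    rw [ext_val] at h1
    rw [← h1]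
    unfold Bc
    refine Finset.sum_congr rfl (fun l _ => ?_)
    simp only [Pi.smul_apply, smul_eq_mul, Ev, Fin.le_def]
    split_ifs
    · simp [b]
    · simp
  have hexp' : z = ∑ l, b l • (Ev l - Ev k1) := by
    simp only [smul_sub, Finset.sum_sub_distrib]
    rw [← Finset.sum_smul, hsum, zero_smul, sub_zero]
    exact hexp
  rw [hexp']
  apply Submodule.sum_mem
  intro l _
  by_cases hl : l = 0
  · rw [hl, hb0, zero_smul]
    exact Submodule.zero_mem _
  · apply Submodule.smul_mem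
    rw [← vsub_eq_sub]
    exact vsub_mem_vectorSpan ℝ (Ev_mem_PP hl) (Ev_mem_PP hk1)

theorem isSubpolyhedron_branch (hn : 0 < n) :
    IsSubpolyhedron {U : Fin (n + 1) → ℝ | U ∈ TT n ∧ ∃ i j, i ≠ j ∧ i ∈ JJ U ∧ j ∈ JJ U}
      (n - 1) := by
  refine ⟨{q : Fin (n + 2) × Fin (n + 2) // q.1 ≠ q.2 ∧ (PP q).Nonempty}, fun q => PP q.1,
    locallyFinite_of_finite _, ?_, ?_, ?_⟩
  · ext U
    rw [mem_iUnion]
    constructor
    · rintro ⟨h1, i, j, hij, hi, hj⟩
      exact ⟨⟨(i, j), hij, ⟨U, h1, hi, hj⟩⟩, h1, hi, hj⟩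
    · rintro ⟨⟨⟨i, j⟩, hij, _⟩, h1, hi, hj⟩
      exact ⟨h1, i, j, hij, hi, hj⟩
  · rintro ⟨⟨i, j⟩, hij, hne⟩
    refine ⟨PP_polyhedron _, hne, ?_⟩
    rw [← finrank_ker2 hn hij]
    exact Submodule.finrank_mono (vectorSpan_PP (i, j))
  · obtain ⟨k1, hk1⟩ : ∃ k : Fin (n + 1), k ≠ 0 := by
      have : Nontrivial (Fin (n + 1)) := Fin.nontrivial_iff_two_le.2 (by omega)
      exact exists_ne 0
    have hij : (0 : Fin (n + 2)) ≠ Fin.succ 0 := (Fin.succ_ne_zero _).symm
    refine ⟨⟨((0 : Fin (n + 2)), Fin.succ 0), hij, ⟨Ev k1, Ev_mem_PP hk1⟩⟩, ?_⟩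
    apply le_antisymm
    · rw [← finrank_ker2 hn hij]
      exact Submodule.finrank_mono (vectorSpan_PP _)
    · rw [← finrank_ker2 hn hij]
      exact Submodule.finrank_mono (ker_le_vectorSpan hn)

end Pool.Agent.Helper74.Branched
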