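import Pool.Agent.Helper74.Branched.System

/-!
# Completeness of the folded map

Every point of the target has a compact neighbourhood such that all the components of its preimage
are compact.
-/

open Function Topology

noncomputable section

namespace Pool.Agent.Helper74.Branched

namespace TileSystem

variable {X E ι I : Type*} [TopologicalSpace X] [TopologicalSpace E] (S : TileSystem X E ι I)

theorem isClosed_connectedComponentIn {X : Type*} [TopologicalSpace X] {F : Set X}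
    (hF : IsClosed F) (x : X) : IsClosed (connectedComponentIn F x) := by
  by_cases hx : x ∈ F
  · apply isClosed_of_closure_subset
    apply (isPreconnected_connectedComponentIn.closure).subset_connectedComponentIn
    · exact subset_closure (mem_connectedComponentIn hx)
    · exact closure_minimal (connectedComponentIn_subset F x) hF
  · rw [connectedComponentIn_eq_empty hx]
    exact isClosed_empty

/-- Completeness, for tile systems in which tiles which meet at a point also meet at the points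
which lie on more walls. -/
theorem complete [Finite ι] [LocallyCompactSpace E]
    (hagree : ∀ t t' u u', u ∈ S.T → u' ∈ S.T → S.J u ⊆ S.J u' → S.φ t u = S.φ t' u →
      S.φ t u' = S.φ t' u') (hEclosed : T2Space E) (y : E) {N : Set E} (hN : N ∈ 𝓝 y) :
    ∃ Q ∈ 𝓝 y, Q ⊆ N ∧ IsCompact Q ∧ ∀ x, S.f x ∈ Q →
      IsCompact (connectedComponentIn (S.f ⁻¹' Q) x) := by
  classical
  obtain ⟨u, hu, huy⟩ : ∃ u ∈ S.T, u = y ∨ S.ρ u = y := by
    rcases S.mem_or y with h | h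
    · exact ⟨y, h, Or.inl rfl⟩
    · exact ⟨S.ρ y, h, Or.inr (S.ρ_ρ y)⟩
  let Z : Set E := ⋃ j : {j : ι // j ∉ S.J u}, {w | w ∈ S.T ∧ (j : ι) ∈ S.J w}
  have hZ : IsClosed Z := isClosed_iUnion_of_finite (fun j => S.J_closed j)
  have hZT : Z ⊆ S.T := by
    intro w hw
    obtain ⟨j, hj⟩ := Set.mem_iUnion.1 hw
    exact hj.1
  have huZ : u ∉ Z := by
    intro h
    obtain ⟨j, hj⟩ := Set.mem_iUnion.1 h
    exact j.2 hj.2
  have hyZ : y ∉ Z := by
    rcases huy with rfl | rfl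
    · exact huZ
    · intro h
      have h1 := S.ρ_eq u hu (hZT h)
      rw [h1] at h
      exact huZ h
  have hyZ' : S.ρ y ∉ Z := by
    rcases huy with rfl | rfl
    · intro h
      have h1 := S.ρ_eq u hu (hZT h)
      rw [h1] at h
      exact huZ h
    · rw [S.ρ_ρ]; exact huZ
  have hO : (Zᶜ ∩ (S.ρ ⁻¹' Z)ᶜ) ∈ 𝓝 y := by
    apply IsOpen.mem_nhds (hZ.isOpen_compl.inter (hZ.preimage S.continuous_ρ).isOpen_compl)
    exact ⟨hyZ, hyZ'⟩
  obtain ⟨Q, hQ, hQON, hQc⟩ := local_compact_nhds (Filter.inter_mem hO hN)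
  have hQO : Q ⊆ Zᶜ ∩ (S.ρ ⁻¹' Z)ᶜ := fun q hq => (hQON hq).1
  refine ⟨Q, hQ, fun q hq => (hQON hq).2, hQc, ?_⟩
  -- the folded compact set
  let R : Set E := S.T ∩ (Q ∪ S.ρ '' Q)
  have hRc : IsCompact R := (hQc.union (hQc.image S.continuous_ρ)).inter_left S.isClosed_T
  have hRJ : ∀ w ∈ R, S.J w ⊆ S.J u := by
    rintro w ⟨hwT, hw⟩ j hj
    by_contra hju
    have hwZ : w ∈ Z := Set.mem_iUnion.2 ⟨⟨j, hju⟩, hwT, hj⟩
    rcases hw with hw | ⟨q, hq, rfl⟩
    · exact (hQO hw).1 hwZ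
    · exact (hQO hq).2 hwZ
  have hfR : ∀ t w, w ∈ S.T → S.f (S.φ t w) ∈ Q → w ∈ R := by
    intro t w hw h
    refine ⟨hw, ?_⟩
    rw [S.f_φ hw] at h
    split_ifs at h
    · exact Or.inl h
    · exact Or.inr ⟨S.ρ w, h, S.ρ_ρ w⟩
  intro x hx
  obtain ⟨t, U, hU, rfl⟩ := S.cover x
  have hUR : U ∈ R := hfR t U hU hx
  let c : Set I := {s | S.φ s u = S.φ t u}
  have hcfin : c.Finite := by
    refine (S.locfin.point_finite (S.φ t u)).subset ?_
    intro s hs
    exact ⟨u, hu, hs⟩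
  let A : Set X := ⋃ s : c, S.φ s '' S.T
  let B : Set X := ⋃ s : (cᶜ : Set I), S.φ s '' S.T
  have hA : IsClosed A :=
    (S.locfin.comp_injective Subtype.val_injective).isClosed_iUnion (fun s => S.isClosed_tile s)
  have hB : IsClosed B :=
    (S.locfin.comp_injective Subtype.val_injective).isClosed_iUnion (fun s => S.isClosed_tile s)
  have hdisj : ∀ z ∈ S.f ⁻¹' Q, z ∈ A → z ∈ B → False := by
    intro z hz hzA hzB
    obtain ⟨⟨s, hs⟩, w, hw, rfl⟩ := Set.mem_iUnion.1 hzA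
    obtain ⟨⟨s', hs'⟩, w', hw', hww'⟩ := Set.mem_iUnion.1 hzB
    have h1 : w' = w := S.inj _ _ _ _ hw' hw hww'
    rw [h1] at hww'
    have h2 := hagree s' s w u hw hu (hRJ w (hfR _ w hw hz)) hww'
    exact hs' (h2.trans hs)
  have hcov : ∀ z, z ∈ A ∨ z ∈ B := by
    intro z
    obtain ⟨s, w, hw, rfl⟩ := S.cover z
    by_cases hs : s ∈ c
    · exact Or.inl (Set.mem_iUnion.2 ⟨⟨s, hs⟩, w, hw, rfl⟩)
    · exact Or.inr (Set.mem_iUnion.2 ⟨⟨s, hs⟩, w, hw, rfl⟩)
  have hQcl : IsClosed (S.f ⁻¹' Q) := hQc.isClosed.preimage S.continuous_f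
  have hpre : IsPreconnected (connectedComponentIn (S.f ⁻¹' Q) (S.φ t U)) :=
    isPreconnected_connectedComponentIn
  have hsub := connectedComponentIn_subset (S.f ⁻¹' Q) (S.φ t U)
  have hxm : S.φ t U ∈ connectedComponentIn (S.f ⁻¹' Q) (S.φ t U) := mem_connectedComponentIn hx
  have hxA : S.φ t U ∈ A := Set.mem_iUnion.2 ⟨⟨t, rfl⟩, U, hU, rfl⟩
  have hcompA : connectedComponentIn (S.f ⁻¹' Q) (S.φ t U) ⊆ A := by
    rw [isPreconnected_iff_subset_of_disjoint_closed] at hpre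
    rcases hpre A B hA hB (fun z _ => hcov z) (by
      ext z
      simp only [Set.mem_inter_iff, Set.mem_empty_iff_false, iff_false]
      rintro ⟨h1, h2, h3⟩
      exact hdisj z (hsub h1) h2 h3) with h | h
    · exact h
    · exact absurd (h hxm) (fun h' => hdisj _ hx hxA h')
  have hcomp : IsCompact (⋃ s ∈ c, S.φ s '' R) := by
    refine hcfin.isCompact_biUnion (fun s _ => ?_)
    exact hRc.image_of_continuousOn ((S.continuousOn_φ s).mono (fun w hw => hw.1))
  refine hcomp.of_isClosed_subset (isClosed_connectedComponentIn hQcl _) ?_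
  intro z hz
  obtain ⟨⟨s, hs⟩, w, hw, rfl⟩ := Set.mem_iUnion.1 (hcompA hz)
  exact Set.mem_iUnion₂.2 ⟨s, hs, w, hfR _ w hw (hsub hz), rfl⟩

end TileSystem

variable {V : Type*} [DecidableEq V] {n : ℕ}

/-- The barycentres of the faces in a flag depend only on the faces. -/
theorem yy_eq_of_zero {ς ς' : Fin (n + 1) → V} (hς : Injective ς) (hς' : Injective ς')
    {b b' : Fin (n + 1) → ℝ} (hb : ∀ l, 0 ≤ b l) (hz : ∀ l, b l = 0 → b' l = 0)
    (h : yy ς b = yy ς' b) : yy ς b' = yy ς' b' := by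
  -- the flags agree where `b` does not vanish
  have hflag : ∀ k : Fin (n + 1), 0 < b k → ∀ l : Fin (n + 1), l.val ≤ k.val →
      ∃ m : Fin (n + 1), m.val ≤ k.val ∧ ς' m = ς l := by
    intro k hk l hl
    have h1 : 0 < Yc b k.val := (Yc_nonneg hb _).trans_lt (Yc_lt hb hk (Nat.lt_succ_self _))
    have h2 : Yc b k.val ≤ Yc b l.val := Yc_antitone hb hl
    obtain ⟨m, hm1, hm2⟩ := exists_match hς hς' h (show Yc b l.val ≠ 0 by linarith)
    refine ⟨m, ?_, hm1.symm⟩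
    by_contra hlt
    have := Yc_lt hb hk (not_le.1 hlt)
    linarith
  have hflag' : ∀ k : Fin (n + 1), 0 < b k → ∀ l : Fin (n + 1), l.val ≤ k.val →
      ∃ m : Fin (n + 1), m.val ≤ k.val ∧ ς m = ς' l := by
    intro k hk l hl
    have h1 : 0 < Yc b k.val := (Yc_nonneg hb _).trans_lt (Yc_lt hb hk (Nat.lt_succ_self _))
    have h2 : Yc b k.val ≤ Yc b l.val := Yc_antitone hb hl
    obtain ⟨m, hm1, hm2⟩ := exists_match hς' hς h.symm (show Yc b l.val ≠ 0 by linarith)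
    refine ⟨m, ?_, hm1.symm⟩
    by_contra hlt
    have := Yc_lt hb hk (not_le.1 hlt)
    linarith
  -- expansion in barycentres
  have hexp : ∀ (τ : Fin (n + 1) → V), yy τ b' = ∑ k : Fin (n + 1), (b' k / (k.val + 1 : ℝ)) •
      ∑ l ∈ Finset.univ.filter (fun l : Fin (n + 1) => l.val ≤ k.val),
        (Pi.single (τ l) 1 : V → ℝ) := by
    intro τ
    unfold yy Yc
    simp only [Finset.sum_smul, Finset.smul_sum, Finset.sum_filter]
    rw [Finset.sum_comm]
    refine Finset.sum_congr rfl (fun k _ => Finset.sum_congr rfl (fun l _ => ?_))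
    split_ifs <;> simp
  rw [hexp, hexp]
  refine Finset.sum_congr rfl (fun k _ => ?_)
  by_cases hk : b k = 0
  · rw [hz k hk]; simp
  · have hk' : 0 < b k := lt_of_le_of_ne (hb k) (Ne.symm hk)
    congr 1
    have e1 : ∀ (τ : Fin (n + 1) → V), Injective τ →
        ∑ l ∈ Finset.univ.filter (fun l : Fin (n + 1) => l.val ≤ k.val),
          (Pi.single (τ l) 1 : V → ℝ) =
        ∑ v ∈ (Finset.univ.filter (fun l : Fin (n + 1) => l.val ≤ k.val)).image τ,
          (Pi.single v 1 : V → ℝ) := by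
      intro τ hτ
      rw [Finset.sum_image (fun a _ c _ h => hτ h)]
    rw [e1 ς hς, e1 ς' hς']
    congr 1
    ext v
    simp only [Finset.mem_image, Finset.mem_filter, Finset.mem_univ, true_and]
    constructor
    · rintro ⟨l, hl, rfl⟩
      exact hflag k hk' l hl
    · rintro ⟨l, hl, rfl⟩
      exact hflag' k hk' l hl

/-- The support of the point shrinks when more barycentric coordinates vanish. -/
theorem yy_zero_of_zero {ς : Fin (n + 1) → V} (hς : Injective ς) {b b' : Fin (n + 1) → ℝ}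
    (hb : ∀ l, 0 ≤ b l) (hz : ∀ l, b l = 0 → b' l = 0) {v : V} (hv : yy ς b v = 0) :
    yy ς b' v = 0 := by
  by_cases h : ∃ k, ς k = v
  · obtain ⟨k, rfl⟩ := h
    rw [yy_apply hς] at hv ⊢
    have hall : ∀ l : Fin (n + 1), k.val ≤ l.val → b l = 0 := by
      intro l hl
      by_contra hne
      have h1 : 0 < b l := lt_of_le_of_ne (hb l) (Ne.symm hne)
      have h2 : 0 < Yc b l.val := (Yc_nonneg hb _).trans_lt (Yc_lt hb h1 (Nat.lt_succ_self _))
      have h3 : Yc b l.val ≤ Yc b k.val := Yc_antitone hb hl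
      linarith
    unfold Yc
    apply Finset.sum_eq_zero
    intro l _
    split_ifs with hl
    · rw [hz l (hall l hl)]; simp
    · rfl
  · push Not at h
    exact yy_apply_of_ne b' h

namespace Sys

variable {C : Type*} (S : Sys V C n)

theorem flow_shift {w : C} {y : V → ℝ} (hy : y ∈ simplex (S.vs w)) {r : ℕ}
    (hr : ∀ l < r, y (S.ex (S.par^[l] w)) = 0) {τ : ℝ} (hτ : 0 ≤ τ) :
    S.flow w y τ = S.flow (S.par^[r] w) y τ := by
  have hyr : y ∈ simplex (S.vs (S.par^[r] w)) := by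
    have := S.pos_mem w r hy
    have e := S.pos_shift_zero hr 0
    rw [add_zero, S.pos_zero] at e
    rwa [e] at this
  obtain ⟨k, h1, h2⟩ := S.exists_stage (S.par^[r] w) hyr hτ
  have hit : S.par^[r + k] w = S.par^[k] (S.par^[r] w) := by
    rw [add_comm, iterate_add_apply]
  rw [S.flow_eq _ hyr hτ h1 h2, S.flow_eq w (k := r + k) hy hτ
    (by rw [S.tim_shift_zero hr]; exact h1)
    (by rw [show r + k + 1 = r + (k + 1) by ring, S.tim_shift_zero hr]; exact h2),
    S.pos_shift_zero hr, S.tim_shift_zero hr, hit]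

variable {S}

theorem Tile.agree (t t' : S.Tile) {b b' : Fin (n + 1) → ℝ} {τ τ' : ℝ}
    (hb : b ∈ stdSimplex ℝ (Fin (n + 1))) (hb' : b' ∈ stdSimplex ℝ (Fin (n + 1)))
    (hτ : 0 ≤ τ) (hτ' : 0 ≤ τ') (hz : ∀ l, b l = 0 → b' l = 0) (hz' : τ = 0 → τ' = 0)
    (h : t.map b τ = t'.map b τ) : t.map b' τ' = t'.map b' τ' := by
  have hy : yy t.ς b = yy t'.ς b := (Tile.map_inj t t' hb hb hτ hτ h).2.2
  have hy' : yy t.ς b' = yy t'.ς b' := yy_eq_of_zero t.inj t'.inj hb.1 hz hy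
  rcases hτ.eq_or_lt with h0 | h0
  · rw [hz' h0.symm, t.map_zero hb', t'.map_zero hb', hy']
  · obtain ⟨r, g1, g2, g3, g4⟩ := t.exists_mover hb h0
    obtain ⟨r', e1, e2⟩ := (Tile.map_eq_iff t t' hb h0 hy.symm g2 g3 g4).1 h.symm
    have k1 : ∀ l < r, yy t.ς b' (S.ex (S.par^[l] t.w)) = 0 :=
      fun l hl => yy_zero_of_zero t.inj hb.1 hz (g1 l hl)
    have k2 : ∀ l < r', yy t'.ς b' (S.ex (S.par^[l] t'.w)) = 0 := by
      intro l hl
      rw [← hy']
      exact yy_zero_of_zero t.inj hb.1 hz (e2 l hl)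
    show S.flow t.w (yy t.ς b') τ' = S.flow t'.w (yy t'.ς b') τ'
    rw [S.flow_shift (t.y_mem hb') k1 hτ', S.flow_shift (t'.y_mem hb') k2 hτ', e1, hy']

variable (S)

variable {A : Set (V → ℝ)} (hA : ∀ x, x ∈ A ↔ ∃ c, x ∈ simplex (S.vs c))

theorem phi_agree [Nonempty A] (t t' : S.Tile) (U U' : Fin (n + 1) → ℝ) (hU : U ∈ TT n)
    (hU' : U' ∈ TT n) (hJ : JJ U ⊆ JJ U') (h : S.phi hA t U = S.phi hA t' U) :
    S.phi hA t U' = S.phi hA t' U' := by
  rw [S.phi_of_mem hA t hU, S.phi_of_mem hA t' hU, mapA_eq_iff] at h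
  rw [S.phi_of_mem hA t hU', S.phi_of_mem hA t' hU', mapA_eq_iff]
  have h1 : Γ ((ΓH.symm ⟨U, hU⟩ : DD n) : (Fin (n + 1) → ℝ) × ℝ) = U := Γ_ΓH_symm ⟨U, hU⟩
  have h2 : Γ ((ΓH.symm ⟨U', hU'⟩ : DD n) : (Fin (n + 1) → ℝ) × ℝ) = U' := Γ_ΓH_symm ⟨U', hU'⟩
  generalize (ΓH.symm ⟨U, hU⟩ : DD n) = p at h h1
  generalize (ΓH.symm ⟨U', hU'⟩ : DD n) = q at h2 ⊢
  refine Tile.agree t t' p.2.1 q.2.1 p.2.2 q.2.2 ?_ ?_ h
  · intro l hl
    have h3 : l.succ ∈ JJ U := by
      show vf l.succ U = 0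
      rw [← h1, vf_succ_Γ_eq_zero p.2]
      exact hl
    have h4 : vf l.succ U' = 0 := hJ h3
    rwa [← h2, vf_succ_Γ_eq_zero q.2] at h4
  · intro h0
    have h3 : (0 : Fin (n + 2)) ∈ JJ U := by
      show vf 0 U = 0
      rw [← h1, vf_zero_Γ p.2]
      exact h0
    have h4 : vf 0 U' = 0 := hJ h3
    rwa [← h2, vf_zero_Γ q.2] at h4

theorem tileSystem_complete {o : (Fin (n + 2) → V) → ℤˣ} (ho : S.Ori o) (hn : 0 < n) [Nonempty A]
    (y : Fin (n + 1) → ℝ) {N : Set (Fin (n + 1) → ℝ)} (hN : N ∈ 𝓝 y) :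
    ∃ Q ∈ 𝓝 y, Q ⊆ N ∧ IsCompact Q ∧ ∀ x, (S.tileSystem hA ho hn).f x ∈ Q →
      IsCompact (connectedComponentIn ((S.tileSystem hA ho hn).f ⁻¹' Q) x) :=
  (S.tileSystem hA ho hn).complete (S.phi_agree hA) inferInstance y hN

end Sys

end Pool.Agent.Helper74.Branched
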