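import Mathlib

/-!
# Covering maps from tilings

A space `X` is tiled by copies `φ t '' T` of a closed set `T ⊆ E` with walls, such that only the
points with at least two vanishing wall functions lie in more than two tiles.  Folding the tiles
alternately onto `T` and onto the closure of the complement of `T` by means of a reflection `ρ`
gives a map `X → E` which is a covering map over the complement of the codimension-two strata.
-/

open Topology Set

namespace Pool.Agent.Helper74.Branched

/-- A tile system. -/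
structure TileSystem (X E ι I : Type*) [TopologicalSpace X] [TopologicalSpace E] where
  /-- the model tile -/
  T : Set E
  /-- the reflection -/
  ρ : E → E
  /-- the set of walls containing a point of `T` -/
  J : E → Set ι
  /-- the tiles -/
  φ : I → E → X
  /-- the signs of the tiles -/
  sgn : I → Bool
  isClosed_T : IsClosed T
  continuous_ρ : Continuous ρ
  ρ_ρ : ∀ u, ρ (ρ u) = u
  mem_or : ∀ u, u ∈ T ∨ ρ u ∈ T
  J_closed : ∀ i, IsClosed {u | u ∈ T ∧ i ∈ J u}
  ρ_mem_iff : ∀ u ∈ T, (ρ u ∈ T ↔ (J u).Nonempty)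
  ρ_eq : ∀ u ∈ T, ρ u ∈ T → ρ u = u
  face_preconn : ∀ i, IsPreconnected {u | u ∈ T ∧ J u = {i}}
  face_nonempty : ∀ i, {u | u ∈ T ∧ J u = {i}}.Nonempty
  φ_emb : ∀ t, IsClosedEmbedding (fun u : T => φ t u)
  locfin : LocallyFinite fun t => φ t '' T
  cover : ∀ x, ∃ t, ∃ u ∈ T, φ t u = x
  inj : ∀ t t' u u', u ∈ T → u' ∈ T → φ t u = φ t' u' → u = u'
  interior : ∀ t t' u, u ∈ T → J u = ∅ → φ t u = φ t' u → t = t'
  wall : ∀ t u i, u ∈ T → J u = {i} →
    ∃ t', sgn t' = !(sgn t) ∧ ∀ t'', φ t'' u = φ t u ↔ t'' = t ∨ t'' = t'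

namespace TileSystem

variable {X E ι I : Type*} [TopologicalSpace X] [TopologicalSpace E] (S : TileSystem X E ι I)

theorem isClosed_tile (t : I) : IsClosed (S.φ t '' S.T) := by
  have := (S.φ_emb t).isClosed_range
  rwa [show (fun u : S.T => S.φ t u) = S.φ t ∘ Subtype.val from rfl, range_comp,
    Subtype.range_coe] at this

theorem continuousOn_φ (t : I) : ContinuousOn (S.φ t) S.T := by
  rw [continuousOn_iff_continuous_domRestrict]
  exact (S.φ_emb t).continuous

/-- The folded map. -/
noncomputable def f (x : X) : E :=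
  if S.sgn (S.cover x).choose then (S.cover x).choose_spec.choose
  else S.ρ (S.cover x).choose_spec.choose

theorem f_φ {t : I} {u : E} (hu : u ∈ S.T) :
    S.f (S.φ t u) = if S.sgn t then u else S.ρ u := by
  unfold f
  set t' := (S.cover (S.φ t u)).choose with ht'
  set u' := (S.cover (S.φ t u)).choose_spec.choose with hu'
  have h1 : u' ∈ S.T := (S.cover (S.φ t u)).choose_spec.choose_spec.1
  have h2 : S.φ t' u' = S.φ t u := (S.cover (S.φ t u)).choose_spec.choose_spec.2
  have h3 : u' = u := S.inj _ _ _ _ h1 hu h2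
  rw [h3] at h2 ⊢
  by_cases hs : S.sgn t' = S.sgn t
  · rw [hs]
  · have hJ : (S.J u).Nonempty := by
      by_contra hJ
      rw [not_nonempty_iff_eq_empty] at hJ
      exact hs (by rw [S.interior _ _ _ hu hJ h2])
    have hρ : S.ρ u = u := S.ρ_eq u hu ((S.ρ_mem_iff u hu).2 hJ)
    rw [hρ]
    simp

theorem f_φ_pos {t : I} {u : E} (hu : u ∈ S.T) (ht : S.sgn t = true) : S.f (S.φ t u) = u := by
  rw [S.f_φ hu, ht]; simp

theorem f_φ_neg {t : I} {u : E} (hu : u ∈ S.T) (ht : S.sgn t = false) :
    S.f (S.φ t u) = S.ρ u := by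
  rw [S.f_φ hu, ht]; simp

theorem continuousOn_of_comp {t : I} {Y : Type*} [TopologicalSpace Y] {g : X → Y}
    (hg : ContinuousOn (g ∘ S.φ t) S.T) : ContinuousOn g (S.φ t '' S.T) := by
  have he := (S.φ_emb t).isEmbedding
  have hr : S.φ t '' S.T = range (fun u : S.T => S.φ t u) := by
    rw [show (fun u : S.T => S.φ t u) = S.φ t ∘ Subtype.val from rfl, range_comp,
      Subtype.range_coe]
  rw [hr, continuousOn_iff_continuous_domRestrict]
  have h1 : Continuous (fun u : S.T => g (S.φ t u)) := by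
    rw [continuousOn_iff_continuous_domRestrict] at hg
    exact hg
  have h2 : (domRestrict (range fun u : S.T => S.φ t u) g) =
      (fun u : S.T => g (S.φ t u)) ∘ he.toHomeomorph.symm := by
    funext x
    obtain ⟨y, rfl⟩ := he.toHomeomorph.surjective x
    simp only [Function.comp_apply, Homeomorph.symm_apply_apply]
    rfl
  rw [h2]
  exact h1.comp he.toHomeomorph.symm.continuous

theorem continuous_f : Continuous S.f := by
  refine LocallyFinite.continuous S.locfin ?_ S.isClosed_tile ?_
  · rw [eq_univ_iff_forall]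
    intro x
    obtain ⟨t, u, hu, rfl⟩ := S.cover x
    exact mem_iUnion.2 ⟨t, u, hu, rfl⟩
  · intro t
    apply S.continuousOn_of_comp
    by_cases ht : S.sgn t = true
    · refine continuousOn_id.congr ?_
      intro u hu
      exact S.f_φ_pos hu ht
    · refine S.continuous_ρ.continuousOn.congr ?_
      intro u hu
      exact S.f_φ_neg hu (by simpa using ht)

theorem partner_exists (i : ι) (t : I) : ∃ t', S.sgn t' = !(S.sgn t) ∧
    ∀ u ∈ S.T, S.J u = {i} → ∀ t'', S.φ t'' u = S.φ t u ↔ t'' = t ∨ t'' = t' := by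
  obtain ⟨u0, hu0⟩ := S.face_nonempty i
  obtain ⟨t', hs, ht'⟩ := S.wall t u0 i hu0.1 hu0.2
  refine ⟨t', hs, ?_⟩
  let F : Set E := {u | u ∈ S.T ∧ S.J u = {i}}
  have hne : ∀ s : I, S.sgn s = !(S.sgn t) → s ≠ t := by
    rintro s h rfl
    simp at h
  have : PreconnectedSpace F := isPreconnected_iff_preconnectedSpace.1 (S.face_preconn i)
  let A : I → Set F := fun s => (fun u : F => S.φ t u) ⁻¹' (S.φ s '' S.T)
  have hcont : Continuous (fun u : F => S.φ t u) :=
    (S.continuousOn_φ t).comp_continuous continuous_subtype_val (fun u => u.2.1)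
  have hA : ∀ (s : I) (u : F), u ∈ A s ↔ S.φ s u = S.φ t u := by
    intro s u
    constructor
    · rintro ⟨u', hu', h⟩
      have : u' = u := S.inj _ _ _ _ hu' u.2.1 h
      rw [this] at h
      exact h
    · intro h
      exact ⟨u, u.2.1, h⟩
  have hclosed : ∀ s, IsClosed (A s) := fun s => (S.isClosed_tile s).preimage hcont
  have hlf : LocallyFinite A := S.locfin.preimage_continuous hcont
  have hcompl : (A t')ᶜ = ⋃ s : {s : I // s ≠ t ∧ s ≠ t'}, A s := by
    ext u
    rw [mem_compl_iff, mem_iUnion, hA]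
    obtain ⟨s0, hs0, h0⟩ := S.wall t u i u.2.1 u.2.2
    constructor
    · intro h
      have h1 : s0 ≠ t := hne s0 hs0
      have h2 : S.φ s0 u = S.φ t u := (h0 s0).2 (Or.inr rfl)
      refine ⟨⟨s0, h1, ?_⟩, (hA _ _).2 h2⟩
      rintro rfl
      exact h h2
    · rintro ⟨⟨s, hs1, hs2⟩, hs3⟩ h
      rw [hA] at hs3
      have h3 := (h0 s).1 hs3
      have h4 := (h0 t').1 h
      rcases h3 with h3 | h3
      · exact hs1 h3
      · rcases h4 with h4 | h4
        · exact hne t' hs h4
        · exact hs2 (h3.trans h4.symm)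
  have hclopen : IsClopen (A t') := by
    refine ⟨hclosed t', ?_⟩
    rw [← isClosed_compl_iff, hcompl]
    exact (hlf.comp_injective Subtype.val_injective).isClosed_iUnion (fun s => hclosed s)
  have huniv : A t' = univ := by
    rcases isClopen_iff.1 hclopen with h | h
    · exfalso
      have : (⟨u0, hu0⟩ : F) ∈ A t' := (hA _ _).2 ((ht' t').2 (Or.inr rfl))
      rw [h] at this
      exact this
    · exact h
  intro u hu hJ
  obtain ⟨s0, hs0, h0⟩ := S.wall t u i hu hJ
  have h1 : S.φ t' u = S.φ t u := by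
    have : (⟨u, hu, hJ⟩ : F) ∈ A t' := by rw [huniv]; trivial
    exact (hA _ _).1 this
  have h2 : t' = s0 := by
    rcases (h0 t').1 h1 with h | h
    · exact absurd h (hne t' hs)
    · exact h
  rw [h2]
  exact h0

/-- The tile on the other side of the wall `i` of the tile `t`. -/
noncomputable def partner (i : ι) (t : I) : I := (S.partner_exists i t).choose

theorem sgn_partner (i : ι) (t : I) : S.sgn (S.partner i t) = !(S.sgn t) :=
  (S.partner_exists i t).choose_spec.1

theorem φ_eq_iff {i : ι} {t : I} {u : E} (hu : u ∈ S.T) (hJ : S.J u = {i}) (t'' : I) :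
    S.φ t'' u = S.φ t u ↔ t'' = t ∨ t'' = S.partner i t :=
  (S.partner_exists i t).choose_spec.2 u hu hJ t''

theorem partner_ne (i : ι) (t : I) : S.partner i t ≠ t := by
  intro h
  have := S.sgn_partner i t
  rw [h] at this
  simp at this

theorem φ_partner {i : ι} {t : I} {u : E} (hu : u ∈ S.T) (hJ : S.J u = {i}) :
    S.φ (S.partner i t) u = S.φ t u :=
  (S.φ_eq_iff hu hJ _).2 (Or.inr rfl)

theorem partner_partner (i : ι) (t : I) : S.partner i (S.partner i t) = t := by
  obtain ⟨u, hu, hJ⟩ := S.face_nonempty i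
  have h1 : S.φ t u = S.φ (S.partner i t) u := (S.φ_partner hu hJ).symm
  rcases (S.φ_eq_iff hu hJ t).1 h1 with h | h
  · exact absurd h.symm (S.partner_ne i t)
  · exact h.symm

/-- The open set of the points which lie on no wall except possibly `i`. -/
def O (i : ι) : Set E := {u | u ∈ S.T → S.J u ⊆ {i}}

theorem isOpen_O [Finite ι] (i : ι) : IsOpen (S.O i) := by
  rw [← isClosed_compl_iff]
  have : (S.O i)ᶜ = ⋃ j : {j : ι // j ≠ i}, {u | u ∈ S.T ∧ (j : ι) ∈ S.J u} := by
    ext u
    simp only [O, mem_compl_iff, mem_ofPred_eq, Classical.not_imp, mem_iUnion]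
    constructor
    · rintro ⟨h1, h2⟩
      rw [not_subset] at h2
      obtain ⟨j, hj1, hj2⟩ := h2
      exact ⟨⟨j, hj2⟩, h1, hj1⟩
    · rintro ⟨⟨j, hj⟩, h1, h2⟩
      exact ⟨h1, fun h => hj (h h2)⟩
  rw [this]
  exact isClosed_iUnion_of_finite (fun j => S.J_closed j)

open Classical in
/-- The inverse branch of `f` over `O i` with index the positive tile `t`. -/
noncomputable def G (i : ι) (t : I) (u : E) : X :=
  if u ∈ S.T then S.φ t u else S.φ (S.partner i t) (S.ρ u)

theorem G_of_mem {i : ι} {t : I} {u : E} (hu : u ∈ S.T) : S.G i t u = S.φ t u := if_pos hu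

theorem G_of_mem' {i : ι} {t : I} {u : E} (hu : S.ρ u ∈ S.T) (hO : u ∈ S.O i) :
    S.G i t u = S.φ (S.partner i t) (S.ρ u) := by
  by_cases h : u ∈ S.T
  · rw [S.G_of_mem h, S.ρ_eq u h hu]
    have h1 : (S.J u).Nonempty := (S.ρ_mem_iff u h).1 hu
    have h2 : S.J u = {i} := (h1.subset_singleton_iff).1 (hO h)
    exact (S.φ_partner h h2).symm
  · exact if_neg h

theorem f_G {i : ι} {t : I} (ht : S.sgn t = true) (u : E) : S.f (S.G i t u) = u := by
  by_cases h : u ∈ S.T
  · rw [S.G_of_mem h, S.f_φ_pos h ht]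
  · have h' : S.ρ u ∈ S.T := (S.mem_or u).resolve_left h
    have : S.G i t u = S.φ (S.partner i t) (S.ρ u) := if_neg h
    rw [this, S.f_φ_neg h' (by rw [S.sgn_partner, ht]; rfl), S.ρ_ρ]

theorem exists_G {i : ι} {x : X} (hx : S.f x ∈ S.O i) :
    ∃ t : {t // S.sgn t = true}, S.G i t (S.f x) = x := by
  obtain ⟨s, u, hu, rfl⟩ := S.cover x
  by_cases hs : S.sgn s = true
  · refine ⟨⟨s, hs⟩, ?_⟩
    rw [S.f_φ_pos hu hs]
    exact S.G_of_mem hu
  · have hs' : S.sgn s = false := by simpa using hs
    refine ⟨⟨S.partner i s, by rw [S.sgn_partner, hs']; rfl⟩, ?_⟩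
    rw [S.f_φ_neg hu hs'] at hx ⊢
    rw [S.G_of_mem' (by rw [S.ρ_ρ]; exact hu) hx, S.partner_partner, S.ρ_ρ]

theorem G_inj {i : ι} {t t' : I} (ht : S.sgn t = true) (ht' : S.sgn t' = true) {u : E}
    (hu : u ∈ S.O i) (h : S.G i t u = S.G i t' u) : t = t' := by
  by_cases hT : u ∈ S.T
  · rw [S.G_of_mem hT, S.G_of_mem hT] at h
    rcases (S.J u).eq_empty_or_nonempty with hJ | hJ
    · exact S.interior _ _ _ hT hJ h
    · have h2 : S.J u = {i} := (hJ.subset_singleton_iff).1 (hu hT)
      rcases (S.φ_eq_iff hT h2 t).1 h with h3 | h3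
      · exact h3
      · exfalso
        have := S.sgn_partner i t'
        rw [← h3, ht, ht'] at this
        simp at this
  · have h' : S.ρ u ∈ S.T := (S.mem_or u).resolve_left hT
    have h1 : S.G i t u = S.φ (S.partner i t) (S.ρ u) := if_neg hT
    have h2 : S.G i t' u = S.φ (S.partner i t') (S.ρ u) := if_neg hT
    rw [h1, h2] at h
    have hJ : S.J (S.ρ u) = ∅ := by
      by_contra hJ
      rw [← ne_eq, ← nonempty_iff_ne_empty] at hJ
      exact hT (by simpa [S.ρ_ρ] using (S.ρ_mem_iff _ h').2 hJ)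
    have h3 := S.interior _ _ _ h' hJ h
    rw [← S.partner_partner i t, h3, S.partner_partner]

theorem continuousOn_G (i : ι) (t : I) : Continuous (fun u : S.O i => S.G i t u) := by
  let A : Set (S.O i) := {u | (u : E) ∈ S.T}
  let B : Set (S.O i) := {u | S.ρ (u : E) ∈ S.T}
  have hA : IsClosed A := S.isClosed_T.preimage continuous_subtype_val
  have hB : IsClosed B := S.isClosed_T.preimage (S.continuous_ρ.comp continuous_subtype_val)
  have hcA : ContinuousOn (fun u : S.O i => S.G i t u) A := by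
    have : ContinuousOn (fun u : S.O i => S.φ t u) A :=
      (S.continuousOn_φ t).comp continuous_subtype_val.continuousOn (fun u hu => hu)
    exact this.congr (fun u hu => S.G_of_mem hu)
  have hcB : ContinuousOn (fun u : S.O i => S.G i t u) B := by
    have : ContinuousOn (fun u : S.O i => S.φ (S.partner i t) (S.ρ u)) B :=
      (S.continuousOn_φ _).comp (S.continuous_ρ.comp continuous_subtype_val).continuousOn
        (fun u hu => hu)
    exact this.congr (fun u hu => S.G_of_mem' hu u.2)
  have := hcA.union_of_isClosed hcB hA hB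
  have hAB : A ∪ B = univ := by
    rw [eq_univ_iff_forall]
    intro u
    exact S.mem_or u
  rwa [hAB, continuousOn_univ] at this

/-- The index of the sheet over `O i` containing a point. -/
noncomputable def idx (i : ι) (x : S.f ⁻¹' S.O i) : {t // S.sgn t = true} :=
  (S.exists_G x.2).choose

theorem G_idx (i : ι) (x : S.f ⁻¹' S.O i) : S.G i (S.idx i x) (S.f x) = x :=
  (S.exists_G x.2).choose_spec

theorem idx_eq_iff (i : ι) (x : S.f ⁻¹' S.O i) (t : {t // S.sgn t = true}) :
    S.idx i x = t ↔ (x : X) ∈ S.φ t '' S.T ∪ S.φ (S.partner i t) '' S.T := by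
  constructor
  · rintro rfl
    by_cases h : S.f x ∈ S.T
    · left
      refine ⟨S.f x, h, ?_⟩
      rw [← S.G_of_mem h]
      exact S.G_idx i x
    · right
      have h' : S.ρ (S.f x) ∈ S.T := (S.mem_or _).resolve_left h
      refine ⟨S.ρ (S.f x), h', ?_⟩
      rw [← S.G_of_mem' h' x.2]
      exact S.G_idx i x
  · intro h
    have key : S.G i t (S.f x) = x := by
      rcases h with ⟨u, hu, hx⟩ | ⟨u, hu, hx⟩
      · have h1 : S.f x = u := by rw [← hx, S.f_φ_pos hu t.2]
        rw [h1, S.G_of_mem hu, hx]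
      · have h1 : S.f x = S.ρ u := by
          rw [← hx, S.f_φ_neg hu (by rw [S.sgn_partner, t.2]; rfl)]
        have h2 : S.ρ (S.f x) ∈ S.T := by rw [h1, S.ρ_ρ]; exact hu
        rw [S.G_of_mem' h2 x.2, h1, S.ρ_ρ, hx]
    apply Subtype.ext
    apply S.G_inj (i := i) (S.idx i x).2 t.2 x.2
    rw [S.G_idx, key]

theorem continuous_idx (i : ι) [TopologicalSpace {t // S.sgn t = true}]
    [DiscreteTopology {t // S.sgn t = true}] : Continuous (S.idx i) := by
  rw [continuous_discrete_rng]
  intro t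
  rw [← isClosed_compl_iff]
  have hcompl : (S.idx i ⁻¹' {t})ᶜ =
      (Subtype.val ⁻¹' (⋃ s : {s : {t // S.sgn t = true} // s ≠ t}, S.φ s '' S.T)) ∪
      (Subtype.val ⁻¹' (⋃ s : {s : {t // S.sgn t = true} // s ≠ t},
        S.φ (S.partner i s) '' S.T)) := by
    ext x
    simp only [mem_compl_iff, mem_preimage, mem_singleton_iff, mem_union, mem_iUnion]
    constructor
    · intro h
      have h1 := (S.idx_eq_iff i x (S.idx i x)).1 rfl
      rcases h1 with h1 | h1
      · exact Or.inl ⟨⟨S.idx i x, h⟩, h1⟩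
      · exact Or.inr ⟨⟨S.idx i x, h⟩, h1⟩
    · rintro (⟨⟨s, hs⟩, h1⟩ | ⟨⟨s, hs⟩, h1⟩) h
      · exact hs (((S.idx_eq_iff i x s).2 (Or.inl h1)).symm.trans h)
      · exact hs (((S.idx_eq_iff i x s).2 (Or.inr h1)).symm.trans h)
  rw [hcompl]
  have hp : Function.Injective (S.partner i) := by
    intro a b h
    rw [← S.partner_partner i a, h, S.partner_partner]
  refine IsClosed.union ?_ ?_
  · refine IsClosed.preimage continuous_subtype_val ?_
    refine LocallyFinite.isClosed_iUnion ?_ (fun s => S.isClosed_tile _)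
    exact S.locfin.comp_injective (g := fun s : {s : {t // S.sgn t = true} // s ≠ t} => (s.1.1))
      (fun a b h => Subtype.ext (Subtype.ext h))
  · refine IsClosed.preimage continuous_subtype_val ?_
    refine LocallyFinite.isClosed_iUnion ?_ (fun s => S.isClosed_tile _)
    exact S.locfin.comp_injective
      (g := fun s : {s : {t // S.sgn t = true} // s ≠ t} => S.partner i (s.1.1))
      (fun a b h => Subtype.ext (Subtype.ext (hp h)))

/-- The trivialization of `f` over `O i`. -/
noncomputable def homeo (i : ι) [TopologicalSpace {t // S.sgn t = true}]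
    [DiscreteTopology {t // S.sgn t = true}] :
    S.f ⁻¹' S.O i ≃ₜ S.O i × {t // S.sgn t = true} where
  toFun x := (⟨S.f x, x.2⟩, S.idx i x)
  invFun p := ⟨S.G i p.2 p.1, by
    show S.f _ ∈ S.O i
    rw [S.f_G p.2.2]
    exact p.1.2⟩
  left_inv x := Subtype.ext (S.G_idx i x)
  right_inv p := by
    have h1 : S.f (S.G i p.2 p.1) = p.1 := S.f_G p.2.2 _
    refine Prod.ext (Subtype.ext h1) ?_
    apply Subtype.ext
    apply S.G_inj (i := i) (S.idx i _).2 p.2.2 p.1.2
    have := S.G_idx i ⟨S.G i p.2 p.1, by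
      show S.f _ ∈ S.O i
      rw [S.f_G p.2.2]
      exact p.1.2⟩
    simp only [h1] at this
    exact this
  continuous_toFun := by
    refine Continuous.prodMk ?_ (S.continuous_idx i)
    exact (S.continuous_f.comp continuous_subtype_val).subtype_mk _
  continuous_invFun := by
    rw [continuous_prod_of_discrete_right]
    intro t
    exact (S.continuousOn_G i t).subtype_mk _

/-- The branch set. -/
def branch : Set E := {u | u ∈ S.T ∧ ∃ i j, i ≠ j ∧ i ∈ S.J u ∧ j ∈ S.J u}

theorem exists_mem_O [Nonempty ι] {u : E} (hu : u ∉ S.branch) : ∃ i, u ∈ S.O i := by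
  by_cases hT : u ∈ S.T
  · rcases (S.J u).eq_empty_or_nonempty with hJ | ⟨i, hi⟩
    · obtain ⟨i⟩ := (inferInstance : Nonempty ι)
      exact ⟨i, fun _ => by rw [hJ]; exact empty_subset _⟩
    · refine ⟨i, fun _ j hj => ?_⟩
      by_contra h
      exact hu ⟨hT, j, i, h, hj, hi⟩
  · obtain ⟨i⟩ := (inferInstance : Nonempty ι)
    exact ⟨i, fun h => absurd h hT⟩

theorem isEvenlyCovered [Finite ι] [Nonempty ι] {u : E} (hu : u ∉ S.branch)
    [TopologicalSpace {t // S.sgn t = true}] [DiscreteTopology {t // S.sgn t = true}] :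
    IsEvenlyCovered S.f u {t // S.sgn t = true} := by
  obtain ⟨i, hi⟩ := S.exists_mem_O hu
  exact ⟨inferInstance, S.O i, hi, S.isOpen_O i, (S.isOpen_O i).preimage S.continuous_f,
    S.homeo i, fun x => rfl⟩

theorem isCoveringMapOn [Finite ι] [Nonempty ι] : IsCoveringMapOn S.f S.branchᶜ := by
  intro u hu
  let _ : TopologicalSpace {t // S.sgn t = true} := ⊥
  have : DiscreteTopology {t // S.sgn t = true} := ⟨rfl⟩
  exact (S.isEvenlyCovered hu).to_isEvenlyCovered_preimage

theorem nonempty_equiv [Finite ι] [Nonempty ι] {u : E} (hu : u ∉ S.branch) :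
    Nonempty ({t // S.sgn t = true} ≃ {x // S.f x = u}) := by
  let _ : TopologicalSpace {t // S.sgn t = true} := ⊥
  have : DiscreteTopology {t // S.sgn t = true} := ⟨rfl⟩
  exact ⟨(S.isEvenlyCovered hu).fiberHomeomorph.toEquiv⟩

end TileSystem

end Pool.Agent.Helper74.Branched
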