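import Mathlib

/-!
# Triangulated PL manifolds and branched covers of Euclidean space

The geometric realization of a simplicial complex with vertices in `V` is a subset of `V → ℝ`
(barycentric coordinates), with the subspace topology; for a locally finite complex this is the
usual topology.
-/

open Topology Function

noncomputable section

namespace Pool.Agent.Helper74.Branched

universe u

variable {V : Type u}

/-- The closed simplex spanned by the finite set `s` of vertices, in barycentric coordinates. -/
def simplex (s : Finset V) : Set (V → ℝ) :=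
  {x | (∀ v, 0 ≤ x v) ∧ (∀ v, v ∉ s → x v = 0) ∧ ∑ v ∈ s, x v = 1}

/-- The geometric realization (underlying polyhedron) of a simplicial complex. -/
def space (K : PreAbstractSimplicialComplex V) : Set (V → ℝ) := ⋃ s ∈ K.faces, simplex s

/-- A convex polytope inside the simplex spanned by `s`: the points whose barycentric coordinates
satisfy finitely many linear inequalities. (As the coordinates sum to `1`, every affine inequality
is of this form.) -/
def cell (s : Finset V) (L : Finset (V → ℝ)) : Set (V → ℝ) :=
  {x | x ∈ simplex s ∧ ∀ a ∈ L, 0 ≤ ∑ v ∈ s, a v * x v}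

/-- `f` is affine on the subset `P` of the simplex spanned by `s`: it is given by
`x ↦ ∑ x_v c_v` in barycentric coordinates. -/
def IsAffineOn {m : ℕ} (f : (V → ℝ) → (Fin m → ℝ)) (s : Finset V) (P : Set (V → ℝ)) : Prop :=
  ∃ c : V → (Fin m → ℝ), ∀ x ∈ P, f x = ∑ v ∈ s, x v • c v

/-- `f` is piecewise linear on the subset `U` of the polyhedron of `K`: every point of `U` has a
neighbourhood, contained in `U`, which is a finite union of convex polytopes on each of which `f`
is affine. -/
def IsPLOn (K : PreAbstractSimplicialComplex V) {m : ℕ} (f : (V → ℝ) → (Fin m → ℝ))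
    (U : Set (V → ℝ)) : Prop :=
  ∀ x ∈ U, ∃ P : Finset (Finset V × Finset (V → ℝ)),
    (∀ p ∈ P, p.1 ∈ K.faces ∧ cell p.1 p.2 ⊆ U ∧ IsAffineOn f p.1 (cell p.1 p.2)) ∧
    (⋃ p ∈ P, cell p.1 p.2) ∈ 𝓝[space K] x

/-- `f` is a non-degenerate piecewise linear map on the polyhedron of `K`: every point has a
neighbourhood which is a finite union of convex polytopes on each of which `f` is affine and
injective. -/
def IsNondegeneratePL (K : PreAbstractSimplicialComplex V) {m : ℕ}
    (f : (V → ℝ) → (Fin m → ℝ)) : Prop :=
  ∀ x ∈ space K, ∃ P : Finset (Finset V × Finset (V → ℝ)),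
    (∀ p ∈ P, p.1 ∈ K.faces ∧ IsAffineOn f p.1 (cell p.1 p.2) ∧ Set.InjOn f (cell p.1 p.2)) ∧
    (⋃ p ∈ P, cell p.1 p.2) ∈ 𝓝[space K] x

/-- `K` is a triangulation of an `m`-dimensional PL manifold without boundary: it is locally
finite and every point of its polyhedron has an open neighbourhood `U` with a PL homeomorphism `h`
onto an open subset of `ℝ^m`. -/
def IsPLManifold (m : ℕ) (K : PreAbstractSimplicialComplex V) : Prop :=
  (∀ v, {s | s ∈ K.faces ∧ v ∈ s}.Finite) ∧
  ∀ x ∈ space K, ∃ (U : Set (V → ℝ)) (h : (V → ℝ) → (Fin m → ℝ)),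
    x ∈ U ∧ (∃ O, IsOpen O ∧ U = O ∩ space K) ∧ IsOpenEmbedding (fun y : U => h y) ∧ IsPLOn K h U

/-- `w` lists the vertices of a face of `K` without repetition. -/
def IsFrame (K : PreAbstractSimplicialComplex V) {m : ℕ} (w : Fin m → V) : Prop :=
  Injective w ∧ ∃ s ∈ K.faces, ∀ v, v ∈ s ↔ ∃ i, w i = v

/-- A coherent orientation of the `m`-simplices of `K`: a sign for each ordering of the vertices of
each `m`-simplex, which changes by the sign of the permutation when the ordering is changed, and
such that the two orientations induced on a common face of two `m`-simplices are opposite. -/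
structure IsOrientation (m : ℕ) (K : PreAbstractSimplicialComplex V)
    (o : (Fin (m + 1) → V) → ℤˣ) : Prop where
  perm : ∀ w, IsFrame K w → ∀ σ : Equiv.Perm (Fin (m + 1)), o (w ∘ σ) = Equiv.Perm.sign σ * o w
  adj : ∀ w w', IsFrame K w → IsFrame K w' → (∀ i : Fin m, w i.succ = w' i.succ) → w 0 ≠ w' 0 →
    o w' = - o w

/-- A closed convex polyhedron in `ℝ^m`: a finite intersection of closed half-spaces. -/
def IsConvexPolyhedron {m : ℕ} (P : Set (Fin m → ℝ)) : Prop :=
  ∃ L : Finset ((Fin m → ℝ) →ᵃ[ℝ] ℝ), P = {y | ∀ ℓ ∈ L, 0 ≤ ℓ y}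

/-- `B` is a nonempty `d`-dimensional subpolyhedron of `ℝ^m`: the union of a locally finite family
of nonempty closed convex polyhedra of dimension at most `d`, at least one of them of dimension
exactly `d`. -/
def IsSubpolyhedron {m : ℕ} (B : Set (Fin m → ℝ)) (d : ℕ) : Prop :=
  ∃ (ι : Type) (P : ι → Set (Fin m → ℝ)), LocallyFinite P ∧ B = ⋃ i, P i ∧
    (∀ i, IsConvexPolyhedron (P i) ∧ (P i).Nonempty ∧
      Module.finrank ℝ (vectorSpan ℝ (P i)) ≤ d) ∧
    ∃ i, Module.finrank ℝ (vectorSpan ℝ (P i)) = d

/-- `f` is a branched cover of degree `d` from the polyhedron of `K` to `ℝ^m`: a non-degenerate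
PL map such that for some nonempty subpolyhedron `B` of `ℝ^m` of dimension `m - 2` it restricts to
a `d`-sheeted covering map over the complement of `B`. -/
def IsBranchedCover (m : ℕ) (K : PreAbstractSimplicialComplex V)
    (f : (V → ℝ) → (Fin m → ℝ)) (d : Cardinal.{u}) : Prop :=
  IsNondegeneratePL K f ∧ ∃ B : Set (Fin m → ℝ), IsSubpolyhedron B (m - 2) ∧
    IsCoveringMapOn (fun x : space K => f x) Bᶜ ∧
    ∀ y ∉ B, Cardinal.mk {x : space K // f x = y} = d

/-- `f` is complete (in the sense of Fox): every point `y` of `ℝ^m` has arbitrarily small compact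
neighbourhoods `Q` such that all connected components of the preimage of `Q` are compact. -/
def IsComplete {m : ℕ} (K : PreAbstractSimplicialComplex V) (f : (V → ℝ) → (Fin m → ℝ)) : Prop :=
  ∀ y, ∀ O ∈ 𝓝 y, ∃ Q ∈ 𝓝 y, Q ⊆ O ∧ IsCompact Q ∧
    ∀ x : space K, f x ∈ Q → IsCompact (connectedComponentIn {z : space K | f z ∈ Q} x)

end Pool.Agent.Helper74.Branched
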