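import Pool.Agent.Helper74.Branched.Manifold2

/-!
# Triangulated PL manifolds: two facets at each codimension-one face; connectivity
-/

open Function Topology Set

noncomputable section

namespace Pool.Agent.Helper74.Branched

universe u

variable {V : Type u} {K : PreAbstractSimplicialComplex V} {m : ℕ}

theorem facet_eq_insert [DecidableEq V] {F w : Finset V} (hF : F.card = m) (hFw : F ⊆ w)
    (hw : w.card = m + 1) : ∃ u, u ∉ F ∧ w = insert u F := by
  have hu0 : ∃ u0, u0 ∈ w ∧ u0 ∉ F := by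
    by_contra hcon
    push Not at hcon
    have := Finset.card_le_card (show w ⊆ F from hcon)
    omega
  obtain ⟨u, hu, huF⟩ := hu0
  refine ⟨u, huF, ?_⟩
  symm
  apply Finset.eq_of_subset_of_card_le
  · intro v hv
    rw [Finset.mem_insert] at hv
    rcases hv with rfl | hv
    · exact hu
    · exact hFw hv
  · rw [Finset.card_insert_of_notMem huF, hF, hw]

/-- Two different facets on the same side give a contradiction. -/
theorem same_side [DecidableEq V] {U : Set (V → ℝ)} {h : (V → ℝ) → (Fin m → ℝ)}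
    (hc : Chart K m U h)
    {F : Finset V} {x' : V → ℝ} {W : Set (V → ℝ)} {lm : (Fin m → ℝ) →ₗ[ℝ] ℝ}
    (hFne : F.Nonempty)
    (hx' : x' ∈ osimplex F) (hW : IsOpen W) (hx'W : x' ∈ W) (hWU : W ∩ space K ⊆ U)
    {u u' : V} (hu : u ∉ F) (hu' : u' ∉ F) (huu' : u ≠ u')
    (hw : insert u F ∈ K.faces) (hw' : insert u' F ∈ K.faces)
    {c c' : V → (Fin m → ℝ)} {κ κ' : ℝ}
    (hcu : ∀ y ∈ simplex (insert u F) ∩ W, h y = ∑ v ∈ insert u F, y v • c v)
    (hcu' : ∀ y ∈ simplex (insert u' F) ∩ W, h y = ∑ v ∈ insert u' F, y v • c' v)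
    (hk : ∀ g : ↥(insert u F) → ℝ, sg (insert u F) g = 0 →
      lm (lam' (insert u F) c g) = g ⟨u, Finset.mem_insert_self _ _⟩ * κ)
    (hk' : ∀ g : ↥(insert u' F) → ℝ, sg (insert u' F) g = 0 →
      lm (lam' (insert u' F) c' g) = g ⟨u', Finset.mem_insert_self _ _⟩ * κ')
    (hs' : ∀ ξ, ∃ g, sg (insert u' F) g = 0 ∧ lam' (insert u' F) c' g = ξ)
    (hsame : 0 < κ * κ') : False := by
  obtain ⟨f, hf⟩ := hFne
  have hf' : f ∈ insert u F := Finset.mem_insert_of_mem hf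
  have hfu : (⟨f, hf'⟩ : ↥(insert u F)) ≠ ⟨u, Finset.mem_insert_self _ _⟩ := by
    intro h
    have : f = u := congrArg Subtype.val h
    exact hu (this ▸ hf)
  let g : ↥(insert u F) → ℝ := Pi.single ⟨u, Finset.mem_insert_self _ _⟩ 1 - Pi.single ⟨f, hf'⟩ 1
  have hg : sg (insert u F) g = 0 := by
    rw [map_sub, sg_apply, sg_apply]
    simp [hf]
  have hgu : g ⟨u, Finset.mem_insert_self _ _⟩ = 1 := by
    simp only [g, Pi.sub_apply, Pi.single_eq_same]
    rw [Pi.single_eq_of_ne hfu.symm]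
    simp
  obtain ⟨g', hg', hgg'⟩ := hs' (lam' (insert u F) c g)
  have h1 := hk g hg
  have h2 := hk' g' hg'
  rw [hgg', h1, hgu, one_mul] at h2
  set γ := g' ⟨u', Finset.mem_insert_self _ _⟩ with hγ
  have hγpos : 0 < γ := by
    by_contra hneg
    rw [not_lt] at hneg
    have : κ * κ' = γ * (κ' * κ') := by rw [h2]; ring
    have h3 : γ * (κ' * κ') ≤ 0 := mul_nonpos_of_nonpos_of_nonneg hneg (mul_self_nonneg κ')
    linarith
  -- positivity of the displaced points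
  have pos_of : ∀ {v : V} (hv : v ∉ F) (g : ↥(insert v F) → ℝ),
      0 < g ⟨v, Finset.mem_insert_self _ _⟩ → ∀ᶠ ε : ℝ in 𝓝[>] 0,
      ∀ a ∈ insert v F, 0 < (x' + ε • ex0 (insert v F) g) a := by
    intro v hv g hgv
    have e2 : ∀ᶠ ε : ℝ in 𝓝[>] 0, ∀ a ∈ F, 0 < (x' + ε • ex0 (insert v F) g) a :=
      nhdsWithin_le_nhds (eventually_pos_of hx' _)
    have e3 : ∀ᶠ ε : ℝ in 𝓝[>] 0, 0 < ε := self_mem_nhdsWithin
    filter_upwards [e2, e3] with ε f2 f3 a ha
    rw [Finset.mem_insert] at ha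
    rcases ha with rfl | ha
    · rw [Pi.add_apply, Pi.smul_apply, smul_eq_mul, hx'.1.2.1 a hv,
        ex0_mem g (Finset.mem_insert_self _ _)]
      have := mul_pos f3 hgv
      linarith
    · exact f2 a ha
  have e1 : ∀ᶠ ε : ℝ in 𝓝[>] 0, x' + ε • ex0 (insert u F) g ∈ W :=
    nhdsWithin_le_nhds (eventually_add hW hx'W)
  have e1' : ∀ᶠ ε : ℝ in 𝓝[>] 0, x' + ε • ex0 (insert u' F) g' ∈ W :=
    nhdsWithin_le_nhds (eventually_add hW hx'W)
  have e2 := pos_of hu g (by rw [hgu]; exact one_pos)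
  have e2' := pos_of hu' g' hγpos
  have e3 : ∀ᶠ ε : ℝ in 𝓝[>] 0, 0 < ε := self_mem_nhdsWithin
  obtain ⟨ε, f1, f1', f2, f2', f3⟩ := (e1.and (e1'.and (e2.and (e2'.and e3)))).exists
  have hxw : x' ∈ simplex (insert u F) := simplex_mono (Finset.subset_insert _ _) hx'.1
  have hxw' : x' ∈ simplex (insert u' F) := simplex_mono (Finset.subset_insert _ _) hx'.1
  have g1 := add_ex0_mem hxw hg f2
  have g1' := add_ex0_mem hxw' hg' f2'
  have g2 : h (x' + ε • ex0 (insert u F) g) = h (x' + ε • ex0 (insert u' F) g') := by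
    rw [hcu _ ⟨g1.1, f1⟩, hcu' _ ⟨g1'.1, f1'⟩, formula_add, formula_add, hgg',
      ← hcu _ ⟨hxw, hx'W⟩, ← hcu' _ ⟨hxw', hx'W⟩]
  have hsp : ∀ y ∈ simplex (insert u F), y ∈ space K :=
    fun y hy => (mem_space_iff K).2 ⟨_, hw, hy⟩
  have hsp' : ∀ y ∈ simplex (insert u' F), y ∈ space K :=
    fun y hy => (mem_space_iff K).2 ⟨_, hw', hy⟩
  have g3 := hc.inj (hWU ⟨f1, hsp _ g1.1⟩) (hWU ⟨f1', hsp' _ g1'.1⟩) g2
  have g4 := g1.2 u (Finset.mem_insert_self _ _)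
  rw [g3] at g4
  have g5 : (x' + ε • ex0 (insert u' F) g') u = 0 := by
    apply g1'.1.2.1
    rw [Finset.mem_insert]
    push Not
    exact ⟨huu', hu⟩
  exact g4.ne' g5

/-- Every codimension-one face lies in exactly two facets. -/
theorem two_facets (hK : IsPLManifold m K) {F : Finset V} (hF : F ∈ K.faces)
    (hcard : F.card = m) {w : Finset V} (hw : w ∈ K.faces) (hwc : w.card = m + 1) (hFw : F ⊆ w) :
    ∃ w', w' ∈ K.faces ∧ w'.card = m + 1 ∧ F ⊆ w' ∧ w' ≠ w ∧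
      ∀ t ∈ K.faces, t.card = m + 1 → F ⊆ t → t ≠ w → t = w' := by
  classical
  have hFne := face_nonempty' K hF
  obtain ⟨U, h, x', W, lm, hc, hx', hW, hx'W, hWU, hWpos, hlm, hpages⟩ := exists_pages hK hF hcard
  have hspF : ∀ y ∈ simplex F, y ∈ space K := fun y hy => (mem_space_iff K).2 ⟨F, hF, hy⟩
  have hx'U : x' ∈ U := hWU ⟨hx'W, hspF x' hx'.1⟩
  have hcardu : ∀ u, u ∉ F → (insert u F).card = m + 1 := by
    intro u hu
    rw [Finset.card_insert_of_notMem hu, hcard]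
  obtain ⟨u, hu, rfl⟩ := facet_eq_insert hcard hFw hwc
  obtain ⟨c, κ, hκ, hcu, hk, hs⟩ := hpages u hu hw
  -- existence of a second facet
  have hex : ∃ w', w' ∈ K.faces ∧ w'.card = m + 1 ∧ F ⊆ w' ∧ w' ≠ insert u F := by
    by_contra hcon
    push Not at hcon
    obtain ⟨ξ, hξ⟩ : ∃ ξ, lm ξ = -κ := by
      obtain ⟨g, hg1, hg2⟩ := hs 0
      obtain ⟨e, he⟩ : ∃ e, lm e ≠ 0 := by
        by_contra hall
        push Not at hall
        exact hlm (LinearMap.ext hall)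
      exact ⟨(-κ / lm e) • e, by rw [map_smul, smul_eq_mul]; field_simp⟩
    obtain ⟨ε, hε, y, ⟨hyW, hyU⟩, hy⟩ := hc.exists_preimage hW hx'W hx'U ξ
    obtain ⟨t, ht, hFt, hyt⟩ := exists_sup_of_pos K (hc.sub hyU) (hWpos y hyW)
    obtain ⟨t', ht', htt', ht'c, _⟩ := exists_facet hK ht
    have h1 := hcon t' ht' ht'c (hFt.trans htt')
    rw [h1] at htt'
    have hyw : y ∈ simplex (insert u F) := simplex_mono htt' hyt.1
    have hxw : x' ∈ simplex (insert u F) := simplex_mono (Finset.subset_insert _ _) hx'.1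
    let g : ↥(insert u F) → ℝ := fun v => y v - x' v
    have hg : sg (insert u F) g = 0 := by
      rw [sg_apply]
      simp only [g]
      rw [Finset.sum_sub_distrib, Finset.sum_coe_sort (insert u F) (fun v => y v),
        Finset.sum_coe_sort (insert u F) (fun v => x' v), hyw.2.2, hxw.2.2]
      simp
    have h2 : lam' (insert u F) c g = ε • ξ := by
      rw [hcu y ⟨hyw, hyW⟩, hcu x' ⟨hxw, hx'W⟩] at hy
      rw [lam'_apply]
      have h3 : ∑ v : ↥(insert u F), g v • c v =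
          ∑ v ∈ insert u F, y v • c v - ∑ v ∈ insert u F, x' v • c v := by
        rw [← Finset.sum_sub_distrib, ← Finset.sum_coe_sort (insert u F)]
        refine Finset.sum_congr rfl (fun v _ => ?_)
        simp only [g]
        rw [sub_smul]
      rw [h3, hy, add_sub_cancel_left]
    have h4 := hk g hg
    rw [h2, map_smul, smul_eq_mul, hξ] at h4
    have h5 : g ⟨u, Finset.mem_insert_self _ _⟩ = y u := by
      simp only [g]
      rw [hx'.1.2.1 u hu, sub_zero]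
    rw [h5] at h4
    have h6 : (y u + ε) * κ = 0 := by linarith
    rw [mul_eq_zero] at h6
    have h7 := hyw.1 u
    rcases h6 with h6 | h6
    · linarith
    · exact hκ h6
  obtain ⟨w', hw', hw'c, hFw', hne⟩ := hex
  refine ⟨w', hw', hw'c, hFw', hne, ?_⟩
  intro t ht htc hFt htne
  by_contra hcon
  obtain ⟨u', hu', rfl⟩ := facet_eq_insert hcard hFw' hw'c
  obtain ⟨u'', hu'', rfl⟩ := facet_eq_insert hcard hFt htc
  have n1 : u ≠ u' := fun h => hne (by rw [h])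
  have n2 : u ≠ u'' := fun h => htne (by rw [h])
  have n3 : u' ≠ u'' := fun h => hcon (by rw [h])
  obtain ⟨c', κ', hκ', hcu', hk', hs'⟩ := hpages u' hu' hw'
  obtain ⟨c'', κ'', hκ'', hcu'', hk'', hs''⟩ := hpages u'' hu'' ht
  rcases lt_or_gt_of_ne hκ with k1 | k1 <;> rcases lt_or_gt_of_ne hκ' with k2 | k2 <;>
    rcases lt_or_gt_of_ne hκ'' with k3 | k3
  · exact same_side hc hFne hx' hW hx'W hWU hu hu' n1 hw hw' hcu hcu' hk hk' hs'
      (mul_pos_of_neg_of_neg k1 k2)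
  · exact same_side hc hFne hx' hW hx'W hWU hu hu' n1 hw hw' hcu hcu' hk hk' hs'
      (mul_pos_of_neg_of_neg k1 k2)
  · exact same_side hc hFne hx' hW hx'W hWU hu hu'' n2 hw ht hcu hcu'' hk hk'' hs''
      (mul_pos_of_neg_of_neg k1 k3)
  · exact same_side hc hFne hx' hW hx'W hWU hu' hu'' n3 hw' ht hcu' hcu'' hk' hk'' hs''
      (mul_pos k2 k3)
  · exact same_side hc hFne hx' hW hx'W hWU hu' hu'' n3 hw' ht hcu' hcu'' hk' hk'' hs''
      (mul_pos_of_neg_of_neg k2 k3)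
  · exact same_side hc hFne hx' hW hx'W hWU hu hu'' n2 hw ht hcu hcu'' hk hk'' hs''
      (mul_pos k1 k3)
  · exact same_side hc hFne hx' hW hx'W hWU hu hu' n1 hw hw' hcu hcu' hk hk' hs'
      (mul_pos k1 k2)
  · exact same_side hc hFne hx' hW hx'W hWU hu hu' n1 hw hw' hcu hcu' hk hk' hs'
      (mul_pos k1 k2)

/-- A finite union of translates of proper subspaces does not contain a nonempty open set. -/
theorem exists_notMem_union {ι : Type*} (I : Finset ι) (Q : ι → Submodule ℝ (Fin m → ℝ))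
    (hQ : ∀ i ∈ I, Q i ≠ ⊤) (a : Fin m → ℝ) {B : Set (Fin m → ℝ)} (hB : IsOpen B)
    (hne : B.Nonempty) : ∃ β ∈ B, ∀ i ∈ I, β - a ∉ Q i := by
  by_contra hcon
  push Not at hcon
  have h1 : B ⊆ ⋃ i ∈ (I : Set ι), (AffineSubspace.mk' a (Q i) : Set (Fin m → ℝ)) := by
    intro β hβ
    obtain ⟨i, hi, h⟩ := hcon β hβ
    rw [mem_iUnion₂]
    refine ⟨i, hi, ?_⟩
    rw [SetLike.mem_coe, AffineSubspace.mem_mk']
    exact h
  have h2 : MeasureTheory.volume
      (⋃ i ∈ (I : Set ι), (AffineSubspace.mk' a (Q i) : Set (Fin m → ℝ))) = 0 := by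
    rw [MeasureTheory.measure_biUnion_null_iff I.countable_toSet]
    intro i hi
    apply MeasureTheory.Measure.addHaar_affineSubspace
    intro htop
    apply hQ i hi
    have := AffineSubspace.direction_mk' a (Q i)
    rw [htop, AffineSubspace.direction_top] at this
    exact this.symm
  have h3 := hB.measure_pos MeasureTheory.volume hne
  have h4 := (MeasureTheory.measure_mono h1).trans h2.le
  exact absurd h4 (not_le.2 h3)

/-- Adjacency of facets. -/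
def Adj (m : ℕ) [DecidableEq V] (c d : Finset V) : Prop := c ≠ d ∧ m ≤ (c ∩ d).card

theorem isClosed_facets (hK : IsPLManifold m K) (A : Set (Finset V)) (hA : A ⊆ K.faces) :
    IsClosed {x : space K | ∃ c ∈ A, (x : V → ℝ) ∈ simplex c} := by
  have h1 : {x : space K | ∃ c ∈ A, (x : V → ℝ) ∈ simplex c} =
      ⋃ c : A, {x : space K | (x : V → ℝ) ∈ simplex (c : Finset V)} := by
    ext x
    simp
  rw [h1]
  refine LocallyFinite.isClosed_iUnion ?_ (fun c =>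
    (isClosed_simplex _).preimage continuous_subtype_val)
  intro x
  obtain ⟨s, hs, hxs⟩ := (mem_space_iff K).1 x.2
  obtain ⟨v, hv, hpos⟩ := exists_pos_of_mem hxs
  refine ⟨{y | 0 < (y : V → ℝ) v}, ?_, ?_⟩
  · exact (isOpen_lt continuous_const
      ((continuous_apply v).comp continuous_subtype_val)).mem_nhds hpos
  · have h2 : ((fun c : A => (c : Finset V)) ⁻¹' {t | t ∈ K.faces ∧ v ∈ t}).Finite :=
      (hK.1 v).preimage Subtype.val_injective.injOn
    refine h2.subset ?_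
    rintro ⟨c, hc⟩ ⟨y, hy1, hy2⟩
    refine ⟨hA hc, ?_⟩
    by_contra hvc
    have hy1' : (y : V → ℝ) ∈ simplex c := hy1
    have hy2' : 0 < (y : V → ℝ) v := hy2
    exact hy2'.ne' (hy1'.2.1 v hvc)

/-- Two nonadjacent families of facets which cover cannot meet. -/
theorem separated [DecidableEq V] (hK : IsPLManifold m K) (A B : Set (Finset V))
    (hA : A ⊆ {c | c ∈ K.faces ∧ c.card = m + 1}) (hB : B ⊆ {c | c ∈ K.faces ∧ c.card = m + 1})
    (hcov : ∀ c, c ∈ K.faces → c.card = m + 1 → c ∈ A ∨ c ∈ B)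
    (hadj : ∀ c ∈ A, ∀ d ∈ B, (c ∩ d).card < m) {x : V → ℝ} {a0 b0 : Finset V}
    (ha0 : a0 ∈ A) (hb0 : b0 ∈ B) (hxa : x ∈ simplex a0) (hxb : x ∈ simplex b0) : False := by
  have hspace : ∀ c ∈ K.faces, ∀ y ∈ simplex c, y ∈ space K :=
    fun c hc y hy => (mem_space_iff K).2 ⟨c, hc, hy⟩
  obtain ⟨U, h, hxU, hc⟩ := exists_chart hK (hspace a0 (hA ha0).1 x hxa)
  obtain ⟨P, O, hO, hxO, hOU, hP1, hP2⟩ := hc.exists_cells hxU
  have hOeq : O ∩ U = O ∩ space K := by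
    ext y
    constructor
    · rintro ⟨h1, h2⟩; exact ⟨h1, hc.sub h2⟩
    · rintro ⟨h1, h2⟩; exact ⟨h1, hOU ⟨h1, h2⟩⟩
  have hV0 : IsOpen (h '' (O ∩ U)) := hc.isOpen_image hO
  have hhx : h x ∈ h '' (O ∩ U) := ⟨x, ⟨hxO, hxU⟩, rfl⟩
  obtain ⟨r, hr, hball⟩ := Metric.isOpen_iff.1 hV0 _ hhx
  -- open set of points with image in the ball
  have hpre : ∃ O1 : Set (V → ℝ), IsOpen O1 ∧ x ∈ O1 ∧ O1 ⊆ O ∧
      ∀ y ∈ O1 ∩ space K, h y ∈ Metric.ball (h x) r := by
    have h1 : ∀ᶠ y in 𝓝[U] x, h y ∈ Metric.ball (h x) r :=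
      (hc.continuousOn x hxU) (Metric.ball_mem_nhds _ hr)
    obtain ⟨O2, hO2, hxO2, hO2'⟩ := mem_nhdsWithin.1 h1
    refine ⟨O2 ∩ O, hO2.inter hO, ⟨hxO2, hxO⟩, inter_subset_right, ?_⟩
    rintro y ⟨⟨h2, h3⟩, h4⟩
    exact hO2' ⟨h2, hOU ⟨h3, h4⟩⟩
  obtain ⟨O1, hO1, hxO1, hO1O, hO1ball⟩ := hpre
  -- a point of the interior of `a0`, and one of `b0`
  have hpt : ∀ c : Finset V, c ∈ K.faces → x ∈ simplex c → ∃ y ∈ osimplex c, y ∈ O1 := by
    intro c hc' hxc
    obtain ⟨z, hz⟩ := exists_osimplex (nonempty_of_mem hxc)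
    have e1 : ∀ᶠ ε : ℝ in 𝓝[>] 0, (1 - ε) • x + ε • z ∈ O1 :=
      nhdsWithin_le_nhds (eventually_segment hO1 hxO1)
    have e2 : ∀ᶠ ε : ℝ in 𝓝[>] 0, 0 < ε := self_mem_nhdsWithin
    have e3 : ∀ᶠ ε : ℝ in 𝓝[>] 0, ε < 1 :=
      nhdsWithin_le_nhds ((isOpen_Iio (a := (1 : ℝ))).mem_nhds (by simp))
    obtain ⟨ε, f1, f2, f3⟩ := (e1.and (e2.and e3)).exists
    exact ⟨_, convex_mem_osimplex hxc hz (by linarith) f2 (by ring), f1⟩
  obtain ⟨a1, ha1, ha1O⟩ := hpt a0 (hA ha0).1 hxa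
  obtain ⟨b1, hb1, hb1O⟩ := hpt b0 (hB hb0).1 hxb
  have ha1sp := hspace a0 (hA ha0).1 a1 ha1.1
  have hb1sp := hspace b0 (hB hb0).1 b1 hb1.1
  -- the open set of endpoints
  let OB : Set (Fin m → ℝ) := h '' ((O1 ∩ {y | ∀ v ∈ b0, 0 < y v}) ∩ U)
  have hOB : IsOpen OB := hc.isOpen_image (hO1.inter (isOpen_pos b0))
  have hOBne : OB.Nonempty := ⟨h b1, b1, ⟨⟨hb1O, hb1.2⟩, hOU ⟨hO1O hb1O, hb1sp⟩⟩, rfl⟩
  -- the bad subspaces
  choose! cf hcf using fun (p : Finset V × Finset (V → ℝ)) (hp : p ∈ P) => (hP1 p hp).2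
  let I : Finset ((Finset V × Finset (V → ℝ)) × Finset V) :=
    (P ×ˢ (P.biUnion fun p => p.1.powerset)).filter fun q => q.2.card < m
  let Q : ((Finset V × Finset (V → ℝ)) × Finset V) → Submodule ℝ (Fin m → ℝ) := fun q =>
    Submodule.span ℝ ((fun v => cf q.1 v - h a1) '' (q.2 : Set V))
  have hQ : ∀ q ∈ I, Q q ≠ ⊤ := by
    intro q hq htop
    have h1 : q.2.card < m := (Finset.mem_filter.1 hq).2
    have h2 : Module.finrank ℝ (Q q) ≤ q.2.card := by
      have := finrank_span_finset_le_card (R := ℝ) (q.2.image fun v => cf q.1 v - h a1)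
      rw [Finset.coe_image] at this
      exact this.trans Finset.card_image_le
    rw [htop, finrank_top] at h2
    simp at h2
    omega
  obtain ⟨β, hβ, hβQ⟩ := exists_notMem_union I Q hQ (h a1) hOB hOBne
  obtain ⟨y1, ⟨⟨hy1O, hy1pos⟩, hy1U⟩, rfl⟩ := hβ
  -- the path
  have hseg : ∀ t ∈ Icc (0 : ℝ) 1, (1 - t) • h a1 + t • h y1 ∈ Metric.ball (h x) r := by
    intro t ht
    apply (convex_ball (h x) r) (hO1ball a1 ⟨ha1O, ha1sp⟩) (hO1ball y1 ⟨hy1O, hc.sub hy1U⟩)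
      (by linarith [ht.2]) ht.1 (by ring)
  have hrange : ∀ t : Icc (0 : ℝ) 1, (1 - (t : ℝ)) • h a1 + (t : ℝ) • h y1 ∈
      range (fun y : U => h y) := by
    intro t
    obtain ⟨y, ⟨_, hyU⟩, hy⟩ := hball (hseg t t.2)
    exact ⟨⟨y, hyU⟩, hy⟩
  let e := hc.emb.isEmbedding.toHomeomorph
  let γ : Icc (0 : ℝ) 1 → space K := fun t =>
    ⟨e.symm ⟨_, hrange t⟩, hc.sub (e.symm ⟨_, hrange t⟩).2⟩
  have hγU : ∀ t, (γ t : V → ℝ) ∈ U := fun t => (e.symm ⟨_, hrange t⟩).2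
  have hγh : ∀ t : Icc (0 : ℝ) 1, h (γ t) = (1 - (t : ℝ)) • h a1 + (t : ℝ) • h y1 := by
    intro t
    have := congrArg Subtype.val (e.apply_symm_apply ⟨_, hrange t⟩)
    exact this
  have hγcont : Continuous γ := by
    refine Continuous.subtype_mk ?_ _
    refine continuous_subtype_val.comp (e.symm.continuous.comp ?_)
    refine Continuous.subtype_mk ?_ _
    fun_prop
  have hγO : ∀ t, (γ t : V → ℝ) ∈ O ∩ space K := by
    intro t
    obtain ⟨y, ⟨hyO, hyU⟩, hy⟩ := hball (hseg t t.2)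
    have h1 : h y = h (γ t) := by rw [hγh]; exact hy
    have h2 := hc.inj hyU (hγU t) h1
    rw [← h2]
    exact ⟨hyO, hc.sub hyU⟩
  have hγ0 : (γ ⟨0, by simp⟩ : V → ℝ) = a1 := by
    apply hc.inj (hγU _) (hOU ⟨hO1O ha1O, ha1sp⟩)
    rw [hγh]
    simp
  have hγ1 : (γ ⟨1, by simp⟩ : V → ℝ) = y1 := by
    apply hc.inj (hγU _) hy1U
    rw [hγh]
    simp
  have hconn : IsPreconnected (range γ) := by
    have : PreconnectedSpace (Icc (0 : ℝ) 1) :=
      isPreconnected_iff_preconnectedSpace.1 isPreconnected_Icc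
    exact isPreconnected_range hγcont
  rw [isPreconnected_closed_iff] at hconn
  have hclA := isClosed_facets hK A (fun c hc => (hA hc).1)
  have hclB := isClosed_facets hK B (fun c hc => (hB hc).1)
  have hy1b : y1 ∈ simplex b0 := by
    obtain ⟨t, ht, hbt, hyt⟩ := exists_sup_of_pos K (hc.sub hy1U) hy1pos
    have := maximal_of_card hK (hB hb0).2 t ht hbt
    rw [this] at hyt
    exact hyt.1
  obtain ⟨z, ⟨t, rfl⟩, ⟨a, haA, hza⟩, ⟨b, hbB, hzb⟩⟩ := hconn _ _ hclA hclB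
    (by
      rintro z ⟨t, rfl⟩
      obtain ⟨s, hs, hzs⟩ := (mem_space_iff K).1 (γ t).2
      obtain ⟨c, hc1, hsc, hcc, _⟩ := exists_facet hK hs
      rcases hcov c hc1 hcc with h1 | h1
      · exact Or.inl ⟨c, h1, simplex_mono hsc hzs⟩
      · exact Or.inr ⟨c, h1, simplex_mono hsc hzs⟩)
    ⟨γ ⟨0, by simp⟩, ⟨_, rfl⟩, ⟨a0, ha0, by rw [hγ0]; exact ha1.1⟩⟩
    ⟨γ ⟨1, by simp⟩, ⟨_, rfl⟩, ⟨b0, hb0, by rw [hγ1]; exact hy1b⟩⟩
  -- the support of the meeting point is small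
  have hzsp := (γ t).2
  obtain ⟨η, hη, hzη⟩ := exists_osimplex_of_mem K hzsp
  have hηcard : η.card < m := by
    have h1 : η ⊆ a ∩ b := Finset.subset_inter (sub_of_osimplex hzη.2 hza)
      (sub_of_osimplex hzη.2 hzb)
    exact (Finset.card_le_card h1).trans_lt (hadj a haA b hbB)
  obtain ⟨p, hp, hzp⟩ := hP2 _ (hγO t)
  have hηp : η ⊆ p.1 := sub_of_osimplex hzη.2 hzp.1
  have ht0 : (t : ℝ) ≠ 0 := by
    intro h0
    have h1 : t = ⟨0, by simp⟩ := Subtype.ext h0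
    rw [h1] at hzb
    have h2 : a1 ∈ simplex b := by rw [← hγ0]; exact hzb
    have h3 : a0 ⊆ b := sub_of_osimplex ha1.2 h2
    have h4 := hadj a0 ha0 b hbB
    have h5 : (a0 ∩ b) = a0 := Finset.inter_eq_left.2 h3
    rw [h5, (hA ha0).2] at h4
    omega
  have hmem : ((p, η) : (Finset V × Finset (V → ℝ)) × Finset V) ∈ I := by
    rw [Finset.mem_filter]
    refine ⟨?_, hηcard⟩
    rw [Finset.mem_product]
    refine ⟨hp, ?_⟩
    rw [Finset.mem_biUnion]
    exact ⟨p, hp, Finset.mem_powerset.2 hηp⟩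
  apply hβQ _ hmem
  -- the endpoint lies in a bad subspace
  have h1 : h (γ t) = ∑ v ∈ p.1, (γ t : V → ℝ) v • cf p v := hcf p hp _ hzp
  have h2 : h (γ t) - h a1 = ∑ v ∈ η, (γ t : V → ℝ) v • (cf p v - h a1) := by
    have h3 : ∑ v ∈ p.1, (γ t : V → ℝ) v • cf p v = ∑ v ∈ η, (γ t : V → ℝ) v • cf p v := by
      symm
      apply Finset.sum_subset hηp
      intro v _ hv
      rw [hzη.1.2.1 v hv, zero_smul]
    rw [h1, h3]
    simp only [smul_sub, Finset.sum_sub_distrib]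
    rw [← Finset.sum_smul, hzη.1.2.2, one_smul]
  have h3 : h (γ t) - h a1 ∈ Q (p, η) := by
    rw [h2]
    apply Submodule.sum_mem
    intro v hv
    apply Submodule.smul_mem
    apply Submodule.subset_span
    exact ⟨v, hv, rfl⟩
  have h4 : h y1 - h a1 = (t : ℝ)⁻¹ • (h (γ t) - h a1) := by
    rw [hγh]
    have h5 : (1 - (t : ℝ)) • h a1 + (t : ℝ) • h y1 - h a1 = (t : ℝ) • (h y1 - h a1) := by
      rw [sub_smul, one_smul, smul_sub]
      abel
    rw [h5, smul_smul, inv_mul_cancel₀ ht0, one_smul]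
  rw [h4]
  exact Submodule.smul_mem _ _ h3

end Pool.Agent.Helper74.Branched
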