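import Pool.Agent.Helper74.Branched.System
import Pool.Agent.Helper74.Branched.PWA

/-!
# The folded map is piecewise linear and non-degenerate
-/

open Function Topology

noncomputable section

namespace Pool.Agent.Helper74.Branched

variable {V : Type*} [DecidableEq V] {n : ℕ}

omit [DecidableEq V] in
theorem sum_eq_of_support {s t u : Finset V} {x : V → ℝ} (h : ∀ v, v ∉ u → x v = 0)
    (hs : u ⊆ s) (ht : u ⊆ t) : ∑ v ∈ s, x v = ∑ v ∈ t, x v := by
  rw [← Finset.sum_subset hs (fun v _ hv => h v hv), ← Finset.sum_subset ht (fun v _ hv => h v hv)]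

/-- Barycentric coordinates from the values at the vertices. -/
def bOf (ς : Fin (n + 1) → V) : (V → ℝ) →ₗ[ℝ] (Fin (n + 1) → ℝ) :=
  LinearMap.pi fun l => (l.val + 1 : ℝ) •
    ((extL l.val - extL (l.val + 1)).comp (LinearMap.pi fun k => LinearMap.proj (ς k)))

omit [DecidableEq V] in
theorem bOf_apply (ς : Fin (n + 1) → V) (y : V → ℝ) (l : Fin (n + 1)) :
    bOf ς y l = (l.val + 1 : ℝ) * (ext (y ∘ ς) l.val - ext (y ∘ ς) (l.val + 1)) := rfl

omit [DecidableEq V] in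
theorem Yc_bOf (ς : Fin (n + 1) → V) (y : V → ℝ) (k : ℕ) :
    Yc (bOf ς y) k = ext (y ∘ ς) k := by
  have hYc : ∀ m k : ℕ, n + 1 ≤ k + m → Yc (bOf ς y) k = ext (y ∘ ς) k := by
    intro m
    induction m with
    | zero =>
      intro k hk
      rw [Yc_ge _ (by omega), ext_ge _ (by omega)]
    | succ m ih =>
      intro k hk
      by_cases h : k < n + 1
      · have h1 := Yc_succ (bOf ς y) ⟨k, h⟩
        simp only at h1
        rw [h1, ih (k + 1) (by omega), bOf_apply]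
        have h2 : (k + 1 : ℝ) ≠ 0 := by positivity
        simp only
        field_simp
        ring
      · rw [Yc_ge _ (by omega), ext_ge _ (by omega)]
  exact hYc (n + 1) k (by omega)

theorem yy_bOf {ς : Fin (n + 1) → V} (hς : Injective ς) {y : V → ℝ}
    (hy : ∀ v, (∀ k, ς k ≠ v) → y v = 0) : yy ς (bOf ς y) = y := by
  funext v
  by_cases hv : ∃ k, ς k = v
  · obtain ⟨k, rfl⟩ := hv
    rw [yy_apply hς, Yc_bOf, ext_val]
    rfl
  · push Not at hv
    rw [yy_apply_of_ne _ hv, hy v hv]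

theorem bOf_yy {ς : Fin (n + 1) → V} (hς : Injective ς) (b : Fin (n + 1) → ℝ) :
    bOf ς (yy ς b) = b := by
  have h1 : ∀ k, ext (yy ς b ∘ ς) k = Yc b k := by
    intro k
    by_cases hk : k < n + 1
    · have := ext_val (yy ς b ∘ ς) ⟨k, hk⟩
      simp only at this
      rw [this, comp_apply, yy_apply hς]
    · rw [ext_ge _ (by omega), Yc_ge _ (by omega)]
  funext l
  rw [bOf_apply, h1, h1, Yc_succ]
  have h2 : (l.val + 1 : ℝ) ≠ 0 := by positivity
  field_simp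
  ring

omit [DecidableEq V] in
theorem refl_inj {U W : Fin (n + 1) → ℝ} (h : refl U = refl W) : U = W := by
  rw [← refl_refl U, h, refl_refl]

namespace Sys

variable {C : Type*} (S : Sys V C n)

/-- The backward step. -/
def rev (c : C) (u : V) : (V → ℝ) →ₗ[ℝ] (V → ℝ) :=
  LinearMap.id - ((n + 1 : ℝ) • (LinearMap.proj (R := ℝ) (φ := fun _ : V => ℝ) u)).smulRight
    (S.dir c)

theorem rev_apply (c : C) (u : V) (x : V → ℝ) :
    S.rev c u x = x - ((n + 1 : ℝ) * x u) • S.dir c := rfl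

theorem exists_entry_vertex (c : C) : ∃ u, u ∈ S.vs (S.par c) ∧ u ∉ S.E c := by
  by_contra hcon
  push Not at hcon
  have := Finset.card_le_card (show S.vs (S.par c) ⊆ S.E c from hcon)
  rw [S.card_vs, S.card_E] at this
  omega

/-- The vertex of `par c` which is not a vertex of `c`. -/
def entry (c : C) : V := (S.exists_entry_vertex c).choose

theorem entry_mem (c : C) : S.entry c ∈ S.vs (S.par c) := (S.exists_entry_vertex c).choose_spec.1

theorem entry_notMem (c : C) : S.entry c ∉ S.E c := (S.exists_entry_vertex c).choose_spec.2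

theorem entry_mem_E (c : C) : S.entry c ∈ S.E (S.par c) := by
  rw [S.mem_E]
  refine ⟨?_, S.entry_mem c⟩
  intro h
  apply S.entry_notMem c
  rw [h]
  exact S.ex_par_mem c

theorem eq_entry_of {c : C} {v : V} (hv : v ∈ S.vs (S.par c)) (hv' : v ∉ S.E c) :
    v = S.entry c := by
  by_contra hne
  have h1 : insert v (insert (S.entry c) (S.E c)) ⊆ S.vs (S.par c) := by
    intro x hx
    simp only [Finset.mem_insert] at hx
    rcases hx with rfl | rfl | hx
    · exact hv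
    · exact S.entry_mem c
    · exact S.E_sub_par c hx
  have h2 := Finset.card_le_card h1
  rw [Finset.card_insert_of_notMem (by
      rw [Finset.mem_insert]; push Not; exact ⟨hne, hv'⟩),
    Finset.card_insert_of_notMem (S.entry_notMem c), S.card_vs, S.card_E] at h2
  omega

/-- The starting point of the trajectory through a point. -/
def back (w : C) (i : V) : ℕ → ((V → ℝ) →ₗ[ℝ] (V → ℝ))
  | 0 => S.rev w i
  | k + 1 => (back w i k).comp (S.rev (S.par^[k + 1] w) (S.entry (S.par^[k] w)))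

/-- The time of a point on the trajectory. -/
def tback (w : C) (i : V) : ℕ → ((V → ℝ) →ₗ[ℝ] ℝ)
  | 0 => (S.lam w * (n + 1 : ℝ)) • LinearMap.proj i
  | k + 1 => (S.lam (S.par^[k + 1] w) * (n + 1 : ℝ)) • LinearMap.proj (S.entry (S.par^[k] w)) +
      (tback w i k).comp (S.rev (S.par^[k + 1] w) (S.entry (S.par^[k] w)))

theorem back_zero (w : C) (i : V) (x : V → ℝ) : S.back w i 0 x = S.rev w i x := rfl

theorem back_succ (w : C) (i : V) (k : ℕ) (x : V → ℝ) : S.back w i (k + 1) x =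
    S.back w i k (S.rev (S.par^[k + 1] w) (S.entry (S.par^[k] w)) x) := rfl

theorem tback_zero (w : C) (i : V) (x : V → ℝ) :
    S.tback w i 0 x = S.lam w * (n + 1 : ℝ) * x i := rfl

theorem tback_succ (w : C) (i : V) (k : ℕ) (x : V → ℝ) : S.tback w i (k + 1) x =
    S.lam (S.par^[k + 1] w) * (n + 1 : ℝ) * x (S.entry (S.par^[k] w)) +
    S.tback w i k (S.rev (S.par^[k + 1] w) (S.entry (S.par^[k] w)) x) := rfl

theorem rev_of {c : C} {u : V} (hu : u ∈ S.E c) {p : V → ℝ} (hp : p u = 0) (θ : ℝ) :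
    (n + 1 : ℝ) * (p + θ • S.dir c) u = θ ∧ S.rev c u (p + θ • S.dir c) = p := by
  have hM : (n + 1 : ℝ) ≠ 0 := by positivity
  have h1 : (n + 1 : ℝ) * (p + θ • S.dir c) u = θ := by
    rw [Pi.add_apply, Pi.smul_apply, smul_eq_mul, S.dir_E hu, hp]
    field_simp
    ring
  refine ⟨h1, ?_⟩
  rw [S.rev_apply, h1]
  simp

theorem back_fwd {w : C} {i : V} (hi : i ∈ S.E w) {y : V → ℝ}
    (hy : y ∈ simplex ((S.vs w).erase i)) (k : ℕ) : ∀ θ : ℝ,
    S.back w i k (S.pos w k y + θ • S.dir (S.par^[k] w)) = y ∧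
    S.tback w i k (S.pos w k y + θ • S.dir (S.par^[k] w)) =
      S.tim w k y + S.lam (S.par^[k] w) * θ := by
  have hy' : y ∈ simplex (S.vs w) := simplex_mono (Finset.erase_subset _ _) hy
  induction k with
  | zero =>
    intro θ
    have hyi : y i = 0 := hy.2.1 i (Finset.notMem_erase _ _)
    obtain ⟨h1, h2⟩ := S.rev_of hi hyi θ
    refine ⟨h2, ?_⟩
    rw [tback_zero, S.tim_zero, zero_add, mul_assoc]
    show S.lam w * ((n + 1 : ℝ) * (y + θ • S.dir w) i) = S.lam w * θ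
    rw [h1]
  | succ k ih =>
    intro θ
    have hu : S.entry (S.par^[k] w) ∈ S.E (S.par^[k + 1] w) := by
      rw [iterate_succ_apply']
      exact S.entry_mem_E _
    have hpu : S.pos w (k + 1) y (S.entry (S.par^[k] w)) = 0 :=
      (S.pos_mem_E w k hy').2.1 _ (S.entry_notMem _)
    obtain ⟨h1, h2⟩ := S.rev_of hu hpu θ
    obtain ⟨h3, h4⟩ := ih (S.pos w k y (S.ex (S.par^[k] w)))
    rw [← pos_succ] at h3 h4
    refine ⟨?_, ?_⟩
    · rw [back_succ, h2, h3]
    · rw [tback_succ, h2, h4, mul_assoc, h1, tim_succ]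
      ring

/-- The entry vertex at the stage `k`. -/
def ent (w : C) (i : V) : ℕ → V
  | 0 => i
  | k + 1 => S.entry (S.par^[k] w)

theorem rev_support {c : C} {u : V} (hu : u ∈ S.E c) {x : V → ℝ}
    (hx : ∀ v, v ∉ S.vs c → x v = 0) : ∀ v, v ∉ (S.vs c).erase u → S.rev c u x v = 0 := by
  intro v hv
  rw [S.rev_apply, Pi.sub_apply, Pi.smul_apply, smul_eq_mul]
  by_cases hvc : v ∈ S.vs c
  · have : v = u := by
      by_contra h
      exact hv (Finset.mem_erase.2 ⟨h, hvc⟩)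
    rw [this, S.dir_E hu]
    have hM : (n + 1 : ℝ) ≠ 0 := by positivity
    field_simp
    ring
  · rw [hx v hvc, S.dir_notMem hvc]
    ring

theorem rev_sum {c : C} {u : V} (x : V → ℝ) :
    ∑ v ∈ S.vs c, S.rev c u x v = ∑ v ∈ S.vs c, x v := by
  simp only [S.rev_apply, Pi.sub_apply, Pi.smul_apply, smul_eq_mul, Finset.sum_sub_distrib,
    ← Finset.mul_sum, S.sum_dir]
  ring

theorem back_bwd {w : C} {i : V} (hi : i ∈ S.E w) (k : ℕ) : ∀ x : V → ℝ,
    (∀ v, v ∉ S.vs (S.par^[k] w) → x v = 0) →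
    x = S.pos w k (S.back w i k x) + ((n + 1 : ℝ) * x (S.ent w i k)) • S.dir (S.par^[k] w) ∧
    S.tback w i k x = S.tim w k (S.back w i k x) +
      S.lam (S.par^[k] w) * ((n + 1 : ℝ) * x (S.ent w i k)) ∧
    (∀ v, v ∉ (S.vs w).erase i → S.back w i k x v = 0) ∧
    ∑ v ∈ (S.vs w).erase i, S.back w i k x v = ∑ v ∈ S.vs (S.par^[k] w), x v := by
  induction k with
  | zero =>
    intro x hx
    refine ⟨?_, ?_, ?_, ?_⟩
    · rw [back_zero, S.pos_zero, S.rev_apply]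
      show x = x - ((n + 1 : ℝ) * x i) • S.dir w + ((n + 1 : ℝ) * x i) • S.dir w
      simp
    · rw [tback_zero, S.tim_zero, zero_add, mul_assoc]
      rfl
    · exact S.rev_support hi hx
    · have h1 := S.rev_support hi hx
      rw [sum_eq_of_support (x := S.back w i 0 x) h1 (Finset.Subset.refl _)
        (Finset.erase_subset _ _), back_zero]
      exact S.rev_sum x
  | succ k ih =>
    intro x hx
    set c := S.par^[k] w with hc
    have hc' : S.par^[k + 1] w = S.par c := iterate_succ_apply' _ _ _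
    rw [hc'] at hx
    have hu : S.entry c ∈ S.E (S.par c) := S.entry_mem_E c
    set p := S.rev (S.par c) (S.entry c) x with hp
    have hsupp : ∀ v, v ∉ S.E c → p v = 0 := by
      intro v hv
      by_cases hv' : v ∈ S.vs (S.par c)
      · rw [S.eq_entry_of hv' hv]
        exact S.rev_support hu hx _ (Finset.notMem_erase _ _)
      · exact S.rev_support hu hx _ (fun h => hv' (Finset.mem_of_mem_erase h))
    obtain ⟨h1, h2, h3, h4⟩ := ih p (fun v hv => hsupp v (fun h => hv (S.E_sub c h)))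
    have hback : S.back w i (k + 1) x = S.back w i k p := by
      rw [back_succ, hc', ← hc]
    have hpex : (n + 1 : ℝ) * p (S.ent w i k) = S.pos w k (S.back w i k p) (S.ex c) := by
      have h5 : p (S.ex c) = 0 := hsupp _ (Finset.notMem_erase _ _)
      rw [h1] at h5
      rw [Pi.add_apply, Pi.smul_apply, smul_eq_mul, S.dir_ex] at h5
      linarith
    have hp' : p = S.pos w (k + 1) (S.back w i k p) := by
      rw [pos_succ, ← hc, ← hpex]
      exact h1
    refine ⟨?_, ?_, ?_, ?_⟩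
    · rw [hback, ← hp', hc']
      show x = p + ((n + 1 : ℝ) * x (S.entry c)) • S.dir (S.par c)
      rw [hp, S.rev_apply]
      simp
    · rw [tback_succ, hback, hc', ← hc, ← hp, h2, hpex, tim_succ, ← hc]
      show S.lam (S.par c) * (n + 1 : ℝ) * x (S.entry c) + _ = _ + S.lam (S.par c) *
        ((n + 1 : ℝ) * x (S.entry c))
      ring
    · rw [hback]; exact h3
    · rw [hback, h4, hc', sum_eq_of_support hsupp (S.E_sub c) (S.E_sub_par c), hp]
      exact S.rev_sum x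

variable {S}

namespace Tile

variable (t : S.Tile)

theorem i_mem_E : t.i ∈ S.E t.w := by
  rw [S.mem_E]
  refine ⟨?_, t.hi⟩
  intro h
  exact t.wall t.w (by rw [h]; rfl)

/-- The parameters of a point of the stage `k` of a tile. -/
def prm (k : ℕ) : (V → ℝ) →ₗ[ℝ] (Fin (n + 1) → ℝ) × ℝ :=
  ((bOf t.ς).comp (S.back t.w t.i k)).prod (S.tback t.w t.i k)

theorem prm_fwd {b : Fin (n + 1) → ℝ} (hb : b ∈ stdSimplex ℝ (Fin (n + 1))) (k : ℕ) (θ : ℝ) :
    t.prm k (S.pos t.w k (yy t.ς b) + θ • S.dir (S.par^[k] t.w)) =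
      (b, S.tim t.w k (yy t.ς b) + S.lam (S.par^[k] t.w) * θ) := by
  obtain ⟨h1, h2⟩ := S.back_fwd t.i_mem_E (t.y_mem_F hb) k θ
  refine Prod.ext ?_ h2
  show bOf t.ς (S.back t.w t.i k _) = b
  rw [h1, bOf_yy t.inj]

theorem prm_bwd {k : ℕ} {x : V → ℝ} (hx : x ∈ simplex (S.vs (S.par^[k] t.w)))
    (hb : ∀ l, 0 ≤ (t.prm k x).1 l) :
    t.prm k x ∈ DD n ∧ t.map (t.prm k x).1 (t.prm k x).2 = x := by
  obtain ⟨h1, h2, h3, h4⟩ := S.back_bwd t.i_mem_E k x hx.2.1
  set y := S.back t.w t.i k x with hy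
  set b := (t.prm k x).1 with hbdef
  have hb' : b = bOf t.ς y := rfl
  have hyy : yy t.ς b = y := by
    rw [hb']
    apply yy_bOf t.inj
    intro v hv
    apply h3
    intro hv'
    obtain ⟨l, hl⟩ := t.surj hv'
    exact hv l hl
  have hF : (S.vs t.w).erase t.i = Finset.univ.image t.ς := by
    ext v
    rw [Finset.mem_image]
    constructor
    · intro hv
      obtain ⟨l, hl⟩ := t.surj hv
      exact ⟨l, Finset.mem_univ _, hl⟩
    · rintro ⟨l, _, rfl⟩
      exact t.mem l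
  have hbs : b ∈ stdSimplex ℝ (Fin (n + 1)) := by
    refine ⟨hb, ?_⟩
    rw [← sum_Yc b, ← hx.2.2, ← h4, hF, Finset.sum_image (fun a _ c _ h => t.inj h)]
    refine Finset.sum_congr rfl (fun l _ => ?_)
    rw [← hyy, yy_apply t.inj]
  have hym := t.y_mem hbs
  rw [hyy] at hym
  set θ := (n + 1 : ℝ) * x (S.ent t.w t.i k) with hθ
  have hθ0 : 0 ≤ θ := by
    have := hx.1 (S.ent t.w t.i k)
    positivity
  have hθ1 : θ ≤ S.pos t.w k y (S.ex (S.par^[k] t.w)) := by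
    have h5 := hx.1 (S.ex (S.par^[k] t.w))
    rw [h1, Pi.add_apply, Pi.smul_apply, smul_eq_mul, S.dir_ex] at h5
    linarith
  obtain ⟨h6, h7⟩ := S.flow_of_stage hym hθ0 hθ1
  rw [← h2] at h6 h7
  refine ⟨⟨hbs, h6⟩, ?_⟩
  show S.flow t.w (yy t.ς b) (S.tback t.w t.i k x) = x
  rw [hyy, h7]
  exact h1.symm

end Tile

variable (S)

/-- An affine function on a simplex is determined by its values at the vertices. -/
theorem affine_simplex {W : Type*} [AddCommGroup W] [Module ℝ W] (A : (V → ℝ) →ᵃ[ℝ] W)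
    {s : Finset V} {x : V → ℝ} (hx : x ∈ simplex s) :
    A x = ∑ v ∈ s, x v • A (Pi.single v 1) := by
  have h0 : ∀ z : V → ℝ, A z = A.linear z + A 0 := by
    intro z
    have := congrFun (AffineMap.decomp A) z
    simpa using this
  have h1 : A.linear x = ∑ v ∈ s, x v • A.linear (Pi.single v 1) := by
    conv_lhs => rw [eq_sum_single hx, map_sum]
    exact Finset.sum_congr rfl (fun v _ => by rw [map_smul])
  have h2 : ∑ v ∈ s, x v • A 0 = A 0 := by
    rw [← Finset.sum_smul, hx.2.2, one_smul]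
  have h3 : ∀ v ∈ s, x v • A (Pi.single v 1) = x v • A.linear (Pi.single v 1) + x v • A 0 := by
    intro v _
    rw [h0 (Pi.single v 1), smul_add]
  rw [Finset.sum_congr rfl h3, Finset.sum_add_distrib, h2, ← h1]
  exact h0 x

/-- Piecewise affine functions on a convex polytope in a simplex: the pieces are cells. -/
theorem cells_of_PWA {s : Finset V} {L0 : Set ((V → ℝ) →ᵃ[ℝ] ℝ)} (hL0 : L0.Finite)
    {f : (V → ℝ) → (Fin (n + 1) → ℝ)}
    (hf : PWA {x | x ∈ simplex s ∧ ∀ ℓ ∈ L0, 0 ≤ ℓ x} f)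
    (hinj : Set.InjOn f {x | x ∈ simplex s ∧ ∀ ℓ ∈ L0, 0 ≤ ℓ x}) :
    ∃ P : Set (Finset (V → ℝ)), P.Finite ∧
      (∀ L ∈ P, IsAffineOn f s (cell s L) ∧ Set.InjOn f (cell s L)) ∧
      {x | x ∈ simplex s ∧ ∀ ℓ ∈ L0, 0 ≤ ℓ x} ⊆ ⋃ L ∈ P, cell s L := by
  classical
  obtain ⟨ι, hι, L, A, h1, h2, h3⟩ := hf
  let cf : ((V → ℝ) →ᵃ[ℝ] ℝ) → (V → ℝ) := fun ℓ v => ℓ (Pi.single v 1)
  have hcf : ∀ ℓ : (V → ℝ) →ᵃ[ℝ] ℝ, ∀ x ∈ simplex s, ∑ v ∈ s, cf ℓ v * x v = ℓ x := by
    intro ℓ x hx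
    rw [affine_simplex ℓ hx]
    exact Finset.sum_congr rfl (fun v _ => by rw [smul_eq_mul, mul_comm])
  have hfin : ∀ i, (cf '' (L0 ∪ L i)).Finite := fun i => (hL0.union (h1 i)).image _
  have hcell : ∀ i x, x ∈ cell s (hfin i).toFinset ↔
      x ∈ simplex s ∧ (∀ ℓ ∈ L0, 0 ≤ ℓ x) ∧ ∀ ℓ ∈ L i, 0 ≤ ℓ x := by
    intro i x
    constructor
    · rintro ⟨hx, h⟩
      refine ⟨hx, fun ℓ hℓ => ?_, fun ℓ hℓ => ?_⟩
      · rw [← hcf ℓ x hx]
        exact h _ ((hfin i).mem_toFinset.2 ⟨ℓ, Or.inl hℓ, rfl⟩)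
      · rw [← hcf ℓ x hx]
        exact h _ ((hfin i).mem_toFinset.2 ⟨ℓ, Or.inr hℓ, rfl⟩)
    · rintro ⟨hx, h, h'⟩
      refine ⟨hx, fun a ha => ?_⟩
      rw [(hfin i).mem_toFinset] at ha
      obtain ⟨ℓ, hℓ, rfl⟩ := ha
      rw [hcf ℓ x hx]
      rcases hℓ with hℓ | hℓ
      · exact h ℓ hℓ
      · exact h' ℓ hℓ
  refine ⟨Set.range fun i => (hfin i).toFinset, Set.finite_range _, ?_, ?_⟩
  · rintro _ ⟨i, rfl⟩
    refine ⟨⟨fun v => A i (Pi.single v 1), ?_⟩, ?_⟩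
    · intro x hx
      rw [hcell] at hx
      rw [h3 i x ⟨hx.1, hx.2.1⟩ hx.2.2]
      exact affine_simplex (A i) hx.1
    · intro x hx x' hx' h
      rw [hcell] at hx hx'
      exact hinj ⟨hx.1, hx.2.1⟩ ⟨hx'.1, hx'.2.1⟩ h
  · rintro x ⟨hx, hx'⟩
    obtain ⟨i, hi⟩ := h2 x ⟨hx, hx'⟩
    rw [Set.mem_iUnion₂]
    exact ⟨_, ⟨i, rfl⟩, (hcell i x).2 ⟨hx, hx', hi⟩⟩

variable {A : Set (V → ℝ)} (hA : ∀ x, x ∈ A ↔ ∃ c, x ∈ simplex (S.vs c))

theorem phi_Γ [Nonempty A] (t : S.Tile) {p : (Fin (n + 1) → ℝ) × ℝ} (hp : p ∈ DD n) :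
    (S.phi hA t (Γ p) : V → ℝ) = t.map p.1 p.2 := by
  rw [S.phi_of_mem hA t (Γ_mem hp)]
  have h1 : ΓH.symm ⟨Γ p, Γ_mem hp⟩ = ⟨p, hp⟩ := by
    rw [Homeomorph.symm_apply_eq]
    rfl
  rw [h1]
  rfl

open Classical in
/-- The folded map as a function on `V → ℝ`. -/
def fold {o : (Fin (n + 2) → V) → ℤˣ} (ho : S.Ori o) (hn : 0 < n) [Nonempty A] (x : V → ℝ) :
    Fin (n + 1) → ℝ := if h : x ∈ A then (S.tileSystem hA ho hn).f ⟨x, h⟩ else 0

variable {o : (Fin (n + 2) → V) → ℤˣ} (ho : S.Ori o) (hn : 0 < n)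

theorem fold_apply [Nonempty A] (x : A) :
    S.fold hA ho hn (x : V → ℝ) = (S.tileSystem hA ho hn).f x := dif_pos x.2

theorem fold_map [Nonempty A] (t : S.Tile) {p : (Fin (n + 1) → ℝ) × ℝ} (hp : p ∈ DD n) :
    S.fold hA ho hn (t.map p.1 p.2) = if o t.frame = 1 then Γ p else refl (Γ p) := by
  rw [← S.phi_Γ hA t hp, S.fold_apply]
  have h1 := (S.tileSystem hA ho hn).f_φ (t := t) (u := Γ p) (Γ_mem hp)
  have h2 : (S.tileSystem hA ho hn).φ t (Γ p) = S.phi hA t (Γ p) := rfl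
  rw [h2] at h1
  rw [h1]
  show (if decide (o t.frame = 1) = true then Γ p else refl (Γ p)) = _
  simp

theorem piece_PWA [Nonempty A] (t : S.Tile) (k : ℕ) :
    PWA {x | x ∈ simplex (S.vs (S.par^[k] t.w)) ∧ ∀ l, 0 ≤ (t.prm k x).1 l}
      (S.fold hA ho hn) ∧
    Set.InjOn (S.fold hA ho hn)
      {x | x ∈ simplex (S.vs (S.par^[k] t.w)) ∧ ∀ l, 0 ≤ (t.prm k x).1 l} := by
  set D : Set (V → ℝ) := {x | x ∈ simplex (S.vs (S.par^[k] t.w)) ∧ ∀ l, 0 ≤ (t.prm k x).1 l}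
    with hD
  have hval : ∀ x ∈ D, S.fold hA ho hn x =
      if o t.frame = 1 then Γ (t.prm k x) else refl (Γ (t.prm k x)) := by
    rintro x ⟨hx1, hx2⟩
    obtain ⟨h1, h2⟩ := t.prm_bwd hx1 hx2
    have h3 := S.fold_map hA ho hn t h1
    rw [h2] at h3
    exact h3
  constructor
  · obtain ⟨R, hR⟩ := Tile.bounded S t (S.par^[k] t.w)
    obtain ⟨N, hN⟩ := exists_nat_ge R
    have h1 : PWA D (fun x => ΓN N (t.prm k x)) :=
      (PWA_ΓN N).comp (PWA.affine D (t.prm k).toAffineMap) (fun _ _ => trivial)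
    have h2 : ∀ x ∈ D, Γ (t.prm k x) = ΓN N (t.prm k x) := by
      rintro x ⟨hx1, hx2⟩
      obtain ⟨h1, h2⟩ := t.prm_bwd hx1 hx2
      apply ΓN_eq
      refine (hR _ h1.1 _ h1.2 ?_).trans hN
      rw [h2]
      exact hx1
    by_cases hs : o t.frame = 1
    · refine h1.congr (fun x hx => ?_)
      rw [hval x hx, if_pos hs, h2 x hx]
    · refine (PWA_refl.comp h1 (fun _ _ => trivial)).congr (fun x hx => ?_)
      rw [hval x hx, if_neg hs, h2 x hx]
      rfl
  · intro x hx x' hx' h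
    rw [hval x hx, hval x' hx'] at h
    have h1 : Γ (t.prm k x) = Γ (t.prm k x') := by
      by_cases hs : o t.frame = 1
      · rwa [if_pos hs, if_pos hs] at h
      · rw [if_neg hs, if_neg hs] at h
        exact refl_inj h
    obtain ⟨g1, g2⟩ := t.prm_bwd hx.1 hx.2
    obtain ⟨g1', g2'⟩ := t.prm_bwd hx'.1 hx'.2
    have h2 := Γ_inj g1 g1' h1
    rw [← g2, ← g2', h2]

/-- Every facet is a finite union of convex polytopes on each of which the folded map is affine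
and injective. -/
theorem facet_cells [Nonempty A] (c : C) : ∃ P : Set (Finset (V → ℝ)), P.Finite ∧
    (∀ L ∈ P, IsAffineOn (S.fold hA ho hn) (S.vs c) (cell (S.vs c) L) ∧
      Set.InjOn (S.fold hA ho hn) (cell (S.vs c) L)) ∧
    simplex (S.vs c) ⊆ ⋃ L ∈ P, cell (S.vs c) L := by
  have key : ∀ t ∈ S.through c, ∃ P : Set (Finset (V → ℝ)), P.Finite ∧
      (∀ L ∈ P, IsAffineOn (S.fold hA ho hn) (S.vs c) (cell (S.vs c) L) ∧
        Set.InjOn (S.fold hA ho hn) (cell (S.vs c) L)) ∧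
      ∀ b ∈ stdSimplex ℝ (Fin (n + 1)), ∀ (k : ℕ) (θ : ℝ), S.par^[k] t.w = c →
        S.pos t.w k (yy t.ς b) + θ • S.dir c ∈ simplex (S.vs c) →
        S.pos t.w k (yy t.ς b) + θ • S.dir c ∈ ⋃ L ∈ P, cell (S.vs c) L := by
    rintro t ⟨k, rfl⟩
    obtain ⟨h1, h2⟩ := S.piece_PWA hA ho hn t k
    let L0 : Set ((V → ℝ) →ᵃ[ℝ] ℝ) := Set.range fun l : Fin (n + 1) =>
      ((LinearMap.proj l).comp ((LinearMap.fst ℝ (Fin (n + 1) → ℝ) ℝ).comp
        (t.prm k))).toAffineMap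
    have hL0 : L0.Finite := Set.finite_range _
    have hset : {x | x ∈ simplex (S.vs (S.par^[k] t.w)) ∧ ∀ l, 0 ≤ (t.prm k x).1 l} =
        {x | x ∈ simplex (S.vs (S.par^[k] t.w)) ∧ ∀ ℓ ∈ L0, 0 ≤ ℓ x} := by
      ext x
      constructor
      · rintro ⟨hx, h⟩
        refine ⟨hx, ?_⟩
        rintro _ ⟨l, rfl⟩
        exact h l
      · rintro ⟨hx, h⟩
        exact ⟨hx, fun l => h _ ⟨l, rfl⟩⟩
    rw [hset] at h1 h2
    obtain ⟨P, hP1, hP2, hP3⟩ := cells_of_PWA hL0 h1 h2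
    refine ⟨P, hP1, hP2, ?_⟩
    intro b hb k' θ hk' hx
    have hkk : k' = k := S.iter_inj t.w hk'
    subst hkk
    apply hP3
    rw [← hset]
    refine ⟨hx, fun l => ?_⟩
    rw [t.prm_fwd hb k' θ]
    exact hb.1 l
  choose! P hP1 hP2 hP3 using key
  have hfin : (S.through c).Finite := by
    have : S.through c ⊆ {t : S.Tile | t.w ∈ {d | ∃ k, S.par^[k] d = c}} := fun t ht => ht
    exact (Tile.finite_of_w S (S.anc_fin c)).subset this
  refine ⟨⋃ t ∈ S.through c, P t, hfin.biUnion (fun t ht => hP1 t ht), ?_, ?_⟩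
  · intro L hL
    rw [Set.mem_iUnion₂] at hL
    obtain ⟨t, ht, hL⟩ := hL
    exact hP2 t ht L hL
  · intro x hx
    obtain ⟨t, b, k, θ, hb, h2, h3, h4, h5⟩ := Tile.cover S c hx
    have h6 := hP3 t ⟨k, h2⟩ b hb k θ h2 (by rw [← h5]; exact hx)
    rw [← h5, Set.mem_iUnion₂] at h6
    obtain ⟨L, hL, hxL⟩ := h6
    rw [Set.mem_iUnion₂]
    exact ⟨L, Set.mem_iUnion₂.2 ⟨t, ⟨k, h2⟩, hL⟩, hxL⟩

end Sys

end Pool.Agent.Helper74.Branched
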