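import Pool.Agent.Helper74.Branched.Forest
import Pool.Agent.Helper74.Branched.PL
import Pool.Agent.Helper74.Branched.Complete
import Pool.Agent.Helper74.Branched.Manifold3
import Pool.Agent.Helper74.Branched.Branch

/-!
# Every open orientable PL manifold is a branched cover of Euclidean space
-/

open Function Topology Set Relation

noncomputable section

namespace Pool.Agent.Helper74.Branched

universe u

variable {V : Type u} {K : PreAbstractSimplicialComplex V} {m : ℕ}

/-- The facets. -/
abbrev Fac (m : ℕ) (K : PreAbstractSimplicialComplex V) : Type u :=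
  {c : Finset V // c ∈ K.faces ∧ c.card = m + 1}

/-- Adjacency of facets. -/
def adjF [DecidableEq V] (c d : Fac m K) : Prop := c ≠ d ∧ m ≤ ((c : Finset V) ∩ d).card

theorem adjF_symm [DecidableEq V] (c d : Fac m K) (h : adjF c d) : adjF d c :=
  ⟨h.1.symm, by rw [Finset.inter_comm]; exact h.2⟩

theorem star_finite (hK : IsPLManifold m K) (v : V) : {c : Fac m K | v ∈ (c : Finset V)}.Finite := by
  have h := (hK.1 v).preimage (f := fun c : Fac m K => (c : Finset V))
    Subtype.val_injective.injOn
  exact h.subset (fun c hc => ⟨c.2.1, hc⟩)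

theorem adjF_finite [DecidableEq V] (hK : IsPLManifold m K) (hm : 0 < m) (c : Fac m K) :
    {d | adjF c d}.Finite := by
  have h : {d | adjF c d} ⊆ ⋃ v ∈ (c : Finset V), {d : Fac m K | v ∈ (d : Finset V)} := by
    intro d hd
    have h1 : ((c : Finset V) ∩ d).Nonempty := Finset.card_pos.1 (lt_of_lt_of_le hm hd.2)
    obtain ⟨v, hv⟩ := h1
    rw [Finset.mem_inter] at hv
    exact mem_iUnion₂.2 ⟨v, hv.1, hv.2⟩
  exact ((c : Finset V).finite_toSet.biUnion (fun v _ => star_finite hK v)).subset h

theorem space_eq_facets (hK : IsPLManifold m K) (x : V → ℝ) :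
    x ∈ space K ↔ ∃ c : Fac m K, x ∈ simplex (c : Finset V) := by
  rw [mem_space_iff]
  constructor
  · rintro ⟨s, hs, hxs⟩
    obtain ⟨c, hc, hsc, hcard, _⟩ := exists_facet hK hs
    exact ⟨⟨c, hc, hcard⟩, simplex_mono hsc hxs⟩
  · rintro ⟨c, hc⟩
    exact ⟨c, c.2.1, hc⟩

theorem adjF_connected [DecidableEq V] (hK : IsPLManifold m K) (hconn : IsConnected (space K))
    (c d : Fac m K) : ReflTransGen adjF c d := by
  by_contra hcd
  let A : Set (Finset V) := {a | ∃ h : a ∈ K.faces ∧ a.card = m + 1,
    ReflTransGen adjF c (⟨a, h⟩ : Fac m K)}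
  let B : Set (Finset V) := {a | ∃ h : a ∈ K.faces ∧ a.card = m + 1,
    ¬ ReflTransGen adjF c (⟨a, h⟩ : Fac m K)}
  have hA : A ⊆ {c | c ∈ K.faces ∧ c.card = m + 1} := fun a ha => ha.1
  have hB : B ⊆ {c | c ∈ K.faces ∧ c.card = m + 1} := fun a ha => ha.1
  have hcov : ∀ a, a ∈ K.faces → a.card = m + 1 → a ∈ A ∨ a ∈ B := by
    intro a h1 h2
    by_cases h : ReflTransGen adjF c (⟨a, h1, h2⟩ : Fac m K)
    · exact Or.inl ⟨⟨h1, h2⟩, h⟩
    · exact Or.inr ⟨⟨h1, h2⟩, h⟩
  have hclA := isClosed_facets hK A (fun a ha => (hA ha).1)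
  have hclB := isClosed_facets hK B (fun a ha => (hB ha).1)
  have hpre : PreconnectedSpace (space K) :=
    isPreconnected_iff_preconnectedSpace.1 hconn.isPreconnected
  have huniv : IsPreconnected (univ : Set (space K)) := isPreconnected_univ
  rw [isPreconnected_closed_iff] at huniv
  have hpt : ∀ a : Fac m K, ∃ x : space K, (x : V → ℝ) ∈ simplex (a : Finset V) := by
    intro a
    obtain ⟨y, hy⟩ := exists_osimplex (face_nonempty' K a.2.1)
    exact ⟨⟨y, (space_eq_facets hK y).2 ⟨a, hy.1⟩⟩, hy.1⟩
  obtain ⟨x, _, ⟨a, haA, hxa⟩, ⟨b, hbB, hxb⟩⟩ := huniv _ _ hclA hclB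
    (by
      intro x _
      obtain ⟨e, he⟩ := (space_eq_facets hK x).1 x.2
      rcases hcov e e.2.1 e.2.2 with h | h
      · exact Or.inl ⟨e, h, he⟩
      · exact Or.inr ⟨e, h, he⟩)
    (by
      obtain ⟨x, hx⟩ := hpt c
      exact ⟨x, trivial, c, ⟨c.2, ReflTransGen.refl⟩, hx⟩)
    (by
      obtain ⟨x, hx⟩ := hpt d
      exact ⟨x, trivial, d, ⟨d.2, hcd⟩, hx⟩)
  refine separated hK A B hA hB hcov ?_ haA hbB hxa hxb
  rintro a ⟨ha, ha'⟩ b ⟨hb, hb'⟩
  by_contra hcard
  rw [not_lt] at hcard
  apply hb'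
  refine ReflTransGen.tail ha' (c := (⟨b, hb⟩ : Fac m K)) ⟨?_, hcard⟩
  intro h
  rw [h] at ha'
  exact hb' ha'

theorem infinite_facets (hK : IsPLManifold m K) (hnc : ¬ IsCompact (space K)) :
    Infinite (Fac m K) := by
  by_contra hfin
  rw [not_infinite_iff_finite] at hfin
  apply hnc
  have : space K = ⋃ c : Fac m K, simplex (c : Finset V) := by
    ext x
    rw [space_eq_facets hK, mem_iUnion]
  rw [this]
  exact isCompact_iUnion (fun c => isCompact_simplex _)

/-- The facet system of an open PL manifold. -/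
theorem exists_sys [DecidableEq V] {n : ℕ} (hK : IsPLManifold (n + 1) K)
    (hconn : IsConnected (space K)) (hnc : ¬ IsCompact (space K)) :
    ∃ S : Sys V (Fac (n + 1) K) n, ∀ c, S.vs c = (c : Finset V) := by
  have hinf := infinite_facets hK hnc
  obtain ⟨par, hpar, hanc, rank, hrank⟩ := exists_parent (adj := adjF (m := n + 1) (K := K))
    adjF_symm (adjF_finite hK (Nat.succ_pos n)) (adjF_connected hK hconn)
  have hex : ∀ c : Fac (n + 1) K, ∃ v ∈ (c : Finset V), (c : Finset V).erase v ⊆ par c := by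
    intro c
    have h1 : ¬ ((c : Finset V) ⊆ par c) := by
      intro h
      apply (hpar c).1
      apply Subtype.ext
      exact Finset.eq_of_subset_of_card_le h (by rw [c.2.2, (par c).2.2])
    rw [Finset.not_subset] at h1
    obtain ⟨v, hv, hv'⟩ := h1
    refine ⟨v, hv, ?_⟩
    have h2 : (c : Finset V) ∩ par c = (c : Finset V).erase v := by
      apply Finset.eq_of_subset_of_card_le
      · intro x hx
        rw [Finset.mem_inter] at hx
        rw [Finset.mem_erase]
        refine ⟨?_, hx.1⟩
        rintro rfl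
        exact hv' hx.2
      · rw [Finset.card_erase_of_mem hv, c.2.2]
        exact (hpar c).2
    rw [← h2]
    exact Finset.inter_subset_right
  choose ex hex1 hex2 using hex
  refine ⟨{ vs := fun c => (c : Finset V)
            vs_inj := Subtype.val_injective
            card_vs := fun c => c.2.2
            nb := ?_
            par := par
            ex := ex
            ex_mem := hex1
            sub_par := hex2
            rank := rank
            rank_lt := hrank
            anc_fin := hanc
            star_fin := star_finite hK }, fun c => rfl⟩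
  intro c i hi
  have hcard : ((c : Finset V).erase i).card = n + 1 := by
    rw [Finset.card_erase_of_mem hi, c.2.2]; rfl
  have hF : (c : Finset V).erase i ∈ K.faces :=
    face_sub K c.2.1 (Finset.erase_subset _ _) (Finset.card_pos.1 (by rw [hcard]; omega))
  obtain ⟨w', h1, h2, h3, h4, h5⟩ := two_facets hK hF hcard c.2.1 c.2.2 (Finset.erase_subset _ _)
  refine ⟨⟨w', h1, h2⟩, fun h => h4 (congrArg Subtype.val h), h3, ?_⟩
  intro d hd hd'
  apply Subtype.ext
  exact h5 d d.2.1 d.2.2 hd' (fun h => hd (Subtype.ext h))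

theorem frame_of [DecidableEq V] {n : ℕ} (c : Fac (n + 1) K) {w : Fin (n + 2) → V}
    (hw : Injective w) (hc : ∀ k, w k ∈ (c : Finset V)) : IsFrame K w := by
  refine ⟨hw, c, c.2.1, fun v => ⟨fun hv => ?_, ?_⟩⟩
  · have h : Finset.univ.image w = (c : Finset V) := by
      apply Finset.eq_of_subset_of_card_le
      · intro v hv
        rw [Finset.mem_image] at hv
        obtain ⟨l, _, rfl⟩ := hv
        exact hc l
      · rw [Finset.card_image_of_injective _ hw, c.2.2]
        simp
    rw [← h, Finset.mem_image] at hv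
    obtain ⟨l, _, hl⟩ := hv
    exact ⟨l, hl⟩
  · rintro ⟨i, rfl⟩
    exact hc i

/-- Every connected orientable noncompact PL manifold of dimension `n + 1 ≥ 2` is a branched cover
of Euclidean space of degree `ℵ₀`. -/
theorem exists_branchedCover {n : ℕ} (hn : 0 < n) (hK : IsPLManifold (n + 1) K)
    (hconn : IsConnected (space K)) (hnc : ¬ IsCompact (space K))
    {o : (Fin (n + 2) → V) → ℤˣ} (ho : IsOrientation (n + 1) K o) :
    ∃ f : (V → ℝ) → (Fin (n + 1) → ℝ), IsBranchedCover (n + 1) K f Cardinal.aleph0.{u} ∧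
      (∀ y, ∃ x ∈ space K, f x = y) ∧ IsComplete K f := by
  classical
  obtain ⟨S, hS⟩ := exists_sys hK hconn hnc
  have hinf := infinite_facets hK hnc
  have hne : Nonempty (Fac (n + 1) K) := inferInstance
  have hcount : Countable (Fac (n + 1) K) :=
    countable_of_connected (adj := adjF (m := n + 1) (K := K))
      (adjF_finite hK (Nat.succ_pos n)) (adjF_connected hK hconn)
  have hori : S.Ori o := by
    constructor
    · intro c w hw hc σ
      have hc' : ∀ k, w k ∈ (c : Finset V) := by intro k; rw [← hS]; exact hc k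
      exact ho.perm w (frame_of c hw hc') σ
    · intro c c' w w' hw hc hw' hc' h1 h2
      have g : ∀ k, w k ∈ (c : Finset V) := by intro k; rw [← hS]; exact hc k
      have g' : ∀ k, w' k ∈ (c' : Finset V) := by intro k; rw [← hS]; exact hc' k
      exact ho.adj w w' (frame_of c hw g) (frame_of c' hw' g') h1 h2
  have hA : ∀ x, x ∈ space K ↔ ∃ c, x ∈ simplex (S.vs c) := by
    intro x
    rw [space_eq_facets hK]
    constructor
    · rintro ⟨c, hc⟩; exact ⟨c, by rw [hS]; exact hc⟩
    · rintro ⟨c, hc⟩; exact ⟨c, by rw [← hS]; exact hc⟩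
  have hnes : Nonempty (space K) := hconn.nonempty.to_subtype
  set TS := S.tileSystem hA hori hn with hTS
  set f := S.fold hA hori hn with hf
  have hfTS : (fun x : space K => f x) = TS.f := funext (fun x => S.fold_apply hA hori hn x)
  have hinfT : Infinite S.Tile := S.infinite_tile hn
  have hcountT : Countable S.Tile := S.countable_tile
  have hinfP : Infinite {t // TS.sgn t = true} := by
    by_contra hfin
    rw [not_infinite_iff_finite] at hfin
    have hpos : {t | TS.sgn t = true}.Finite :=
      (Set.finite_coe_iff (s := {t | TS.sgn t = true})).1 hfin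
    have hneg : {t | TS.sgn t = false}.Finite := by
      have h1 : {t | TS.sgn t = false} ⊆ TS.partner 0 '' {t | TS.sgn t = true} := by
        intro t ht
        refine ⟨TS.partner 0 t, ?_, TS.partner_partner 0 t⟩
        show TS.sgn (TS.partner 0 t) = true
        rw [TS.sgn_partner, show TS.sgn t = false from ht]
        rfl
      exact (hpos.image _).subset h1
    have hall : (Set.univ : Set S.Tile).Finite := by
      refine (hpos.union hneg).subset ?_
      intro t _
      cases h : TS.sgn t
      · exact Or.inr h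
      · exact Or.inl h
    exact Set.infinite_univ hall
  refine ⟨f, ⟨?_, TS.branch, isSubpolyhedron_branch hn, ?_, ?_⟩, ?_, ?_⟩
  · -- piecewise linear
    intro x hx
    obtain ⟨W, hW, F, hF, hWF⟩ := S.exists_star hA ⟨x, hx⟩
    choose P hP1 hP2 hP3 using S.facet_cells hA hori hn
    let Q : Set (Finset V × Finset (V → ℝ)) := ⋃ c ∈ F, (fun L => (S.vs c, L)) '' P c
    have hQ : Q.Finite := hF.biUnion (fun c _ => (hP1 c).image _)
    refine ⟨hQ.toFinset, ?_, ?_⟩
    · intro p hp
      rw [Set.Finite.mem_toFinset] at hp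
      obtain ⟨c, hc, L, hL, rfl⟩ := mem_iUnion₂.1 hp
      refine ⟨?_, (hP2 c L hL).1, (hP2 c L hL).2⟩
      show S.vs c ∈ K.faces
      rw [hS]
      exact c.2.1
    · rw [mem_nhdsWithin_iff_exists_mem_nhds_inter]
      rw [mem_nhds_subtype] at hW
      obtain ⟨O, hO, hOW⟩ := hW
      refine ⟨O, hO, ?_⟩
      rintro y ⟨hyO, hyK⟩
      obtain ⟨c, hc, hyc⟩ := hWF ⟨y, hyK⟩ (hOW hyO)
      obtain ⟨L, hL, hyL⟩ := mem_iUnion₂.1 (hP3 c hyc)
      rw [mem_iUnion₂]
      refine ⟨(S.vs c, L), ?_, hyL⟩
      rw [Set.Finite.mem_toFinset]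
      exact mem_iUnion₂.2 ⟨c, hc, L, hL, rfl⟩
  · rw [hfTS]
    exact TS.isCoveringMapOn
  · intro y hy
    obtain ⟨e⟩ := TS.nonempty_equiv hy
    have hcard : Cardinal.mk {x : space K // TS.f x = y} = Cardinal.aleph0 := by
      have h1 : Infinite {x : space K // TS.f x = y} := (Equiv.infinite_iff e).1 hinfP
      have h2 : Countable {x : space K // TS.f x = y} := e.symm.injective.countable
      exact Cardinal.mk_eq_aleph0 _
    have hset : ∀ x : space K, f x = y ↔ TS.f x = y := by
      intro x
      rw [← hfTS]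
    rw [← hcard]
    exact Cardinal.mk_congr (Equiv.subtypeEquivRight hset)
  · -- surjective
    intro y
    obtain ⟨⟨t, ht⟩⟩ : Nonempty {t // TS.sgn t = true} := inferInstance
    refine ⟨TS.G 0 t y, (TS.G 0 t y).2, ?_⟩
    have h1 : f (TS.G 0 t y : V → ℝ) = TS.f (TS.G 0 t y) := by rw [← hfTS]
    rw [h1, TS.f_G ht]
  · -- complete
    intro y N hN
    obtain ⟨Q, h1, h2, h3, h4⟩ := S.tileSystem_complete hA hori hn y hN
    refine ⟨Q, h1, h2, h3, fun x hx => ?_⟩
    have h5 : {z : space K | f z ∈ Q} = TS.f ⁻¹' Q := by rw [← hfTS]; rfl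
    rw [h5]
    apply h4
    show TS.f x ∈ Q
    rw [← hfTS]
    exact hx

end Pool.Agent.Helper74.Branched
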