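import Pool.Agent.Helper74.Branched.Defs

/-!
# The flow along the spanning forest

Combinatorial data `Sys` (facets with a parent map), and the piecewise linear flow which in each
facet `c` moves away from the vertex `ex c` towards the barycentre of the opposite face.
-/

open Function

noncomputable section

namespace Pool.Agent.Helper74.Branched

variable {V : Type*}

theorem simplex_mono {s t : Finset V} (h : s ⊆ t) : simplex s ⊆ simplex t := by
  rintro x ⟨h1, h2, h3⟩
  refine ⟨h1, fun v hv => h2 v (fun h' => hv (h h')), ?_⟩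
  rw [← h3]
  exact (Finset.sum_subset h (fun v _ hv => h2 v hv)).symm

theorem mem_simplex_of_support {s t : Finset V} {x : V → ℝ} (hx : x ∈ simplex s)
    (h : ∀ v, v ∉ t → x v = 0) : x ∈ simplex t := by
  classical
  refine ⟨hx.1, h, ?_⟩
  have h1 : ∑ v ∈ s ∪ t, x v = ∑ v ∈ s, x v :=
    (Finset.sum_subset Finset.subset_union_left (fun v _ hv => hx.2.1 v hv)).symm
  have h2 : ∑ v ∈ s ∪ t, x v = ∑ v ∈ t, x v :=
    (Finset.sum_subset Finset.subset_union_right (fun v _ hv => h v hv)).symm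
  rw [← h2, h1, hx.2.2]

theorem simplex_le_one {s : Finset V} {x : V → ℝ} (hx : x ∈ simplex s) (v : V) : x v ≤ 1 := by
  by_cases hv : v ∈ s
  · rw [← hx.2.2]
    exact Finset.single_le_sum (fun w _ => hx.1 w) hv
  · rw [hx.2.1 v hv]
    exact zero_le_one

variable [DecidableEq V]

/-- The combinatorial data: facets `c : C` with vertex sets `vs c` of cardinality `n + 2`, such
that every codimension-one face lies in exactly two facets, together with an acyclic parent map
with finite sets of ancestors; the facet `c` shares with `par c` the face opposite to `ex c`. -/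
structure Sys (V C : Type*) [DecidableEq V] (n : ℕ) where
  /-- vertices of a facet -/
  vs : C → Finset V
  vs_inj : Injective vs
  card_vs : ∀ c, (vs c).card = n + 2
  nb : ∀ c, ∀ i ∈ vs c, ∃ d, d ≠ c ∧ (vs c).erase i ⊆ vs d ∧
    ∀ d', d' ≠ c → (vs c).erase i ⊆ vs d' → d' = d
  /-- parent -/
  par : C → C
  /-- exit vertex -/
  ex : C → V
  ex_mem : ∀ c, ex c ∈ vs c
  sub_par : ∀ c, (vs c).erase (ex c) ⊆ vs (par c)
  /-- rank -/
  rank : C → ℕ
  rank_lt : ∀ c, rank c < rank (par c)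
  anc_fin : ∀ c, {d | ∃ k, par^[k] d = c}.Finite
  star_fin : ∀ v, {c | v ∈ vs c}.Finite

namespace Sys

variable {C : Type*} {n : ℕ} (S : Sys V C n)

/-- The exit face. -/
def E (c : C) : Finset V := (S.vs c).erase (S.ex c)

theorem E_sub (c : C) : S.E c ⊆ S.vs c := Finset.erase_subset _ _

theorem E_sub_par (c : C) : S.E c ⊆ S.vs (S.par c) := S.sub_par c

theorem card_E (c : C) : (S.E c).card = n + 1 := by
  rw [E, Finset.card_erase_of_mem (S.ex_mem c), S.card_vs]
  rfl

theorem card_erase {c : C} {i : V} (hi : i ∈ S.vs c) : ((S.vs c).erase i).card = n + 1 := by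
  rw [Finset.card_erase_of_mem hi, S.card_vs]
  rfl

theorem mem_E {c : C} {v : V} : v ∈ S.E c ↔ v ≠ S.ex c ∧ v ∈ S.vs c := Finset.mem_erase

theorem par_ne (c : C) : S.par c ≠ c := by
  intro h
  have := S.rank_lt c
  rw [h] at this
  exact lt_irrefl _ this

theorem eq_or_of_erase_sub {c d e : C} {i : V} (hi : i ∈ S.vs c) (hd : d ≠ c) (he : e ≠ c)
    (h1 : (S.vs c).erase i ⊆ S.vs d) (h2 : (S.vs c).erase i ⊆ S.vs e) : d = e := by
  obtain ⟨a, _, _, ha⟩ := S.nb c i hi
  rw [ha d hd h1, ha e he h2]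

theorem eq_or_of_E_sub {c d : C} (h : S.E c ⊆ S.vs d) : d = c ∨ d = S.par c := by
  by_cases hd : d = c
  · exact Or.inl hd
  · exact Or.inr (S.eq_or_of_erase_sub (S.ex_mem c) hd (S.par_ne c) h (S.sub_par c))

theorem E_inj {c d : C} (h : S.E c = S.E d) : c = d := by
  have h1 : S.E c ⊆ S.vs d := by rw [h]; exact S.E_sub d
  have h2 : S.E d ⊆ S.vs c := by rw [← h]; exact S.E_sub c
  rcases S.eq_or_of_E_sub h1 with h1 | h1
  · exact h1.symm
  · rcases S.eq_or_of_E_sub h2 with h2 | h2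
    · exact h2
    · exfalso
      have e1 := S.rank_lt c
      have e2 := S.rank_lt d
      rw [← h1] at e1
      rw [← h2] at e2
      omega

theorem E_sub_E {c d : C} (h : S.E c ⊆ S.E d) : c = d :=
  S.E_inj (Finset.eq_of_subset_of_card_le h (by rw [S.card_E, S.card_E]))

theorem ex_par_mem (c : C) : S.ex (S.par c) ∈ S.E c := by
  by_contra h
  apply S.par_ne c
  symm
  apply S.E_sub_E
  intro v hv
  rw [S.mem_E]
  refine ⟨?_, S.sub_par c hv⟩
  rintro rfl
  exact h hv

/-- The direction of the flow in the facet `c`. -/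
def dir (c : C) : V → ℝ := fun v =>
  if v = S.ex c then -1 else if v ∈ S.vs c then 1 / (n + 1 : ℝ) else 0

theorem dir_ex (c : C) : S.dir c (S.ex c) = -1 := by simp [dir]

theorem dir_E {c : C} {v : V} (hv : v ∈ S.E c) : S.dir c v = 1 / (n + 1 : ℝ) := by
  rw [S.mem_E] at hv
  simp [dir, hv.1, hv.2]

theorem dir_notMem {c : C} {v : V} (hv : v ∉ S.vs c) : S.dir c v = 0 := by
  have : v ≠ S.ex c := by rintro rfl; exact hv (S.ex_mem c)
  simp [dir, hv, this]

theorem sum_dir (c : C) : ∑ v ∈ S.vs c, S.dir c v = 0 := by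
  rw [← Finset.insert_erase (S.ex_mem c), Finset.sum_insert (Finset.notMem_erase _ _), S.dir_ex]
  have : ∑ v ∈ (S.vs c).erase (S.ex c), S.dir c v = ∑ v ∈ S.E c, 1 / (n + 1 : ℝ) :=
    Finset.sum_congr rfl (fun v hv => S.dir_E hv)
  rw [this, Finset.sum_const, S.card_E]
  have : (n + 1 : ℝ) ≠ 0 := by positivity
  simp only [nsmul_eq_mul]
  push_cast
  field_simp
  ring

theorem add_dir_mem {c : C} {x : V → ℝ} (hx : x ∈ simplex (S.vs c)) {θ : ℝ} (h0 : 0 ≤ θ)
    (h1 : θ ≤ x (S.ex c)) : x + θ • S.dir c ∈ simplex (S.vs c) := by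
  refine ⟨fun v => ?_, fun v hv => ?_, ?_⟩
  · simp only [Pi.add_apply, Pi.smul_apply, smul_eq_mul]
    by_cases hv : v = S.ex c
    · rw [hv, S.dir_ex]; linarith
    · by_cases hv' : v ∈ S.vs c
      · rw [S.dir_E (S.mem_E.2 ⟨hv, hv'⟩)]
        have := hx.1 v
        positivity
      · rw [S.dir_notMem hv']
        simpa using hx.1 v
  · simp only [Pi.add_apply, Pi.smul_apply, smul_eq_mul, hx.2.1 v hv, S.dir_notMem hv]
    simp
  · simp only [Pi.add_apply, Pi.smul_apply, smul_eq_mul, Finset.sum_add_distrib,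
      ← Finset.mul_sum, S.sum_dir, hx.2.2]
    simp

/-- One step of the flow. -/
def stepL (c : C) : (V → ℝ) →ₗ[ℝ] (V → ℝ) :=
  LinearMap.id + (LinearMap.proj (S.ex c)).smulRight (S.dir c)

theorem stepL_apply (c : C) (x : V → ℝ) : S.stepL c x = x + x (S.ex c) • S.dir c := by
  simp [stepL]

theorem stepL_mem_E {c : C} {x : V → ℝ} (hx : x ∈ simplex (S.vs c)) :
    S.stepL c x ∈ simplex (S.E c) := by
  rw [S.stepL_apply]
  have h := S.add_dir_mem hx (hx.1 _) le_rfl
  refine mem_simplex_of_support h ?_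
  intro v hv
  by_cases hv' : v ∈ S.vs c
  · have : v = S.ex c := by
      by_contra h'
      exact hv (S.mem_E.2 ⟨h', hv'⟩)
    rw [this]
    simp [S.dir_ex]
  · exact h.2.1 v hv'

/-- The position at the moment of entering the `k`-th facet. -/
def pos (c : C) : ℕ → ((V → ℝ) →ₗ[ℝ] (V → ℝ))
  | 0 => LinearMap.id
  | k + 1 => (S.stepL (S.par^[k] c)).comp (pos c k)

/-- The speed parameter of a facet. -/
def lam (c : C) : ℝ := (n + 1 : ℝ) ^ S.rank c

theorem lam_pos (c : C) : 0 < S.lam c := by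
  unfold lam
  positivity

/-- The time of entering the `k`-th facet. -/
def tim (c : C) : ℕ → ((V → ℝ) →ₗ[ℝ] ℝ)
  | 0 => 0
  | k + 1 => tim c k + S.lam (S.par^[k] c) • (LinearMap.proj (S.ex (S.par^[k] c))).comp (S.pos c k)

theorem pos_zero (c : C) (y : V → ℝ) : S.pos c 0 y = y := rfl

theorem tim_zero (c : C) (y : V → ℝ) : S.tim c 0 y = 0 := rfl

theorem pos_succ (c : C) (k : ℕ) (y : V → ℝ) : S.pos c (k + 1) y =
    S.pos c k y + S.pos c k y (S.ex (S.par^[k] c)) • S.dir (S.par^[k] c) := by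
  rw [pos, LinearMap.comp_apply, S.stepL_apply]

theorem pos_succ' (c : C) (k : ℕ) (y : V → ℝ) : S.pos c (k + 1) y =
    S.stepL (S.par^[k] c) (S.pos c k y) := rfl

theorem tim_succ (c : C) (k : ℕ) (y : V → ℝ) : S.tim c (k + 1) y =
    S.tim c k y + S.lam (S.par^[k] c) * S.pos c k y (S.ex (S.par^[k] c)) := by
  simp [tim]

theorem pos_succ_E (c : C) (k : ℕ) {y : V → ℝ} (hy : S.pos c k y ∈ simplex (S.vs (S.par^[k] c))) :
    S.pos c (k + 1) y ∈ simplex (S.E (S.par^[k] c)) := S.stepL_mem_E hy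

theorem pos_mem (c : C) (k : ℕ) {y : V → ℝ} (hy : y ∈ simplex (S.vs c)) :
    S.pos c k y ∈ simplex (S.vs (S.par^[k] c)) := by
  induction k with
  | zero => exact hy
  | succ k ih =>
    rw [iterate_succ_apply']
    exact simplex_mono (S.E_sub_par _) (S.pos_succ_E c k ih)

theorem pos_mem_E (c : C) (k : ℕ) {y : V → ℝ} (hy : y ∈ simplex (S.vs c)) :
    S.pos c (k + 1) y ∈ simplex (S.E (S.par^[k] c)) := S.pos_succ_E c k (S.pos_mem c k hy)

theorem pos_shift (c : C) (k : ℕ) (y : V → ℝ) :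
    S.pos c (k + 1) y = S.pos (S.par c) k (S.stepL c y) := by
  induction k with
  | zero => rfl
  | succ k ih => rw [pos_succ', ih, iterate_succ_apply, ← pos_succ']

theorem tim_shift (c : C) (k : ℕ) (y : V → ℝ) :
    S.tim c (k + 1) y = S.lam c * y (S.ex c) + S.tim (S.par c) k (S.stepL c y) := by
  induction k with
  | zero => simp [tim_succ, tim_zero, pos_zero]
  | succ k ih => rw [tim_succ, ih, pos_shift, iterate_succ_apply, tim_succ]; ring

theorem stepL_of_zero {c : C} {y : V → ℝ} (h : y (S.ex c) = 0) : S.stepL c y = y := by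
  rw [stepL_apply, h]; simp

theorem pos_shift_zero {r : ℕ} : ∀ {c : C} {y : V → ℝ}, (∀ l < r, y (S.ex (S.par^[l] c)) = 0) →
    ∀ k, S.pos c (r + k) y = S.pos (S.par^[r] c) k y := by
  induction r with
  | zero => intro c y _ k; simp
  | succ r ih =>
    intro c y h k
    have h0 : y (S.ex c) = 0 := h 0 (Nat.succ_pos _)
    rw [show r + 1 + k = (r + k) + 1 by ring, pos_shift, S.stepL_of_zero h0, iterate_succ_apply]
    exact ih (fun l hl => by
      have := h (l + 1) (by omega)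
      rwa [iterate_succ_apply] at this) k

theorem tim_shift_zero {r : ℕ} : ∀ {c : C} {y : V → ℝ}, (∀ l < r, y (S.ex (S.par^[l] c)) = 0) →
    ∀ k, S.tim c (r + k) y = S.tim (S.par^[r] c) k y := by
  induction r with
  | zero => intro c y _ k; simp
  | succ r ih =>
    intro c y h k
    have h0 : y (S.ex c) = 0 := h 0 (Nat.succ_pos _)
    rw [show r + 1 + k = (r + k) + 1 by ring, tim_shift, S.stepL_of_zero h0, iterate_succ_apply,
      h0, mul_zero, zero_add]
    exact ih (fun l hl => by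
      have := h (l + 1) (by omega)
      rwa [iterate_succ_apply] at this) k

theorem tim_mono_succ (c : C) (k : ℕ) {y : V → ℝ} (hy : y ∈ simplex (S.vs c)) :
    S.tim c k y ≤ S.tim c (k + 1) y := by
  rw [tim_succ]
  have h1 := (S.pos_mem c k hy).1 (S.ex (S.par^[k] c))
  have h2 := (S.lam_pos (S.par^[k] c)).le
  nlinarith [mul_nonneg h2 h1]

theorem tim_mono (c : C) {y : V → ℝ} (hy : y ∈ simplex (S.vs c)) :
    Monotone fun k => S.tim c k y :=
  monotone_nat_of_le_succ (fun k => S.tim_mono_succ c k hy)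

theorem tim_nonneg (c : C) (k : ℕ) {y : V → ℝ} (hy : y ∈ simplex (S.vs c)) : 0 ≤ S.tim c k y :=
  S.tim_mono c hy (Nat.zero_le k)

/-- After the first real move, all the coordinates on the exit face are positive. -/
theorem pos_pos {c : C} {y : V → ℝ} (hy : y ∈ simplex (S.vs c)) (h0 : 0 < y (S.ex c)) (k : ℕ) :
    0 < S.pos c k y (S.ex (S.par^[k] c)) := by
  induction k with
  | zero => exact h0
  | succ k ih =>
    rw [iterate_succ_apply']
    have h1 := S.ex_par_mem (S.par^[k] c)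
    rw [pos_succ, Pi.add_apply, Pi.smul_apply, smul_eq_mul, S.dir_E h1]
    have h2 := (S.pos_mem c k hy).1 (S.ex (S.par (S.par^[k] c)))
    positivity

theorem pos_pos_E {c : C} {y : V → ℝ} (hy : y ∈ simplex (S.vs c)) {k : ℕ} {θ : ℝ} (h0 : 0 < θ)
    {l : V} (hl : l ∈ S.E (S.par^[k] c)) : 0 < (S.pos c k y + θ • S.dir (S.par^[k] c)) l := by
  rw [Pi.add_apply, Pi.smul_apply, smul_eq_mul, S.dir_E hl]
  have h2 := (S.pos_mem c k hy).1 l
  positivity

/-- The trajectory of `y`, which starts moving in `c`, reaches `x` at the time `τ > 0`. -/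
def Orb (c : C) (y : V → ℝ) (τ : ℝ) (x : V → ℝ) : Prop :=
  ∃ (j : ℕ) (θ : ℝ), 0 < θ ∧ θ ≤ S.pos c j y (S.ex (S.par^[j] c)) ∧
    x = S.pos c j y + θ • S.dir (S.par^[j] c) ∧ τ = S.tim c j y + S.lam (S.par^[j] c) * θ

/-- No exit face is contained in the support of `y`. -/
def NoExit (y : V → ℝ) : Prop := ∀ d, ∃ l ∈ S.E d, y l = 0

theorem last_unique {v v' : C} {p p' : V → ℝ} {θ θ' : ℝ} (hp : p ∈ simplex (S.vs v))
    (hp' : p' ∈ simplex (S.vs v')) (h0 : 0 < θ) (h0' : 0 < θ') (h1 : θ ≤ p (S.ex v))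
    (h1' : θ' ≤ p' (S.ex v')) {u u' : V} (hu : u ∈ S.E v) (hu' : u' ∈ S.E v') (hpu : p u = 0)
    (hpu' : p' u' = 0) (h : p + θ • S.dir v = p' + θ' • S.dir v') : v = v' ∧ θ = θ' ∧ p = p' := by
  have key : ∀ {v v' : C} {p p' : V → ℝ} {θ θ' : ℝ}, p ∈ simplex (S.vs v) →
      p' ∈ simplex (S.vs v') → 0 < θ → 0 < θ' → θ ≤ p (S.ex v) → θ' ≤ p' (S.ex v') →
      p + θ • S.dir v = p' + θ' • S.dir v' → v' = v ∨ v' = S.par v := by
    intro v v' p p' θ θ' hp hp' h0 h0' h1 h1' h
    apply S.eq_or_of_E_sub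
    intro l hl
    by_contra hl'
    have e1 : (p + θ • S.dir v) l = 0 := by
      rw [h]
      exact (S.add_dir_mem hp' h0'.le h1').2.1 l hl'
    rw [Pi.add_apply, Pi.smul_apply, smul_eq_mul, S.dir_E hl] at e1
    have h2 := hp.1 l
    have h3 : 0 < θ * (1 / (n + 1 : ℝ)) := by positivity
    linarith
  have hv : v = v' := by
    rcases key hp hp' h0 h0' h1 h1' h with e | e
    · exact e.symm
    · rcases key hp' hp h0' h0 h1' h1 h.symm with e' | e'
      · exact e'
      · exfalso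
        have e1 := S.rank_lt v
        have e2 := S.rank_lt v'
        rw [← e] at e1
        rw [← e'] at e2
        omega
  subst hv
  have hM : (0 : ℝ) < 1 / (n + 1 : ℝ) := by positivity
  have g1 : θ * (1 / (n + 1 : ℝ)) = p' u + θ' * (1 / (n + 1 : ℝ)) := by
    have := congrFun h u
    simp only [Pi.add_apply, Pi.smul_apply, smul_eq_mul, S.dir_E hu, hpu, zero_add] at this
    exact this
  have g2 : p u' + θ * (1 / (n + 1 : ℝ)) = θ' * (1 / (n + 1 : ℝ)) := by
    have := congrFun h u'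
    simp only [Pi.add_apply, Pi.smul_apply, smul_eq_mul, S.dir_E hu', hpu', zero_add] at this
    exact this
  have g3 := hp'.1 u
  have g4 := hp.1 u'
  have g5 : θ = θ' := by
    have : θ * (1 / (n + 1 : ℝ)) = θ' * (1 / (n + 1 : ℝ)) := by linarith
    exact mul_right_cancel₀ hM.ne' this
  refine ⟨rfl, g5, ?_⟩
  rw [g5] at h
  exact add_right_cancel h

theorem exists_entry (c : C) (j : ℕ) {y : V → ℝ} (hy : y ∈ simplex (S.vs c)) (hne : S.NoExit y) :
    ∃ u ∈ S.E (S.par^[j] c), S.pos c j y u = 0 := by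
  cases j with
  | zero => exact hne c
  | succ j =>
    have h1 : ¬ (S.E (S.par^[j + 1] c) ⊆ S.E (S.par^[j] c)) := by
      intro h
      have := S.E_sub_E h
      rw [iterate_succ_apply'] at this
      exact S.par_ne _ this
    rw [Finset.not_subset] at h1
    obtain ⟨u, hu, hu'⟩ := h1
    exact ⟨u, hu, (S.pos_mem_E c j hy).2.1 u hu'⟩

theorem pos_unique {c c' : C} {y y' : V → ℝ} (hy : y ∈ simplex (S.vs c))
    (hy' : y' ∈ simplex (S.vs c')) (hne : S.NoExit y) (hne' : S.NoExit y')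
    (h0 : 0 < y (S.ex c)) (h0' : 0 < y' (S.ex c')) (j : ℕ) : ∀ (j' : ℕ) (θ θ' : ℝ),
    0 < θ → 0 < θ' → θ ≤ S.pos c j y (S.ex (S.par^[j] c)) →
    θ' ≤ S.pos c' j' y' (S.ex (S.par^[j'] c')) →
    S.pos c j y + θ • S.dir (S.par^[j] c) = S.pos c' j' y' + θ' • S.dir (S.par^[j'] c') →
    c = c' ∧ y = y' ∧ j = j' ∧ θ = θ' := by
  induction j with
  | zero =>
    intro j' θ θ' hθ hθ' h1 h1' h
    obtain ⟨u, hu, hpu⟩ := S.exists_entry c 0 hy hne
    obtain ⟨u', hu', hpu'⟩ := S.exists_entry c' j' hy' hne'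
    obtain ⟨e1, e2, e3⟩ := S.last_unique (S.pos_mem c 0 hy) (S.pos_mem c' j' hy') hθ hθ' h1 h1'
      hu hu' hpu hpu' h
    cases j' with
    | zero => exact ⟨e1, e3, rfl, e2⟩
    | succ j' =>
      exfalso
      obtain ⟨l, hl, hl'⟩ := hne (S.par^[j'] c')
      have := S.pos_pos_E hy' (S.pos_pos hy' h0' j') hl
      rw [← pos_succ, ← e3, pos_zero, hl'] at this
      exact lt_irrefl _ this
  | succ j ih =>
    intro j' θ θ' hθ hθ' h1 h1' h
    obtain ⟨u, hu, hpu⟩ := S.exists_entry c (j + 1) hy hne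
    obtain ⟨u', hu', hpu'⟩ := S.exists_entry c' j' hy' hne'
    obtain ⟨e1, e2, e3⟩ := S.last_unique (S.pos_mem c (j + 1) hy) (S.pos_mem c' j' hy') hθ hθ'
      h1 h1' hu hu' hpu hpu' h
    cases j' with
    | zero =>
      exfalso
      obtain ⟨l, hl, hl'⟩ := hne' (S.par^[j] c)
      have := S.pos_pos_E hy (S.pos_pos hy h0 j) hl
      rw [← pos_succ, e3, pos_zero, hl'] at this
      exact lt_irrefl _ this
    | succ j' =>
      rw [pos_succ, pos_succ] at e3
      obtain ⟨f1, f2, f3, _⟩ := ih j' _ _ (S.pos_pos hy h0 j) (S.pos_pos hy' h0' j') le_rfl le_rfl e3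
      exact ⟨f1, f2, by rw [f3], e2⟩

theorem orb_unique {c c' : C} {y y' : V → ℝ} (hy : y ∈ simplex (S.vs c))
    (hy' : y' ∈ simplex (S.vs c')) (hne : S.NoExit y) (hne' : S.NoExit y')
    (h0 : 0 < y (S.ex c)) (h0' : 0 < y' (S.ex c')) {τ τ' : ℝ} {x : V → ℝ}
    (h : S.Orb c y τ x) (h' : S.Orb c' y' τ' x) : c = c' ∧ y = y' ∧ τ = τ' := by
  obtain ⟨j, θ, h1, h2, h3, h4⟩ := h
  obtain ⟨j', θ', h1', h2', h3', h4'⟩ := h'
  obtain ⟨e1, e2, e3, e4⟩ := S.pos_unique hy hy' hne hne' h0 h0' j j' θ θ' h1 h1' h2 h2'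
    (h3.symm.trans h3')
  subst e1 e2 e3 e4
  exact ⟨rfl, rfl, h4.trans h4'.symm⟩

theorem not_orb_of_noExit {c : C} {y x : V → ℝ} (hy : y ∈ simplex (S.vs c)) {τ : ℝ}
    (h : S.Orb c y τ x) : ¬ S.NoExit x := by
  obtain ⟨j, θ, h1, h2, h3, h4⟩ := h
  intro hne
  obtain ⟨l, hl, hl'⟩ := hne (S.par^[j] c)
  have := S.pos_pos_E hy h1 hl
  rw [← h3, hl'] at this
  exact lt_irrefl _ this

end Sys

end Pool.Agent.Helper74.Branched
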