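import Pool.Agent.Helper74.Branched.Flow

/-!
# The flow: time goes to infinity, definition and continuity of the flow
-/

open Function Topology

noncomputable section

namespace Pool.Agent.Helper74.Branched

variable {V : Type*} [DecidableEq V]

namespace Sys

variable {C : Type*} {n : ℕ} (S : Sys V C n)

theorem rank_iter (c : C) (k : ℕ) : S.rank c + k ≤ S.rank (S.par^[k] c) := by
  induction k with
  | zero => simp
  | succ k ih =>
    rw [iterate_succ_apply']
    have := S.rank_lt (S.par^[k] c)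
    omega

theorem iter_inj (c : C) : Injective fun k => S.par^[k] c := by
  have : StrictMono fun k => S.rank (S.par^[k] c) := by
    apply strictMono_nat_of_lt_succ
    intro k
    rw [iterate_succ_apply']
    exact S.rank_lt _
  intro a b h
  exact this.injective (congrArg S.rank h)

/-- A finite set of facets is left eventually. -/
theorem exists_notMem (c : C) {A : Set C} (hA : A.Finite) : ∃ N, ∀ k, N ≤ k → S.par^[k] c ∉ A := by
  have hfin : {k | S.par^[k] c ∈ A}.Finite := hA.preimage (S.iter_inj c).injOn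
  obtain ⟨N, hN⟩ := hfin.bddAbove
  refine ⟨N + 1, fun k hk h => ?_⟩
  have := hN (show k ∈ {k | S.par^[k] c ∈ A} from h)
  omega

theorem single_mem {c : C} {v : V} (hv : v ∈ S.vs c) :
    (Pi.single v 1 : V → ℝ) ∈ simplex (S.vs c) := by
  refine ⟨fun w => ?_, fun w hw => ?_, ?_⟩
  · by_cases h : w = v
    · subst h; simp
    · simp [h]
  · have : w ≠ v := by rintro rfl; exact hw hv
    simp [this]
  · simp [Finset.sum_pi_single', hv]

theorem exists_exit {c : C} {v : V} (hv : v ∈ S.vs c) :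
    ∃ r, (∀ l < r, (Pi.single v 1 : V → ℝ) (S.ex (S.par^[l] c)) = 0) ∧
      S.ex (S.par^[r] c) = v := by
  classical
  have hex : ∃ r, S.ex (S.par^[r] c) = v := by
    by_contra hcon
    push Not at hcon
    have hall : ∀ k, v ∈ S.vs (S.par^[k] c) := by
      intro k
      induction k with
      | zero => exact hv
      | succ k ih =>
        rw [iterate_succ_apply']
        exact S.sub_par _ (Finset.mem_erase.2 ⟨(hcon k).symm, ih⟩)
    obtain ⟨N, hN⟩ := S.exists_notMem c (S.star_fin v)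
    exact hN N le_rfl (hall N)
  refine ⟨Nat.find hex, fun l hl => ?_, Nat.find_spec hex⟩
  have := Nat.find_min hex hl
  simp [this]

theorem growth {c : C} {y : V → ℝ} (hy : y ∈ simplex (S.vs c)) (h1 : 1 ≤ y (S.ex c)) (k : ℕ) :
    ((1 : ℝ) / (n + 1)) ^ k ≤ S.pos c k y (S.ex (S.par^[k] c)) := by
  induction k with
  | zero => simpa [pos_zero] using h1
  | succ k ih =>
    rw [iterate_succ_apply']
    have h1 := S.ex_par_mem (S.par^[k] c)
    rw [pos_succ, Pi.add_apply, Pi.smul_apply, smul_eq_mul, S.dir_E h1]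
    have h2 := (S.pos_mem c k hy).1 (S.ex (S.par (S.par^[k] c)))
    rw [pow_succ]
    have h3 : (0 : ℝ) ≤ 1 / (n + 1 : ℝ) := by positivity
    nlinarith [mul_le_mul_of_nonneg_right ih h3]

theorem tim_growth {c : C} {y : V → ℝ} (hy : y ∈ simplex (S.vs c)) (h1 : 1 ≤ y (S.ex c)) (k : ℕ) :
    (k : ℝ) ≤ S.tim c k y := by
  induction k with
  | zero => simp [tim_zero]
  | succ k ih =>
    rw [tim_succ]
    have h2 := S.growth hy h1 k
    have h3 : (n + 1 : ℝ) ^ k ≤ S.lam (S.par^[k] c) := by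
      unfold lam
      apply pow_le_pow_right₀
      · have : (0 : ℝ) ≤ n := Nat.cast_nonneg n
        linarith
      · have := S.rank_iter c k
        omega
    have h4 : (1 : ℝ) ≤ S.lam (S.par^[k] c) * S.pos c k y (S.ex (S.par^[k] c)) := by
      calc (1 : ℝ) = (n + 1 : ℝ) ^ k * ((1 : ℝ) / (n + 1)) ^ k := by
            rw [← mul_pow, mul_one_div_cancel (by positivity), one_pow]
        _ ≤ _ := mul_le_mul h3 h2 (by positivity) (S.lam_pos _).le
    push_cast
    linarith

theorem eq_sum_single {s : Finset V} {y : V → ℝ} (hy : y ∈ simplex s) :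
    y = ∑ v ∈ s, y v • (Pi.single v 1 : V → ℝ) := by
  funext w
  rw [Finset.sum_apply]
  by_cases hw : w ∈ s
  · rw [Finset.sum_eq_single w]
    · simp
    · intro b _ hb
      simp [hb.symm]
    · intro h; exact absurd hw h
  · rw [hy.2.1 w hw]
    symm
    apply Finset.sum_eq_zero
    intro v hv
    have : w ≠ v := by rintro rfl; exact hw hv
    simp [this]

theorem tim_unbounded (c : C) (R : ℝ) : ∃ N, ∀ y ∈ simplex (S.vs c), R ≤ S.tim c N y := by
  have h1 : ∀ v ∈ S.vs c, ∃ N, R ≤ S.tim c N (Pi.single v 1) := by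
    intro v hv
    obtain ⟨r, hr1, hr2⟩ := S.exists_exit hv
    obtain ⟨k, hk⟩ := exists_nat_ge R
    refine ⟨r + k, ?_⟩
    rw [S.tim_shift_zero hr1]
    refine hk.trans (S.tim_growth ?_ ?_ k)
    · apply S.single_mem
      rw [← hr2]
      exact S.ex_mem _
    · rw [hr2]; simp
  choose! N hN using h1
  refine ⟨∑ v ∈ S.vs c, N v, fun y hy => ?_⟩
  have h2 : ∀ v ∈ S.vs c, R ≤ S.tim c (∑ v ∈ S.vs c, N v) (Pi.single v 1) := by
    intro v hv
    refine (hN v hv).trans (S.tim_mono c (S.single_mem hv) ?_)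
    exact Finset.single_le_sum (f := N) (fun _ _ => Nat.zero_le _) hv
  have h3 : S.tim c (∑ v ∈ S.vs c, N v) y =
      ∑ v ∈ S.vs c, y v * S.tim c (∑ v ∈ S.vs c, N v) (Pi.single v 1) := by
    conv_lhs => rw [eq_sum_single hy, map_sum]
    exact Finset.sum_congr rfl (fun v _ => by rw [map_smul, smul_eq_mul])
  rw [h3]
  calc R = ∑ v ∈ S.vs c, y v * R := by rw [← Finset.sum_mul, hy.2.2, one_mul]
    _ ≤ _ := Finset.sum_le_sum (fun v hv => mul_le_mul_of_nonneg_left (h2 v hv) (hy.1 v))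

theorem exists_stage (c : C) {y : V → ℝ} (hy : y ∈ simplex (S.vs c)) {τ : ℝ} (hτ : 0 ≤ τ) :
    ∃ k, S.tim c k y ≤ τ ∧ τ ≤ S.tim c (k + 1) y := by
  classical
  obtain ⟨N, hN⟩ := S.tim_unbounded c τ
  have hex : ∃ k, τ ≤ S.tim c (k + 1) y := ⟨N, (hN y hy).trans (S.tim_mono_succ c N hy)⟩
  refine ⟨Nat.find hex, ?_, Nat.find_spec hex⟩
  rcases Nat.eq_zero_or_pos (Nat.find hex) with h | h
  · rw [h]
    exact hτ
  · obtain ⟨k, hk⟩ : ∃ k, Nat.find hex = k + 1 := ⟨Nat.find hex - 1, by omega⟩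
    rw [hk]
    have := Nat.find_min hex (show k < Nat.find hex by omega)
    exact (not_le.1 this).le

/-- Truncation to `[0, b]`. -/
def clamp (a b : ℝ) : ℝ := max 0 (min a b)

theorem clamp_of_ge {a b : ℝ} (hb : 0 ≤ b) (h : b ≤ a) : clamp a b = b := by
  unfold clamp; rw [min_eq_right h, max_eq_right hb]

theorem clamp_of_nonpos {a b : ℝ} (h : a ≤ 0) : clamp a b = 0 := by
  unfold clamp; exact max_eq_left ((min_le_left _ _).trans h)

theorem clamp_of_mem {a b : ℝ} (h : 0 ≤ a) (h' : a ≤ b) : clamp a b = a := by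
  unfold clamp; rw [min_eq_left h', max_eq_right h]

/-- The flow, using the first `N` facets only. -/
def flowN (c : C) (N : ℕ) (y : V → ℝ) (τ : ℝ) : V → ℝ :=
  y + ∑ k ∈ Finset.range N, clamp ((τ - S.tim c k y) / S.lam (S.par^[k] c))
    (S.pos c k y (S.ex (S.par^[k] c))) • S.dir (S.par^[k] c)

theorem pos_eq_sum (c : C) (k : ℕ) (y : V → ℝ) : S.pos c k y =
    y + ∑ i ∈ Finset.range k, S.pos c i y (S.ex (S.par^[i] c)) • S.dir (S.par^[i] c) := by
  induction k with
  | zero => simp [pos_zero]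
  | succ k ih =>
    rw [Finset.sum_range_succ, ← add_assoc, ← ih, pos_succ]

theorem flowN_eq (c : C) {N k : ℕ} {y : V → ℝ} (hy : y ∈ simplex (S.vs c)) {τ : ℝ} (hk : k < N)
    (h1 : S.tim c k y ≤ τ) (h2 : τ ≤ S.tim c (k + 1) y) : S.flowN c N y τ =
    S.pos c k y + ((τ - S.tim c k y) / S.lam (S.par^[k] c)) • S.dir (S.par^[k] c) := by
  obtain ⟨M, rfl⟩ : ∃ M, N = k + 1 + M := ⟨N - (k + 1), by omega⟩
  unfold flowN
  rw [Finset.sum_range_add, Finset.sum_range_succ]
  have e1 : ∀ i ∈ Finset.range k, clamp ((τ - S.tim c i y) / S.lam (S.par^[i] c))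
      (S.pos c i y (S.ex (S.par^[i] c))) • S.dir (S.par^[i] c) =
      S.pos c i y (S.ex (S.par^[i] c)) • S.dir (S.par^[i] c) := by
    intro i hi
    rw [Finset.mem_range] at hi
    rw [clamp_of_ge ((S.pos_mem c i hy).1 _)]
    rw [le_div_iff₀ (S.lam_pos _)]
    have e2 : S.tim c (i + 1) y ≤ τ := (S.tim_mono c hy (show i + 1 ≤ k by omega)).trans h1
    rw [tim_succ] at e2
    linarith
  have e2 : ∀ i ∈ Finset.range M, clamp ((τ - S.tim c (k + 1 + i) y) /
      S.lam (S.par^[k + 1 + i] c))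
      (S.pos c (k + 1 + i) y (S.ex (S.par^[k + 1 + i] c))) • S.dir (S.par^[k + 1 + i] c) = 0 := by
    intro i _
    rw [clamp_of_nonpos, zero_smul]
    apply div_nonpos_of_nonpos_of_nonneg _ (S.lam_pos _).le
    have : S.tim c (k + 1) y ≤ S.tim c (k + 1 + i) y := S.tim_mono c hy (by omega)
    linarith
  have e3 : clamp ((τ - S.tim c k y) / S.lam (S.par^[k] c)) (S.pos c k y (S.ex (S.par^[k] c))) =
      (τ - S.tim c k y) / S.lam (S.par^[k] c) := by
    apply clamp_of_mem
    · exact div_nonneg (by linarith) (S.lam_pos _).le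
    · rw [div_le_iff₀ (S.lam_pos _)]
      rw [tim_succ] at h2
      linarith
  rw [Finset.sum_congr rfl e1, Finset.sum_congr rfl e2, e3, Finset.sum_const_zero, add_zero,
    ← add_assoc, ← pos_eq_sum]

/-- A number of facets which is sufficient up to the time `R`. -/
def numF (c : C) (R : ℕ) : ℕ := (S.tim_unbounded c R).choose + 1

theorem numF_spec (c : C) (R : ℕ) {y : V → ℝ} (hy : y ∈ simplex (S.vs c)) {τ : ℝ} (hτ : τ ≤ R)
    (h0 : 0 ≤ τ) : ∃ k < S.numF c R, S.tim c k y ≤ τ ∧ τ ≤ S.tim c (k + 1) y := by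
  classical
  have hN := (S.tim_unbounded c R).choose_spec y hy
  have hex : ∃ k, τ ≤ S.tim c (k + 1) y := ⟨_, hτ.trans (hN.trans (S.tim_mono_succ c _ hy))⟩
  refine ⟨Nat.find hex, ?_, ?_, Nat.find_spec hex⟩
  · have : Nat.find hex ≤ (S.tim_unbounded c R).choose :=
      Nat.find_min' hex (hτ.trans (hN.trans (S.tim_mono_succ c _ hy)))
    unfold numF
    omega
  · rcases Nat.eq_zero_or_pos (Nat.find hex) with h | h
    · rw [h]
      exact h0
    · obtain ⟨k, hk⟩ : ∃ k, Nat.find hex = k + 1 := ⟨Nat.find hex - 1, by omega⟩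
      rw [hk]
      have := Nat.find_min hex (show k < Nat.find hex by omega)
      exact (not_le.1 this).le

/-- The flow. -/
def flow (c : C) (y : V → ℝ) (τ : ℝ) : V → ℝ := S.flowN c (S.numF c ⌈τ⌉₊) y τ

theorem flow_eq (c : C) {k : ℕ} {y : V → ℝ} (hy : y ∈ simplex (S.vs c)) {τ : ℝ} (h0 : 0 ≤ τ)
    (h1 : S.tim c k y ≤ τ) (h2 : τ ≤ S.tim c (k + 1) y) : S.flow c y τ =
    S.pos c k y + ((τ - S.tim c k y) / S.lam (S.par^[k] c)) • S.dir (S.par^[k] c) := by
  obtain ⟨k', hk', h1', h2'⟩ := S.numF_spec c ⌈τ⌉₊ hy (Nat.le_ceil τ) h0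
  rw [flow, S.flowN_eq c hy hk' h1' h2',
    ← S.flowN_eq c hy (show k' < max k k' + 1 by omega) h1' h2',
    ← S.flowN_eq c hy (show k < max k k' + 1 by omega) h1 h2]

theorem flow_eq_flowN (c : C) {y : V → ℝ} (hy : y ∈ simplex (S.vs c)) {τ : ℝ} (h0 : 0 ≤ τ)
    {R : ℕ} (hR : τ ≤ R) : S.flow c y τ = S.flowN c (S.numF c R) y τ := by
  obtain ⟨k', hk', h1', h2'⟩ := S.numF_spec c R hy hR h0
  rw [S.flowN_eq c hy hk' h1' h2', S.flow_eq c hy h0 h1' h2']

theorem flow_zero (c : C) {y : V → ℝ} (hy : y ∈ simplex (S.vs c)) : S.flow c y 0 = y := by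
  rw [S.flow_eq c (k := 0) hy le_rfl (by simp [tim_zero]) (S.tim_nonneg c _ hy)]
  simp [pos_zero, tim_zero]

theorem continuous_stepL (c : C) : Continuous (S.stepL c) := by
  have : (S.stepL c : (V → ℝ) → (V → ℝ)) = fun x => x + x (S.ex c) • S.dir c := by
    funext x; exact S.stepL_apply c x
  rw [this]
  fun_prop

theorem continuous_pos (c : C) (k : ℕ) : Continuous (S.pos c k) := by
  induction k with
  | zero => exact continuous_id
  | succ k ih => exact (S.continuous_stepL _).comp ih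

theorem continuous_tim (c : C) (k : ℕ) : Continuous (S.tim c k) := by
  induction k with
  | zero => exact continuous_zero
  | succ k ih =>
    have : (S.tim c (k + 1) : (V → ℝ) → ℝ) = fun y => S.tim c k y +
        S.lam (S.par^[k] c) * S.pos c k y (S.ex (S.par^[k] c)) := by
      funext y; exact S.tim_succ c k y
    rw [this]
    exact ih.add (continuous_const.mul ((continuous_apply _).comp (S.continuous_pos c k)))

theorem continuous_flowN (c : C) (N : ℕ) :
    Continuous fun p : (V → ℝ) × ℝ => S.flowN c N p.1 p.2 := by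
  unfold flowN clamp
  refine continuous_fst.add (continuous_finsetSum _ (fun k _ => ?_))
  have h1 : Continuous fun p : (V → ℝ) × ℝ => S.tim c k p.1 :=
    (S.continuous_tim c k).comp continuous_fst
  have h2 : Continuous fun p : (V → ℝ) × ℝ => S.pos c k p.1 (S.ex (S.par^[k] c)) :=
    (continuous_apply _).comp ((S.continuous_pos c k).comp continuous_fst)
  have h3 : Continuous fun p : (V → ℝ) × ℝ => (p.2 - S.tim c k p.1) / S.lam (S.par^[k] c) :=
    (continuous_snd.sub h1).div_const _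
  have h4 : Continuous fun p : (V → ℝ) × ℝ => max 0 (min ((p.2 - S.tim c k p.1) /
      S.lam (S.par^[k] c)) (S.pos c k p.1 (S.ex (S.par^[k] c)))) :=
    continuous_const.max (h3.min h2)
  exact h4.smul continuous_const

theorem continuousOn_flow (c : C) : ContinuousOn (fun p : (V → ℝ) × ℝ => S.flow c p.1 p.2)
    (simplex (S.vs c) ×ˢ Set.Ici 0) := by
  rintro ⟨y, τ⟩ ⟨hy, hτ⟩
  have h1 : ContinuousWithinAt (fun p : (V → ℝ) × ℝ => S.flowN c (S.numF c (⌈τ⌉₊ + 1)) p.1 p.2)
      (simplex (S.vs c) ×ˢ Set.Ici 0) (y, τ) := (S.continuous_flowN c _).continuousWithinAt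
  refine h1.congr_of_eventuallyEq ?_ ?_
  · have h2 : ∀ᶠ p : (V → ℝ) × ℝ in 𝓝[simplex (S.vs c) ×ˢ Set.Ici 0] (y, τ),
        p.2 < (⌈τ⌉₊ + 1 : ℕ) := by
      apply nhdsWithin_le_nhds
      apply (isOpen_lt continuous_snd continuous_const).mem_nhds
      show τ < (⌈τ⌉₊ + 1 : ℕ)
      have := Nat.le_ceil τ
      push_cast
      linarith
    filter_upwards [h2, self_mem_nhdsWithin] with p hp hp'
    exact S.flow_eq_flowN c hp'.1 hp'.2 hp.le
  · refine S.flow_eq_flowN c hy hτ ?_
    have := Nat.le_ceil τ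
    push_cast
    linarith

theorem flow_stage (c : C) {y : V → ℝ} (hy : y ∈ simplex (S.vs c)) {τ : ℝ} (h0 : 0 ≤ τ) :
    ∃ k, S.tim c k y ≤ τ ∧ τ ≤ S.tim c (k + 1) y ∧
      S.flow c y τ ∈ simplex (S.vs (S.par^[k] c)) := by
  obtain ⟨k, h1, h2⟩ := S.exists_stage c hy h0
  refine ⟨k, h1, h2, ?_⟩
  rw [S.flow_eq c hy h0 h1 h2]
  apply S.add_dir_mem (S.pos_mem c k hy)
  · exact div_nonneg (by linarith) (S.lam_pos _).le
  · rw [div_le_iff₀ (S.lam_pos _)]
    rw [tim_succ] at h2
    linarith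

/-- The flow for positive time, as a trajectory which really starts moving in some facet. -/
theorem flow_orb {w : C} {y : V → ℝ} (hy : y ∈ simplex (S.vs w)) {τ : ℝ} (h0 : 0 < τ) :
    ∃ r, (∀ l < r, y (S.ex (S.par^[l] w)) = 0) ∧ 0 < y (S.ex (S.par^[r] w)) ∧
      S.Orb (S.par^[r] w) y τ (S.flow w y τ) := by
  classical
  have hex : ∃ r, 0 < y (S.ex (S.par^[r] w)) := by
    by_contra hcon
    push Not at hcon
    have hz : ∀ k, S.pos w k y = y ∧ S.tim w k y = 0 := by
      intro k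
      induction k with
      | zero => exact ⟨rfl, rfl⟩
      | succ k ih =>
        have h1 : y (S.ex (S.par^[k] w)) = 0 := le_antisymm (hcon k) (hy.1 _)
        rw [pos_succ, tim_succ, ih.1, ih.2, h1]
        simp
    obtain ⟨N, hN⟩ := S.tim_unbounded w 1
    have := hN y hy
    rw [(hz N).2] at this
    exact absurd this (by norm_num)
  have hr1 : ∀ l < Nat.find hex, y (S.ex (S.par^[l] w)) = 0 := by
    intro l hl
    have := Nat.find_min hex hl
    exact le_antisymm (not_lt.1 this) (hy.1 _)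
  refine ⟨Nat.find hex, hr1, Nat.find_spec hex, ?_⟩
  set r := Nat.find hex with hr
  have hpos : 0 < y (S.ex (S.par^[r] w)) := Nat.find_spec hex
  have hyr : y ∈ simplex (S.vs (S.par^[r] w)) := by
    have := S.pos_mem w r hy
    have e := S.pos_shift_zero hr1 0
    rw [add_zero, pos_zero] at e
    rwa [e] at this
  obtain ⟨k, h1, h2⟩ := S.exists_stage w hy h0.le
  have e3 := S.flow_eq w hy h0.le h1 h2
  -- the stage is at least `r`
  have hrk : r ≤ k := by
    by_contra hlt
    have h3 : S.tim w (k + 1) y ≤ S.tim w r y := S.tim_mono w hy (by omega)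
    have h4 : S.tim w r y = 0 := by
      have e := S.tim_shift_zero hr1 0
      rwa [add_zero, tim_zero] at e
    linarith
  obtain ⟨j, rfl⟩ : ∃ j, k = r + j := ⟨k - r, by omega⟩
  have hit : S.par^[r + j] w = S.par^[j] (S.par^[r] w) := by
    rw [add_comm, iterate_add_apply]
  rw [S.tim_shift_zero hr1] at h1
  rw [show r + j + 1 = r + (j + 1) by ring, S.tim_shift_zero hr1] at h2
  rw [S.pos_shift_zero hr1, S.tim_shift_zero hr1, hit] at e3
  set c := S.par^[r] w with hc
  rcases eq_or_lt_of_le h1 with h3 | h3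
  · -- `τ = tim j`
    rw [h3, sub_self, zero_div, zero_smul, add_zero] at e3
    cases j with
    | zero =>
      exfalso
      rw [tim_zero] at h3
      linarith
    | succ j =>
      refine ⟨j, S.pos c j y (S.ex (S.par^[j] c)), S.pos_pos hyr hpos j, le_rfl, ?_, ?_⟩
      · rw [e3, pos_succ]
      · rw [← h3, tim_succ]
  · refine ⟨j, (τ - S.tim c j y) / S.lam (S.par^[j] c), ?_, ?_, e3, ?_⟩
    · exact div_pos (by linarith) (S.lam_pos _)
    · rw [div_le_iff₀ (S.lam_pos _)]
      rw [tim_succ] at h2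
      linarith
    · have := (S.lam_pos (S.par^[j] c)).ne'
      field_simp
      ring

theorem orb_flow {w : C} {y : V → ℝ} (hy : y ∈ simplex (S.vs w)) {τ : ℝ} {r : ℕ} {x : V → ℝ}
    (hr : ∀ l < r, y (S.ex (S.par^[l] w)) = 0) (h : S.Orb (S.par^[r] w) y τ x) :
    S.flow w y τ = x := by
  obtain ⟨j, θ, h1, h2, h3, h4⟩ := h
  have hit : S.par^[r + j] w = S.par^[j] (S.par^[r] w) := by
    rw [add_comm, iterate_add_apply]
  have hl := S.lam_pos (S.par^[j] (S.par^[r] w))
  have e1 : S.tim w (r + j) y ≤ τ := by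
    rw [S.tim_shift_zero hr, h4]
    have := mul_pos hl h1
    linarith
  have e2 : τ ≤ S.tim w (r + j + 1) y := by
    rw [show r + j + 1 = r + (j + 1) by ring, S.tim_shift_zero hr, h4, tim_succ]
    have := mul_le_mul_of_nonneg_left h2 hl.le
    linarith
  have e0 : 0 ≤ τ := (S.tim_nonneg w _ hy).trans e1
  rw [S.flow_eq w hy e0 e1 e2, S.pos_shift_zero hr, S.tim_shift_zero hr, hit, h3]
  congr 2
  rw [h4]
  field_simp
  ring

end Sys

end Pool.Agent.Helper74.Branched
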