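import Mathlib

/-!
# One-ended spanning forests

An infinite connected locally finite graph has a map `par` from its vertices to its vertices that
sends each vertex to a neighbour, has no cycles, and such that every vertex has only finitely many
descendants (vertices from which it is reached by iterating `par`).
-/

namespace Pool.Agent.Helper74.Branched

open Relation

variable {C : Type*} (adj : C → C → Prop)

/-- `t` is reached from `s` by a path whose vertices after `s` avoid `A`. -/
def ReachAvoid (A : Set C) : C → C → Prop := ReflTransGen (fun a b => adj a b ∧ b ∉ A)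

theorem ReachAvoid.mono {adj : C → C → Prop} {A B : Set C} (h : B ⊆ A) {s t : C}
    (hst : ReachAvoid adj A s t) : ReachAvoid adj B s t := by
  induction hst with
  | refl => exact ReflTransGen.refl
  | tail _ hab ih => exact ReflTransGen.tail ih ⟨hab.1, fun hb => hab.2 (h hb)⟩

theorem ReachAvoid.notMem {adj : C → C → Prop} {A : Set C} {s t : C}
    (hst : ReachAvoid adj A s t) (hs : s ∉ A) : t ∉ A := by
  induction hst with
  | refl => exact hs
  | tail _ h _ => exact h.2

theorem ReachAvoid.symm {adj : C → C → Prop} (hsymm : ∀ a b, adj a b → adj b a) {A : Set C}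
    {s t : C} (hst : ReachAvoid adj A s t) (hs : s ∉ A) : ReachAvoid adj A t s := by
  induction hst with
  | refl => exact ReflTransGen.refl
  | @tail b c hab hbc ih =>
    have hb : b ∉ A := ReachAvoid.notMem (adj := adj) hab hs
    exact ReflTransGen.head ⟨hsymm _ _ hbc.1, hb⟩ ih

/-- The vertices outside `A` whose component in the complement of `A` is infinite. -/
def Esc (A : Set C) : Set C := {s | s ∉ A ∧ {t | ReachAvoid adj A s t}.Infinite}

theorem Esc.mono {adj : C → C → Prop} {A B : Set C} (h : B ⊆ A) : Esc adj A ⊆ Esc adj B := by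
  rintro s ⟨h1, h2⟩
  exact ⟨fun hb => h1 (h hb), h2.mono (fun t ht => ReachAvoid.mono h ht)⟩

variable {adj}

theorem esc_compl_finite (hsymm : ∀ a b, adj a b → adj b a) (hfin : ∀ a, {b | adj a b}.Finite)
    (hconn : ∀ a b, ReflTransGen adj a b) {A : Set C} (hA : A.Finite) (hAne : A.Nonempty) :
    (Esc adj A)ᶜ.Finite := by
  classical
  -- the neighbours of `A`
  let N : Set C := ⋃ a ∈ A, {b | adj a b}
  have hN : N.Finite := hA.biUnion (fun a _ => hfin a)
  let N' : Set C := {c ∈ N | {t | ReachAvoid adj A c t}.Finite ∧ c ∉ A}
  have hN' : N'.Finite := hN.subset (fun c hc => hc.1)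
  have hsub : (Esc adj A)ᶜ ⊆ A ∪ ⋃ c ∈ N', {t | ReachAvoid adj A c t} := by
    intro s hs
    by_cases hsA : s ∈ A
    · exact Or.inl hsA
    · right
      have hsfin : {t | ReachAvoid adj A s t}.Finite := by
        by_contra hinf
        exact hs ⟨hsA, hinf⟩
      obtain ⟨a, ha⟩ := hAne
      -- walk from `a` to `s`
      have key : ∀ b, ReflTransGen adj a b → b ∉ A → ∃ c ∈ N, c ∉ A ∧ ReachAvoid adj A c b := by
        intro b hb
        induction hb with
        | refl => exact fun h => absurd ha h
        | @tail b c hab hbc ih =>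
          intro hc
          by_cases hbA : b ∈ A
          · refine ⟨c, ?_, hc, ReflTransGen.refl⟩
            exact Set.mem_biUnion hbA hbc
          · obtain ⟨d, hd, hdA, hdb⟩ := ih hbA
            exact ⟨d, hd, hdA, ReflTransGen.tail hdb ⟨hbc, hc⟩⟩
      obtain ⟨c, hcN, hcA, hcs⟩ := key s (hconn a s) hsA
      have hcfin : {t | ReachAvoid adj A c t}.Finite := by
        refine hsfin.subset (fun t ht => ?_)
        have h1 : ReachAvoid adj A s c := ReachAvoid.symm hsymm hcs hcA
        exact ReflTransGen.trans h1 ht
      exact Set.mem_biUnion (show c ∈ N' from ⟨hcN, hcfin, hcA⟩) hcs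
  refine Set.Finite.subset (hA.union (hN'.biUnion (fun c hc => hc.2.1))) hsub

/-- A connected locally finite graph is countable. -/
theorem countable_of_connected (hfin : ∀ a, {b | adj a b}.Finite)
    (hconn : ∀ a b, ReflTransGen adj a b) : Countable C := by
  rcases isEmpty_or_nonempty C with h | ⟨⟨a₀⟩⟩
  · infer_instance
  let B : ℕ → Set C := fun n => Nat.rec {a₀} (fun _ S => ⋃ a ∈ S, {b | adj a b}) n
  have hBs : ∀ n, B (n + 1) = ⋃ a ∈ B n, {b | adj a b} := fun n => rfl
  have hBfin : ∀ n, (B n).Finite := by
    intro n
    induction n with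
    | zero => exact Set.finite_singleton _
    | succ n ih => rw [hBs]; exact ih.biUnion (fun a _ => hfin a)
  have hBcov : ∀ c, ∃ n, c ∈ B n := by
    intro c
    have := hconn a₀ c
    induction this with
    | refl => exact ⟨0, rfl⟩
    | @tail b c _ hbc ih =>
      obtain ⟨n, hn⟩ := ih
      refine ⟨n + 1, ?_⟩
      rw [hBs]
      exact Set.mem_biUnion hn hbc
  rw [← Set.countable_univ_iff]
  refine (Set.countable_iUnion (fun n => (hBfin n).countable)).mono ?_
  intro c _
  exact Set.mem_iUnion.2 (hBcov c)

/-- One-ended spanning forests exist. -/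
theorem exists_parent [Infinite C] (hsymm : ∀ a b, adj a b → adj b a)
    (hfin : ∀ a, {b | adj a b}.Finite) (hconn : ∀ a b, ReflTransGen adj a b) :
    ∃ par : C → C, (∀ c, adj c (par c)) ∧ (∀ c, {d | ∃ k, par^[k] d = c}.Finite) ∧
      ∃ rank : C → ℕ, ∀ c, rank c < rank (par c) := by
  classical
  obtain ⟨a₀⟩ : Nonempty C := inferInstance
  -- balls
  let B : ℕ → Set C := fun n => Nat.rec {a₀} (fun _ S => S ∪ ⋃ a ∈ S, {b | adj a b}) n
  have hB0 : B 0 = {a₀} := rfl
  have hBs : ∀ n, B (n + 1) = B n ∪ ⋃ a ∈ B n, {b | adj a b} := fun n => rfl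
  have hBfin : ∀ n, (B n).Finite := by
    intro n
    induction n with
    | zero => rw [hB0]; exact Set.finite_singleton _
    | succ n ih => rw [hBs]; exact ih.union (ih.biUnion (fun a _ => hfin a))
  have hBmono : Monotone B := by
    apply monotone_nat_of_le_succ
    intro n
    rw [hBs]
    exact Set.subset_union_left
  have hBne : ∀ n, (B n).Nonempty := fun n => ⟨a₀, hBmono (Nat.zero_le n) (by rw [hB0]; rfl)⟩
  have hBcov : ∀ c, ∃ n, c ∈ B n := by
    intro c
    have := hconn a₀ c
    induction this with
    | refl => exact ⟨0, by rw [hB0]; rfl⟩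
    | @tail b c _ hbc ih =>
      obtain ⟨n, hn⟩ := ih
      refine ⟨n + 1, ?_⟩
      rw [hBs]
      exact Or.inr (Set.mem_biUnion hn hbc)
  have hEfin : ∀ n, (Esc adj (B n))ᶜ.Finite :=
    fun n => esc_compl_finite hsymm hfin hconn (hBfin n) (hBne n)
  -- the level of a vertex
  have hlev : ∀ c, ∃ n, c ∉ Esc adj (B n) := by
    intro c
    obtain ⟨n, hn⟩ := hBcov c
    exact ⟨n, fun h => h.1 hn⟩
  let lev : C → ℕ := fun c => Nat.find (hlev c)
  have hlev1 : ∀ c, c ∉ Esc adj (B (lev c)) := fun c => Nat.find_spec (hlev c)
  have hlev2 : ∀ c n, n < lev c → c ∈ Esc adj (B n) := by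
    intro c n hn
    by_contra h
    exact Nat.find_min (hlev c) hn h
  have hlev3 : ∀ c n, c ∉ Esc adj (B n) → lev c ≤ n := fun c n h => Nat.find_min' (hlev c) h
  have hlevfin : ∀ n, {c | lev c ≤ n}.Finite := by
    intro n
    refine (hEfin n).subset (fun c hc => ?_)
    intro h
    exact hlev1 c (Esc.mono (hBmono (show lev c ≤ n from hc)) h)
  -- a vertex of higher level is reached through vertices of level at least the same
  let good : C → C → Prop := fun s t =>
    ReflTransGen (fun a b => adj a b ∧ lev s ≤ lev b) s t ∧ lev s < lev t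
  have hgood : ∀ s, ∃ t, good s t := by
    intro s
    rcases Nat.eq_zero_or_pos (lev s) with h0 | hpos
    · -- level zero
      have hinf : {c | lev c ≤ 0}.Finite := hlevfin 0
      obtain ⟨t, ht⟩ := hinf.infinite_compl.nonempty
      refine ⟨t, ?_, ?_⟩
      · have h := hconn s t
        clear ht
        induction h with
        | refl => exact ReflTransGen.refl
        | tail _ hab ih => exact ReflTransGen.tail ih ⟨hab, by rw [h0]; exact Nat.zero_le _⟩
      · rw [h0]
        exact Nat.pos_of_ne_zero (fun e => ht (by rw [Set.mem_ofPred_eq, e]))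
    · obtain ⟨n, hn⟩ : ∃ n, lev s = n + 1 := ⟨lev s - 1, by omega⟩
      have hs : s ∈ Esc adj (B n) := hlev2 s n (by omega)
      have hinf := hs.2
      obtain ⟨t, ht1, ht2⟩ := hinf.exists_notMem_finite (hlevfin (n + 1))
      refine ⟨t, ?_, ?_⟩
      · -- all vertices on the path are in `Esc`
        have key : ∀ t, ReachAvoid adj (B n) s t →
            ReflTransGen (fun a b => adj a b ∧ lev s ≤ lev b) s t := by
          intro t ht
          induction ht with
          | refl => exact ReflTransGen.refl
          | @tail b c hab hbc ih =>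
            refine ReflTransGen.tail ih ⟨hbc.1, ?_⟩
            rw [hn]
            have hc : c ∈ Esc adj (B n) := by
              refine ⟨hbc.2, ?_⟩
              have hsc : ReachAvoid adj (B n) s c := ReflTransGen.tail hab hbc
              refine hinf.mono (fun t ht => ?_)
              exact ReflTransGen.trans (ReachAvoid.symm hsymm hsc hs.1) ht
            by_contra hlt
            push Not at hlt
            have hle : lev c ≤ n := by omega
            exact hlev1 c (Esc.mono (hBmono hle) hc)
        exact key t ht1
      · rw [hn]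
        rw [Set.mem_ofPred_eq] at ht2
        omega
  -- the distance to a vertex of higher level
  let R : C → ℕ → Prop := fun s k => ∃ f : ℕ → C, f 0 = s ∧ (∀ i < k, adj (f i) (f (i + 1))) ∧
    (∀ i < k, lev s ≤ lev (f i)) ∧ lev s < lev (f k)
  have hR : ∀ s, ∃ k, R s k := by
    intro s
    obtain ⟨t, hst, ht⟩ := hgood s
    have key : ∀ t, ReflTransGen (fun a b => adj a b ∧ lev s ≤ lev b) s t →
        ∃ k, ∃ f : ℕ → C, f 0 = s ∧ (∀ i < k, adj (f i) (f (i + 1))) ∧
          (∀ i ≤ k, lev s ≤ lev (f i)) ∧ f k = t := by
      intro t ht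
      induction ht with
      | refl => exact ⟨0, fun _ => s, rfl, by simp, by simp, rfl⟩
      | @tail b c _ hbc ih =>
        obtain ⟨k, f, hf0, hf1, hf2, hf3⟩ := ih
        refine ⟨k + 1, fun i => if i ≤ k then f i else c, by simp [hf0], ?_, ?_, by simp⟩
        · intro i hi
          rcases Nat.lt_or_ge i k with h | h
          · have h1 : i ≤ k := h.le
            have h2 : i + 1 ≤ k := h
            simp only [h1, h2, if_true]
            exact hf1 i h
          · have h1 : i = k := by omega
            subst h1
            simp only [le_refl, if_true, show ¬ (i + 1 ≤ i) by omega, if_false]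
            rw [hf3]
            exact hbc.1
        · intro i hi
          by_cases h : i ≤ k
          · simp only [h, if_true]
            exact hf2 i h
          · simp only [h, if_false]
            exact hbc.2
    obtain ⟨k, f, hf0, hf1, hf2, hf3⟩ := key t hst
    exact ⟨k, f, hf0, hf1, fun i hi => hf2 i hi.le, by rw [hf3]; exact ht⟩
  let dist : C → ℕ := fun s => Nat.find (hR s)
  have hdist1 : ∀ s, R s (dist s) := fun s => Nat.find_spec (hR s)
  have hdist2 : ∀ s k, R s k → dist s ≤ k := fun s k h => Nat.find_min' (hR s) h
  have hstep : ∀ s, ∃ t, adj s t ∧ (lev s < lev t ∨ (lev s = lev t ∧ dist t < dist s)) := by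
    intro s
    obtain ⟨f, hf0, hf1, hf2, hf3⟩ := hdist1 s
    have hpos : 0 < dist s := by
      rcases Nat.eq_zero_or_pos (dist s) with h | h
      · exfalso
        rw [h, hf0] at hf3
        exact lt_irrefl _ hf3
      · exact h
    refine ⟨f 1, ?_, ?_⟩
    · have := hf1 0 hpos
      rwa [hf0] at this
    · by_cases h1 : dist s = 1
      · left
        rw [h1] at hf3
        exact hf3
      · have h2 : 1 < dist s := by omega
        have h3 := hf2 1 h2
        rcases lt_or_eq_of_le h3 with h4 | h4
        · exact Or.inl h4
        · right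
          refine ⟨h4, ?_⟩
          have hr : R (f 1) (dist s - 1) := by
            refine ⟨fun i => f (i + 1), rfl, ?_, ?_, ?_⟩
            · intro i hi
              exact hf1 (i + 1) (by omega)
            · intro i hi
              rw [← h4]
              exact hf2 (i + 1) (by omega)
            · rw [← h4]
              show lev s < lev (f (dist s - 1 + 1))
              rw [show dist s - 1 + 1 = dist s by omega]
              exact hf3
          have := hdist2 (f 1) _ hr
          omega
  choose par hpar1 hpar2 using hstep
  have hlevle : ∀ c, lev c ≤ lev (par c) := by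
    intro c
    rcases hpar2 c with h | h
    · exact h.le
    · exact h.1.le
  have hiter : ∀ k c, lev c ≤ lev (par^[k] c) := by
    intro k
    induction k with
    | zero => intro c; exact le_rfl
    | succ k ih =>
      intro c
      rw [Function.iterate_succ_apply]
      exact (hlevle c).trans (ih _)
  have hanc : ∀ c, {d | ∃ k, par^[k] d = c}.Finite := by
    intro c
    refine (hlevfin (lev c)).subset ?_
    rintro d ⟨k, rfl⟩
    exact hiter k d
  -- no cycles
  have hlex : ∀ k c, lev c < lev (par^[k + 1] c) ∨
      (lev c = lev (par^[k + 1] c) ∧ dist (par^[k + 1] c) < dist c) := by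
    intro k
    induction k with
    | zero => intro c; exact hpar2 c
    | succ k ih =>
      intro c
      rw [Function.iterate_succ_apply]
      rcases hpar2 c with h | h
      · left
        exact h.trans_le (hiter _ _)
      · rcases ih (par c) with h' | h'
        · left
          rw [h.1]; exact h'
        · right
          exact ⟨h.1.trans h'.1, h'.2.trans h.2⟩
  have hnocycle : ∀ k c, par^[k + 1] c ≠ c := by
    intro k c h
    rcases hlex k c with h' | h'
    · rw [h] at h'; exact lt_irrefl _ h'
    · rw [h] at h'; exact lt_irrefl _ h'.2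
  refine ⟨par, hpar1, hanc, fun c => (hanc c).toFinset.card, ?_⟩
  intro c
  apply Finset.card_lt_card
  rw [Finset.ssubset_iff_of_subset]
  · refine ⟨par c, ?_, ?_⟩
    · rw [Set.Finite.mem_toFinset]
      exact ⟨0, rfl⟩
    · rw [Set.Finite.mem_toFinset]
      rintro ⟨k, hk⟩
      exact hnocycle k c (by rw [Function.iterate_succ_apply]; exact hk)
  · intro d hd
    rw [Set.Finite.mem_toFinset] at hd ⊢
    obtain ⟨k, hk⟩ := hd
    exact ⟨k + 1, by rw [Function.iterate_succ_apply', hk]⟩

end Pool.Agent.Helper74.Branched
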