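import Pool.Agent.Helper74.Branched.Space

/-!
# Triangulated PL manifolds: local structure
-/

open Function Topology Set

noncomputable section

namespace Pool.Agent.Helper74.Branched

universe u

variable {V : Type u}

/-- The linear functional given by a vector of coefficients on a finite set of vertices. -/
def fn (s : Finset V) (a : V → ℝ) : (V → ℝ) →L[ℝ] ℝ :=
  ∑ v ∈ s, a v • ContinuousLinearMap.proj (R := ℝ) (φ := fun _ : V => ℝ) v

theorem fn_apply (s : Finset V) (a x : V → ℝ) : fn s a x = ∑ v ∈ s, a v * x v := by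
  simp [fn]

/-- Generic points of a simplex. -/
theorem exists_generic (F : Finset V) (𝓕 : Set ((V → ℝ) →L[ℝ] ℝ)) (hfin : 𝓕.Finite)
    {W : Set (V → ℝ)} (hW : IsOpen W) {x : V → ℝ} (hx : x ∈ osimplex F) (hxW : x ∈ W) :
    ∃ x' ∈ osimplex F, x' ∈ W ∧ ∀ ℓ ∈ 𝓕, ℓ x' = 0 → ∀ y ∈ simplex F, ℓ y = 0 := by
  classical
  induction 𝓕, hfin using Set.Finite.induction_on with
  | empty => exact ⟨x, hx, hxW, by simp⟩
  | @insert ℓ 𝓕 _ hfin ih =>
    obtain ⟨x', h1, h2, h3⟩ := ih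
    by_cases hbad : ℓ x' = 0 ∧ ∃ y ∈ simplex F, ℓ y ≠ 0
    · obtain ⟨h0, y, hy, hly⟩ := hbad
      have e1 : ∀ᶠ ε : ℝ in 𝓝 0, (1 - ε) • x' + ε • y ∈ W := eventually_segment hW h2
      have e2 : ∀ᶠ ε : ℝ in 𝓝 0, ∀ ℓ' ∈ 𝓕, ℓ' x' ≠ 0 → ℓ' ((1 - ε) • x' + ε • y) ≠ 0 := by
        rw [Set.Finite.eventually_all hfin]
        intro ℓ' _
        by_cases h : ℓ' x' = 0
        · exact Filter.Eventually.of_forall (fun ε h' => absurd h h')
        · have hc : IsOpen {z : V → ℝ | ℓ' z ≠ 0} := isOpen_ne_fun ℓ'.continuous continuous_const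
          have := eventually_segment (y := y) hc (show x' ∈ {z : V → ℝ | ℓ' z ≠ 0} from h)
          filter_upwards [this] with ε hε _ using hε
      have e3 : ∀ᶠ ε : ℝ in 𝓝[>] 0, ((1 - ε) • x' + ε • y ∈ W) ∧
          (∀ ℓ' ∈ 𝓕, ℓ' x' ≠ 0 → ℓ' ((1 - ε) • x' + ε • y) ≠ 0) ∧ 0 < ε ∧ ε < 1 := by
        have e4 : ∀ᶠ ε : ℝ in 𝓝[>] 0, 0 < ε := self_mem_nhdsWithin
        have e5 : ∀ᶠ ε : ℝ in 𝓝 0, ε < 1 := (isOpen_Iio (a := (1 : ℝ))).mem_nhds (by simp)
        filter_upwards [nhdsWithin_le_nhds e1, nhdsWithin_le_nhds e2, e4, nhdsWithin_le_nhds e5]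
          with ε a1 a2 a3 a4 using ⟨a1, a2, a3, a4⟩
      obtain ⟨ε, f1, f2, f3, f4⟩ := e3.exists
      refine ⟨(1 - ε) • x' + ε • y, ?_, f1, ?_⟩
      · rw [add_comm]
        exact convex_mem_osimplex hy h1 f3.le (by linarith) (by ring)
      · intro ℓ' hℓ' hz
        rw [Set.mem_insert_iff] at hℓ'
        rcases hℓ' with rfl | hℓ'
        · exfalso
          rw [map_add, map_smul, map_smul, h0, smul_zero, zero_add, smul_eq_mul, mul_eq_zero] at hz
          rcases hz with hz | hz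
          · exact f3.ne' hz
          · exact hly hz
        · by_cases h : ℓ' x' = 0
          · exact h3 ℓ' hℓ' h
          · exact absurd hz (f2 ℓ' hℓ' h)
    · push Not at hbad
      refine ⟨x', h1, h2, ?_⟩
      intro ℓ' hℓ' hz
      rw [Set.mem_insert_iff] at hℓ'
      rcases hℓ' with rfl | hℓ'
      · exact hbad hz
      · exact h3 ℓ' hℓ' hz

variable {K : PreAbstractSimplicialComplex V} {m : ℕ}

/-- A chart: an open set of the polyhedron with a PL open embedding in Euclidean space. -/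
structure Chart (K : PreAbstractSimplicialComplex V) (m : ℕ) (U : Set (V → ℝ))
    (h : (V → ℝ) → (Fin m → ℝ)) : Prop where
  isOpen : ∃ O, IsOpen O ∧ U = O ∩ space K
  emb : IsOpenEmbedding (fun y : U => h y)
  pl : IsPLOn K h U

variable {U : Set (V → ℝ)} {h : (V → ℝ) → (Fin m → ℝ)}

theorem Chart.sub (hc : Chart K m U h) : U ⊆ space K := by
  obtain ⟨O, _, rfl⟩ := hc.isOpen
  exact inter_subset_right

theorem Chart.inj (hc : Chart K m U h) {x y : V → ℝ} (hx : x ∈ U) (hy : y ∈ U)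
    (hxy : h x = h y) : x = y := by
  have := hc.emb.injective (a₁ := ⟨x, hx⟩) (a₂ := ⟨y, hy⟩) hxy
  exact congrArg Subtype.val this

theorem Chart.continuousOn (hc : Chart K m U h) : ContinuousOn h U :=
  continuousOn_iff_continuous_domRestrict.2 hc.emb.continuous

theorem Chart.isOpen_image (hc : Chart K m U h) {W : Set (V → ℝ)} (hW : IsOpen W) :
    IsOpen (h '' (W ∩ U)) := by
  have h1 : IsOpen ((fun y : U => h y) '' (Subtype.val ⁻¹' W)) :=
    hc.emb.isOpenMap _ (hW.preimage continuous_subtype_val)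
  have h2 : (fun y : U => h y) '' (Subtype.val ⁻¹' W) = h '' (W ∩ U) := by
    ext z
    constructor
    · rintro ⟨y, hy, rfl⟩
      exact ⟨y, ⟨hy, y.2⟩, rfl⟩
    · rintro ⟨y, ⟨hy, hyU⟩, rfl⟩
      exact ⟨⟨y, hyU⟩, hy, rfl⟩
  rwa [h2] at h1

/-- Near a point of a chart, an open set of the polyhedron inside the chart covered by finitely
many cells. -/
theorem Chart.exists_cells (hc : Chart K m U h) {x : V → ℝ} (hx : x ∈ U) :
    ∃ (P : Finset (Finset V × Finset (V → ℝ))) (O : Set (V → ℝ)), IsOpen O ∧ x ∈ O ∧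
      O ∩ space K ⊆ U ∧ (∀ p ∈ P, p.1 ∈ K.faces ∧ IsAffineOn h p.1 (cell p.1 p.2)) ∧
      ∀ y ∈ O ∩ space K, ∃ p ∈ P, y ∈ cell p.1 p.2 := by
  obtain ⟨P, h1, h2⟩ := hc.pl x hx
  rw [mem_nhdsWithin] at h2
  obtain ⟨O, hO, hxO, hO2⟩ := h2
  refine ⟨P, O, hO, hxO, ?_, fun p hp => ⟨(h1 p hp).1, (h1 p hp).2.2⟩, ?_⟩
  · intro y hy
    have := hO2 hy
    rw [mem_iUnion₂] at this
    obtain ⟨p, hp, hyp⟩ := this
    exact (h1 p hp).2.1 hyp
  · intro y hy
    have := hO2 hy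
    rw [mem_iUnion₂] at this
    obtain ⟨p, hp, hyp⟩ := this
    exact ⟨p, hp, hyp⟩

theorem isOpen_sign {X : Type*} [TopologicalSpace X] {ℓ : X → ℝ} (hℓ : Continuous ℓ) {x : X}
    (hx : ℓ x ≠ 0) : ∃ W, IsOpen W ∧ x ∈ W ∧ ∀ y ∈ W, 0 < ℓ y * ℓ x := by
  refine ⟨{y | 0 < ℓ y * ℓ x}, isOpen_lt continuous_const (hℓ.mul continuous_const), ?_,
    fun y hy => hy⟩
  exact mul_self_pos.2 hx

/-- The page lemma: near a generic point of the open simplex `F`, the chart is affine on each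
maximal simplex obtained from `F` by adding at most one vertex. -/
theorem Chart.page [DecidableEq V] (hc : Chart K m U h) {F : Finset V} {x : V → ℝ}
    (hx : x ∈ osimplex F) (hxU : x ∈ U) :
    ∃ (x' : V → ℝ) (W : Set (V → ℝ)), x' ∈ osimplex F ∧ IsOpen W ∧ x' ∈ W ∧
      W ∩ space K ⊆ U ∧ (∀ y ∈ W, ∀ v ∈ F, 0 < y v) ∧
      ∀ w ∈ K.faces, F ⊆ w → (∀ a ∈ w, ∀ b ∈ w, a ∉ F → b ∉ F → a = b) →
        (∀ t ∈ K.faces, w ⊆ t → t = w) →
        ∃ c : V → (Fin m → ℝ), ∀ y ∈ simplex w ∩ W, h y = ∑ v ∈ w, y v • c v := by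
  classical
  obtain ⟨P, O, hO, hxO, hOU, hP1, hP2⟩ := hc.exists_cells hxU
  let 𝓕 : Set ((V → ℝ) →L[ℝ] ℝ) := ⋃ p ∈ P, (fn p.1) '' (p.2 : Set (V → ℝ))
  have h𝓕 : 𝓕.Finite := P.finite_toSet.biUnion (fun p _ => p.2.finite_toSet.image _)
  obtain ⟨x', hx', hx'O, hgen⟩ := exists_generic F 𝓕 h𝓕 hO hx hxO
  -- a neighbourhood on which nonvanishing functionals keep their sign
  have hsign : ∃ W1 : Set (V → ℝ), IsOpen W1 ∧ x' ∈ W1 ∧
      ∀ ℓ ∈ 𝓕, ℓ x' ≠ 0 → ∀ y ∈ W1, 0 < ℓ y * ℓ x' := by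
    have : ∀ ℓ ∈ 𝓕, ∃ W1 : Set (V → ℝ), IsOpen W1 ∧ x' ∈ W1 ∧
        (ℓ x' ≠ 0 → ∀ y ∈ W1, 0 < ℓ y * ℓ x') := by
      intro ℓ _
      by_cases h0 : ℓ x' = 0
      · exact ⟨univ, isOpen_univ, trivial, fun h => absurd h0 h⟩
      · obtain ⟨W1, a1, a2, a3⟩ := isOpen_sign ℓ.continuous h0
        exact ⟨W1, a1, a2, fun _ => a3⟩
    choose! W1 a1 a2 a3 using this
    refine ⟨⋂ ℓ ∈ 𝓕, W1 ℓ, h𝓕.isOpen_biInter (fun ℓ hℓ => a1 ℓ hℓ),
      mem_iInter₂.2 (fun ℓ hℓ => a2 ℓ hℓ), ?_⟩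
    intro ℓ hℓ h0 y hy
    exact a3 ℓ hℓ h0 y (mem_iInter₂.1 hy ℓ hℓ)
  obtain ⟨W1, hW1, hx'W1, hsgn⟩ := hsign
  let W : Set (V → ℝ) := W1 ∩ O ∩ {y | ∀ v ∈ F, 0 < y v}
  have hW : IsOpen W := (hW1.inter hO).inter (isOpen_pos F)
  have hx'W : x' ∈ W := ⟨⟨hx'W1, hx'O⟩, hx'.2⟩
  refine ⟨x', W, hx', hW, hx'W, fun y hy => hOU ⟨hy.1.1.2, hy.2⟩, fun y hy => hy.2, ?_⟩
  intro w hw hFw hone hmax
  -- a point of the open page
  have hpt : ∃ y0 ∈ osimplex w, y0 ∈ W := by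
    obtain ⟨z, hz⟩ := exists_osimplex (face_nonempty' K hw)
    have e1 : ∀ᶠ ε : ℝ in 𝓝[>] 0, (1 - ε) • x' + ε • z ∈ W :=
      nhdsWithin_le_nhds (eventually_segment hW hx'W)
    have e2 : ∀ᶠ ε : ℝ in 𝓝[>] 0, 0 < ε := self_mem_nhdsWithin
    have e3 : ∀ᶠ ε : ℝ in 𝓝[>] 0, ε < 1 :=
      nhdsWithin_le_nhds ((isOpen_Iio (a := (1 : ℝ))).mem_nhds (by simp))
    obtain ⟨ε, f1, f2, f3⟩ := (e1.and (e2.and e3)).exists
    exact ⟨_, convex_mem_osimplex (simplex_mono hFw hx'.1) hz (by linarith) f2 (by ring), f1⟩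
  obtain ⟨y0, hy0, hy0W⟩ := hpt
  have hspace : ∀ y ∈ simplex w, y ∈ space K := fun y hy => (mem_space_iff K).2 ⟨w, hw, hy⟩
  obtain ⟨p, hp, hy0p⟩ := hP2 y0 ⟨hy0W.1.2, hspace y0 hy0.1⟩
  have hpw : p.1 = w := hmax p.1 (hP1 p hp).1 (sub_of_osimplex hy0.2 hy0p.1)
  -- the open page near `x'` is contained in the cell `p`
  have hopen : ∀ y ∈ osimplex w, y ∈ W → y ∈ cell p.1 p.2 := by
    intro y hy hyW
    refine ⟨by rw [hpw]; exact hy.1, ?_⟩
    intro a ha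
    have hmem : fn p.1 a ∈ 𝓕 := mem_iUnion₂.2 ⟨p, hp, a, ha, rfl⟩
    rw [← fn_apply]
    have h0 : 0 ≤ fn p.1 a y0 := by
      rw [fn_apply]
      exact hy0p.2 a ha
    by_cases hz : fn p.1 a x' = 0
    · have hvan := hgen _ hmem hz
      have hcoef : ∀ v ∈ F, a v = 0 := by
        intro v hv
        have h1 : (Pi.single v 1 : V → ℝ) ∈ simplex F := by
          refine ⟨fun w' => ?_, fun w' hw' => ?_, ?_⟩
          · by_cases h : w' = v
            · subst h; simp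
            · simp [h]
          · have : w' ≠ v := by rintro rfl; exact hw' hv
            simp [this]
          · simp [Finset.sum_pi_single', hv]
        have h2 := hvan _ h1
        rw [fn_apply, hpw, Finset.sum_eq_single v] at h2
        · simpa using h2
        · intro b _ hb; simp [hb]
        · intro h; exact absurd (hFw hv) h
      by_cases hex : ∃ u ∈ w, u ∉ F
      · obtain ⟨u, hu, huF⟩ := hex
        have hval : ∀ z : V → ℝ, fn p.1 a z = a u * z u := by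
          intro z
          rw [fn_apply, hpw, Finset.sum_eq_single u]
          · intro b hb hbu
            by_cases hbF : b ∈ F
            · rw [hcoef b hbF, zero_mul]
            · exact absurd (hone b hb u hu hbF huF) hbu
          · intro h; exact absurd hu h
        rw [hval] at h0 ⊢
        have h1 := hy0.2 u hu
        have h2 := hy.2 u hu
        have h3 : 0 ≤ a u := by
          by_contra hneg
          have := mul_neg_of_neg_of_pos (not_le.1 hneg) h1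
          linarith
        positivity
      · push Not at hex
        rw [fn_apply, hpw, Finset.sum_eq_zero]
        intro v hv
        rw [hcoef v (hex v hv), zero_mul]
    · have h1 := hsgn _ hmem hz y hyW.1.1
      have h2 := hsgn _ hmem hz y0 hy0W.1.1
      rcases lt_or_gt_of_ne hz with h3 | h3
      · exfalso
        have := mul_nonpos_of_nonneg_of_nonpos h0 h3.le
        linarith
      · exact (pos_of_mul_pos_left h1 h3.le).le
  obtain ⟨c, hcc⟩ := (hP1 p hp).2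
  refine ⟨c, ?_⟩
  rw [hpw] at hcc
  rintro y ⟨hy, hyW⟩
  -- approach `y` by points of the open page
  have hyU : y ∈ U := hOU ⟨hyW.1.2, hspace y hy⟩
  have e1 : ∀ᶠ ε : ℝ in 𝓝[>] 0, (1 - ε) • y + ε • y0 ∈ W :=
    nhdsWithin_le_nhds (eventually_segment hW hyW)
  have e2 : ∀ᶠ ε : ℝ in 𝓝[>] 0, 0 < ε := self_mem_nhdsWithin
  have e3 : ∀ᶠ ε : ℝ in 𝓝[>] 0, ε < 1 :=
    nhdsWithin_le_nhds ((isOpen_Iio (a := (1 : ℝ))).mem_nhds (by simp))
  have e4 : ∀ᶠ ε : ℝ in 𝓝[>] 0, (1 - ε) • y + ε • y0 ∈ U ∧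
      h ((1 - ε) • y + ε • y0) = ∑ v ∈ w, ((1 - ε) • y + ε • y0) v • c v := by
    filter_upwards [e1, e2, e3] with ε f1 f2 f3
    have g1 : (1 - ε) • y + ε • y0 ∈ osimplex w :=
      convex_mem_osimplex hy hy0 (by linarith) f2 (by ring)
    refine ⟨hOU ⟨f1.1.2, hspace _ g1.1⟩, ?_⟩
    apply hcc
    rw [← hpw]
    exact hopen _ g1 f1
  have t1 : Filter.Tendsto (fun ε : ℝ => (1 - ε) • y + ε • y0) (𝓝[>] 0) (𝓝[U] y) := by
    rw [tendsto_nhdsWithin_iff]
    refine ⟨?_, e4.mono (fun ε hε => hε.1)⟩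
    have hcont : ContinuousAt (fun ε : ℝ => (1 - ε) • y + ε • y0) 0 := by fun_prop
    have := hcont.tendsto
    simp only [sub_zero, one_smul, zero_smul, add_zero] at this
    exact this.mono_left nhdsWithin_le_nhds
  have t2 : Filter.Tendsto (fun ε : ℝ => h ((1 - ε) • y + ε • y0)) (𝓝[>] 0) (𝓝 (h y)) :=
    (hc.continuousOn y hyU).tendsto.comp t1
  have t3 : Filter.Tendsto (fun ε : ℝ => ∑ v ∈ w, ((1 - ε) • y + ε • y0) v • c v) (𝓝[>] 0)
      (𝓝 (∑ v ∈ w, y v • c v)) := by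
    have hcont : Continuous fun z : V → ℝ => ∑ v ∈ w, z v • c v :=
      continuous_finsetSum _ (fun v _ => (continuous_apply v).smul continuous_const)
    exact (hcont.tendsto y).comp (t1.mono_right nhdsWithin_le_nhds)
  exact tendsto_nhds_unique t2 (t3.congr' (e4.mono (fun ε hε => hε.2.symm)))

end Pool.Agent.Helper74.Branched
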