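import Pool.Agent.Helper74.Branched.Manifold

/-!
# Triangulated PL manifolds: purity, and the facets around a codimension-one face
-/

open Function Topology Set

noncomputable section

namespace Pool.Agent.Helper74.Branched

universe u

variable {V : Type u} {K : PreAbstractSimplicialComplex V} {m : ℕ}

/-- Sum of the coordinates. -/
def sg (s : Finset V) : (s → ℝ) →ₗ[ℝ] ℝ := ∑ v, LinearMap.proj (R := ℝ) (φ := fun _ : s => ℝ) v

theorem sg_apply (s : Finset V) (g : s → ℝ) : sg s g = ∑ v, g v := by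
  simp [sg]

theorem finrank_ker_sg {s : Finset V} (hs : s.Nonempty) :
    Module.finrank ℝ (LinearMap.ker (sg s)) + 1 = s.card := by
  classical
  have h1 : sg s ≠ 0 := by
    obtain ⟨v, hv⟩ := hs
    intro h
    have h2 := LinearMap.congr_fun h (Pi.single ⟨v, hv⟩ 1)
    rw [sg_apply] at h2
    simp at h2
  have h2 := Module.Dual.finrank_ker_add_one_of_ne_zero (f := (sg s : Module.Dual ℝ (s → ℝ))) h1
  rw [h2]
  simp

/-- Extension by zero. -/
def ex0 (s : Finset V) (g : s → ℝ) : V → ℝ := by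
  classical
  exact fun v => if h : v ∈ s then g ⟨v, h⟩ else 0

theorem ex0_mem {s : Finset V} (g : s → ℝ) {v : V} (hv : v ∈ s) : ex0 s g v = g ⟨v, hv⟩ := by
  unfold ex0
  rw [dif_pos hv]

theorem ex0_notMem {s : Finset V} (g : s → ℝ) {v : V} (hv : v ∉ s) : ex0 s g v = 0 := by
  unfold ex0
  rw [dif_neg hv]

/-- The linear map given by the images of the vertices. -/
def lam' (s : Finset V) (c : V → (Fin m → ℝ)) : (s → ℝ) →ₗ[ℝ] (Fin m → ℝ) :=
  ∑ v, (LinearMap.proj (R := ℝ) (φ := fun _ : s => ℝ) v).smulRight (c v)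

theorem lam'_apply (s : Finset V) (c : V → (Fin m → ℝ)) (g : s → ℝ) :
    lam' s c g = ∑ v, g v • c v := by
  simp [lam']

theorem sum_ex0 (s : Finset V) {W : Type*} [AddCommGroup W] [Module ℝ W] (c : V → W)
    (g : s → ℝ) : ∑ v ∈ s, ex0 s g v • c v = ∑ v : s, g v • c v := by
  rw [← Finset.sum_coe_sort s]
  refine Finset.sum_congr rfl (fun v _ => ?_)
  rw [ex0_mem g v.2]

theorem add_ex0_mem {s : Finset V} {x : V → ℝ} (hx : x ∈ simplex s) {g : s → ℝ}
    (hg : sg s g = 0) {ε : ℝ} (hpos : ∀ v ∈ s, 0 < (x + ε • ex0 s g) v) :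
    x + ε • ex0 s g ∈ osimplex s := by
  have h0 : ∑ v ∈ s, ex0 s g v = 0 := by
    have := sum_ex0 s (fun _ : V => (1 : ℝ)) g
    simp only [smul_eq_mul, mul_one] at this
    rw [this, ← sg_apply, hg]
  have h1 : ∀ v, v ∉ s → (x + ε • ex0 s g) v = 0 := by
    intro v hv
    simp [hx.2.1 v hv, ex0_notMem g hv]
  refine ⟨⟨fun v => ?_, h1, ?_⟩, hpos⟩
  · by_cases hv : v ∈ s
    · exact (hpos v hv).le
    · rw [h1 v hv]
  · simp only [Pi.add_apply, Pi.smul_apply, smul_eq_mul, Finset.sum_add_distrib, ← Finset.mul_sum,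
      h0, hx.2.2]
    simp

/-- The value of an affine formula at a displaced point. -/
theorem formula_add {s : Finset V} {x : V → ℝ} (g : s → ℝ) (ε : ℝ) (c : V → (Fin m → ℝ)) :
    ∑ v ∈ s, (x + ε • ex0 s g) v • c v = ∑ v ∈ s, x v • c v + ε • lam' s c g := by
  have h1 : ∀ v ∈ s, (x + ε • ex0 s g) v • c v = x v • c v + ε • (ex0 s g v • c v) := by
    intro v _
    rw [Pi.add_apply, Pi.smul_apply, smul_eq_mul, add_smul, mul_smul]
  rw [Finset.sum_congr rfl h1, Finset.sum_add_distrib, ← Finset.smul_sum, sum_ex0, lam'_apply]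

theorem eventually_pos_of {s : Finset V} {x : V → ℝ} (hx : x ∈ osimplex s) (z : V → ℝ) :
    ∀ᶠ ε : ℝ in 𝓝 0, ∀ v ∈ s, 0 < (x + ε • z) v :=
  eventually_add (isOpen_pos s) hx.2

variable {U : Set (V → ℝ)} {h : (V → ℝ) → (Fin m → ℝ)}

/-- The linear part of a chart on a page is injective. -/
theorem Chart.lam'_injective (hc : Chart K m U h) {w : Finset V} (hw : w ∈ K.faces)
    {W : Set (V → ℝ)} (hW : IsOpen W) (hWU : W ∩ space K ⊆ U) {c : V → (Fin m → ℝ)}
    (hcw : ∀ y ∈ simplex w ∩ W, h y = ∑ v ∈ w, y v • c v) {y0 : V → ℝ} (hy0 : y0 ∈ osimplex w)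
    (hy0W : y0 ∈ W) : Injective ((lam' w c).domRestrict (LinearMap.ker (sg w))) := by
  rw [← LinearMap.ker_eq_bot, LinearMap.ker_eq_bot']
  rintro ⟨g, hg⟩ hz
  rw [LinearMap.mem_ker] at hg
  have hz' : lam' w c g = 0 := hz
  have e1 : ∀ᶠ ε : ℝ in 𝓝[>] 0, y0 + ε • ex0 w g ∈ W :=
    nhdsWithin_le_nhds (eventually_add hW hy0W)
  have e2 : ∀ᶠ ε : ℝ in 𝓝[>] 0, ∀ v ∈ w, 0 < (y0 + ε • ex0 w g) v :=
    nhdsWithin_le_nhds (eventually_pos_of hy0 _)
  have e3 : ∀ᶠ ε : ℝ in 𝓝[>] 0, 0 < ε := self_mem_nhdsWithin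
  obtain ⟨ε, f1, f2, f3⟩ := (e1.and (e2.and e3)).exists
  have g1 := add_ex0_mem hy0.1 hg f2
  have g2 : h (y0 + ε • ex0 w g) = h y0 := by
    rw [hcw _ ⟨g1.1, f1⟩, hcw _ ⟨hy0.1, hy0W⟩, formula_add, hz', smul_zero, add_zero]
  have hsp : ∀ y ∈ simplex w, y ∈ space K := fun y hy => (mem_space_iff K).2 ⟨w, hw, hy⟩
  have g3 := hc.inj (hWU ⟨f1, hsp _ g1.1⟩) (hWU ⟨hy0W, hsp _ hy0.1⟩) g2
  apply Subtype.ext
  funext v
  have g4 := congrFun g3 v
  rw [Pi.add_apply, Pi.smul_apply, smul_eq_mul, ex0_mem g v.2] at g4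
  have g5 : ε * g v = 0 := by
    have : g ⟨v, v.2⟩ = g v := rfl
    rw [this] at g4
    linarith
  rw [mul_eq_zero] at g5
  exact g5.resolve_left f3.ne'

theorem exists_mem_page {F w : Finset V} (hFw : F ⊆ w) (hw : w.Nonempty) {W : Set (V → ℝ)}
    (hW : IsOpen W) {x' : V → ℝ} (hx' : x' ∈ osimplex F) (hx'W : x' ∈ W) :
    ∃ y0 ∈ osimplex w, y0 ∈ W := by
  obtain ⟨z, hz⟩ := exists_osimplex hw
  have e1 : ∀ᶠ ε : ℝ in 𝓝[>] 0, (1 - ε) • x' + ε • z ∈ W :=
    nhdsWithin_le_nhds (eventually_segment hW hx'W)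
  have e2 : ∀ᶠ ε : ℝ in 𝓝[>] 0, 0 < ε := self_mem_nhdsWithin
  have e3 : ∀ᶠ ε : ℝ in 𝓝[>] 0, ε < 1 :=
    nhdsWithin_le_nhds ((isOpen_Iio (a := (1 : ℝ))).mem_nhds (by simp))
  obtain ⟨ε, f1, f2, f3⟩ := (e1.and (e2.and e3)).exists
  exact ⟨_, convex_mem_osimplex (simplex_mono hFw hx'.1) hz (by linarith) f2 (by ring), f1⟩

/-- Displacements in the image are attained. -/
theorem Chart.exists_preimage (hc : Chart K m U h) {W : Set (V → ℝ)} (hW : IsOpen W)
    {x' : V → ℝ} (hx' : x' ∈ W) (hx'U : x' ∈ U) (ξ : Fin m → ℝ) :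
    ∃ ε : ℝ, 0 < ε ∧ ∃ y ∈ W ∩ U, h y = h x' + ε • ξ := by
  have h1 := hc.isOpen_image hW
  have h2 : ContinuousAt (fun ε : ℝ => h x' + ε • ξ) 0 := by fun_prop
  have h3 : ∀ᶠ ε : ℝ in 𝓝 0, h x' + ε • ξ ∈ h '' (W ∩ U) := by
    apply h2
    apply h1.mem_nhds
    simp only [zero_smul, add_zero]
    exact ⟨x', ⟨hx', hx'U⟩, rfl⟩
  have e3 : ∀ᶠ ε : ℝ in 𝓝[>] 0, 0 < ε := self_mem_nhdsWithin
  have h4 : ∀ᶠ ε : ℝ in 𝓝[>] 0, h x' + ε • ξ ∈ h '' (W ∩ U) := nhdsWithin_le_nhds h3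
  obtain ⟨ε, f1, f2⟩ := (h4.and e3).exists
  obtain ⟨y, hy, hyε⟩ := f1
  exact ⟨ε, f2, y, hy, hyε⟩

theorem exists_chart (hK : IsPLManifold m K) {x : V → ℝ} (hx : x ∈ space K) :
    ∃ U h, x ∈ U ∧ Chart K m U h := by
  obtain ⟨U, h, h1, h2, h3, h4⟩ := hK.2 x hx
  exact ⟨U, h, h1, ⟨h2, h3, h4⟩⟩

/-- Maximal simplices of a triangulated `m`-manifold have `m + 1` vertices. -/
theorem card_of_maximal (hK : IsPLManifold m K) {w : Finset V} (hw : w ∈ K.faces)
    (hmax : ∀ t ∈ K.faces, w ⊆ t → t = w) : w.card = m + 1 := by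
  classical
  have hne := face_nonempty' K hw
  obtain ⟨x, hx⟩ := exists_osimplex hne
  have hsp : ∀ y ∈ simplex w, y ∈ space K := fun y hy => (mem_space_iff K).2 ⟨w, hw, hy⟩
  obtain ⟨U, h, hxU, hc⟩ := exists_chart hK (hsp x hx.1)
  obtain ⟨x', W, hx', hW, hx'W, hWU, hWpos, hpage⟩ := hc.page hx hxU
  obtain ⟨c, hcw⟩ := hpage w hw (Finset.Subset.refl _)
    (fun a ha b _ ha' _ => absurd ha ha') hmax
  have hinj := hc.lam'_injective hw hW hWU hcw hx' hx'W
  have hx'U : x' ∈ U := hWU ⟨hx'W, hsp x' hx'.1⟩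
  have hsurj : Surjective ((lam' w c).domRestrict (LinearMap.ker (sg w))) := by
    intro ξ
    obtain ⟨ε, hε, y, ⟨hyW, hyU⟩, hy⟩ := hc.exists_preimage hW hx'W hx'U ξ
    obtain ⟨t, ht, hwt, hyt⟩ := exists_sup_of_pos K (hc.sub hyU) (hWpos y hyW)
    have htw := hmax t ht hwt
    rw [htw] at hyt
    let g : w → ℝ := fun v => ε⁻¹ * (y v - x' v)
    have hg : sg w g = 0 := by
      rw [sg_apply]
      simp only [g]
      rw [← Finset.mul_sum, Finset.sum_sub_distrib, Finset.sum_coe_sort w (fun v => y v),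
        Finset.sum_coe_sort w (fun v => x' v), hyt.1.2.2, hx'.1.2.2]
      simp
    refine ⟨⟨g, hg⟩, ?_⟩
    show lam' w c g = ξ
    rw [hcw y ⟨hyt.1, hyW⟩, hcw x' ⟨hx'.1, hx'W⟩] at hy
    have h1 : lam' w c g = ε⁻¹ • (∑ v ∈ w, y v • c v - ∑ v ∈ w, x' v • c v) := by
      rw [lam'_apply, ← Finset.sum_sub_distrib, ← Finset.sum_coe_sort w, Finset.smul_sum]
      refine Finset.sum_congr rfl (fun v _ => ?_)
      simp only [g]
      rw [← sub_smul, smul_smul]
    rw [h1, hy, add_sub_cancel_left, smul_smul, inv_mul_cancel₀ hε.ne', one_smul]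
  have e := LinearEquiv.finrank_eq (LinearEquiv.ofBijective _ ⟨hinj, hsurj⟩)
  have e1 := finrank_ker_sg hne
  rw [e] at e1
  simpa using e1.symm

/-- Every simplex is contained in a facet. -/
theorem exists_facet (hK : IsPLManifold m K) {s : Finset V} (hs : s ∈ K.faces) :
    ∃ c ∈ K.faces, s ⊆ c ∧ c.card = m + 1 ∧ ∀ t ∈ K.faces, c ⊆ t → t = c := by
  classical
  obtain ⟨v, hv⟩ := face_nonempty' K hs
  have hfin : {t | t ∈ K.faces ∧ s ⊆ t}.Finite :=
    (hK.1 v).subset (fun t ht => ⟨ht.1, ht.2 hv⟩)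
  obtain ⟨c, hc, hmax⟩ := Set.exists_max_image _ (fun t : Finset V => t.card) hfin
    ⟨s, hs, Finset.Subset.refl _⟩
  have hmax' : ∀ t ∈ K.faces, c ⊆ t → t = c := by
    intro t ht hct
    exact (Finset.eq_of_subset_of_card_le hct (hmax t ⟨ht, hc.2.trans hct⟩)).symm
  exact ⟨c, hc.1, hc.2, card_of_maximal hK hc.1 hmax', hmax'⟩

theorem maximal_of_card (hK : IsPLManifold m K) {c : Finset V}
    (hcard : c.card = m + 1) : ∀ t ∈ K.faces, c ⊆ t → t = c := by
  intro t ht hct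
  obtain ⟨d, _, htd, hd, _⟩ := exists_facet hK ht
  have h1 : c = d := Finset.eq_of_subset_of_card_le (hct.trans htd) (by rw [hcard, hd])
  subst h1
  exact Finset.Subset.antisymm htd hct

/-- The configuration of the pages around a codimension-one face. -/
theorem exists_pages [DecidableEq V] (hK : IsPLManifold m K) {F : Finset V}
    (hF : F ∈ K.faces) (hcard : F.card = m) :
    ∃ (U : Set (V → ℝ)) (h : (V → ℝ) → (Fin m → ℝ)) (x' : V → ℝ) (W : Set (V → ℝ))
      (lm : (Fin m → ℝ) →ₗ[ℝ] ℝ),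
      Chart K m U h ∧ x' ∈ osimplex F ∧ IsOpen W ∧ x' ∈ W ∧ W ∩ space K ⊆ U ∧
      (∀ y ∈ W, ∀ v ∈ F, 0 < y v) ∧ lm ≠ 0 ∧
      ∀ u, u ∉ F → insert u F ∈ K.faces → ∃ (c : V → (Fin m → ℝ)) (κ : ℝ), κ ≠ 0 ∧
        (∀ y ∈ simplex (insert u F) ∩ W, h y = ∑ v ∈ insert u F, y v • c v) ∧
        (∀ g : ↥(insert u F) → ℝ, sg (insert u F) g = 0 →
          lm (lam' (insert u F) c g) = g ⟨u, Finset.mem_insert_self _ _⟩ * κ) ∧
        (∀ ξ, ∃ g, sg (insert u F) g = 0 ∧ lam' (insert u F) c g = ξ) := by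
  have hFne := face_nonempty' K hF
  obtain ⟨x, hx⟩ := exists_osimplex hFne
  have hspF : ∀ y ∈ simplex F, y ∈ space K := fun y hy => (mem_space_iff K).2 ⟨F, hF, hy⟩
  obtain ⟨U, h, hxU, hc⟩ := exists_chart hK (hspF x hx.1)
  obtain ⟨x', W, hx', hW, hx'W, hWU, hWpos, hpage⟩ := hc.page hx hxU
  -- the pages
  have hcardu : ∀ u, u ∉ F → (insert u F).card = m + 1 := by
    intro u hu
    rw [Finset.card_insert_of_notMem hu, hcard]
  have hpage' : ∀ u, u ∉ F → insert u F ∈ K.faces → ∃ c : V → (Fin m → ℝ),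
      ∀ y ∈ simplex (insert u F) ∩ W, h y = ∑ v ∈ insert u F, y v • c v := by
    intro u hu hw
    apply hpage _ hw (Finset.subset_insert _ _)
    · intro a ha b hb haF hbF
      rw [Finset.mem_insert] at ha hb
      rw [ha.resolve_right haF, hb.resolve_right hbF]
    · exact maximal_of_card hK (hcardu u hu)
  obtain ⟨w0, hw0, hFw0, hw0card, _⟩ := exists_facet hK hF
  have hu0 : ∃ u0, u0 ∈ w0 ∧ u0 ∉ F := by
    by_contra hcon
    push Not at hcon
    have := Finset.card_le_card (show w0 ⊆ F from hcon)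
    omega
  obtain ⟨u0, hu0, hu0F⟩ := hu0
  have hw0eq : insert u0 F = w0 := by
    apply Finset.eq_of_subset_of_card_le
    · intro v hv
      rw [Finset.mem_insert] at hv
      rcases hv with rfl | hv
      · exact hu0
      · exact hFw0 hv
    · rw [hcardu u0 hu0F, hw0card]
  obtain ⟨c0, hc0⟩ := hpage' u0 hu0F (by rw [hw0eq]; exact hw0)
  -- on `F` the formula
  have hF_formula : ∀ u, u ∉ F → ∀ c : V → (Fin m → ℝ),
      (∀ y ∈ simplex (insert u F) ∩ W, h y = ∑ v ∈ insert u F, y v • c v) →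
      ∀ y ∈ simplex F ∩ W, h y = ∑ v ∈ F, y v • c v := by
    intro u hu c hcu y hy
    rw [hcu y ⟨simplex_mono (Finset.subset_insert _ _) hy.1, hy.2⟩, Finset.sum_insert hu,
      hy.1.2.1 u hu, zero_smul, zero_add]
  -- the image of the directions of `F`
  let H : Submodule ℝ (Fin m → ℝ) := (LinearMap.ker (sg F)).map (lam' F c0)
  have hHtop : H < ⊤ := by
    rw [lt_top_iff_ne_top]
    intro htop
    have h1 : Module.finrank ℝ H ≤ Module.finrank ℝ (LinearMap.ker (sg F)) :=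
      Submodule.finrank_map_le _ _
    have h2 := finrank_ker_sg hFne
    rw [htop, finrank_top] at h1
    simp at h1
    omega
  obtain ⟨lm, hlm, hlmH⟩ := Submodule.exists_le_ker_of_lt_top H hHtop
  have hvanish : ∀ u, u ∉ F → ∀ c : V → (Fin m → ℝ),
      (∀ y ∈ simplex (insert u F) ∩ W, h y = ∑ v ∈ insert u F, y v • c v) →
      ∀ g : F → ℝ, sg F g = 0 → lm (lam' F c g) = 0 := by
    intro u hu c hcu g hg
    have e1 : ∀ᶠ ε : ℝ in 𝓝[>] 0, x' + ε • ex0 F g ∈ W :=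
      nhdsWithin_le_nhds (eventually_add hW hx'W)
    have e2 : ∀ᶠ ε : ℝ in 𝓝[>] 0, ∀ v ∈ F, 0 < (x' + ε • ex0 F g) v :=
      nhdsWithin_le_nhds (eventually_pos_of hx' _)
    have e3 : ∀ᶠ ε : ℝ in 𝓝[>] 0, 0 < ε := self_mem_nhdsWithin
    obtain ⟨ε, f1, f2, f3⟩ := (e1.and (e2.and e3)).exists
    have g1 := add_ex0_mem hx'.1 hg f2
    have g2 := hF_formula u hu c hcu _ ⟨g1.1, f1⟩
    have g3 := hF_formula u0 hu0F c0 hc0 _ ⟨g1.1, f1⟩
    have g4 := hF_formula u hu c hcu _ ⟨hx'.1, hx'W⟩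
    have g5 := hF_formula u0 hu0F c0 hc0 _ ⟨hx'.1, hx'W⟩
    rw [formula_add] at g2 g3
    rw [← g4] at g2
    rw [← g5] at g3
    have g6 : ε • lam' F c g = ε • lam' F c0 g := by
      have := g2.symm.trans g3
      exact add_left_cancel this
    have g7 : lam' F c g = lam' F c0 g := smul_right_injective _ f3.ne' g6
    rw [g7]
    exact hlmH ⟨g, hg, rfl⟩
  refine ⟨U, h, x', W, lm, hc, hx', hW, hx'W, hWU, hWpos, hlm, ?_⟩
  intro u hu hw
  obtain ⟨c, hcu⟩ := hpage' u hu hw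
  have hwne : (insert u F).Nonempty := Finset.insert_nonempty _ _
  obtain ⟨y0, hy0, hy0W⟩ := exists_mem_page (Finset.subset_insert u F) hwne hW hx' hx'W
  have hinj := hc.lam'_injective hw hW hWU hcu hy0 hy0W
  have hdim : Module.finrank ℝ (LinearMap.ker (sg (insert u F))) =
      Module.finrank ℝ (Fin m → ℝ) := by
    have h1 := finrank_ker_sg hwne
    rw [hcardu u hu] at h1
    simp
    omega
  have hsurj : Surjective ((lam' (insert u F) c).domRestrict (LinearMap.ker (sg (insert u F)))) :=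
    (LinearMap.injective_iff_surjective_of_finrank_eq_finrank hdim).1 hinj
  -- all the values on `F` coincide
  obtain ⟨f, hf⟩ := hFne
  have hval : ∀ v ∈ F, lm (c v) = lm (c f) := by
    intro v hv
    let g : F → ℝ := Pi.single ⟨v, hv⟩ 1 - Pi.single ⟨f, hf⟩ 1
    have hg : sg F g = 0 := by
      rw [map_sub, sg_apply, sg_apply]
      simp
    have h1 := hvanish u hu c hcu g hg
    have h2 : lam' F c g = c v - c f := by
      rw [map_sub, lam'_apply, lam'_apply, Finset.sum_eq_single ⟨v, hv⟩,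
        Finset.sum_eq_single ⟨f, hf⟩]
      · simp
      · intro b _ hb; simp [hb]
      · intro hb; exact absurd (Finset.mem_univ _) hb
      · intro b _ hb; simp [hb]
      · intro hb; exact absurd (Finset.mem_univ _) hb
    rw [h2, map_sub] at h1
    linarith
  have hkappa : ∀ g : ↥(insert u F) → ℝ, sg (insert u F) g = 0 →
      lm (lam' (insert u F) c g) =
        g ⟨u, Finset.mem_insert_self _ _⟩ * (lm (c u) - lm (c f)) := by
    intro g hg
    have h1 : lm (lam' (insert u F) c g) =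
        ∑ v : ↥(insert u F), g v * lm (c v) := by
      rw [lam'_apply, map_sum]
      exact Finset.sum_congr rfl (fun v _ => by rw [map_smul, smul_eq_mul])
    have h2 : ∑ v : ↥(insert u F), g v * lm (c v) =
        ∑ v : ↥(insert u F), g v * (lm (c v) - lm (c f)) := by
      have h3 : ∑ v : ↥(insert u F), g v * lm (c f) = 0 := by
        rw [← Finset.sum_mul, ← sg_apply, hg, zero_mul]
      simp only [mul_sub, Finset.sum_sub_distrib, h3, sub_zero]
    rw [h1, h2, Finset.sum_eq_single ⟨u, Finset.mem_insert_self _ _⟩]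
    · rintro ⟨b, hb⟩ _ hbu
      have hbF : b ∈ F := by
        rw [Finset.mem_insert] at hb
        rcases hb with rfl | hb
        · exact absurd rfl hbu
        · exact hb
      rw [hval b hbF, sub_self, mul_zero]
    · intro hb; exact absurd (Finset.mem_univ _) hb
  refine ⟨c, lm (c u) - lm (c f), ?_, hcu, hkappa, ?_⟩
  · intro h0
    apply hlm
    ext ξ
    · obtain ⟨⟨g, hg⟩, hgξ⟩ := hsurj (Pi.single ξ 1)
      have h1 : lam' (insert u F) c g = Pi.single ξ 1 := hgξ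
      have h2 := hkappa g hg
      rw [h1, h0, mul_zero] at h2
      simpa using h2
  · intro ξ
    obtain ⟨⟨g, hg⟩, hgξ⟩ := hsurj ξ
    exact ⟨g, hg, hgξ⟩

end Pool.Agent.Helper74.Branched
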