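import Pool.Agent.Helper74.Branched.Flow

/-!
# Coordinates on the barycentric subdivision of a simplex
-/

open Function Topology

noncomputable section

namespace Pool.Agent.Helper74.Branched

variable {V : Type*} {n : ℕ}

/-- The `k`-th largest coordinate of the point with barycentric coordinates `b` in a simplex of the
barycentric subdivision. -/
def Yc (b : Fin (n + 1) → ℝ) (k : ℕ) : ℝ :=
  ∑ l : Fin (n + 1), if k ≤ l.val then b l / (l.val + 1 : ℝ) else 0

theorem Yc_succ (b : Fin (n + 1) → ℝ) (k : Fin (n + 1)) :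
    Yc b k.val = b k / (k.val + 1 : ℝ) + Yc b (k.val + 1) := by
  unfold Yc
  have h1 : (b k / (k.val + 1 : ℝ)) =
      ∑ l : Fin (n + 1), if l = k then b l / (l.val + 1 : ℝ) else 0 := by simp
  rw [h1, ← Finset.sum_add_distrib]
  refine Finset.sum_congr rfl (fun l _ => ?_)
  by_cases h : l = k
  · subst h
    simp
  · by_cases h2 : k.val ≤ l.val
    · have h3 : k.val + 1 ≤ l.val := by
        have : k.val ≠ l.val := fun e => h (Fin.ext e.symm)
        omega
      simp [h, h2, h3]
    · have h3 : ¬ (k.val + 1 ≤ l.val) := by omega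
      simp [h, h2, h3]

theorem Yc_ge (b : Fin (n + 1) → ℝ) {k : ℕ} (hk : n + 1 ≤ k) : Yc b k = 0 := by
  unfold Yc
  apply Finset.sum_eq_zero
  intro l _
  have := l.isLt
  rw [if_neg (by omega)]

theorem Yc_nonneg {b : Fin (n + 1) → ℝ} (hb : ∀ l, 0 ≤ b l) (k : ℕ) : 0 ≤ Yc b k := by
  unfold Yc
  apply Finset.sum_nonneg
  intro l _
  split_ifs
  · have := hb l
    positivity
  · exact le_rfl

theorem Yc_antitone {b : Fin (n + 1) → ℝ} (hb : ∀ l, 0 ≤ b l) : Antitone (Yc b) := by
  apply antitone_nat_of_succ_le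
  intro k
  by_cases hk : k < n + 1
  · have := Yc_succ b ⟨k, hk⟩
    simp only at this
    rw [this]
    have := hb ⟨k, hk⟩
    have : 0 ≤ b ⟨k, hk⟩ / ((k : ℝ) + 1) := by positivity
    linarith
  · rw [Yc_ge b (by omega), Yc_ge b (by omega)]

theorem Yc_lt {b : Fin (n + 1) → ℝ} (hb : ∀ l, 0 ≤ b l) {k : Fin (n + 1)} (hk : 0 < b k)
    {l : ℕ} (hl : k.val < l) : Yc b l < Yc b k.val := by
  have h1 := Yc_antitone hb (show k.val + 1 ≤ l from hl)
  rw [Yc_succ b k]
  have : 0 < b k / (k.val + 1 : ℝ) := by positivity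
  linarith

theorem Yc_eq {b : Fin (n + 1) → ℝ} {k : Fin (n + 1)} (hk : b k = 0) :
    Yc b k.val = Yc b (k.val + 1) := by
  rw [Yc_succ b k, hk]; simp

theorem Yc_inj {b b' : Fin (n + 1) → ℝ} (h : ∀ k, Yc b k = Yc b' k) : b = b' := by
  funext k
  have h1 := Yc_succ b k
  have h2 := Yc_succ b' k
  rw [h, h] at h1
  have h3 : b k / (k.val + 1 : ℝ) = b' k / (k.val + 1 : ℝ) := by linarith
  have h4 : (k.val + 1 : ℝ) ≠ 0 := by positivity
  field_simp at h3
  exact h3

theorem sum_Yc (b : Fin (n + 1) → ℝ) : ∑ k : Fin (n + 1), Yc b k.val = ∑ l, b l := by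
  unfold Yc
  rw [Finset.sum_comm]
  refine Finset.sum_congr rfl (fun l _ => ?_)
  rw [← Finset.sum_filter, Finset.sum_const]
  have : (Finset.univ.filter fun k : Fin (n + 1) => k.val ≤ l.val).card = l.val + 1 := by
    have : (Finset.univ.filter fun k : Fin (n + 1) => k.val ≤ l.val) = Finset.Iic l := by
      ext k
      rw [Finset.mem_filter, Finset.mem_Iic]
      exact ⟨fun h => h.2, fun h => ⟨Finset.mem_univ _, h⟩⟩
    rw [this, Fin.card_Iic]
  rw [this]
  have h4 : (l.val + 1 : ℝ) ≠ 0 := by positivity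
  simp only [nsmul_eq_mul]
  push_cast
  field_simp

variable [DecidableEq V]

/-- The point with barycentric coordinates `b` in the simplex of the barycentric subdivision given
by the ordering `ς` of the vertices. -/
def yy (ς : Fin (n + 1) → V) (b : Fin (n + 1) → ℝ) : V → ℝ :=
  ∑ k : Fin (n + 1), Yc b k.val • (Pi.single (ς k) 1 : V → ℝ)

theorem yy_apply {ς : Fin (n + 1) → V} (hς : Injective ς) (b : Fin (n + 1) → ℝ)
    (k : Fin (n + 1)) : yy ς b (ς k) = Yc b k.val := by
  unfold yy
  rw [Finset.sum_apply, Finset.sum_eq_single k]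
  · simp
  · intro l _ hl
    have : ς k ≠ ς l := fun h => hl (hς h).symm
    simp [this]
  · intro h; exact absurd (Finset.mem_univ _) h

theorem yy_apply_of_ne {ς : Fin (n + 1) → V} (b : Fin (n + 1) → ℝ) {v : V}
    (hv : ∀ k, ς k ≠ v) : yy ς b v = 0 := by
  unfold yy
  rw [Finset.sum_apply]
  apply Finset.sum_eq_zero
  intro l _
  simp [(hv l).symm]

theorem yy_mem {ς : Fin (n + 1) → V} (hς : Injective ς) {F : Finset V}
    (hF : ∀ k, ς k ∈ F) {b : Fin (n + 1) → ℝ} (hb : b ∈ stdSimplex ℝ (Fin (n + 1))) :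
    yy ς b ∈ simplex F := by
  have h2 : ∀ v, v ∉ F → yy ς b v = 0 := by
    intro v hv
    apply yy_apply_of_ne
    rintro k rfl
    exact hv (hF k)
  refine ⟨fun v => ?_, h2, ?_⟩
  · by_cases h : ∃ k, ς k = v
    · obtain ⟨k, rfl⟩ := h
      rw [yy_apply hς]
      exact Yc_nonneg hb.1 _
    · push Not at h
      rw [yy_apply_of_ne b h]
  · have h3 : ∑ v ∈ F, yy ς b v = ∑ v ∈ Finset.univ.image ς, yy ς b v := by
      symm
      apply Finset.sum_subset
      · intro v hv
        rw [Finset.mem_image] at hv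
        obtain ⟨k, _, rfl⟩ := hv
        exact hF k
      · intro v _ hv
        apply yy_apply_of_ne
        rintro k rfl
        exact hv (Finset.mem_image_of_mem _ (Finset.mem_univ _))
    rw [h3, Finset.sum_image (fun a _ c _ h => hς h)]
    have h4 : ∑ k : Fin (n + 1), yy ς b (ς k) = ∑ k : Fin (n + 1), Yc b k.val :=
      Finset.sum_congr rfl (fun k _ => yy_apply hς b k)
    rw [h4, sum_Yc]
    exact hb.2

theorem continuous_Yc (k : ℕ) : Continuous fun b : Fin (n + 1) → ℝ => Yc b k := by
  unfold Yc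
  refine continuous_finsetSum _ (fun l _ => ?_)
  by_cases h : k ≤ l.val
  · simp only [h, if_true]
    fun_prop
  · simp only [h, if_false]
    fun_prop

theorem continuous_yy (ς : Fin (n + 1) → V) : Continuous (yy ς) := by
  unfold yy
  refine continuous_finsetSum _ (fun l _ => ?_)
  exact (continuous_Yc _).smul continuous_const

section unique

variable {ς ς' : Fin (n + 1) → V} (hς : Injective ς) (hς' : Injective ς')
  {b b' : Fin (n + 1) → ℝ}
include hς hς'

/-- A vertex with a positive coordinate appears in both orderings. -/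
theorem exists_match (h : yy ς b = yy ς' b') {k : Fin (n + 1)} (hk : Yc b k.val ≠ 0) :
    ∃ m, ς k = ς' m ∧ Yc b' m.val = Yc b k.val := by
  have h1 : yy ς' b' (ς k) ≠ 0 := by
    rw [← h, yy_apply hς]
    exact hk
  by_cases h2 : ∃ m, ς' m = ς k
  · obtain ⟨m, hm⟩ := h2
    refine ⟨m, hm.symm, ?_⟩
    rw [← yy_apply hς' b' m, hm, ← h, yy_apply hς]
  · push Not at h2
    exact absurd (yy_apply_of_ne b' h2) h1

theorem Yc_not_lt (hb : ∀ l, 0 ≤ b l) (hb' : ∀ l, 0 ≤ b' l) (h : yy ς b = yy ς' b')
    (k : Fin (n + 1)) : ¬ Yc b k.val < Yc b' k.val := by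
  intro hlt
  set a := Yc b' k.val with ha
  have ha0 : 0 < a := (Yc_nonneg hb _).trans_lt hlt
  let A := Finset.univ.filter fun l : Fin (n + 1) => a ≤ Yc b l.val
  let A' := Finset.univ.filter fun l : Fin (n + 1) => a ≤ Yc b' l.val
  have h1 : A'.image ς' ⊆ A.image ς := by
    intro v hv
    rw [Finset.mem_image] at hv
    obtain ⟨l, hl, rfl⟩ := hv
    have hl' : a ≤ Yc b' l.val := (Finset.mem_filter.1 hl).2
    obtain ⟨m, hm1, hm2⟩ := exists_match hς' hς h.symm (ha0.trans_le hl').ne'
    rw [hm1]
    apply Finset.mem_image_of_mem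
    rw [Finset.mem_filter]
    refine ⟨Finset.mem_univ _, ?_⟩
    rw [hm2]
    exact hl'
  have h2 : A'.card ≤ A.card := by
    have := Finset.card_le_card h1
    rwa [Finset.card_image_of_injective _ hς', Finset.card_image_of_injective _ hς] at this
  have h3 : A ⊆ Finset.Iio k := by
    intro l hl
    have hl' : a ≤ Yc b l.val := (Finset.mem_filter.1 hl).2
    rw [Finset.mem_Iio]
    by_contra hkl
    have : Yc b l.val ≤ Yc b k.val := Yc_antitone hb (not_lt.1 hkl)
    linarith
  have h4 : Finset.Iic k ⊆ A' := by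
    intro l hl
    rw [Finset.mem_Iic] at hl
    rw [Finset.mem_filter]
    exact ⟨Finset.mem_univ _, Yc_antitone hb' hl⟩
  have h5 := Finset.card_le_card h3
  have h6 := Finset.card_le_card h4
  rw [Fin.card_Iio] at h5
  rw [Fin.card_Iic] at h6
  omega

theorem yy_inj (hb : ∀ l, 0 ≤ b l) (hb' : ∀ l, 0 ≤ b' l) (h : yy ς b = yy ς' b') : b = b' := by
  apply Yc_inj
  intro k
  by_cases hk : k < n + 1
  · have h1 := Yc_not_lt hς hς' hb hb' h ⟨k, hk⟩
    have h2 := Yc_not_lt hς' hς hb' hb h.symm ⟨k, hk⟩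
    exact le_antisymm (not_lt.1 h2) (not_lt.1 h1)
  · rw [Yc_ge b (by omega), Yc_ge b' (by omega)]

/-- The ordering is determined when all barycentric coordinates are positive. -/
theorem order_unique (hb : ∀ l, 0 < b l) (h : yy ς b = yy ς' b) : ς' = ς := by
  funext k
  have hb0 : ∀ l, 0 ≤ b l := fun l => (hb l).le
  have hk : 0 < Yc b k.val := (Yc_nonneg hb0 _).trans_lt (Yc_lt hb0 (hb k) (Nat.lt_succ_self _))
  obtain ⟨m, hm1, hm2⟩ := exists_match hς hς' h hk.ne'
  have : m = k := by
    by_contra hne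
    rcases lt_or_gt_of_ne hne with h' | h'
    · have := Yc_lt hb0 (hb m) (show m.val < k.val from h')
      linarith
    · have := Yc_lt hb0 (hb k) (show k.val < m.val from h')
      linarith
  rw [← this, ← hm1, this]

/-- The ordering is determined up to a transposition when one barycentric coordinate (not the last
one) vanishes. -/
theorem order_swap {k : Fin n} (hk : b k.castSucc = 0) (hb : ∀ l, l ≠ k.castSucc → 0 < b l)
    (h : yy ς b = yy ς' b) : ς' = ς ∨ ς' = ς ∘ Equiv.swap k.castSucc k.succ := by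
  have hb0 : ∀ l, 0 ≤ b l := by
    intro l
    by_cases hl : l = k.castSucc
    · rw [hl, hk]
    · exact (hb l hl).le
  have hlast : k.castSucc ≠ Fin.last n := (Fin.castSucc_lt_last k).ne
  have hpos : ∀ l : Fin (n + 1), 0 < Yc b l.val := by
    intro l
    have h1 : Yc b (Fin.last n).val ≤ Yc b l.val := Yc_antitone hb0 (Fin.le_last l)
    have h2 : 0 < Yc b (Fin.last n).val :=
      (Yc_nonneg hb0 _).trans_lt (Yc_lt hb0 (hb _ hlast.symm) (Nat.lt_succ_self _))
    linarith
  -- equal levels
  have hlev : ∀ l m : Fin (n + 1), l < m → Yc b l.val = Yc b m.val →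
      l = k.castSucc ∧ m = k.succ := by
    intro l m hlm he
    by_cases hl : l = k.castSucc
    · refine ⟨hl, ?_⟩
      subst hl
      by_contra hm
      have h1 : k.succ < m := by
        have : k.castSucc.val < m.val := hlm
        have h2 : k.succ ≠ m := fun e => hm e.symm
        have h3 : k.succ.val ≠ m.val := fun e => h2 (Fin.ext e)
        rw [Fin.lt_def]
        rw [Fin.val_castSucc] at this
        rw [Fin.val_succ] at h3 ⊢
        omega
      have h2 : 0 < b k.succ := hb _ (Fin.castSucc_lt_succ).ne'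
      have h3 := Yc_lt hb0 h2 (show k.succ.val < m.val from h1)
      have h4 := Yc_eq hk
      rw [Fin.val_castSucc, ← Fin.val_succ] at h4
      rw [Fin.val_castSucc] at he
      linarith
    · exfalso
      have := Yc_lt hb0 (hb l hl) (show l.val < m.val from hlm)
      linarith
  have hm : ∀ l : Fin (n + 1), ∃ m, ς l = ς' m ∧ (m = l ∨ (l = k.castSucc ∧ m = k.succ) ∨
      (l = k.succ ∧ m = k.castSucc)) := by
    intro l
    obtain ⟨m, hm1, hm2⟩ := exists_match hς hς' h (hpos l).ne'
    refine ⟨m, hm1, ?_⟩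
    rcases lt_trichotomy l m with h' | h' | h'
    · exact Or.inr (Or.inl (hlev l m h' hm2.symm))
    · exact Or.inl h'.symm
    · have := hlev m l h' hm2
      exact Or.inr (Or.inr ⟨this.2, this.1⟩)
  have hother : ∀ l : Fin (n + 1), l ≠ k.castSucc → l ≠ k.succ → ς' l = ς l := by
    intro l h1 h2
    obtain ⟨m, hm1, hm2⟩ := hm l
    rcases hm2 with e | e | e
    · rw [hm1, e]
    · exact absurd e.1 h1
    · exact absurd e.1 h2
  obtain ⟨m, hm1, hm2⟩ := hm k.castSucc
  have hne : k.castSucc ≠ k.succ := (Fin.castSucc_lt_succ).ne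
  obtain ⟨m', hm1', hm2'⟩ := hm k.succ
  rcases hm2 with e | e | e
  · left
    have e' : m' = k.succ := by
      rcases hm2' with e' | e' | e'
      · exact e'
      · exact absurd e'.1 hne.symm
      · exfalso
        rw [e] at hm1
        rw [e'.2, ← hm1] at hm1'
        exact hne (hς hm1').symm
    funext l
    by_cases h1 : l = k.castSucc
    · rw [h1, hm1, e]
    · by_cases h2 : l = k.succ
      · rw [h2, hm1', e']
      · exact hother l h1 h2
  · right
    have e' : m' = k.castSucc := by
      rcases hm2' with e' | e' | e'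
      · exfalso
        rw [e.2] at hm1
        rw [e', ← hm1] at hm1'
        exact hne (hς hm1').symm
      · exact absurd e'.1 hne.symm
      · exact e'.2
    funext l
    rw [comp_apply]
    by_cases h1 : l = k.castSucc
    · rw [h1, Equiv.swap_apply_left, hm1', e']
    · by_cases h2 : l = k.succ
      · rw [h2, Equiv.swap_apply_right, hm1, e.2]
      · rw [Equiv.swap_apply_of_ne_of_ne h1 h2]
        exact hother l h1 h2
  · exact absurd e.1 hne

/-- The ordering of all vertices but the last is determined when the last barycentric coordinate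
vanishes. -/
theorem order_last (hb : ∀ l, l ≠ Fin.last n → 0 < b l) (hb0 : ∀ l, 0 ≤ b l)
    (h : yy ς b = yy ς' b) (l : Fin n) : ς' l.castSucc = ς l.castSucc := by
  have hl : l.castSucc ≠ Fin.last n := (Fin.castSucc_lt_last l).ne
  have hk : 0 < Yc b l.castSucc.val :=
    (Yc_nonneg hb0 _).trans_lt (Yc_lt hb0 (hb _ hl) (Nat.lt_succ_self _))
  obtain ⟨m, hm1, hm2⟩ := exists_match hς hς' h hk.ne'
  have : m = l.castSucc := by
    by_contra hne
    rcases lt_or_gt_of_ne hne with h' | h'
    · have h3 : m ≠ Fin.last n := (h'.trans_le (Fin.le_last _)).ne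
      have := Yc_lt hb0 (hb m h3) (show m.val < l.castSucc.val from h')
      linarith
    · have := Yc_lt hb0 (hb _ hl) (show l.castSucc.val < m.val from h')
      linarith
  rw [← this, ← hm1, this]

end unique

/-- Swapping two consecutive vertices does not change the point if the corresponding barycentric
coordinate vanishes. -/
theorem yy_swap {ς : Fin (n + 1) → V} {b : Fin (n + 1) → ℝ} {k : Fin n}
    (hk : b k.castSucc = 0) : yy (ς ∘ Equiv.swap k.castSucc k.succ) b = yy ς b := by
  unfold yy
  have h0 : Yc b k.castSucc.val = Yc b k.succ.val := by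
    have := Yc_eq hk
    rwa [Fin.val_castSucc, ← Fin.val_succ] at this
  rw [← Equiv.sum_comp (Equiv.swap k.castSucc k.succ)
    (fun l => Yc b l.val • (Pi.single (ς l) 1 : V → ℝ))]
  refine Finset.sum_congr rfl (fun l _ => ?_)
  simp only [comp_apply]
  congr 1
  by_cases h1 : l = k.castSucc
  · rw [h1, Equiv.swap_apply_left, h0]
  · by_cases h2 : l = k.succ
    · rw [h2, Equiv.swap_apply_right, h0]
    · rw [Equiv.swap_apply_of_ne_of_ne h1 h2]

/-- The point does not depend on the last vertex if the last barycentric coordinate vanishes. -/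
theorem yy_last {ς ς' : Fin (n + 1) → V} {b : Fin (n + 1) → ℝ} (hb : b (Fin.last n) = 0)
    (h : ∀ l : Fin n, ς' l.castSucc = ς l.castSucc) : yy ς' b = yy ς b := by
  unfold yy
  refine Finset.sum_congr rfl (fun l _ => ?_)
  by_cases hl : l = Fin.last n
  · have : Yc b l.val = 0 := by
      rw [hl, Yc_succ, hb, Yc_ge _ (by simp)]
      simp
    rw [this]
    simp
  · obtain ⟨l', rfl⟩ := Fin.exists_castSucc_eq.2 hl
    rw [h]

end Pool.Agent.Helper74.Branched
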