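import Pool.Agent.Helper74.Branched.Flow

/-!
# The polyhedron of a locally finite simplicial complex
-/

open Function Topology Set

noncomputable section

namespace Pool.Agent.Helper74.Branched

variable {V : Type*}

theorem isClosed_simplex (s : Finset V) : IsClosed (simplex s : Set (V → ℝ)) := by
  have : (simplex s : Set (V → ℝ)) = (⋂ v, {x | 0 ≤ x v}) ∩ (⋂ v, {x | v ∉ s → x v = 0}) ∩
      {x | ∑ v ∈ s, x v = 1} := by
    ext x
    simp only [simplex, mem_ofPred_eq, mem_inter_iff, mem_iInter]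
    tauto
  rw [this]
  refine ((isClosed_iInter (fun v => ?_)).inter (isClosed_iInter (fun v => ?_))).inter ?_
  · exact isClosed_le continuous_const (continuous_apply v)
  · by_cases hv : v ∈ s
    · have : {x : V → ℝ | v ∉ s → x v = 0} = univ := by
        ext x; simp [hv]
      rw [this]
      exact isClosed_univ
    · have : {x : V → ℝ | v ∉ s → x v = 0} = {x | x v = 0} := by
        ext x; simp [hv]
      rw [this]
      exact isClosed_eq (continuous_apply v) continuous_const
  · exact isClosed_eq (continuous_finsetSum _ (fun v _ => continuous_apply v)) continuous_const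

theorem isCompact_simplex (s : Finset V) : IsCompact (simplex s : Set (V → ℝ)) := by
  have h1 : IsCompact (univ.pi fun _ : V => Icc (0 : ℝ) 1) :=
    isCompact_univ_pi (fun _ => isCompact_Icc)
  refine h1.of_isClosed_subset (isClosed_simplex s) ?_
  intro x hx v _
  exact ⟨hx.1 v, simplex_le_one hx v⟩

theorem exists_pos_of_mem {s : Finset V} {x : V → ℝ} (hx : x ∈ simplex s) : ∃ v ∈ s, 0 < x v := by
  by_contra hcon
  push Not at hcon
  have h1 : ∑ v ∈ s, x v ≤ 0 := Finset.sum_nonpos (fun v hv => hcon v hv)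
  rw [hx.2.2] at h1
  exact absurd h1 (by norm_num)

theorem nonempty_of_mem {s : Finset V} {x : V → ℝ} (hx : x ∈ simplex s) : s.Nonempty := by
  obtain ⟨v, hv, _⟩ := exists_pos_of_mem hx
  exact ⟨v, hv⟩

/-- The open simplex. -/
def osimplex (s : Finset V) : Set (V → ℝ) := {x | x ∈ simplex s ∧ ∀ v ∈ s, 0 < x v}

theorem osimplex_sub (s : Finset V) : osimplex s ⊆ simplex s := fun _ h => h.1

theorem sub_of_osimplex {s t : Finset V} {x : V → ℝ} (hs : ∀ v ∈ s, 0 < x v)
    (ht : x ∈ simplex t) : s ⊆ t := by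
  intro v hv
  by_contra h
  exact (hs v hv).ne' (ht.2.1 v h)

theorem exists_osimplex {s : Finset V} (hs : s.Nonempty) : (osimplex s : Set (V → ℝ)).Nonempty := by
  classical
  have hc : (0 : ℝ) < s.card := Nat.cast_pos.2 (Finset.card_pos.2 hs)
  refine ⟨fun v => if v ∈ s then 1 / (s.card : ℝ) else 0, ⟨fun v => ?_, fun v hv => ?_, ?_⟩, ?_⟩
  · simp only
    split_ifs
    · positivity
    · exact le_rfl
  · simp [hv]
  · have h1 : ∀ v ∈ s, (if v ∈ s then 1 / (s.card : ℝ) else 0) = 1 / (s.card : ℝ) :=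
      fun v hv => if_pos hv
    rw [Finset.sum_congr rfl h1, Finset.sum_const, nsmul_eq_mul]
    field_simp
  · intro v hv
    simp only [hv, if_true]
    positivity

theorem convex_mem {s : Finset V} {x y : V → ℝ} (hx : x ∈ simplex s) (hy : y ∈ simplex s)
    {a b : ℝ} (ha : 0 ≤ a) (hb : 0 ≤ b) (hab : a + b = 1) : a • x + b • y ∈ simplex s := by
  refine ⟨fun v => ?_, fun v hv => ?_, ?_⟩
  · have := mul_nonneg ha (hx.1 v)
    have := mul_nonneg hb (hy.1 v)
    simp only [Pi.add_apply, Pi.smul_apply, smul_eq_mul]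
    linarith
  · simp [hx.2.1 v hv, hy.2.1 v hv]
  · simp only [Pi.add_apply, Pi.smul_apply, smul_eq_mul, Finset.sum_add_distrib, ← Finset.mul_sum,
      hx.2.2, hy.2.2]
    linarith

theorem convex_mem_osimplex {s : Finset V} {x y : V → ℝ} (hx : x ∈ simplex s)
    (hy : y ∈ osimplex s) {a b : ℝ} (ha : 0 ≤ a) (hb : 0 < b) (hab : a + b = 1) :
    a • x + b • y ∈ osimplex s := by
  refine ⟨convex_mem hx hy.1 ha hb.le hab, fun v hv => ?_⟩
  have := mul_nonneg ha (hx.1 v)
  have := mul_pos hb (hy.2 v hv)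
  simp only [Pi.add_apply, Pi.smul_apply, smul_eq_mul]
  linarith

/-- Points near `x` on the segment from `x` to `y`. -/
theorem eventually_segment {x y : V → ℝ} {W : Set (V → ℝ)} (hW : IsOpen W) (hx : x ∈ W) :
    ∀ᶠ ε : ℝ in 𝓝 0, (1 - ε) • x + ε • y ∈ W := by
  have hc : ContinuousAt (fun ε : ℝ => (1 - ε) • x + ε • y) 0 := by fun_prop
  apply hc
  apply hW.mem_nhds
  simpa using hx

theorem eventually_add {x z : V → ℝ} {W : Set (V → ℝ)} (hW : IsOpen W) (hx : x ∈ W) :
    ∀ᶠ ε : ℝ in 𝓝 0, x + ε • z ∈ W := by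
  have hc : ContinuousAt (fun ε : ℝ => x + ε • z) 0 := by fun_prop
  apply hc
  apply hW.mem_nhds
  simpa using hx

variable (K : PreAbstractSimplicialComplex V)

theorem face_sub {s t : Finset V} (hs : s ∈ K.faces) (ht : t ⊆ s) (hne : t.Nonempty) :
    t ∈ K.faces := (K.isRelLowerSet_faces hs).2 ht hne

theorem face_nonempty' {s : Finset V} (hs : s ∈ K.faces) : s.Nonempty :=
  (K.isRelLowerSet_faces hs).1

theorem mem_space_iff {x : V → ℝ} : x ∈ space K ↔ ∃ s ∈ K.faces, x ∈ simplex s := by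
  simp [space]

/-- Every point lies in the open simplex of its support. -/
theorem exists_osimplex_of_mem {x : V → ℝ} (hx : x ∈ space K) :
    ∃ s ∈ K.faces, x ∈ osimplex s := by
  classical
  obtain ⟨s, hs, hxs⟩ := (mem_space_iff K).1 hx
  have h1 : x ∈ simplex (s.filter fun v => x v ≠ 0) := by
    apply mem_simplex_of_support hxs
    intro v hv
    rw [Finset.mem_filter] at hv
    push Not at hv
    by_cases h : v ∈ s
    · exact hv h
    · exact hxs.2.1 v h
  refine ⟨s.filter fun v => x v ≠ 0, ?_, h1, ?_⟩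
  · exact face_sub K hs (Finset.filter_subset _ _) (nonempty_of_mem h1)
  · intro v hv
    rw [Finset.mem_filter] at hv
    exact lt_of_le_of_ne (hxs.1 v) hv.2.symm

/-- Points with positive coordinates on `s` lie in simplices which contain `s`. -/
theorem exists_sup_of_pos {s : Finset V} {x : V → ℝ} (hx : x ∈ space K)
    (hs : ∀ v ∈ s, 0 < x v) : ∃ t ∈ K.faces, s ⊆ t ∧ x ∈ osimplex t := by
  obtain ⟨t, ht, hxt⟩ := exists_osimplex_of_mem K hx
  exact ⟨t, ht, sub_of_osimplex hs hxt.1, hxt⟩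

theorem isOpen_pos (s : Finset V) : IsOpen {x : V → ℝ | ∀ v ∈ s, 0 < x v} := by
  have : {x : V → ℝ | ∀ v ∈ s, 0 < x v} = ⋂ v ∈ s, {x | 0 < x v} := by
    ext x; simp
  rw [this]
  exact isOpen_biInter_finset (fun v _ => isOpen_lt continuous_const (continuous_apply v))

end Pool.Agent.Helper74.Branched
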