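import Mathlib

/-!
# The model tile in Euclidean space and its reflection
-/

open Function Topology

noncomputable section

namespace Pool.Agent.Helper74.Branched

/-- A continuous injective map which is proper onto its image is a closed embedding. -/
theorem isClosedEmbedding_of_proper {X Y : Type*} [TopologicalSpace X] [TopologicalSpace Y]
    [T2Space Y] {f : X → Y} (hf : Continuous f) (hinj : Injective f)
    (h : ∀ y, ∃ W ∈ 𝓝 y, ∃ A : Set X, IsCompact A ∧ f ⁻¹' W ⊆ A) : IsClosedEmbedding f := by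
  refine IsClosedEmbedding.of_continuous_injective_isClosedMap hf hinj ?_
  intro B hB
  apply isClosed_of_closure_subset
  intro y hy
  obtain ⟨W, hW, A, hA, hWA⟩ := h y
  have h1 : y ∈ closure (f '' (B ∩ A)) := by
    rw [mem_closure_iff_nhds] at hy ⊢
    intro U hU
    obtain ⟨z, ⟨hz1, hz2⟩, x, hx, rfl⟩ := hy (U ∩ W) (Filter.inter_mem hU hW)
    exact ⟨f x, hz1, x, ⟨hx, hWA hz2⟩, rfl⟩
  have h2 : IsClosed (f '' (B ∩ A)) := ((hA.inter_left hB).image hf).isClosed
  rw [h2.closure_eq] at h1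
  obtain ⟨x, hx, rfl⟩ := h1
  exact ⟨x, hx.1, rfl⟩

/-! ### The stretching function -/

/-- The stretching function, using `N` terms. -/
def gN (N : ℕ) (B t : ℝ) : ℝ := B + ∑ j ∈ Finset.range N, min (max B 0) (max (t - j) 0)

theorem gN_succ (N : ℕ) (B t : ℝ) : gN (N + 1) B t = gN N B t + min (max B 0) (max (t - N) 0) := by
  unfold gN
  rw [Finset.sum_range_succ]
  ring

theorem gN_add (N M : ℕ) {B t : ℝ} (h : t ≤ N) : gN (N + M) B t = gN N B t := by
  induction M with
  | zero => rfl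
  | succ M ih =>
    rw [← add_assoc, gN_succ, ih]
    have h1 : max (t - ((N + M : ℕ) : ℝ)) 0 = 0 := by
      apply max_eq_right
      push_cast
      have : (0 : ℝ) ≤ M := Nat.cast_nonneg M
      linarith
    rw [h1, min_eq_right (le_max_right _ _), add_zero]

theorem gN_eq {N M : ℕ} {B t : ℝ} (h : t ≤ N) (h' : t ≤ M) : gN N B t = gN M B t := by
  rcases le_total N M with hle | hle
  · obtain ⟨K, rfl⟩ := Nat.exists_eq_add_of_le hle
    rw [gN_add N K h]
  · obtain ⟨K, rfl⟩ := Nat.exists_eq_add_of_le hle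
    rw [gN_add M K h']

theorem gN_mono (N : ℕ) {B B' : ℝ} (t : ℝ) (h : B ≤ B') : gN N B t + (B' - B) ≤ gN N B' t := by
  unfold gN
  have : ∑ j ∈ Finset.range N, min (max B 0) (max (t - j) 0) ≤
      ∑ j ∈ Finset.range N, min (max B' 0) (max (t - j) 0) :=
    Finset.sum_le_sum (fun j _ => min_le_min (max_le_max h le_rfl) le_rfl)
  linarith

theorem gN_zero (N : ℕ) (t : ℝ) : gN N 0 t = 0 := by
  unfold gN
  simp

theorem gN_one (N : ℕ) {t : ℝ} (h0 : 0 ≤ t) : gN N 1 t = 1 + min (N : ℝ) t := by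
  induction N with
  | zero => simp [gN, h0]
  | succ N ih =>
    rw [gN_succ, ih]
    have h1 : max (1 : ℝ) 0 = 1 := by norm_num
    rw [h1]
    push_cast
    rcases le_total t N with h | h
    · rw [min_eq_right h, max_eq_right (by linarith), min_eq_right (by norm_num),
        min_eq_right (by linarith)]
      ring
    · rw [min_eq_left h, max_eq_left (by linarith)]
      rcases le_total 1 (t - N) with h2 | h2
      · rw [min_eq_left h2, min_eq_left (by linarith)]; ring
      · rw [min_eq_right h2, min_eq_right (by linarith)]; ring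

theorem continuous_gN (N : ℕ) : Continuous fun p : ℝ × ℝ => gN N p.1 p.2 := by
  unfold gN
  fun_prop

/-- The stretching function. -/
def gg (B t : ℝ) : ℝ := gN ⌈t⌉₊ B t

theorem gg_eq {N : ℕ} {B t : ℝ} (h : t ≤ N) : gg B t = gN N B t := gN_eq (Nat.le_ceil t) h

theorem gg_mono {B B' : ℝ} (t : ℝ) (h : B ≤ B') : gg B t + (B' - B) ≤ gg B' t := gN_mono _ t h

theorem gg_lt {B B' : ℝ} (t : ℝ) (h : B < B') : gg B t < gg B' t := by
  have := gg_mono t h.le
  linarith

theorem gg_inj {B B' : ℝ} (t : ℝ) (h : gg B t = gg B' t) : B = B' := by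
  rcases lt_trichotomy B B' with h' | h' | h'
  · exact absurd h (gg_lt t h').ne
  · exact h'
  · exact absurd h (gg_lt t h').ne'

theorem gg_le_iff {B B' : ℝ} (t : ℝ) : gg B t ≤ gg B' t ↔ B ≤ B' := by
  constructor
  · intro h
    by_contra h'
    exact absurd h (not_le.2 (gg_lt t (not_le.1 h')))
  · intro h
    have := gg_mono t h
    linarith

theorem gg_zero (t : ℝ) : gg 0 t = 0 := gN_zero _ t

theorem gg_one {t : ℝ} (h0 : 0 ≤ t) : gg 1 t = 1 + t := by
  unfold gg
  rw [gN_one _ h0, min_eq_right (Nat.le_ceil t)]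

theorem continuous_gg : Continuous fun p : ℝ × ℝ => gg p.1 p.2 := by
  rw [continuous_iff_continuousAt]
  rintro ⟨B, t⟩
  have h1 : ContinuousAt (fun p : ℝ × ℝ => gN (⌈t⌉₊ + 1) p.1 p.2) (B, t) :=
    (continuous_gN _).continuousAt
  refine h1.congr_of_eventuallyEq ?_
  have h2 : ∀ᶠ p : ℝ × ℝ in 𝓝 (B, t), p.2 < (⌈t⌉₊ + 1 : ℕ) := by
    apply (isOpen_lt continuous_snd continuous_const).mem_nhds
    show t < (⌈t⌉₊ + 1 : ℕ)
    have := Nat.le_ceil t
    push_cast
    linarith
  filter_upwards [h2] with p hp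
  exact gg_eq hp.le

variable {n : ℕ}

/-- Partial sums of barycentric coordinates. -/
def Bc (b : Fin (n + 1) → ℝ) (k : ℕ) : ℝ :=
  ∑ l : Fin (n + 1), if k ≤ l.val then b l else 0

theorem Bc_succ (b : Fin (n + 1) → ℝ) (k : Fin (n + 1)) :
    Bc b k.val = b k + Bc b (k.val + 1) := by
  unfold Bc
  have h1 : b k = ∑ l : Fin (n + 1), if l = k then b l else 0 := by simp
  conv_rhs => rw [h1]
  rw [← Finset.sum_add_distrib]
  refine Finset.sum_congr rfl (fun l _ => ?_)
  by_cases h : l = k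
  · subst h
    simp
  · by_cases h2 : k.val ≤ l.val
    · have h3 : k.val + 1 ≤ l.val := by
        have : k.val ≠ l.val := fun e => h (Fin.ext e.symm)
        omega
      simp [h, h2, h3]
    · have h3 : ¬ (k.val + 1 ≤ l.val) := by omega
      simp [h, h2, h3]

theorem Bc_ge (b : Fin (n + 1) → ℝ) {k : ℕ} (hk : n + 1 ≤ k) : Bc b k = 0 := by
  unfold Bc
  apply Finset.sum_eq_zero
  intro l _
  have := l.isLt
  rw [if_neg (by omega)]

theorem Bc_zero (b : Fin (n + 1) → ℝ) : Bc b 0 = ∑ l, b l := by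
  unfold Bc
  simp

theorem Bc_inj {b b' : Fin (n + 1) → ℝ} (h : ∀ k, Bc b k = Bc b' k) : b = b' := by
  funext k
  have h1 := Bc_succ b k
  have h2 := Bc_succ b' k
  rw [h, h] at h1
  linarith

theorem continuous_Bc (k : ℕ) : Continuous fun b : Fin (n + 1) → ℝ => Bc b k := by
  unfold Bc
  refine continuous_finsetSum _ (fun l _ => ?_)
  by_cases h : k ≤ l.val
  · simp only [h, if_true]
    fun_prop
  · simp only [h, if_false]
    fun_prop

/-- Extension by zero. -/
def ext (U : Fin (n + 1) → ℝ) (k : ℕ) : ℝ := if h : k < n + 1 then U ⟨k, h⟩ else 0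

theorem ext_val (U : Fin (n + 1) → ℝ) (k : Fin (n + 1)) : ext U k.val = U k := by
  unfold ext
  rw [dif_pos k.isLt]

theorem ext_ge (U : Fin (n + 1) → ℝ) {k : ℕ} (hk : n + 1 ≤ k) : ext U k = 0 := by
  unfold ext
  rw [dif_neg (by omega)]

theorem continuous_ext (k : ℕ) : Continuous fun U : Fin (n + 1) → ℝ => ext U k := by
  unfold ext
  by_cases h : k < n + 1
  · simp only [h, dif_pos]
    fun_prop
  · simp only [h, dif_neg, not_false_iff]
    exact continuous_const

/-- The wall functions. -/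
def vf (j : Fin (n + 2)) (U : Fin (n + 1) → ℝ) : ℝ :=
  Fin.cases (U 0 - 1) (fun k => ext U k.val - ext U (k.val + 1)) j

theorem vf_zero (U : Fin (n + 1) → ℝ) : vf 0 U = U 0 - 1 := rfl

theorem vf_succ (U : Fin (n + 1) → ℝ) (k : Fin (n + 1)) :
    vf k.succ U = ext U k.val - ext U (k.val + 1) := rfl

theorem continuous_vf (j : Fin (n + 2)) : Continuous (vf j : (Fin (n + 1) → ℝ) → ℝ) := by
  refine Fin.cases ?_ (fun k => ?_) j
  · show Continuous fun U : Fin (n + 1) → ℝ => U 0 - 1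
    fun_prop
  · show Continuous fun U : Fin (n + 1) → ℝ => ext U k.val - ext U (k.val + 1)
    exact (continuous_ext _).sub (continuous_ext _)

/-- The model tile. -/
def TT (n : ℕ) : Set (Fin (n + 1) → ℝ) := {U | ∀ j, 0 ≤ vf j U}

/-- The parameter space `Δ × [0, ∞)` of a tile. -/
def DD (n : ℕ) : Set ((Fin (n + 1) → ℝ) × ℝ) := {p | p.1 ∈ stdSimplex ℝ (Fin (n + 1)) ∧ 0 ≤ p.2}

/-- The stretching map from the parameter space to the model tile. -/
def Γ (p : (Fin (n + 1) → ℝ) × ℝ) : Fin (n + 1) → ℝ := fun k => gg (Bc p.1 k.val) p.2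

theorem ext_Γ (p : (Fin (n + 1) → ℝ) × ℝ) (k : ℕ) : ext (Γ p) k = gg (Bc p.1 k) p.2 := by
  by_cases hk : k < n + 1
  · have := ext_val (Γ p) ⟨k, hk⟩
    exact this
  · rw [ext_ge _ (by omega), Bc_ge _ (by omega), gg_zero]

theorem vf_zero_Γ {p : (Fin (n + 1) → ℝ) × ℝ} (hp : p ∈ DD n) : vf 0 (Γ p) = p.2 := by
  rw [vf_zero]
  show gg (Bc p.1 0) p.2 - 1 = p.2
  rw [Bc_zero, hp.1.2, gg_one hp.2]
  ring

theorem vf_succ_Γ (p : (Fin (n + 1) → ℝ) × ℝ) (k : Fin (n + 1)) :
    vf k.succ (Γ p) = gg (Bc p.1 k.val) p.2 - gg (Bc p.1 (k.val + 1)) p.2 := by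
  rw [vf_succ, ext_Γ, ext_Γ]

theorem le_vf_succ_Γ {p : (Fin (n + 1) → ℝ) × ℝ} (hp : p ∈ DD n) (k : Fin (n + 1)) :
    p.1 k ≤ vf k.succ (Γ p) := by
  rw [vf_succ_Γ]
  have h1 := Bc_succ p.1 k
  have h2 := hp.1.1 k
  have h3 := gg_mono p.2 (show Bc p.1 (k.val + 1) ≤ Bc p.1 k.val by linarith)
  linarith

theorem vf_succ_Γ_eq_zero {p : (Fin (n + 1) → ℝ) × ℝ} (hp : p ∈ DD n) (k : Fin (n + 1)) :
    vf k.succ (Γ p) = 0 ↔ p.1 k = 0 := by
  constructor
  · intro h
    have h1 := le_vf_succ_Γ hp k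
    have h2 := hp.1.1 k
    linarith
  · intro h
    rw [vf_succ_Γ, Bc_succ, h, zero_add, sub_self]

theorem Γ_mem {p : (Fin (n + 1) → ℝ) × ℝ} (hp : p ∈ DD n) : Γ p ∈ TT n := by
  intro j
  refine Fin.cases ?_ (fun k => ?_) j
  · rw [vf_zero_Γ hp]; exact hp.2
  · exact (hp.1.1 k).trans (le_vf_succ_Γ hp k)

theorem Γ_inj {p q : (Fin (n + 1) → ℝ) × ℝ} (hp : p ∈ DD n) (hq : q ∈ DD n) (h : Γ p = Γ q) :
    p = q := by
  have h1 : p.2 = q.2 := by rw [← vf_zero_Γ hp, ← vf_zero_Γ hq, h]
  have h2 : p.1 = q.1 := by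
    apply Bc_inj
    intro k
    have := ext_Γ p k
    rw [h, ext_Γ, h1] at this
    exact (gg_inj _ this).symm
  exact Prod.ext h2 h1

theorem continuous_Γ : Continuous (Γ : (Fin (n + 1) → ℝ) × ℝ → Fin (n + 1) → ℝ) := by
  refine continuous_pi (fun k => ?_)
  have h1 : Continuous fun p : (Fin (n + 1) → ℝ) × ℝ => (Bc p.1 k.val, p.2) :=
    ((continuous_Bc _).comp continuous_fst).prodMk continuous_snd
  exact continuous_gg.comp h1

theorem Γ_surj {U : Fin (n + 1) → ℝ} (hU : U ∈ TT n) : ∃ p ∈ DD n, Γ p = U := by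
  set t := U 0 - 1 with ht
  have ht0 : 0 ≤ t := hU 0
  have hanti : Antitone (ext U) := by
    apply antitone_nat_of_succ_le
    intro k
    by_cases hk : k < n + 1
    · have := hU (Fin.succ ⟨k, hk⟩)
      rw [vf_succ] at this
      simp only at this
      linarith
    · rw [ext_ge _ (by omega), ext_ge _ (by omega)]
  have h0 : ext U 0 = 1 + t := by
    have := ext_val U 0
    rw [Fin.val_zero] at this
    rw [this, ht]; ring
  have hrange : ∀ k, ext U k ∈ Set.Icc (gg 0 t) (gg 1 t) := by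
    intro k
    rw [gg_zero, gg_one ht0, ← h0]
    refine ⟨?_, hanti (Nat.zero_le k)⟩
    rw [← ext_ge U (le_refl (n + 1))]
    by_cases hk : k ≤ n + 1
    · exact hanti hk
    · rw [ext_ge U (show n + 1 ≤ k by omega), ext_ge U le_rfl]
  have hIVT : ∀ k, ∃ B ∈ Set.Icc (0 : ℝ) 1, gg B t = ext U k := by
    intro k
    have hc : ContinuousOn (fun B => gg B t) (Set.Icc 0 1) :=
      (continuous_gg.comp (continuous_id.prodMk continuous_const)).continuousOn
    obtain ⟨B, hB, h⟩ := intermediate_value_Icc (zero_le_one' ℝ) hc (hrange k)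
    exact ⟨B, hB, h⟩
  choose B hB1 hB2 using hIVT
  have hBanti : ∀ k, B (k + 1) ≤ B k := by
    intro k
    rw [← gg_le_iff t, hB2, hB2]
    exact hanti (Nat.le_succ k)
  have hB0 : B 0 = 1 := by
    apply gg_inj t
    rw [hB2, gg_one ht0, h0]
  have hBge : ∀ k, n + 1 ≤ k → B k = 0 := by
    intro k hk
    apply gg_inj t
    rw [hB2, gg_zero, ext_ge U hk]
  let b : Fin (n + 1) → ℝ := fun l => B l.val - B (l.val + 1)
  have hBc : ∀ m k : ℕ, n + 1 ≤ k + m → Bc b k = B k := by
    intro m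
    induction m with
    | zero =>
      intro k hk
      rw [Bc_ge b (by omega), hBge k (by omega)]
    | succ m ih =>
      intro k hk
      by_cases h : k < n + 1
      · have h1 := Bc_succ b ⟨k, h⟩
        simp only at h1
        rw [h1, ih (k + 1) (by omega)]
        simp only [b]
        ring
      · rw [Bc_ge b (by omega), hBge k (by omega)]
  refine ⟨(b, t), ⟨⟨fun l => ?_, ?_⟩, ht0⟩, ?_⟩
  · have := hBanti l.val
    show 0 ≤ B l.val - B (l.val + 1)
    linarith
  · show ∑ l, b l = 1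
    rw [← Bc_zero, hBc (n + 1) 0 (by omega), hB0]
  · funext k
    show gg (Bc b k.val) t = U k
    rw [hBc (n + 1) k.val (by omega), hB2, ext_val]

theorem isClosed_TT : IsClosed (TT n) := by
  have : TT n = ⋂ j, {U | 0 ≤ vf j U} := by
    ext U; simp [TT]
  rw [this]
  exact isClosed_iInter (fun j => isClosed_le continuous_const (continuous_vf j))

theorem isClosedEmbedding_Γ : IsClosedEmbedding (fun p : DD n => Γ (p : (Fin (n + 1) → ℝ) × ℝ)) := by
  refine isClosedEmbedding_of_proper (continuous_Γ.comp continuous_subtype_val) ?_ ?_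
  · intro p q h
    exact Subtype.ext (Γ_inj p.2 q.2 h)
  · intro U
    refine ⟨{U' | U' 0 < U 0 + 1}, ?_, {p | (p : (Fin (n + 1) → ℝ) × ℝ).2 ≤ U 0}, ?_, ?_⟩
    · apply (isOpen_lt (continuous_apply 0) continuous_const).mem_nhds
      show U 0 < U 0 + 1
      linarith
    · rw [Subtype.isCompact_iff]
      have h1 : IsCompact (stdSimplex ℝ (Fin (n + 1)) ×ˢ Set.Icc (0 : ℝ) (U 0)) :=
        (isCompact_stdSimplex ℝ _).prod isCompact_Icc
      refine h1.of_isClosed_subset ?_ ?_
      · have h2 : (Subtype.val '' {p : DD n | (p : (Fin (n + 1) → ℝ) × ℝ).2 ≤ U 0}) =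
            stdSimplex ℝ (Fin (n + 1)) ×ˢ Set.Icc (0 : ℝ) (U 0) := by
          ext p
          constructor
          · rintro ⟨q, hq, rfl⟩
            exact ⟨q.2.1, q.2.2, hq⟩
          · rintro ⟨h1, h2, h3⟩
            exact ⟨⟨p, h1, h2⟩, h3, rfl⟩
        rw [h2]
        exact h1.isClosed
      · rintro p ⟨q, hq, rfl⟩
        exact ⟨q.2.1, q.2.2, hq⟩
    · intro p hp
      have hp' : Γ (p : (Fin (n + 1) → ℝ) × ℝ) 0 < U 0 + 1 := hp
      have h1 := vf_zero_Γ p.2
      rw [vf_zero] at h1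
      show (p : (Fin (n + 1) → ℝ) × ℝ).2 ≤ U 0
      linarith

/-- The stretching map as a homeomorphism from the parameter space to the model tile. -/
def ΓH : DD n ≃ₜ TT n :=
  isClosedEmbedding_Γ.isEmbedding.toHomeomorph.trans (Homeomorph.setCongr (by
    ext U
    constructor
    · rintro ⟨p, rfl⟩
      exact Γ_mem p.2
    · intro hU
      obtain ⟨p, hp, rfl⟩ := Γ_surj hU
      exact ⟨⟨p, hp⟩, rfl⟩))

theorem ΓH_apply (p : DD n) : (ΓH p : Fin (n + 1) → ℝ) = Γ (p : (Fin (n + 1) → ℝ) × ℝ) := rfl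

theorem Γ_ΓH_symm (U : TT n) : Γ ((ΓH.symm U : DD n) : (Fin (n + 1) → ℝ) × ℝ) = U := by
  rw [← ΓH_apply, Homeomorph.apply_symm_apply]

/-! ### The reflection -/

/-- The normalization of the wall functions. -/
def cc (j : Fin (n + 2)) : ℝ := Fin.cases (n + 1 : ℝ) (fun _ => 1) j

theorem cc_zero : cc (0 : Fin (n + 2)) = n + 1 := rfl

theorem cc_succ (k : Fin (n + 1)) : cc k.succ = 1 := rfl

theorem cc_pos (j : Fin (n + 2)) : 0 < cc j := by
  refine Fin.cases ?_ (fun k => ?_) j
  · rw [cc_zero]; positivity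
  · rw [cc_succ]; exact one_pos

/-- The direction of the reflection. -/
def dd : Fin (n + 1) → ℝ := fun k => (n + 1 : ℝ) - k.val

theorem ext_add_dd (U : Fin (n + 1) → ℝ) (t : ℝ) {k : ℕ} (hk : k ≤ n + 1) :
    ext (U + t • dd) k = ext U k + t * ((n + 1 : ℝ) - k) := by
  by_cases h : k < n + 1
  · unfold ext
    rw [dif_pos h, dif_pos h]
    simp [dd]
  · have : k = n + 1 := by omega
    rw [ext_ge _ (by omega), ext_ge _ (by omega), this]
    push_cast
    ring

theorem vf_add_dd (U : Fin (n + 1) → ℝ) (t : ℝ) (j : Fin (n + 2)) :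
    vf j (U + t • dd) = vf j U + t * cc j := by
  refine Fin.cases ?_ (fun k => ?_) j
  · rw [vf_zero, vf_zero, cc_zero]
    simp [dd]
    ring
  · rw [vf_succ, vf_succ, cc_succ, ext_add_dd _ _ (by have := k.isLt; omega),
      ext_add_dd _ _ (by have := k.isLt; omega)]
    push_cast
    ring

/-- The height function. -/
def sf (U : Fin (n + 1) → ℝ) : ℝ :=
  Finset.univ.inf' Finset.univ_nonempty fun j : Fin (n + 2) => vf j U / cc j

theorem sf_le (U : Fin (n + 1) → ℝ) (j : Fin (n + 2)) : sf U ≤ vf j U / cc j :=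
  Finset.inf'_le _ (Finset.mem_univ j)

theorem exists_sf (U : Fin (n + 1) → ℝ) : ∃ j, sf U = vf j U / cc j := by
  obtain ⟨j, _, hj⟩ := Finset.exists_mem_eq_inf' Finset.univ_nonempty
    (fun j : Fin (n + 2) => vf j U / cc j)
  exact ⟨j, hj⟩

theorem sf_add_dd (U : Fin (n + 1) → ℝ) (t : ℝ) : sf (U + t • dd) = sf U + t := by
  have key : ∀ j, vf j (U + t • dd) / cc j = vf j U / cc j + t := by
    intro j
    rw [vf_add_dd]
    have := (cc_pos j).ne'
    field_simp
  apply le_antisymm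
  · obtain ⟨j, hj⟩ := exists_sf U
    have := sf_le (U + t • dd) j
    rw [key, ← hj] at this
    exact this
  · obtain ⟨j, hj⟩ := exists_sf (U + t • dd)
    have := sf_le U j
    rw [key] at hj
    linarith

theorem mem_TT_iff (U : Fin (n + 1) → ℝ) : U ∈ TT n ↔ 0 ≤ sf U := by
  constructor
  · intro h
    obtain ⟨j, hj⟩ := exists_sf U
    rw [hj]
    exact div_nonneg (h j) (cc_pos j).le
  · intro h j
    have h1 := h.trans (sf_le U j)
    rwa [le_div_iff₀ (cc_pos j), zero_mul] at h1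

theorem continuous_sf : Continuous (sf : (Fin (n + 1) → ℝ) → ℝ) := by
  unfold sf
  exact Continuous.finset_inf'_apply _ (fun j _ => (continuous_vf j).div_const _)

/-- The reflection. -/
def refl (U : Fin (n + 1) → ℝ) : Fin (n + 1) → ℝ := U + (-2 * sf U) • dd

theorem sf_refl (U : Fin (n + 1) → ℝ) : sf (refl U) = - sf U := by
  unfold refl
  rw [sf_add_dd]; ring

theorem refl_refl (U : Fin (n + 1) → ℝ) : refl (refl U) = U := by
  have h : refl (refl U) = refl U + (-2 * sf (refl U)) • dd := rfl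
  rw [h, sf_refl]
  unfold refl
  rw [add_assoc, ← add_smul]
  ring_nf
  simp

theorem continuous_refl' : Continuous (refl : (Fin (n + 1) → ℝ) → Fin (n + 1) → ℝ) := by
  unfold refl
  exact continuous_id.add ((continuous_const.mul continuous_sf).smul continuous_const)

theorem mem_or (U : Fin (n + 1) → ℝ) : U ∈ TT n ∨ refl U ∈ TT n := by
  rw [mem_TT_iff, mem_TT_iff, sf_refl]
  rcases le_total 0 (sf U) with h | h
  · exact Or.inl h
  · right; linarith

theorem sf_eq_zero {U : Fin (n + 1) → ℝ} (hU : U ∈ TT n) (h : refl U ∈ TT n) : sf U = 0 := by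
  rw [mem_TT_iff] at hU h
  rw [sf_refl] at h
  linarith

theorem refl_eq {U : Fin (n + 1) → ℝ} (hU : U ∈ TT n) (h : refl U ∈ TT n) : refl U = U := by
  unfold refl
  rw [sf_eq_zero hU h]
  simp

/-- The walls through a point. -/
def JJ (U : Fin (n + 1) → ℝ) : Set (Fin (n + 2)) := {j | vf j U = 0}

theorem refl_mem_iff {U : Fin (n + 1) → ℝ} (hU : U ∈ TT n) : refl U ∈ TT n ↔ (JJ U).Nonempty := by
  constructor
  · intro h
    obtain ⟨j, hj⟩ := exists_sf U
    rw [sf_eq_zero hU h] at hj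
    refine ⟨j, ?_⟩
    have := (cc_pos j).ne'
    rw [eq_comm, div_eq_zero_iff] at hj
    exact hj.resolve_right this
  · rintro ⟨j, hj⟩
    have h1 := sf_le U j
    rw [show vf j U = 0 from hj, zero_div] at h1
    rw [mem_TT_iff, sf_refl]
    linarith

theorem vf_linear (j : Fin (n + 2)) (U W : Fin (n + 1) → ℝ) {a b : ℝ} (hab : a + b = 1) :
    vf j (a • U + b • W) = a * vf j U + b * vf j W := by
  refine Fin.cases ?_ (fun k => ?_) j
  · rw [vf_zero, vf_zero, vf_zero]
    simp only [Pi.add_apply, Pi.smul_apply, smul_eq_mul]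
    linear_combination hab
  · have hext : ∀ k, ext (a • U + b • W) k = a * ext U k + b * ext W k := by
      intro k
      unfold ext
      split_ifs
      · simp
      · simp
    rw [vf_succ, vf_succ, vf_succ, hext, hext]
    ring

theorem face_eq (i : Fin (n + 2)) : {U | U ∈ TT n ∧ JJ U = {i}} =
    {U | vf i U = 0 ∧ ∀ j, j ≠ i → 0 < vf j U} := by
  ext U
  constructor
  · rintro ⟨h1, h2⟩
    have h3 : ∀ j, vf j U = 0 ↔ j = i := by
      intro j
      have : j ∈ JJ U ↔ j ∈ ({i} : Set (Fin (n + 2))) := by rw [h2]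
      exact this
    refine ⟨(h3 i).2 rfl, fun j hj => lt_of_le_of_ne (h1 j) ?_⟩
    intro h
    exact hj ((h3 j).1 h.symm)
  · rintro ⟨h1, h2⟩
    refine ⟨fun j => ?_, ?_⟩
    · by_cases h : j = i
      · rw [h, h1]
      · exact (h2 j h).le
    · ext j
      constructor
      · intro h
        by_contra h'
        exact (h2 j h').ne' h
      · rintro rfl
        exact h1

theorem face_preconn (i : Fin (n + 2)) : IsPreconnected {U | U ∈ TT n ∧ JJ U = {i}} := by
  rw [face_eq]
  apply Convex.isPreconnected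
  rintro U ⟨h1, h2⟩ W ⟨h3, h4⟩ a b ha hb hab
  refine ⟨?_, fun j hj => ?_⟩
  · rw [vf_linear i U W hab, h1, h3]; simp
  · rw [vf_linear j U W hab]
    rcases ha.eq_or_lt with h | h
    · have hb1 : b = 1 := by linarith
      rw [← h, hb1]
      simpa using h4 j hj
    · have e1 := mul_pos h (h2 j hj)
      have e2 := mul_nonneg hb (h4 j hj).le
      linarith

theorem face_nonempty (hn : 0 < n) (i : Fin (n + 2)) :
    {U | U ∈ TT n ∧ JJ U = {i}}.Nonempty := by
  rw [face_eq]
  have hn' : (0 : ℝ) < n := Nat.cast_pos.2 hn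
  refine Fin.cases ?_ (fun k => ?_) i
  · let b : Fin (n + 1) → ℝ := fun _ => 1 / (n + 1 : ℝ)
    have hb : ((b, (0 : ℝ)) : (Fin (n + 1) → ℝ) × ℝ) ∈ DD n := by
      refine ⟨⟨fun l => ?_, ?_⟩, le_rfl⟩
      · simp only [b]; positivity
      · simp only [b, Finset.sum_const, Finset.card_univ, Fintype.card_fin, nsmul_eq_mul]
        push_cast
        field_simp
    refine ⟨Γ (b, 0), vf_zero_Γ hb, ?_⟩
    intro j
    refine Fin.cases (fun h => absurd rfl h) (fun l _ => ?_) j
    refine lt_of_lt_of_le ?_ (le_vf_succ_Γ hb l)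
    simp only [b]; positivity
  · let b : Fin (n + 1) → ℝ := fun l => if l = k then 0 else 1 / (n : ℝ)
    have hb : ((b, (1 : ℝ)) : (Fin (n + 1) → ℝ) × ℝ) ∈ DD n := by
      refine ⟨⟨fun l => ?_, ?_⟩, zero_le_one⟩
      · simp only [b]
        split_ifs
        · exact le_rfl
        · positivity
      · simp only [b]
        rw [Finset.sum_ite]
        have hcard : (Finset.univ.filter fun l : Fin (n + 1) => ¬ l = k).card = n := by
          rw [Finset.filter_not, Finset.filter_eq', if_pos (Finset.mem_univ _),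
            Finset.card_sdiff_of_subset (Finset.subset_univ _)]
          simp
        rw [Finset.sum_const_zero, zero_add, Finset.sum_const, hcard, nsmul_eq_mul]
        field_simp
    refine ⟨Γ (b, 1), ?_, ?_⟩
    · rw [vf_succ_Γ_eq_zero hb]
      simp [b]
    · intro j
      refine Fin.cases (fun _ => ?_) (fun l hl => ?_) j
      · rw [vf_zero_Γ hb]; exact one_pos
      · refine lt_of_lt_of_le ?_ (le_vf_succ_Γ hb l)
        have : l ≠ k := by rintro rfl; exact hl rfl
        simp only [b, this, if_false]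
        positivity

end Pool.Agent.Helper74.Branched
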