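import Pool.Agent.Helper74.Branched.Tiles2
import Pool.Agent.Helper74.Branched.Target
import Pool.Agent.Helper74.Branched.Cover

/-!
# The tile system of a facet system
-/

open Function Topology

noncomputable section

namespace Pool.Agent.Helper74.Branched

variable {V : Type*} [DecidableEq V]

namespace Sys

variable {C : Type*} {n : ℕ} (S : Sys V C n)

variable {A : Set (V → ℝ)} (hA : ∀ x, x ∈ A ↔ ∃ c, x ∈ simplex (S.vs c))

include hA in
theorem map_mem (t : S.Tile) {p : (Fin (n + 1) → ℝ) × ℝ} (hp : p ∈ DD n) :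
    t.map p.1 p.2 ∈ A := by
  rw [hA]
  obtain ⟨k, _, _, h3⟩ := S.flow_stage t.w (t.y_mem hp.1) hp.2
  exact ⟨_, h3⟩

/-- The tile map as a map into `A`. -/
def mapA (t : S.Tile) (p : DD n) : A :=
  ⟨t.map (p : (Fin (n + 1) → ℝ) × ℝ).1 (p : (Fin (n + 1) → ℝ) × ℝ).2, S.map_mem hA t p.2⟩

theorem continuous_mapA (t : S.Tile) : Continuous (S.mapA hA t) := by
  refine Continuous.subtype_mk ?_ _
  have h1 : Continuous fun p : DD n => (yy t.ς (p : (Fin (n + 1) → ℝ) × ℝ).1,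
      (p : (Fin (n + 1) → ℝ) × ℝ).2) :=
    ((continuous_yy t.ς).comp (continuous_fst.comp continuous_subtype_val)).prodMk
      (continuous_snd.comp continuous_subtype_val)
  have h2 := ContinuousOn.comp_continuous (S.continuousOn_flow t.w) h1
    (fun p => ⟨t.y_mem p.2.1, p.2.2⟩)
  have h3 : (fun p : DD n => t.map (p : (Fin (n + 1) → ℝ) × ℝ).1
      (p : (Fin (n + 1) → ℝ) × ℝ).2) = (fun p : DD n => S.flow t.w
      (yy t.ς (p : (Fin (n + 1) → ℝ) × ℝ).1) (p : (Fin (n + 1) → ℝ) × ℝ).2) := rfl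
  rw [h3]
  exact h2

/-- Star neighbourhoods. -/
theorem exists_star (hA : ∀ x, x ∈ A ↔ ∃ c, x ∈ simplex (S.vs c)) (x : A) :
    ∃ W ∈ 𝓝 x, ∃ F : Set C, F.Finite ∧ ∀ y ∈ W, ∃ c ∈ F, (y : V → ℝ) ∈ simplex (S.vs c) := by
  obtain ⟨c, hc⟩ := (hA x).1 x.2
  have hex : ∃ u, 0 < (x : V → ℝ) u := by
    by_contra hcon
    push Not at hcon
    have h1 : ∑ v ∈ S.vs c, (x : V → ℝ) v ≤ 0 := Finset.sum_nonpos (fun v _ => hcon v)
    rw [hc.2.2] at h1
    exact absurd h1 (by norm_num)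
  obtain ⟨u, hu⟩ := hex
  refine ⟨{y | 0 < (y : V → ℝ) u}, ?_, {c | u ∈ S.vs c}, S.star_fin u, ?_⟩
  · exact (isOpen_lt continuous_const
      ((continuous_apply u).comp continuous_subtype_val)).mem_nhds hu
  · intro y hy
    obtain ⟨d, hd⟩ := (hA y).1 y.2
    refine ⟨d, ?_, hd⟩
    by_contra h
    have h1 : (y : V → ℝ) u = 0 := hd.2.1 u h
    have h2 : 0 < (y : V → ℝ) u := hy
    exact h2.ne' h1

theorem isClosedEmbedding_mapA (t : S.Tile) : IsClosedEmbedding (S.mapA hA t) := by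
  refine isClosedEmbedding_of_proper (S.continuous_mapA hA t) ?_ ?_
  · intro p q h
    have h' : t.map (p : (Fin (n + 1) → ℝ) × ℝ).1 (p : (Fin (n + 1) → ℝ) × ℝ).2 =
        t.map (q : (Fin (n + 1) → ℝ) × ℝ).1 (q : (Fin (n + 1) → ℝ) × ℝ).2 :=
      congrArg Subtype.val h
    obtain ⟨h1, h2, _⟩ := Tile.map_inj t t p.2.1 q.2.1 p.2.2 q.2.2 h'
    exact Subtype.ext (Prod.ext h1 h2)
  · intro x
    obtain ⟨W, hW, F, hF, hWF⟩ := S.exists_star hA x
    choose R hR using fun v => Tile.bounded S t v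
    obtain ⟨R', hR'⟩ := (hF.image R).bddAbove
    refine ⟨W, hW, {p | (p : (Fin (n + 1) → ℝ) × ℝ).2 ≤ R'}, ?_, ?_⟩
    · rw [Subtype.isCompact_iff]
      have h1 : IsCompact (stdSimplex ℝ (Fin (n + 1)) ×ˢ Set.Icc (0 : ℝ) R') :=
        (isCompact_stdSimplex ℝ _).prod isCompact_Icc
      have h2 : (Subtype.val '' {p : DD n | (p : (Fin (n + 1) → ℝ) × ℝ).2 ≤ R'}) =
          stdSimplex ℝ (Fin (n + 1)) ×ˢ Set.Icc (0 : ℝ) R' := by
        ext p
        constructor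
        · rintro ⟨q, hq, rfl⟩
          exact ⟨q.2.1, q.2.2, hq⟩
        · rintro ⟨h1, h2, h3⟩
          exact ⟨⟨p, h1, h2⟩, h3, rfl⟩
      rw [h2]
      exact h1
    · intro p hp
      obtain ⟨c, hc, hc'⟩ := hWF _ hp
      exact (hR c _ p.2.1 _ p.2.2 hc').trans (hR' ⟨c, hc, rfl⟩)

theorem exists_mapA (x : A) : ∃ (t : S.Tile) (p : DD n), S.mapA hA t p = x := by
  obtain ⟨c, hc⟩ := (hA x).1 x.2
  obtain ⟨t, b, k, θ, hb, h2, h3, h4, h5⟩ := Tile.cover S c hc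
  rw [← h2] at h4 h5
  obtain ⟨h6, h7⟩ := S.flow_of_stage (t.y_mem hb) h3 h4
  generalize S.tim t.w k (yy t.ς b) + S.lam (S.par^[k] t.w) * θ = τ at h6 h7
  have h8 : t.map b τ = x := h7.trans h5.symm
  exact ⟨t, ⟨(b, τ), hb, h6⟩, Subtype.ext h8⟩

open Classical in
/-- The tile maps in terms of the model tile. -/
def phi [Nonempty A] (t : S.Tile) (U : Fin (n + 1) → ℝ) : A :=
  if h : U ∈ TT n then S.mapA hA t (ΓH.symm ⟨U, h⟩) else Classical.arbitrary A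

theorem phi_of_mem [Nonempty A] (t : S.Tile) {U : Fin (n + 1) → ℝ} (h : U ∈ TT n) :
    S.phi hA t U = S.mapA hA t (ΓH.symm ⟨U, h⟩) := dif_pos h

theorem mapA_eq_iff (t t' : S.Tile) (p q : DD n) : S.mapA hA t p = S.mapA hA t' q ↔
    t.map (p : (Fin (n + 1) → ℝ) × ℝ).1 (p : (Fin (n + 1) → ℝ) × ℝ).2 =
    t'.map (q : (Fin (n + 1) → ℝ) × ℝ).1 (q : (Fin (n + 1) → ℝ) × ℝ).2 := by
  constructor
  · intro h
    exact congrArg Subtype.val h
  · intro h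
    exact Subtype.ext h

theorem phi_emb [Nonempty A] (t : S.Tile) :
    IsClosedEmbedding (fun u : TT n => S.phi hA t (u : Fin (n + 1) → ℝ)) := by
  have h1 : (fun u : TT n => S.phi hA t (u : Fin (n + 1) → ℝ)) = S.mapA hA t ∘ ΓH.symm := by
    funext u
    exact S.phi_of_mem hA t u.2
  rw [h1]
  exact (S.isClosedEmbedding_mapA hA t).comp ΓH.symm.isClosedEmbedding

theorem phi_locfin [Nonempty A] : LocallyFinite fun t : S.Tile => S.phi hA t '' TT n := by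
  intro x
  obtain ⟨W, hW, F, hF, hWF⟩ := S.exists_star hA x
  refine ⟨W, hW, ?_⟩
  refine (hF.biUnion (fun c _ => Tile.locfin_aux S c)).subset ?_
  rintro t ⟨y, ⟨U, hU, hUy⟩, hy⟩
  obtain ⟨c, hc, hc'⟩ := hWF y hy
  rw [Set.mem_iUnion₂]
  refine ⟨c, hc, _, (ΓH.symm ⟨U, hU⟩).2.1, _, (ΓH.symm ⟨U, hU⟩).2.2, ?_⟩
  rw [← hUy, S.phi_of_mem hA t hU] at hc'
  exact hc'

theorem phi_inj [Nonempty A] (t t' : S.Tile) (U U' : Fin (n + 1) → ℝ) (hU : U ∈ TT n)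
    (hU' : U' ∈ TT n) (h : S.phi hA t U = S.phi hA t' U') : U = U' := by
  rw [S.phi_of_mem hA t hU, S.phi_of_mem hA t' hU', mapA_eq_iff] at h
  obtain ⟨h1, h2, _⟩ := Tile.map_inj t t' (ΓH.symm ⟨U, hU⟩).2.1 (ΓH.symm ⟨U', hU'⟩).2.1
    (ΓH.symm ⟨U, hU⟩).2.2 (ΓH.symm ⟨U', hU'⟩).2.2 h
  have h3 : ΓH.symm ⟨U, hU⟩ = ΓH.symm ⟨U', hU'⟩ := Subtype.ext (Prod.ext h1 h2)
  exact congrArg Subtype.val (ΓH.symm.injective h3)

theorem phi_interior [Nonempty A] (t t' : S.Tile) (U : Fin (n + 1) → ℝ) (hU : U ∈ TT n)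
    (hJ : JJ U = ∅) (h : S.phi hA t U = S.phi hA t' U) : t = t' := by
  rw [S.phi_of_mem hA t hU, S.phi_of_mem hA t' hU, mapA_eq_iff] at h
  have hU' : Γ ((ΓH.symm ⟨U, hU⟩ : DD n) : (Fin (n + 1) → ℝ) × ℝ) = U := Γ_ΓH_symm ⟨U, hU⟩
  generalize (ΓH.symm ⟨U, hU⟩ : DD n) = p at h hU'
  have h0 : ∀ j, vf j U ≠ 0 := by
    intro j hj
    have : j ∈ JJ U := hj
    rw [hJ] at this
    exact this
  rw [← hU'] at h0
  have hτ : 0 < (p : (Fin (n + 1) → ℝ) × ℝ).2 := by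
    have h1 := h0 0
    rw [vf_zero_Γ p.2] at h1
    exact lt_of_le_of_ne p.2.2 h1.symm
  have hb : ∀ l, 0 < (p : (Fin (n + 1) → ℝ) × ℝ).1 l := by
    intro l
    have h1 := h0 l.succ
    rw [ne_eq, vf_succ_Γ_eq_zero p.2] at h1
    exact lt_of_le_of_ne (p.2.1.1 l) (Ne.symm h1)
  exact Tile.interior t' t p.2.1 hτ hb h

theorem phi_wall [Nonempty A] {o : (Fin (n + 2) → V) → ℤˣ} (ho : S.Ori o) (t : S.Tile)
    (U : Fin (n + 1) → ℝ) (i : Fin (n + 2)) (hU : U ∈ TT n) (hJ : JJ U = {i}) :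
    ∃ t' : S.Tile, o t'.frame = - o t.frame ∧
      ∀ t'' : S.Tile, S.phi hA t'' U = S.phi hA t U ↔ t'' = t ∨ t'' = t' := by
  have hU' : Γ ((ΓH.symm ⟨U, hU⟩ : DD n) : (Fin (n + 1) → ℝ) × ℝ) = U := Γ_ΓH_symm ⟨U, hU⟩
  have hphi : ∀ t'' : S.Tile, S.phi hA t'' U = S.mapA hA t'' (ΓH.symm ⟨U, hU⟩) :=
    fun t'' => S.phi_of_mem hA t'' hU
  generalize (ΓH.symm ⟨U, hU⟩ : DD n) = p at hphi hU'
  have h0 : ∀ j, vf j U = 0 ↔ j = i := by
    intro j
    have : j ∈ JJ U ↔ j ∈ ({i} : Set (Fin (n + 2))) := by rw [hJ]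
    exact this
  have hτiff : (p : (Fin (n + 1) → ℝ) × ℝ).2 = 0 ↔ 0 = i := by
    rw [← h0 0, ← hU', vf_zero_Γ p.2]
  have hbiff : ∀ l : Fin (n + 1), (p : (Fin (n + 1) → ℝ) × ℝ).1 l = 0 ↔ l.succ = i := by
    intro l
    rw [← h0 l.succ, ← hU', vf_succ_Γ_eq_zero p.2]
  have key : ∃ t' : S.Tile, o t'.frame = - o t.frame ∧ ∀ t'' : S.Tile,
      t''.map (p : (Fin (n + 1) → ℝ) × ℝ).1 (p : (Fin (n + 1) → ℝ) × ℝ).2 =
        t.map (p : (Fin (n + 1) → ℝ) × ℝ).1 (p : (Fin (n + 1) → ℝ) × ℝ).2 ↔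
        t'' = t ∨ t'' = t' := by
    induction i using Fin.cases with
    | zero =>
      have hτ : (p : (Fin (n + 1) → ℝ) × ℝ).2 = 0 := hτiff.2 rfl
      rw [hτ]
      apply t.wall_zero ho p.2.1
      intro l
      refine lt_of_le_of_ne (p.2.1.1 l) (Ne.symm ?_)
      rw [ne_eq, hbiff]
      exact Fin.succ_ne_zero l
    | succ k =>
      have hτ : 0 < (p : (Fin (n + 1) → ℝ) × ℝ).2 := by
        refine lt_of_le_of_ne p.2.2 (Ne.symm ?_)
        rw [ne_eq, hτiff]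
        exact (Fin.succ_ne_zero k).symm
      have hpos : ∀ l, l ≠ k → 0 < (p : (Fin (n + 1) → ℝ) × ℝ).1 l := by
        intro l hl
        refine lt_of_le_of_ne (p.2.1.1 l) (Ne.symm ?_)
        rw [ne_eq, hbiff]
        exact fun h => hl (Fin.succ_injective _ h)
      have hk : (p : (Fin (n + 1) → ℝ) × ℝ).1 k = 0 := (hbiff k).2 rfl
      induction k using Fin.lastCases with
      | last => exact t.wall_last ho p.2.1 hτ hk hpos
      | cast k => exact t.wall_mid ho p.2.1 hτ hk hpos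
  obtain ⟨t', h1, h2⟩ := key
  refine ⟨t', h1, ?_⟩
  intro t''
  rw [hphi, hphi, mapA_eq_iff]
  exact h2 t''

/-- The tile system. -/
def tileSystem {o : (Fin (n + 2) → V) → ℤˣ} (ho : S.Ori o) (hn : 0 < n) [Nonempty A] :
    TileSystem A (Fin (n + 1) → ℝ) (Fin (n + 2)) S.Tile where
  T := TT n
  ρ := refl
  J := JJ
  φ := S.phi hA
  sgn := fun t => decide (o t.frame = 1)
  isClosed_T := isClosed_TT
  continuous_ρ := continuous_refl'
  ρ_ρ := refl_refl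
  mem_or := mem_or
  J_closed := fun i => isClosed_TT.inter (isClosed_eq (continuous_vf i) continuous_const)
  ρ_mem_iff := fun U hU => refl_mem_iff hU
  ρ_eq := fun U hU h => refl_eq hU h
  face_preconn := face_preconn
  face_nonempty := face_nonempty hn
  φ_emb := S.phi_emb hA
  locfin := S.phi_locfin hA
  cover := by
    intro x
    obtain ⟨t, p, rfl⟩ := S.exists_mapA hA x
    refine ⟨t, ΓH p, (ΓH p).2, ?_⟩
    rw [S.phi_of_mem hA t (ΓH p).2]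
    simp
  inj := S.phi_inj hA
  interior := S.phi_interior hA
  wall := by
    intro t U i hU hJ
    obtain ⟨t', h1, h2⟩ := S.phi_wall hA ho t U i hU hJ
    refine ⟨t', ?_, h2⟩
    rw [h1]
    rcases Int.units_eq_one_or (o t.frame) with h | h
    · rw [h]; decide
    · rw [h]; decide

end Sys

end Pool.Agent.Helper74.Branched
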