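import Pool.Agent.Helper74.Branched.Arms
import Pool.Agent.Helper74.Branched.Sort

/-!
# Tiles
-/

open Function Topology

noncomputable section

namespace Pool.Agent.Helper74.Branched

variable {V : Type*} [DecidableEq V]

/-- Sorting the coordinates of a point of a simplex. -/
theorem exists_order {n : ℕ} {F : Finset V} (hF : F.card = n + 1) {y : V → ℝ}
    (hy : y ∈ simplex F) : ∃ ς : Fin (n + 1) → V, Injective ς ∧ (∀ l, ς l ∈ F) ∧
      ∃ b ∈ stdSimplex ℝ (Fin (n + 1)), yy ς b = y := by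
  let e : Fin (n + 1) ≃ F := (Fintype.equivFinOfCardEq (by simpa using hF)).symm
  let g : Fin (n + 1) → ℝ := fun k => - y (e k)
  let ς : Fin (n + 1) → V := fun k => e (Tuple.sort g k)
  have hς : Injective ς := by
    intro a b h
    exact (Tuple.sort g).injective (e.injective (Subtype.ext h))
  have hmem : ∀ l, ς l ∈ F := fun l => (e _).2
  have hanti : Antitone fun k => y (ς k) := by
    intro a b h
    have := Tuple.monotone_sort g h
    simp only [comp_apply, g] at this
    show y (e (Tuple.sort g b)) ≤ y (e (Tuple.sort g a))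
    linarith
  have hsurj : ∀ v ∈ F, ∃ k, ς k = v := by
    intro v hv
    refine ⟨(Tuple.sort g).symm (e.symm ⟨v, hv⟩), ?_⟩
    simp [ς]
  let Z : ℕ → ℝ := fun k => if h : k < n + 1 then y (ς ⟨k, h⟩) else 0
  have hZ : ∀ k : Fin (n + 1), Z k.val = y (ς k) := by
    intro k
    simp only [Z]
    rw [dif_pos k.isLt]
  have hZ0 : ∀ k, n + 1 ≤ k → Z k = 0 := by
    intro k hk
    simp only [Z]
    rw [dif_neg (by omega)]
  have hZanti : ∀ k, Z (k + 1) ≤ Z k := by
    intro k
    by_cases h : k + 1 < n + 1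
    · have h' : k < n + 1 := by omega
      simp only [Z, h, h', dif_pos]
      exact hanti (by simp [Fin.le_def])
    · rw [hZ0 (k + 1) (by omega)]
      by_cases h' : k < n + 1
      · simp only [Z, h', dif_pos]
        exact hy.1 _
      · rw [hZ0 k (by omega)]
  let b : Fin (n + 1) → ℝ := fun l => (l.val + 1 : ℝ) * (Z l.val - Z (l.val + 1))
  have hYc : ∀ m k : ℕ, n + 1 ≤ k + m → Yc b k = Z k := by
    intro m
    induction m with
    | zero =>
      intro k hk
      rw [Yc_ge b (by omega), hZ0 k (by omega)]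
    | succ m ih =>
      intro k hk
      by_cases h : k < n + 1
      · have h1 := Yc_succ b ⟨k, h⟩
        simp only at h1
        rw [h1, ih (k + 1) (by omega)]
        have h2 : (k + 1 : ℝ) ≠ 0 := by positivity
        simp only [b]
        field_simp
        ring
      · rw [Yc_ge b (by omega), hZ0 k (by omega)]
  have hyy : yy ς b = y := by
    funext v
    by_cases hv : v ∈ F
    · obtain ⟨k, rfl⟩ := hsurj v hv
      rw [yy_apply hς, hYc (n + 1) k.val (by omega), hZ]
    · rw [hy.2.1 v hv]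
      apply yy_apply_of_ne
      rintro k rfl
      exact hv (hmem k)
  refine ⟨ς, hς, hmem, b, ⟨fun l => ?_, ?_⟩, hyy⟩
  · have := hZanti l.val
    have h2 : (0 : ℝ) ≤ l.val + 1 := by positivity
    exact mul_nonneg h2 (by linarith)
  · rw [← sum_Yc b]
    have h1 : ∀ k : Fin (n + 1), Yc b k.val = y (ς k) := by
      intro k
      rw [hYc (n + 1) k.val (by omega), hZ]
    rw [Finset.sum_congr rfl (fun k _ => h1 k), ← hy.2.2]
    have h2 : F = Finset.univ.image ς := by
      ext v
      rw [Finset.mem_image]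
      constructor
      · intro hv
        obtain ⟨k, hk⟩ := hsurj v hv
        exact ⟨k, Finset.mem_univ _, hk⟩
      · rintro ⟨k, _, rfl⟩
        exact hmem k
    conv_rhs => rw [h2]
    rw [Finset.sum_image (fun a _ c _ h => hς h)]

namespace Sys

variable {C : Type*} {n : ℕ} (S : Sys V C n)

/-- A coherent orientation of the facets. -/
structure Ori (o : (Fin (n + 2) → V) → ℤˣ) : Prop where
  perm : ∀ c (w : Fin (n + 2) → V), Injective w → (∀ k, w k ∈ S.vs c) →
    ∀ σ : Equiv.Perm (Fin (n + 2)), o (w ∘ σ) = Equiv.Perm.sign σ * o w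
  adj : ∀ c c' (w w' : Fin (n + 2) → V), Injective w → (∀ k, w k ∈ S.vs c) →
    Injective w' → (∀ k, w' k ∈ S.vs c') → (∀ i : Fin (n + 1), w i.succ = w' i.succ) →
    w 0 ≠ w' 0 → o w' = - o w

/-- A tile: a facet `w`, a wall of `w` (the face opposite to `i`), and an ordering of the vertices
of the wall. -/
@[ext]
structure Tile where
  /-- first facet -/
  w : C
  /-- vertex opposite to the wall -/
  i : V
  /-- ordering -/
  ς : Fin (n + 1) → V
  hi : i ∈ S.vs w
  wall : S.Wall ((S.vs w).erase i)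
  inj : Injective ς
  mem : ∀ l, ς l ∈ (S.vs w).erase i

namespace Tile

variable {S}
variable (t : S.Tile)

theorem surj {v : V} (hv : v ∈ (S.vs t.w).erase t.i) : ∃ l, t.ς l = v := by
  have h : Finset.univ.image t.ς = (S.vs t.w).erase t.i := by
    apply Finset.eq_of_subset_of_card_le
    · intro v hv
      rw [Finset.mem_image] at hv
      obtain ⟨l, _, rfl⟩ := hv
      exact t.mem l
    · rw [Finset.card_image_of_injective _ t.inj, S.card_erase t.hi]
      simp
  rw [← h, Finset.mem_image] at hv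
  obtain ⟨l, _, hl⟩ := hv
  exact ⟨l, hl⟩

theorem wall_eq (t t' : S.Tile) (h : t.ς = t'.ς) :
    (S.vs t.w).erase t.i = (S.vs t'.w).erase t'.i := by
  ext v
  constructor
  · intro hv
    obtain ⟨l, rfl⟩ := t.surj hv
    rw [h]
    exact t'.mem l
  · intro hv
    obtain ⟨l, rfl⟩ := t'.surj hv
    rw [← h]
    exact t.mem l

theorem i_eq {t t' : S.Tile} (hw : t.w = t'.w)
    (h : (S.vs t.w).erase t.i = (S.vs t'.w).erase t'.i) : t.i = t'.i := by
  by_contra hne
  have h1 : t.i ∈ (S.vs t'.w).erase t'.i := by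
    rw [Finset.mem_erase]
    exact ⟨hne, hw ▸ t.hi⟩
  rw [← h] at h1
  exact Finset.notMem_erase _ _ h1

variable {b : Fin (n + 1) → ℝ}

theorem y_mem_F (hb : b ∈ stdSimplex ℝ (Fin (n + 1))) :
    yy t.ς b ∈ simplex ((S.vs t.w).erase t.i) := yy_mem t.inj t.mem hb

theorem y_mem (hb : b ∈ stdSimplex ℝ (Fin (n + 1))) : yy t.ς b ∈ simplex (S.vs t.w) :=
  simplex_mono (Finset.erase_subset _ _) (t.y_mem_F hb)

theorem noExit_of_wall {F : Finset V} (hF : S.Wall F) (hc : F.card = n + 1) {y : V → ℝ}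
    (hy : y ∈ simplex F) : S.NoExit y := by
  intro d
  have h1 : ¬ (S.E d ⊆ F) := by
    intro h
    exact hF d (Finset.eq_of_subset_of_card_le h (by rw [S.card_E, hc]))
  rw [Finset.not_subset] at h1
  obtain ⟨l, hl, hl'⟩ := h1
  exact ⟨l, hl, hy.2.1 l hl'⟩

theorem noExit (hb : b ∈ stdSimplex ℝ (Fin (n + 1))) : S.NoExit (yy t.ς b) :=
  noExit_of_wall t.wall (S.card_erase t.hi) (t.y_mem_F hb)

theorem ex_mem_wall : S.ex t.w ∈ (S.vs t.w).erase t.i := by
  rw [Finset.mem_erase]
  refine ⟨?_, S.ex_mem _⟩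
  intro h
  exact t.wall t.w (by rw [← h]; rfl)

/-- The tile map. -/
def map (b : Fin (n + 1) → ℝ) (τ : ℝ) : V → ℝ := S.flow t.w (yy t.ς b) τ

theorem map_zero (hb : b ∈ stdSimplex ℝ (Fin (n + 1))) : t.map b 0 = yy t.ς b :=
  S.flow_zero _ (t.y_mem hb)

/-- The facet in which the trajectory starts moving. -/
theorem exists_mover (hb : b ∈ stdSimplex ℝ (Fin (n + 1))) {τ : ℝ} (h0 : 0 < τ) :
    ∃ r, (∀ l < r, yy t.ς b (S.ex (S.par^[l] t.w)) = 0) ∧
      0 < yy t.ς b (S.ex (S.par^[r] t.w)) ∧ yy t.ς b ∈ simplex (S.vs (S.par^[r] t.w)) ∧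
      S.Orb (S.par^[r] t.w) (yy t.ς b) τ (t.map b τ) := by
  obtain ⟨r, h1, h2, h3⟩ := S.flow_orb (t.y_mem hb) h0
  refine ⟨r, h1, h2, ?_, h3⟩
  have := S.pos_mem t.w r (t.y_mem hb)
  have e := S.pos_shift_zero h1 0
  rw [add_zero, S.pos_zero] at e
  rwa [e] at this

theorem map_inj (t t' : S.Tile) {b b' : Fin (n + 1) → ℝ} {τ τ' : ℝ}
    (hb : b ∈ stdSimplex ℝ (Fin (n + 1))) (hb' : b' ∈ stdSimplex ℝ (Fin (n + 1)))
    (h0 : 0 ≤ τ) (h0' : 0 ≤ τ') (h : t.map b τ = t'.map b' τ') :
    b = b' ∧ τ = τ' ∧ yy t.ς b = yy t'.ς b' := by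
  have key : yy t.ς b = yy t'.ς b' ∧ τ = τ' := by
    rcases h0.eq_or_lt with rfl | h1
    · rcases h0'.eq_or_lt with rfl | h1'
      · rw [t.map_zero hb, t'.map_zero hb'] at h
        exact ⟨h, rfl⟩
      · exfalso
        obtain ⟨r, _, _, g3, g4⟩ := t'.exists_mover hb' h1'
        rw [← h, t.map_zero hb] at g4
        exact S.not_orb_of_noExit g3 g4 (t.noExit hb)
    · rcases h0'.eq_or_lt with rfl | h1'
      · exfalso
        obtain ⟨r, _, _, g3, g4⟩ := t.exists_mover hb h1
        rw [h, t'.map_zero hb'] at g4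
        exact S.not_orb_of_noExit g3 g4 (t'.noExit hb')
      · obtain ⟨r, _, g2, g3, g4⟩ := t.exists_mover hb h1
        obtain ⟨r', _, g2', g3', g4'⟩ := t'.exists_mover hb' h1'
        rw [h] at g4
        obtain ⟨_, e2, e3⟩ := S.orb_unique g3 g3' (t.noExit hb) (t'.noExit hb') g2 g2' g4 g4'
        exact ⟨e2, e3⟩
  exact ⟨yy_inj t.inj t'.inj hb.1 hb'.1 key.1, key.2, key.1⟩

/-- Two tiles share the point with given coordinates if and only if the trajectories start in the
same facet. -/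
theorem map_eq_iff (t t' : S.Tile) {τ : ℝ} (hb : b ∈ stdSimplex ℝ (Fin (n + 1))) (h0 : 0 < τ)
    (hy : yy t'.ς b = yy t.ς b) {r : ℕ}
    (h2 : 0 < yy t.ς b (S.ex (S.par^[r] t.w)))
    (h3 : yy t.ς b ∈ simplex (S.vs (S.par^[r] t.w)))
    (h4 : S.Orb (S.par^[r] t.w) (yy t.ς b) τ (t.map b τ)) :
    t'.map b τ = t.map b τ ↔ ∃ r', S.par^[r'] t'.w = S.par^[r] t.w ∧
      ∀ l < r', yy t.ς b (S.ex (S.par^[l] t'.w)) = 0 := by
  constructor
  · intro h
    obtain ⟨r', g1, g2, g3, g4⟩ := t'.exists_mover hb h0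
    rw [h] at g4
    obtain ⟨e1, _, _⟩ := S.orb_unique g3 h3 (t'.noExit hb) (t.noExit hb) g2 h2 g4 h4
    refine ⟨r', e1, ?_⟩
    rw [← hy]
    exact g1
  · rintro ⟨r', e1, g1⟩
    rw [← hy] at g1
    apply S.orb_flow (t'.y_mem hb) g1
    rw [e1, hy]
    exact h4

theorem y_pos (hb : ∀ k : Fin (n + 1), 0 < Yc b k.val) {v : V}
    (hv : v ∈ (S.vs t.w).erase t.i) : 0 < yy t.ς b v := by
  obtain ⟨l, rfl⟩ := t.surj hv
  rw [yy_apply t.inj]
  exact hb l

/-- If all coordinates of the starting point are positive, the facet is determined. -/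
theorem w_eq (t t' : S.Tile) {τ : ℝ} (hb : b ∈ stdSimplex ℝ (Fin (n + 1))) (h0 : 0 < τ)
    (hpos : ∀ k : Fin (n + 1), 0 < Yc b k.val) (h : t'.map b τ = t.map b τ) : t'.w = t.w := by
  have hy : yy t'.ς b = yy t.ς b := (map_inj t' t hb hb h0.le h0.le h).2.2
  obtain ⟨r, g1, g2, g3, g4⟩ := t.exists_mover hb h0
  have hr : r = 0 := by
    by_contra hr
    have := g1 0 (Nat.pos_of_ne_zero hr)
    exact absurd this (t.y_pos hpos t.ex_mem_wall).ne'
  subst hr
  obtain ⟨r', e1, e2⟩ := (map_eq_iff t t' hb h0 hy g2 g3 g4).1 h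
  have hr' : r' = 0 := by
    by_contra hr'
    have := e2 0 (Nat.pos_of_ne_zero hr')
    rw [← hy] at this
    exact absurd this (t'.y_pos hpos t'.ex_mem_wall).ne'
  subst hr'
  exact e1

theorem Yc_pos_of {b : Fin (n + 1) → ℝ} (hb0 : ∀ l, 0 ≤ b l) (hlast : 0 < b (Fin.last n))
    (k : Fin (n + 1)) : 0 < Yc b k.val := by
  have h1 : Yc b (Fin.last n).val ≤ Yc b k.val := Yc_antitone hb0 (Fin.le_last k)
  have h2 : 0 < Yc b (Fin.last n).val :=
    (Yc_nonneg hb0 _).trans_lt (Yc_lt hb0 hlast (Nat.lt_succ_self _))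
  linarith

theorem interior (t t' : S.Tile) {τ : ℝ} (hb : b ∈ stdSimplex ℝ (Fin (n + 1))) (h0 : 0 < τ)
    (hpos : ∀ l, 0 < b l) (h : t'.map b τ = t.map b τ) : t' = t := by
  have hy : yy t'.ς b = yy t.ς b := (map_inj t' t hb hb h0.le h0.le h).2.2
  have hς : t'.ς = t.ς := order_unique t.inj t'.inj hpos hy.symm
  have hw : t'.w = t.w := w_eq t t' hb h0 (Yc_pos_of hb.1 (hpos _)) h
  exact Tile.ext hw (i_eq hw (wall_eq _ _ hς)) hς

variable {o : (Fin (n + 2) → V) → ℤˣ}

/-- The frame of a tile. -/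
def frame : Fin (n + 2) → V := Fin.cons t.i t.ς

omit [DecidableEq V] in
theorem cons_inj {m : ℕ} {i : V} {ς : Fin m → V} (hς : Injective ς) (hi : ∀ l, ς l ≠ i) :
    Injective (Fin.cons i ς : Fin (m + 1) → V) := by
  rw [Fin.cons_injective_iff]
  refine ⟨?_, hς⟩
  rintro ⟨l, hl⟩
  exact hi l hl

theorem frame_inj : Injective t.frame :=
  cons_inj t.inj (fun l h => by
    have := t.mem l
    rw [h] at this
    exact Finset.notMem_erase _ _ this)

theorem frame_mem (k : Fin (n + 2)) : t.frame k ∈ S.vs t.w := by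
  refine Fin.cases ?_ (fun k => ?_) k
  · exact t.hi
  · exact Finset.mem_of_mem_erase (t.mem k)

/-- The wall `τ = 0`. -/
theorem wall_zero (ho : S.Ori o) (hb : b ∈ stdSimplex ℝ (Fin (n + 1))) (hpos : ∀ l, 0 < b l) :
    ∃ t' : S.Tile, o t'.frame = - o t.frame ∧
      ∀ t'' : S.Tile, t''.map b 0 = t.map b 0 ↔ t'' = t ∨ t'' = t' := by
  obtain ⟨d, hd1, hd2, hd3⟩ := S.nb t.w t.i t.hi
  have hx : ∃ x ∈ S.vs d, x ∉ (S.vs t.w).erase t.i := by
    by_contra hcon
    push Not at hcon
    have := Finset.card_le_card (show S.vs d ⊆ (S.vs t.w).erase t.i from hcon)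
    rw [S.card_vs, S.card_erase t.hi] at this
    omega
  obtain ⟨x, hx1, hx2⟩ := hx
  have hF : (S.vs t.w).erase t.i = (S.vs d).erase x := by
    apply Finset.eq_of_subset_of_card_le
    · intro v hv
      rw [Finset.mem_erase]
      refine ⟨?_, hd2 hv⟩
      rintro rfl
      exact hx2 hv
    · rw [S.card_erase hx1, S.card_erase t.hi]
  let t' : S.Tile :=
    { w := d
      i := x
      ς := t.ς
      hi := hx1
      wall := by rw [← hF]; exact t.wall
      inj := t.inj
      mem := by rw [← hF]; exact t.mem }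
  have hix : t.i ≠ x := by
    intro h
    apply hd1
    apply S.vs_inj
    rw [← Finset.insert_erase hx1, ← hF, ← h, Finset.insert_erase t.hi]
  refine ⟨t', ?_, ?_⟩
  · exact ho.adj t.w d t.frame t'.frame t.frame_inj t.frame_mem t'.frame_inj t'.frame_mem
      (fun i => rfl) hix
  · intro t''
    rw [t''.map_zero hb, t.map_zero hb]
    constructor
    · intro h
      have hς : t''.ς = t.ς := order_unique t.inj t''.inj hpos h.symm
      have hF'' := wall_eq _ _ hς
      by_cases hw : t''.w = t.w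
      · left
        exact Tile.ext hw (i_eq hw hF'') hς
      · right
        have hw' : t''.w = d := hd3 _ hw (by rw [← hF'']; exact Finset.erase_subset _ _)
        have hF3 : (S.vs t''.w).erase t''.i = (S.vs t'.w).erase t'.i := hF''.trans hF
        exact Tile.ext hw' (i_eq (t' := t') hw' hF3) hς
    · rintro (rfl | rfl)
      · rfl
      · rfl

/-- The walls inside the barycentric subdivision of the wall. -/
theorem wall_mid (ho : S.Ori o) (hb : b ∈ stdSimplex ℝ (Fin (n + 1))) {τ : ℝ} (h0 : 0 < τ)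
    {k : Fin n} (hk : b k.castSucc = 0) (hpos : ∀ l, l ≠ k.castSucc → 0 < b l) :
    ∃ t' : S.Tile, o t'.frame = - o t.frame ∧
      ∀ t'' : S.Tile, t''.map b τ = t.map b τ ↔ t'' = t ∨ t'' = t' := by
  let t' : S.Tile :=
    { w := t.w
      i := t.i
      ς := t.ς ∘ Equiv.swap k.castSucc k.succ
      hi := t.hi
      wall := t.wall
      inj := t.inj.comp (Equiv.injective _)
      mem := fun l => t.mem _ }
  have hne : k.castSucc ≠ k.succ := (Fin.castSucc_lt_succ).ne
  have hlast : k.castSucc ≠ Fin.last n := (Fin.castSucc_lt_last k).ne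
  refine ⟨t', ?_, ?_⟩
  · have h1 : t'.frame = t.frame ∘ Equiv.swap k.castSucc.succ k.succ.succ := by
      funext l
      refine Fin.cases ?_ (fun l => ?_) l
      · rw [comp_apply, Equiv.swap_apply_of_ne_of_ne (Fin.succ_ne_zero _).symm
          (Fin.succ_ne_zero _).symm]
        rfl
      · show t.ς (Equiv.swap k.castSucc k.succ l) = t.frame _
        by_cases h1 : l = k.castSucc
        · rw [h1, Equiv.swap_apply_left, Equiv.swap_apply_left]; rfl
        · by_cases h2 : l = k.succ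
          · rw [h2, Equiv.swap_apply_right, Equiv.swap_apply_right]; rfl
          · rw [Equiv.swap_apply_of_ne_of_ne h1 h2, Equiv.swap_apply_of_ne_of_ne
              (fun h => h1 (Fin.succ_injective _ h)) (fun h => h2 (Fin.succ_injective _ h))]
            rfl
    rw [h1, ho.perm t.w t.frame t.frame_inj t.frame_mem, Equiv.Perm.sign_swap
      (fun h => hne (Fin.succ_injective _ h))]
    simp
  · intro t''
    constructor
    · intro h
      have hy : yy t''.ς b = yy t.ς b := (map_inj t'' t hb hb h0.le h0.le h).2.2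
      have hw : t''.w = t.w := w_eq t t'' hb h0 (Yc_pos_of hb.1 (hpos _ hlast.symm)) h
      rcases order_swap t.inj t''.inj hk hpos hy.symm with e | e
      · left
        exact Tile.ext hw (i_eq hw (wall_eq _ _ e)) e
      · right
        exact Tile.ext hw (i_eq (t' := t') hw (wall_eq _ t' e)) e
    · rintro (rfl | rfl)
      · rfl
      · show S.flow t.w (yy (t.ς ∘ Equiv.swap k.castSucc k.succ) b) τ = S.flow t.w (yy t.ς b) τ
        rw [yy_swap hk]

omit [DecidableEq V] in
theorem snoc_inj {m : ℕ} {e : Fin m → V} (he : Injective e) {j : V} (hj : ∀ l, e l ≠ j) :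
    Injective (Fin.snoc (α := fun _ => V) e j : Fin (m + 1) → V) := by
  intro a b h
  induction a using Fin.lastCases with
  | last =>
    induction b using Fin.lastCases with
    | last => rfl
    | cast b =>
      rw [Fin.snoc_last, Fin.snoc_castSucc] at h
      exact absurd h.symm (hj b)
  | cast a =>
    induction b using Fin.lastCases with
    | last =>
      rw [Fin.snoc_last, Fin.snoc_castSucc] at h
      exact absurd h (hj a)
    | cast b =>
      rw [Fin.snoc_castSucc, Fin.snoc_castSucc] at h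
      rw [he h]

/-- The last wall, coming from the boundary of the wall simplex. -/
theorem wall_last (ho : S.Ori o) (hb : b ∈ stdSimplex ℝ (Fin (n + 1))) {τ : ℝ} (h0 : 0 < τ)
    (hlast : b (Fin.last n) = 0) (hpos : ∀ l, l ≠ Fin.last n → 0 < b l) :
    ∃ t' : S.Tile, o t'.frame = - o t.frame ∧
      ∀ t'' : S.Tile, t''.map b τ = t.map b τ ↔ t'' = t ∨ t'' = t' := by
  let e : Fin n → V := fun l => t.ς l.castSucc
  have he : Injective e := fun a b h => Fin.castSucc_injective _ (t.inj h)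
  let η : Finset V := Finset.univ.image e
  have hη : η.card = n := by
    rw [Finset.card_image_of_injective _ he]; simp
  have hmemη : ∀ v, v ∈ η ↔ ∃ l, e l = v := by
    intro v
    rw [Finset.mem_image]
    constructor
    · rintro ⟨l, _, h⟩; exact ⟨l, h⟩
    · rintro ⟨l, h⟩; exact ⟨l, Finset.mem_univ _, h⟩
  have hYlast : Yc b (Fin.last n).val = 0 := by
    rw [Yc_succ, hlast, Yc_ge _ (by simp)]; simp
  have hYpos : ∀ l : Fin n, 0 < Yc b l.castSucc.val := by
    intro l
    exact (Yc_nonneg hb.1 _).trans_lt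
      (Yc_lt hb.1 (hpos _ (Fin.castSucc_lt_last l).ne) (Nat.lt_succ_self _))
  have hyη : ∀ v, yy t.ς b v = 0 ↔ v ∉ η := by
    intro v
    rw [hmemη]
    constructor
    · rintro h ⟨l, rfl⟩
      have : yy t.ς b (t.ς l.castSucc) = Yc b l.castSucc.val := yy_apply t.inj b _
      have h' : yy t.ς b (t.ς l.castSucc) = 0 := h
      rw [this] at h'
      exact (hYpos l).ne' h'
    · intro h
      push Not at h
      by_cases hv : ∃ k, t.ς k = v
      · obtain ⟨k, rfl⟩ := hv
        induction k using Fin.lastCases with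
        | last => rw [yy_apply t.inj, hYlast]
        | cast k => exact absurd rfl (h k)
      · push Not at hv
        exact yy_apply_of_ne b hv
  let σ : V → V → ℤˣ := fun i j =>
    o (Fin.cons (α := fun _ => V) i (Fin.snoc (α := fun _ => V) e j))
  -- frames
  have hfr_inj : ∀ {d : C} {i j : V}, S.Fin3 η d i j → Injective
      (Fin.cons (α := fun _ => V) i (Fin.snoc (α := fun _ => V) e j) : Fin (n + 2) → V) := by
    intro d i j h
    refine cons_inj (snoc_inj he (fun l hl => h.hjη ((hmemη j).2 ⟨l, hl⟩))) ?_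
    intro l
    induction l using Fin.lastCases with
    | last => rw [Fin.snoc_last]; exact h.ne.symm
    | cast l =>
      rw [Fin.snoc_castSucc]
      exact fun hl => h.hiη ((hmemη i).2 ⟨l, hl⟩)
  have hfr_mem : ∀ {d : C} {i j : V}, S.Fin3 η d i j → ∀ k : Fin (n + 2),
      (Fin.cons (α := fun _ => V) i (Fin.snoc (α := fun _ => V) e j) : Fin (n + 2) → V) k
        ∈ S.vs d := by
    intro d i j h k
    refine Fin.cases ?_ (fun k => ?_) k
    · exact h.hi
    · rw [Fin.cons_succ]
      induction k using Fin.lastCases with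
      | last => rw [Fin.snoc_last]; exact h.hj
      | cast k =>
        rw [Fin.snoc_castSucc]
        exact h.sub ((hmemη _).2 ⟨k, rfl⟩)
  have hσ' : ∀ d i j, S.Fin3 η d i j → σ j i = - σ i j := by
    intro d i j h
    have h1 : (Fin.cons (α := fun _ => V) j (Fin.snoc (α := fun _ => V) e i) : Fin (n + 2) → V) =
        (Fin.cons (α := fun _ => V) i (Fin.snoc (α := fun _ => V) e j) : Fin (n + 2) → V) ∘
          Equiv.swap 0 (Fin.last (n + 1)) := by
      funext k
      rw [comp_apply]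
      refine Fin.cases ?_ (fun k => ?_) k
      · rw [Equiv.swap_apply_left, Fin.cons_zero, ← Fin.succ_last, Fin.cons_succ, Fin.snoc_last]
      · induction k using Fin.lastCases with
        | last =>
          rw [Fin.succ_last, Equiv.swap_apply_right, Fin.cons_zero, ← Fin.succ_last,
            Fin.cons_succ, Fin.snoc_last]
        | cast k =>
          rw [Equiv.swap_apply_of_ne_of_ne (Fin.succ_ne_zero _), Fin.cons_succ, Fin.cons_succ,
            Fin.snoc_castSucc, Fin.snoc_castSucc]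
          rw [← Fin.succ_last]
          exact fun h => (Fin.castSucc_lt_last k).ne (Fin.succ_injective _ h)
    show o _ = - o _
    rw [h1, ho.perm d _ (hfr_inj h) (hfr_mem h), Equiv.Perm.sign_swap]
    · simp
    · rw [← Fin.succ_last]; exact (Fin.succ_ne_zero _).symm
  have hσ : ∀ d d' i j i', S.Fin3 η d i j → S.Fin3 η d' j i' →
      (S.vs d).erase i = (S.vs d').erase i' → d ≠ d' → σ j i' = σ i j := by
    intro d d' i j i' h h' hF hne
    have h1 : σ j i' = - σ i' j := hσ' d' i' j h'.symm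
    have hii' : i ≠ i' := by
      rintro rfl
      apply hne
      apply S.vs_inj
      rw [← Finset.insert_erase h.hi, hF, Finset.insert_erase h'.hj]
    have h2 : σ i' j = - σ i j :=
      ho.adj d d' _ _ (hfr_inj h) (hfr_mem h) (hfr_inj h'.symm) (hfr_mem h'.symm)
        (fun l => rfl) hii'
    rw [h1, h2, neg_neg]
  obtain ⟨r, g1, g2, g3, g4⟩ := t.exists_mover hb h0
  set c := S.par^[r] t.w with hc
  have hηc : η ⊆ S.vs c := by
    intro v hv
    by_contra hv'
    exact ((hyη v).1 (g3.2.1 v hv')) hv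
  have hexc : S.ex c ∈ η := by
    by_contra h
    exact g2.ne' ((hyη _).2 h)
  obtain ⟨w₁, i₁, j₁, w₂, i₂, j₂, ⟨p1, p2, p3⟩, ⟨q1, q2, q3⟩, hs, hall⟩ :=
    S.arms hη σ hσ hσ' hηc hexc
  -- triples of tiles
  have hFin3 : ∀ t'' : S.Tile, (∀ l : Fin n, t''.ς l.castSucc = e l) →
      S.Fin3 η t''.w t''.i (t''.ς (Fin.last n)) := by
    intro t'' h
    refine ⟨?_, t''.hi, Finset.mem_of_mem_erase (t''.mem _), ?_, ?_, ?_⟩
    · intro v hv
      obtain ⟨l, rfl⟩ := (hmemη v).1 hv
      rw [← h]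
      exact Finset.mem_of_mem_erase (t''.mem _)
    · intro h'
      have := t''.mem (Fin.last n)
      rw [← h'] at this
      exact Finset.notMem_erase _ _ this
    · intro h'
      obtain ⟨l, hl⟩ := (hmemη _).1 h'
      have := t''.mem l.castSucc
      rw [h, hl] at this
      exact Finset.notMem_erase _ _ this
    · intro h'
      obtain ⟨l, hl⟩ := (hmemη _).1 h'
      rw [← h] at hl
      exact (Fin.castSucc_lt_last l).ne (t''.inj hl)
  have hς : ∀ t'' : S.Tile, (∀ l : Fin n, t''.ς l.castSucc = e l) →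
      t''.ς = Fin.snoc (α := fun _ => V) e (t''.ς (Fin.last n)) := by
    intro t'' h
    funext l
    induction l using Fin.lastCases with
    | last => rw [Fin.snoc_last]
    | cast l => rw [Fin.snoc_castSucc, h]
  have hframe : ∀ t'' : S.Tile, (∀ l : Fin n, t''.ς l.castSucc = e l) →
      o t''.frame = σ t''.i (t''.ς (Fin.last n)) := by
    intro t'' h
    show o (Fin.cons t''.i t''.ς) = o _
    conv_lhs => rw [hς t'' h]
  -- tiles from triples
  have hmk : ∀ w i j, S.Fin3 η w i j → S.Wall ((S.vs w).erase i) →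
      ∃ t'' : S.Tile, t''.w = w ∧ t''.i = i ∧ t''.ς = Fin.snoc (α := fun _ => V) e j := by
    intro w i j h hw
    refine ⟨{ w := w, i := i, ς := Fin.snoc (α := fun _ => V) e j, hi := h.hi, wall := hw,
              inj := snoc_inj he (fun l hl => h.hjη ((hmemη j).2 ⟨l, hl⟩)), mem := ?_ },
              rfl, rfl, rfl⟩
    intro l
    induction l using Fin.lastCases with
    | last =>
      rw [Fin.snoc_last, Finset.mem_erase]
      exact ⟨h.ne.symm, h.hj⟩
    | cast l =>
      rw [Fin.snoc_castSucc, Finset.mem_erase]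
      refine ⟨?_, h.sub ((hmemη _).2 ⟨l, rfl⟩)⟩
      intro h'
      exact h.hiη ((hmemη i).2 ⟨l, h'⟩)
  obtain ⟨t₁, a1, a2, a3⟩ := hmk w₁ i₁ j₁ p1 p2
  obtain ⟨t₂, b1, b2, b3⟩ := hmk w₂ i₂ j₂ q1 q2
  have ha : ∀ l : Fin n, t₁.ς l.castSucc = e l := by intro l; rw [a3, Fin.snoc_castSucc]
  have hbb : ∀ l : Fin n, t₂.ς l.castSucc = e l := by intro l; rw [b3, Fin.snoc_castSucc]
  have ha' : t₁.ς (Fin.last n) = j₁ := by rw [a3, Fin.snoc_last]
  have hb' : t₂.ς (Fin.last n) = j₂ := by rw [b3, Fin.snoc_last]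
  -- characterization of the tiles through the point
  have hchar : ∀ t'' : S.Tile, t''.map b τ = t.map b τ ↔
      (∀ l : Fin n, t''.ς l.castSucc = e l) ∧ S.PathTo η t''.w c := by
    intro t''
    constructor
    · intro h
      have hy : yy t''.ς b = yy t.ς b := (map_inj t'' t hb hb h0.le h0.le h).2.2
      refine ⟨fun l => order_last t.inj t''.inj hpos hb.1 hy.symm l, ?_⟩
      obtain ⟨r', e1, e2⟩ := (map_eq_iff t t'' hb h0 hy g2 g3 g4).1 h
      exact ⟨r', e1, fun l hl => (hyη _).1 (e2 l hl)⟩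
    · rintro ⟨h1, r', e1, e2⟩
      have hy : yy t''.ς b = yy t.ς b := yy_last hlast h1
      exact (map_eq_iff t t'' hb h0 hy g2 g3 g4).2 ⟨r', e1, fun l hl => (hyη _).2 (e2 l hl)⟩
  have hcases : ∀ t'' : S.Tile, t''.map b τ = t.map b τ → t'' = t₁ ∨ t'' = t₂ := by
    intro t'' h
    obtain ⟨h1, h2⟩ := (hchar t'').1 h
    rcases hall t''.w t''.i (t''.ς (Fin.last n)) (hFin3 t'' h1) t''.wall h2 with
      ⟨k1, k2, k3⟩ | ⟨k1, k2, k3⟩
    · left
      exact Tile.ext (k1.trans a1.symm) (k2.trans a2.symm) (by rw [hς t'' h1, k3, a3])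
    · right
      exact Tile.ext (k1.trans b1.symm) (k2.trans b2.symm) (by rw [hς t'' h1, k3, b3])
  have hm1 : t₁.map b τ = t.map b τ := (hchar t₁).2 ⟨ha, by rw [a1]; exact p3⟩
  have hm2 : t₂.map b τ = t.map b τ := (hchar t₂).2 ⟨hbb, by rw [b1]; exact q3⟩
  have hs1 : o t₁.frame = σ i₁ j₁ := by rw [hframe t₁ ha, a2, ha']
  have hs2 : o t₂.frame = σ i₂ j₂ := by rw [hframe t₂ hbb, b2, hb']
  rcases hcases t rfl with ht | ht
  · refine ⟨t₂, ?_, fun t'' => ⟨fun h => ?_, ?_⟩⟩
    · rw [ht, hs2, hs1, hs]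
    · rw [ht]; exact hcases t'' h
    · rintro (h | h)
      · rw [h]
      · rw [h, hm2]
  · refine ⟨t₁, ?_, fun t'' => ⟨fun h => ?_, ?_⟩⟩
    · rw [ht, hs2, hs1, hs, neg_neg]
    · rw [ht]; exact (hcases t'' h).symm
    · rintro (h | h)
      · rw [h]
      · rw [h, hm1]

end Tile

end Sys

end Pool.Agent.Helper74.Branched
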