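import Pool.Agent.Helper74.Branched.Tiles

/-!
# The tiles cover the space, form a locally finite family, and there are infinitely many
-/

open Function Topology

noncomputable section

namespace Pool.Agent.Helper74.Branched

variable {V : Type*} [DecidableEq V]

namespace Sys

variable {C : Type*} {n : ℕ} (S : Sys V C n)

theorem sub_dir_mem {c : C} {x : V → ℝ} (hx : x ∈ simplex (S.vs c)) {j : V} (hj : j ∈ S.E c)
    (hmin : ∀ l ∈ S.E c, x j ≤ x l) :
    x - ((n + 1 : ℝ) * x j) • S.dir c ∈ simplex ((S.vs c).erase j) := by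
  have hM : (n + 1 : ℝ) ≠ 0 := by positivity
  have hval : ∀ l ∈ S.E c, (x - ((n + 1 : ℝ) * x j) • S.dir c) l = x l - x j := by
    intro l hl
    simp only [Pi.sub_apply, Pi.smul_apply, smul_eq_mul, S.dir_E hl]
    field_simp
  have h1 : x - ((n + 1 : ℝ) * x j) • S.dir c ∈ simplex (S.vs c) := by
    refine ⟨fun v => ?_, fun v hv => ?_, ?_⟩
    · by_cases hv : v = S.ex c
      · have h1 := hx.1 v
        have h2 := hx.1 j
        simp only [Pi.sub_apply, Pi.smul_apply, smul_eq_mul, hv, S.dir_ex]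
        rw [hv] at h1
        have : (0 : ℝ) ≤ (n + 1 : ℝ) * x j := by positivity
        linarith
      · by_cases hv' : v ∈ S.vs c
        · rw [hval v (S.mem_E.2 ⟨hv, hv'⟩)]
          have := hmin v (S.mem_E.2 ⟨hv, hv'⟩)
          linarith
        · simp [S.dir_notMem hv', hx.1 v]
    · simp [S.dir_notMem hv, hx.2.1 v hv]
    · simp only [Pi.sub_apply, Pi.smul_apply, smul_eq_mul, Finset.sum_sub_distrib,
        ← Finset.mul_sum, S.sum_dir, hx.2.2]
      simp
  refine mem_simplex_of_support h1 ?_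
  intro v hv
  by_cases hvc : v ∈ S.vs c
  · have : v = j := by
      by_contra hne
      exact hv (Finset.mem_erase.2 ⟨hne, hvc⟩)
    rw [this, hval j hj, sub_self]
  · exact h1.2.1 v hvc

/-- Every point of a facet lies on a trajectory which starts in a wall. -/
theorem cover_stage (N : ℕ) : ∀ (c : C) (x : V → ℝ), S.rank c ≤ N → x ∈ simplex (S.vs c) →
    ∃ (w : C) (i : V) (k : ℕ) (y : V → ℝ) (θ : ℝ), i ∈ S.vs w ∧ S.Wall ((S.vs w).erase i) ∧
      y ∈ simplex ((S.vs w).erase i) ∧ S.par^[k] w = c ∧ 0 ≤ θ ∧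
      θ ≤ S.pos w k y (S.ex c) ∧ x = S.pos w k y + θ • S.dir c := by
  induction N using Nat.strong_induction_on with
  | _ N ih =>
  intro c x hN hx
  obtain ⟨j, hj, hmin⟩ := Finset.exists_min_image (S.E c) x
    (Finset.card_pos.1 (by rw [S.card_E]; exact Nat.succ_pos _))
  have hp := S.sub_dir_mem hx hj hmin
  set θ : ℝ := (n + 1 : ℝ) * x j with hθ
  have hθ0 : 0 ≤ θ := by
    have := hx.1 j
    positivity
  set p := x - θ • S.dir c with hpdef
  have hpex : p (S.ex c) = x (S.ex c) + θ := by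
    simp [hpdef, S.dir_ex]
  have hx' : x = p + θ • S.dir c := by simp [hpdef]
  have hjc : j ∈ S.vs c := S.E_sub c hj
  by_cases hwall : S.Wall ((S.vs c).erase j)
  · refine ⟨c, j, 0, p, θ, hjc, hwall, hp, rfl, hθ0, ?_, hx'⟩
    rw [pos_zero, hpex]
    have := hx.1 (S.ex c)
    linarith
  · unfold Wall at hwall
    push Not at hwall
    obtain ⟨d, hd⟩ := hwall
    have hcd : c ≠ d := by
      rintro rfl
      rw [hd] at hj
      exact Finset.notMem_erase _ _ hj
    have hpar : c = S.par d := by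
      have : S.E d ⊆ S.vs c := by rw [hd]; exact Finset.erase_subset _ _
      exact (S.eq_or_of_E_sub this).resolve_left hcd
    have hpd : p ∈ simplex (S.E d) := by rw [hd]; exact hp
    have hpd' : p ∈ simplex (S.vs d) := simplex_mono (S.E_sub d) hpd
    have hrank : S.rank d < N := by
      have := S.rank_lt d
      rw [← hpar] at this
      omega
    obtain ⟨w, i, k, y, θ', h1, h2, h3, h4, h5, h6, h7⟩ := ih (S.rank d) hrank d p le_rfl hpd'
    have h8 : p (S.ex d) = 0 := hpd.2.1 _ (Finset.notMem_erase _ _)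
    have h9 : θ' = S.pos w k y (S.ex d) := by
      rw [h7] at h8
      simp only [Pi.add_apply, Pi.smul_apply, smul_eq_mul, S.dir_ex] at h8
      linarith
    have h10 : p = S.pos w (k + 1) y := by
      rw [pos_succ, h4, ← h9, ← h7]
    refine ⟨w, i, k + 1, y, θ, h1, h2, h3, ?_, hθ0, ?_, ?_⟩
    · rw [iterate_succ_apply', h4]; exact hpar.symm
    · rw [← h10, hpex]
      have := hx.1 (S.ex c)
      linarith
    · rw [← h10]; exact hx'

theorem flow_of_stage {w : C} {y : V → ℝ} (hy : y ∈ simplex (S.vs w)) {k : ℕ} {θ : ℝ}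
    (h0 : 0 ≤ θ) (h1 : θ ≤ S.pos w k y (S.ex (S.par^[k] w))) :
    0 ≤ S.tim w k y + S.lam (S.par^[k] w) * θ ∧
    S.flow w y (S.tim w k y + S.lam (S.par^[k] w) * θ) =
      S.pos w k y + θ • S.dir (S.par^[k] w) := by
  have hl := S.lam_pos (S.par^[k] w)
  have e1 : S.tim w k y ≤ S.tim w k y + S.lam (S.par^[k] w) * θ := by
    have := mul_nonneg hl.le h0
    linarith
  have e0 := (S.tim_nonneg w k hy).trans e1
  refine ⟨e0, ?_⟩
  rw [S.flow_eq w hy e0 e1]
  · congr 2
    field_simp
    ring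
  · rw [tim_succ]
    have := mul_le_mul_of_nonneg_left h1 hl.le
    linarith

theorem Tile.cover (c : C) {x : V → ℝ} (hx : x ∈ simplex (S.vs c)) :
    ∃ (t : S.Tile) (b : Fin (n + 1) → ℝ) (k : ℕ) (θ : ℝ), b ∈ stdSimplex ℝ (Fin (n + 1)) ∧
      S.par^[k] t.w = c ∧ 0 ≤ θ ∧ θ ≤ S.pos t.w k (yy t.ς b) (S.ex c) ∧
      x = S.pos t.w k (yy t.ς b) + θ • S.dir c := by
  obtain ⟨w, i, k, y, θ, h1, h2, h3, h4, h5, h6, h7⟩ := S.cover_stage _ c x le_rfl hx
  obtain ⟨ς, g1, g2, b, g3, g4⟩ := exists_order (S.card_erase h1) h3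
  refine ⟨{ w := w, i := i, ς := ς, hi := h1, wall := h2, inj := g1, mem := g2 }, b, k, θ, g3, h4,
    h5, ?_, ?_⟩
  · show θ ≤ S.pos w k (yy ς b) (S.ex c)
    rw [g4]; exact h6
  · show x = S.pos w k (yy ς b) + θ • S.dir c
    rw [g4]; exact h7

/-- The facets which meet the facet `v`. -/
theorem nbrs_finite (v : C) : {c | ∃ u ∈ S.vs v, u ∈ S.vs c}.Finite := by
  have : {c | ∃ u ∈ S.vs v, u ∈ S.vs c} = ⋃ u ∈ S.vs v, {c | u ∈ S.vs c} := by
    ext c; simp
  rw [this]
  exact (S.vs v).finite_toSet.biUnion (fun u _ => S.star_fin u)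

theorem anc_finite' {A : Set C} (hA : A.Finite) : {d | ∃ k, S.par^[k] d ∈ A}.Finite := by
  have : {d | ∃ k, S.par^[k] d ∈ A} = ⋃ c ∈ A, {d | ∃ k, S.par^[k] d = c} := by
    ext d; simp
  rw [this]
  exact hA.biUnion (fun c _ => S.anc_fin c)

theorem meet_of_mem {c d : C} {x : V → ℝ} (hc : x ∈ simplex (S.vs c)) (hd : x ∈ simplex (S.vs d)) :
    ∃ u ∈ S.vs c, u ∈ S.vs d := by
  by_contra hcon
  push Not at hcon
  have h1 : ∑ v ∈ S.vs c, x v = 0 := Finset.sum_eq_zero (fun v hv => hd.2.1 v (hcon v hv))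
  rw [hc.2.2] at h1
  exact one_ne_zero h1

theorem Tile.finite_of_w {A : Set C} (hA : A.Finite) : {t : S.Tile | t.w ∈ A}.Finite := by
  classical
  let B : Set (C × V × (Fin (n + 1) → V)) :=
    ⋃ w ∈ A, {w} ×ˢ ((S.vs w : Set V) ×ˢ (Set.univ.pi fun _ => (S.vs w : Set V)))
  have hB : B.Finite := by
    refine hA.biUnion (fun w _ => ?_)
    refine (Set.finite_singleton w).prod ((S.vs w).finite_toSet.prod ?_)
    exact Set.Finite.pi' (fun _ => (S.vs w).finite_toSet) |>.subset (fun f hf i => hf i trivial)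
  let g : S.Tile → C × V × (Fin (n + 1) → V) := fun t => (t.w, t.i, t.ς)
  have hg : Injective g := by
    intro a b h
    simp only [g, Prod.mk.injEq] at h
    exact Tile.ext h.1 h.2.1 h.2.2
  refine (hB.preimage hg.injOn).subset ?_
  intro t ht
  simp only [B, Set.mem_preimage, Set.mem_iUnion]
  exact ⟨t.w, ht, rfl, t.hi, fun l _ => Finset.mem_of_mem_erase (t.mem l)⟩

theorem Tile.locfin_aux (v : C) : {t : S.Tile | ∃ b ∈ stdSimplex ℝ (Fin (n + 1)),
    ∃ τ : ℝ, 0 ≤ τ ∧ t.map b τ ∈ simplex (S.vs v)}.Finite := by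
  refine (Tile.finite_of_w S (S.anc_finite' (S.nbrs_finite v))).subset ?_
  rintro t ⟨b, hb, τ, hτ, h⟩
  obtain ⟨k, _, _, h3⟩ := S.flow_stage t.w (t.y_mem hb) hτ
  exact ⟨k, S.meet_of_mem h h3⟩

theorem Tile.bounded (t : S.Tile) (v : C) : ∃ R : ℝ, ∀ b ∈ stdSimplex ℝ (Fin (n + 1)),
    ∀ τ : ℝ, 0 ≤ τ → t.map b τ ∈ simplex (S.vs v) → τ ≤ R := by
  obtain ⟨N, hN⟩ := S.exists_notMem t.w (S.nbrs_finite v)
  refine ⟨∑ u ∈ S.vs t.w, |S.tim t.w N (Pi.single u 1)|, ?_⟩
  intro b hb τ hτ h
  obtain ⟨k, h1, h2, h3⟩ := S.flow_stage t.w (t.y_mem hb) hτ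
  have hk : k < N := by
    by_contra hk
    exact hN k (not_lt.1 hk) (S.meet_of_mem h h3)
  have hy := t.y_mem hb
  calc τ ≤ S.tim t.w (k + 1) (yy t.ς b) := h2
    _ ≤ S.tim t.w N (yy t.ς b) := S.tim_mono _ hy (show k + 1 ≤ N by omega)
    _ = ∑ u ∈ S.vs t.w, yy t.ς b u * S.tim t.w N (Pi.single u 1) := by
        conv_lhs => rw [eq_sum_single hy, map_sum]
        exact Finset.sum_congr rfl (fun v _ => by rw [map_smul, smul_eq_mul])
    _ ≤ _ := by
        refine Finset.sum_le_sum (fun u _ => ?_)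
        have h1 := hy.1 u
        have h2 := simplex_le_one hy u
        calc yy t.ς b u * S.tim t.w N (Pi.single u 1)
            ≤ yy t.ς b u * |S.tim t.w N (Pi.single u 1)| :=
              mul_le_mul_of_nonneg_left (le_abs_self _) h1
          _ ≤ 1 * |S.tim t.w N (Pi.single u 1)| :=
              mul_le_mul_of_nonneg_right h2 (abs_nonneg _)
          _ = _ := one_mul _

/-- The tiles which pass through the facet `c`. -/
def through (c : C) : Set S.Tile := {t | ∃ k, S.par^[k] t.w = c}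

theorem through_nonempty (c : C) : (S.through c).Nonempty := by
  obtain ⟨v, hv⟩ : (S.vs c).Nonempty := ⟨S.ex c, S.ex_mem c⟩
  obtain ⟨t, b, k, θ, _, h2, _⟩ := Tile.cover S c (S.single_mem hv)
  exact ⟨t, k, h2⟩

theorem rank_le_iter (c : C) (k : ℕ) : S.rank c ≤ S.rank (S.par^[k] c) := by
  have := S.rank_iter c k
  omega

theorem through_ssubset (hn : 0 < n) (d : C) : S.through d ⊂ S.through (S.par d) := by
  rw [Set.ssubset_iff_of_subset]
  swap
  · rintro t ⟨k, hk⟩
    exact ⟨k + 1, by rw [iterate_succ_apply', hk]⟩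
  set c := S.par d with hc
  have hcr : S.rank d < S.rank c := S.rank_lt d
  -- an entry face of `c` different from the exit face of `d`
  obtain ⟨a, ha, a', ha', haa'⟩ := Finset.one_lt_card.1
    (show 1 < (S.E c).card by rw [S.card_E]; omega)
  have hex : ∃ j ∈ S.E c, (S.vs c).erase j ≠ S.E d := by
    by_contra hcon
    push Not at hcon
    have h1 := (hcon a ha).trans (hcon a' ha').symm
    have h2 : a ∈ (S.vs c).erase a' := Finset.mem_erase.2 ⟨haa', S.E_sub c ha⟩
    rw [← h1] at h2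
    exact Finset.notMem_erase _ _ h2
  obtain ⟨j, hj, hjd⟩ := hex
  have hjc : j ∈ S.vs c := S.E_sub c hj
  by_cases hwall : S.Wall ((S.vs c).erase j)
  · have hp : ∃ y, y ∈ simplex ((S.vs c).erase j) := by
      obtain ⟨v, hv⟩ : ((S.vs c).erase j).Nonempty :=
        Finset.card_pos.1 (by rw [S.card_erase hjc]; exact Nat.succ_pos _)
      refine ⟨Pi.single v 1, mem_simplex_of_support
        (S.single_mem (Finset.mem_of_mem_erase hv)) ?_⟩
      intro u hu
      have : u ≠ v := by rintro rfl; exact hu hv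
      simp [this]
    obtain ⟨y, hy⟩ := hp
    obtain ⟨ς, g1, g2, b, g3, g4⟩ := exists_order (S.card_erase hjc) hy
    refine ⟨{ w := c, i := j, ς := ς, hi := hjc, wall := hwall, inj := g1, mem := g2 },
      ⟨0, rfl⟩, ?_⟩
    rintro ⟨k, hk⟩
    have hk' : S.par^[k] c = d := hk
    have := S.rank_le_iter c k
    rw [hk'] at this
    omega
  · unfold Wall at hwall
    push Not at hwall
    obtain ⟨d', hd'⟩ := hwall
    have hcd : c ≠ d' := by
      intro h
      rw [← h] at hd'
      rw [hd'] at hj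
      exact Finset.notMem_erase _ _ hj
    have hpar : c = S.par d' := by
      have : S.E d' ⊆ S.vs c := by rw [hd']; exact Finset.erase_subset _ _
      exact (S.eq_or_of_E_sub this).resolve_left hcd
    have hdd' : d ≠ d' := by
      intro h
      exact hjd (by rw [← hd', h])
    obtain ⟨t, k, hk⟩ := S.through_nonempty d'
    have hcr' : S.rank d' < S.rank c := by rw [hpar]; exact S.rank_lt d'
    refine ⟨t, ⟨k + 1, by rw [iterate_succ_apply', hk, hpar]⟩, ?_⟩
    rintro ⟨l, hl⟩
    rcases lt_trichotomy k l with h | h | h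
    · obtain ⟨m, rfl⟩ : ∃ m, l = m + (k + 1) := ⟨l - (k + 1), by omega⟩
      rw [iterate_add_apply, iterate_succ_apply', hk, ← hpar] at hl
      have := S.rank_le_iter c m
      rw [hl] at this
      omega
    · rw [h, hl] at hk
      exact hdd' hk
    · obtain ⟨m, rfl⟩ : ∃ m, k = m + (l + 1) := ⟨k - (l + 1), by omega⟩
      rw [iterate_add_apply, iterate_succ_apply', hl, ← hc] at hk
      have := S.rank_le_iter c m
      rw [hk] at this
      omega

theorem infinite_tile (hn : 0 < n) [Nonempty C] : Infinite S.Tile := by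
  obtain ⟨c⟩ := (inferInstance : Nonempty C)
  have hmono : StrictMono fun k => S.through (S.par^[k] c) := by
    apply strictMono_nat_of_lt_succ
    intro k
    rw [iterate_succ_apply']
    exact S.through_ssubset hn _
  by_contra hfin
  rw [not_infinite_iff_finite] at hfin
  exact not_injective_infinite_finite _ hmono.injective

theorem countable_tile [Countable C] : Countable S.Tile := by
  have : (Set.univ : Set S.Tile) = ⋃ c : C, {t : S.Tile | t.w ∈ ({c} : Set C)} := by
    ext t; simp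
  rw [← Set.countable_univ_iff, this]
  exact Set.countable_iUnion (fun c => (Tile.finite_of_w S (Set.finite_singleton c)).countable)

end Sys

end Pool.Agent.Helper74.Branched
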